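import Pool.Agent.H79.Upm.Geo

/-!
# Chistov's formula for determinants
-/

namespace Pool.Agent.H79.Upm

open PowerSeries

/-- The leading `k × k` block of an integer matrix, filled up with zeros. -/
noncomputable def lead {n : ℕ} (A : Matrix (Fin n) (Fin n) ℤ) (k : ℕ) :
    Matrix (Fin n) (Fin n) ℤ⟦X⟧ :=
  Matrix.of fun x y => if (x : ℕ) < k ∧ (y : ℕ) < k then PowerSeries.C (A x y) else 0

/-- The chain matrix: entry `(x, x + 1)` is the diagonal entry number `x` of
`(1 - X A_{x+1})⁻¹`. -/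
noncomputable def chainMat {n : ℕ} (L : ℕ) (A : Matrix (Fin n) (Fin n) ℤ) :
    Matrix (Fin (n + 1)) (Fin (n + 1)) ℤ⟦X⟧ :=
  Matrix.of fun x y => if h : (y : ℕ) = x + 1 ∧ (x : ℕ) < n then
    geoV L ((X : ℤ⟦X⟧) • lead A y) ⟨x, h.2⟩ ⟨x, h.2⟩ else 0

section Chistov

variable {n : ℕ}

/-- A diagonal entry of the adjugate. -/
theorem adjugate_diag {R V : Type*} [CommRing R] [Fintype V] [DecidableEq V] (B : Matrix V V R)
    (x : V) : B.adjugate x x = (B.updateCol x (Pi.single x 1)).det := by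
  have h1 : B.adjugate x x = B.transpose.adjugate x x := by
    rw [← Matrix.adjugate_transpose, Matrix.transpose_apply]
  rw [h1, Matrix.adjugate_apply, Matrix.updateRow_transpose, Matrix.det_transpose]

/-- The determinant of `1 - X A_k`. -/
noncomputable def dk (A : Matrix (Fin n) (Fin n) ℤ) (k : ℕ) : ℤ⟦X⟧ :=
  (1 - (X : ℤ⟦X⟧) • lead A k).det

theorem dk_zero (A : Matrix (Fin n) (Fin n) ℤ) : dk A 0 = 1 := by
  have : lead A 0 = 0 := by
    ext x y : 2
    simp [lead]
  unfold dk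
  rw [this]
  simp

theorem adjugate_lead (A : Matrix (Fin n) (Fin n) ℤ) (x : Fin n) :
    (1 - (X : ℤ⟦X⟧) • lead A (x + 1)).adjugate x x = dk A x := by
  set B := 1 - (X : ℤ⟦X⟧) • lead A (x + 1) with hB
  rw [Matrix.adjugate_apply]
  have h1 : (B.updateRow x (Pi.single x 1)).det =
      ((B.updateRow x (Pi.single x 1)).updateCol x (Pi.single x 1)).det := by
    rw [← adjugate_diag, Matrix.adjugate_apply, Matrix.updateRow_idem]
  rw [h1]
  unfold dk
  congr 1
  ext y z : 2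
  by_cases hz : z = x
  · subst hz
    rw [Matrix.updateCol_self]
    by_cases hy : y = z
    · subst hy
      simp [lead]
    · simp [lead, hy]
  · rw [Matrix.updateCol_ne hz]
    by_cases hy : y = x
    · subst hy
      rw [Matrix.updateRow_self]
      simp [lead, hz, Ne.symm hz]
    · rw [Matrix.updateRow_ne hy, hB]
      have hy' : (y : ℕ) ≠ x := fun h => hy (Fin.ext h)
      have hz' : (z : ℕ) ≠ x := fun h => hz (Fin.ext h)
      have h2 : ((y : ℕ) < x + 1 ∧ (z : ℕ) < x + 1) ↔ ((y : ℕ) < x ∧ (z : ℕ) < x) := by omega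
      simp only [Matrix.sub_apply, Matrix.smul_apply, lead, Matrix.of_apply, h2]

/-- Multiplying the geometric series with the determinant gives the adjugate, up to a multiple of
`X ^ (2 ^ L)`. -/
theorem dk_mul_geo (L : ℕ) (A : Matrix (Fin n) (Fin n) ℤ) (x : Fin n) :
    ∃ r : ℤ⟦X⟧, dk A (x + 1) * geoV L ((X : ℤ⟦X⟧) • lead A (x + 1)) x x =
      dk A x - X ^ (2 ^ L) * r := by
  set M := (X : ℤ⟦X⟧) • lead A (x + 1) with hM
  have h1 : (1 - M).adjugate * ((1 - M) * geoV L M) = (1 - M).adjugate * (1 - M ^ (2 ^ L)) := by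
    unfold geoV
    rw [mul_neg_geom_sum]
  rw [← mul_assoc, Matrix.adjugate_mul, Matrix.smul_mul, one_mul, mul_sub, mul_one] at h1
  have h2 : M ^ (2 ^ L) = (X : ℤ⟦X⟧) ^ (2 ^ L) • lead A (x + 1) ^ (2 ^ L) := by
    rw [hM, smul_pow]
  rw [h2, Matrix.mul_smul] at h1
  have h3 := congrFun (congrFun h1 x) x
  rw [Matrix.sub_apply, Matrix.smul_apply, Matrix.smul_apply, hM, adjugate_lead] at h3
  exact ⟨_, h3⟩

/-- The entries of the chain. -/
noncomputable def ck (L : ℕ) (A : Matrix (Fin n) (Fin n) ℤ) (k : ℕ) : ℤ⟦X⟧ :=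
  if h : k < n then geoV L ((X : ℤ⟦X⟧) • lead A (k + 1)) ⟨k, h⟩ ⟨k, h⟩ else 0

theorem dk_mul_prod (L : ℕ) (A : Matrix (Fin n) (Fin n) ℤ) (k : ℕ) (hk : k ≤ n) :
    X ^ (2 ^ L) ∣ dk A k * ∏ i ∈ Finset.range k, ck L A i - 1 := by
  induction k with
  | zero => simp [dk_zero]
  | succ k ih =>
    obtain ⟨r, hr⟩ := dk_mul_geo L A ⟨k, hk⟩
    have h1 : ck L A k = geoV L ((X : ℤ⟦X⟧) • lead A (k + 1)) ⟨k, hk⟩ ⟨k, hk⟩ := by
      unfold ck
      rw [dif_pos (show k < n by omega)]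
    rw [Finset.prod_range_succ, h1]
    have h2 : dk A (k + 1) * ((∏ i ∈ Finset.range k, ck L A i) *
        geoV L ((X : ℤ⟦X⟧) • lead A (k + 1)) ⟨k, hk⟩ ⟨k, hk⟩) - 1 =
        (dk A k * ∏ i ∈ Finset.range k, ck L A i - 1) -
          X ^ (2 ^ L) * (r * ∏ i ∈ Finset.range k, ck L A i) := by
      simp only at hr
      linear_combination (∏ i ∈ Finset.range k, ck L A i) * hr
    rw [h2]
    exact dvd_sub (ih (by omega)) (Dvd.intro _ rfl)

theorem chainMat_apply (L : ℕ) (A : Matrix (Fin n) (Fin n) ℤ) (x y : Fin (n + 1)) :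
    chainMat L A x y = if (y : ℕ) = x + 1 then ck L A x else 0 := by
  unfold chainMat ck
  rw [Matrix.of_apply]
  by_cases hy : (y : ℕ) = x + 1
  · have hx : (x : ℕ) < n := by omega
    rw [dif_pos ⟨hy, hx⟩, if_pos hy, dif_pos hx]
    simp only [hy]
  · rw [dif_neg (fun h => hy h.1), if_neg hy]

theorem chainMat_pow (L : ℕ) (A : Matrix (Fin n) (Fin n) ℤ) (i : ℕ) (x y : Fin (n + 1)) :
    (chainMat L A ^ i) x y =
      if (y : ℕ) = x + i then ∏ j ∈ Finset.range i, ck L A (x + j) else 0 := by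
  induction i generalizing y with
  | zero =>
    simp only [pow_zero, Matrix.one_apply, add_zero, Finset.range_zero, Finset.prod_empty,
      Fin.ext_iff, eq_comm]
  | succ i ih =>
    rw [pow_succ, Matrix.mul_apply]
    simp only [ih, chainMat_apply]
    by_cases hy : (y : ℕ) = x + (i + 1)
    · rw [if_pos hy, Finset.sum_eq_single (⟨x + i, by omega⟩ : Fin (n + 1))]
      · rw [if_pos rfl, if_pos (by show (y : ℕ) = x + i + 1; omega), Finset.prod_range_succ]
      · intro z _ hz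
        rw [if_neg, zero_mul]
        intro h
        exact hz (Fin.ext h)
      · intro h
        exact absurd (Finset.mem_univ _) h
    · rw [if_neg hy]
      refine Finset.sum_eq_zero fun z _ => ?_
      by_cases h1 : (z : ℕ) = x + i
      · rw [if_neg (show ¬ (y : ℕ) = z + 1 by omega), mul_zero]
      · rw [if_neg h1, zero_mul]

theorem geo_chainMat (L : ℕ) (A : Matrix (Fin n) (Fin n) ℤ) (hL : n < 2 ^ L) :
    geoV L (chainMat L A) 0 (Fin.last n) = ∏ j ∈ Finset.range n, ck L A j := by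
  unfold geoV
  rw [Matrix.sum_apply, Finset.sum_eq_single n]
  · rw [chainMat_pow, if_pos (by simp)]
    simp
  · intro i _ hi
    rw [chainMat_pow, if_neg]
    simpa using Ne.symm hi
  · intro h
    exact absurd (Finset.mem_range.2 hL) h

theorem dk_last (A : Matrix (Fin n) (Fin n) ℤ) : dk A n = (A.charpolyRev : ℤ⟦X⟧) := by
  unfold dk Matrix.charpolyRev
  rw [show ((((1 : Matrix (Fin n) (Fin n) (Polynomial ℤ)) - (Polynomial.X : Polynomial ℤ) •
    A.map Polynomial.C).det : Polynomial ℤ) : ℤ⟦X⟧) = Polynomial.coeToPowerSeries.ringHom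
    (((1 : Matrix (Fin n) (Fin n) (Polynomial ℤ)) - (Polynomial.X : Polynomial ℤ) •
    A.map Polynomial.C).det) from rfl, RingHom.map_det]
  have hc : ∀ a : ℤ, ((a : Polynomial ℤ) : ℤ⟦X⟧) = (a : ℤ⟦X⟧) :=
    fun a => map_intCast (Polynomial.coeToPowerSeries.ringHom (R := ℤ)) a
  congr 1
  ext x y : 2
  by_cases hxy : x = y <;>
    simp [lead, hxy, hc]

theorem constantCoeff_dk (A : Matrix (Fin n) (Fin n) ℤ) : constantCoeff (dk A n) = 1 := by
  unfold dk
  rw [RingHom.map_det]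
  have : (constantCoeff (R := ℤ)).mapMatrix (1 - (X : ℤ⟦X⟧) • lead A n) = 1 := by
    ext x y
    by_cases hxy : x = y
    · subst hxy
      simp
    · simp [hxy]
  rw [this, Matrix.det_one]

theorem coeff_dk (A : Matrix (Fin n) (Fin n) ℤ) : coeff n (dk A n) = (-1) ^ n * A.det := by
  rw [dk_last, Polynomial.coeff_coe, ← Matrix.reverse_charpoly, Polynomial.coeff_reverse,
    Matrix.charpoly_natDegree_eq_dim, Matrix.det_eq_sign_charpoly_coeff, Fintype.card_fin,
    ← mul_assoc, ← pow_add, Polynomial.revAt_le le_rfl, Nat.sub_self]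
  rw [Even.neg_one_pow ⟨n, rfl⟩, one_mul]

end Chistov

/-- **Chistov's formula.** -/
theorem chistov {n : ℕ} (A : Matrix (Fin n) (Fin n) ℤ) {L : ℕ} (hL : n < 2 ^ L) :
    coeff n (∑ i ∈ Finset.range (2 ^ L),
      (1 - geoV L (chainMat L A) 0 (Fin.last n)) ^ i) = (-1) ^ n * A.det := by
  rw [geo_chainMat L A hL, ← coeff_dk]
  set f := ∏ j ∈ Finset.range n, ck L A j with hf
  obtain ⟨r, hr⟩ := dk_mul_prod L A n le_rfl
  rw [← hf] at hr
  set D := dk A n with hD
  set S := ∑ i ∈ Finset.range (2 ^ L), (1 - f) ^ i with hS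
  -- constant coefficient of `f`
  have hfc : X ∣ 1 - f := by
    rw [PowerSeries.X_dvd_iff]
    have h1 : constantCoeff (D * f - 1) = 0 := by
      rw [hr]
      simp
    rw [map_sub, map_mul, constantCoeff_dk, one_mul, map_one] at h1
    rw [map_sub, map_one]
    omega
  obtain ⟨g, hg⟩ := hfc
  have h3 : f * S = 1 - X ^ (2 ^ L) * g ^ (2 ^ L) := by
    have := mul_neg_geom_sum (1 - f) (2 ^ L)
    rw [sub_sub_cancel] at this
    rw [hS, this, hg, mul_pow]
  have h4 : S - D = X ^ (2 ^ L) * (-(D * g ^ (2 ^ L)) - r * S) := by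
    have h5 : D * f = 1 + X ^ (2 ^ L) * r := by linear_combination hr
    have h6 : D * (f * S) = D * (1 - X ^ (2 ^ L) * g ^ (2 ^ L)) := by rw [h3]
    linear_combination h6 - S * h5
  have h5 : coeff n (S - D) = 0 := by
    have : X ^ (2 ^ L) ∣ S - D := ⟨_, h4⟩
    rw [PowerSeries.X_pow_dvd_iff] at this
    exact this n hL
  rw [map_sub] at h5
  omega

end Pool.Agent.H79.Upm
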