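import Pool.Agent.H79.Upm.Match

/-!
# Parity of the number of perfect matchings
-/

namespace Pool.Agent.H79.Upm

/-- The adjacency matrix of `G` after removing all edges at `u` and `v` and adding the edge
`u v`. -/
noncomputable def adjUV {n : ℕ} (G : SimpleGraph (Fin n)) (u v : Fin n) :
    Matrix (Fin n) (Fin n) ℤ := by
  classical
  exact Matrix.of fun a b =>
    if a = u ∨ a = v ∨ b = u ∨ b = v then (if (a = u ∧ b = v) ∨ (a = v ∧ b = u) then 1 else 0)
    else if G.Adj a b then 1 else 0

/-- The determinant modulo two is the sum over all permutations of the products. -/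
theorem det_cast_two {n : ℕ} (G : SimpleGraph (Fin n)) [DecidableRel G.Adj] :
    ((Matrix.of fun a b => if G.Adj a b then (1 : ℤ) else 0).det : ZMod 2) =
      ∑ π : Equiv.Perm (Fin n), (if ∀ i, G.Adj (π i) i then (1 : ZMod 2) else 0) := by
  classical
  have h1 : ((Matrix.of fun a b => if G.Adj a b then (1 : ℤ) else 0).det : ZMod 2) =
      ((Int.castRingHom (ZMod 2)).mapMatrix
        (Matrix.of fun a b => if G.Adj a b then (1 : ℤ) else 0)).det :=
    (Int.castRingHom (ZMod 2)).map_det _
  rw [h1, Matrix.det_apply]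
  refine Finset.sum_congr rfl fun π _ => ?_
  have h2 : ∀ x : ZMod 2, (Equiv.Perm.sign π) • x = x := by
    intro x
    rcases Int.units_eq_one_or (Equiv.Perm.sign π) with h | h <;> rw [h]
    · simp
    · rw [Units.neg_smul, one_smul]
      exact ZMod.neg_eq_self_mod_two x
  rw [h2]
  have h3 : ∀ i, ((Int.castRingHom (ZMod 2)).mapMatrix
      (Matrix.of fun a b => if G.Adj a b then (1 : ℤ) else 0)) (π i) i =
      if G.Adj (π i) i then (1 : ZMod 2) else 0 := by
    intro i
    by_cases h : G.Adj (π i) i <;> simp [h]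
  simp only [h3]
  rw [Finset.prod_boole]
  simp

/-- A symmetric integer matrix with zero diagonal and entries `0, 1`: the parity of the
determinant is the parity of the number of perfect matchings. -/
theorem det_parity {n : ℕ} (G : SimpleGraph (Fin n)) [DecidableRel G.Adj] :
    ((Matrix.of fun a b => if G.Adj a b then (1 : ℤ) else 0).det : ZMod 2) =
      (Set.ncard {σ : Fin n → Fin n | IsPM G σ} : ZMod 2) := by
  classical
  rw [det_cast_two]
  set f : Equiv.Perm (Fin n) → ZMod 2 :=
    fun π => if ∀ i, G.Adj (π i) i then (1 : ZMod 2) else 0 with hf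
  have hinv : ∀ π : Equiv.Perm (Fin n), f π⁻¹ = f π := by
    intro π
    have : (∀ i, G.Adj (π⁻¹ i) i) ↔ (∀ i, G.Adj (π i) i) := by
      constructor
      · intro h i
        have := h (π i)
        rw [show π⁻¹ (π i) = i from π.symm_apply_apply i] at this
        exact this.symm
      · intro h i
        have := h (π⁻¹ i)
        rw [show π (π⁻¹ i) = i from π.apply_symm_apply i] at this
        exact this.symm
    simp only [hf, this]
  have hsplit : ∑ π, f π = ∑ π ∈ Finset.univ.filter (fun π : Equiv.Perm (Fin n) => π⁻¹ = π), f π +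
      ∑ π ∈ Finset.univ.filter (fun π : Equiv.Perm (Fin n) => ¬ π⁻¹ = π), f π :=
    (Finset.sum_filter_add_sum_filter_not _ _ _).symm
  have hzero : ∑ π ∈ Finset.univ.filter (fun π : Equiv.Perm (Fin n) => ¬ π⁻¹ = π), f π = 0 := by
    refine Finset.sum_involution (fun π _ => π⁻¹) ?_ ?_ ?_ ?_
    · intro π _
      rw [hinv]
      exact CharTwo.add_self_eq_zero _
    · intro π hπ _
      exact (Finset.mem_filter.mp hπ).2
    · intro π hπ
      rw [Finset.mem_filter] at hπ ⊢
      refine ⟨Finset.mem_univ _, fun h => hπ.2 ?_⟩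
      rw [inv_inv] at h
      exact h.symm
    · intro π _
      exact inv_inv π
  rw [hsplit, hzero, add_zero]
  simp only [hf]
  rw [Finset.sum_boole, Finset.filter_filter]
  congr 1
  have hset : {σ : Fin n → Fin n | IsPM G σ} = (fun π : Equiv.Perm (Fin n) => (π : Fin n → Fin n)) ''
      ((Finset.univ.filter (fun π : Equiv.Perm (Fin n) => π⁻¹ = π ∧ ∀ i, G.Adj (π i) i) :
        Finset (Equiv.Perm (Fin n))) : Set (Equiv.Perm (Fin n))) := by
    ext σ
    constructor
    · intro hσ
      have hσ' : ∀ x, σ (σ x) = x ∧ G.Adj x (σ x) := hσ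
      refine ⟨⟨σ, σ, fun x => (hσ' x).1, fun x => (hσ' x).1⟩, ?_, rfl⟩
      simp only [Finset.coe_filter, Finset.mem_univ, true_and]
      refine ⟨?_, fun i => ?_⟩
      · ext x
        rfl
      · exact (hσ' i).2.symm
    · rintro ⟨π, hπ, rfl⟩
      have hπ' : π⁻¹ = π ∧ ∀ i, G.Adj (π i) i := by simpa using hπ
      intro x
      refine ⟨?_, (hπ'.2 x).symm⟩
      show π (π x) = x
      have h5 : π⁻¹ (π x) = x := π.symm_apply_apply x
      rwa [hπ'.1] at h5
  rw [hset, Set.ncard_image_of_injective _ DFunLike.coe_injective, Set.ncard_coe_finset]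

/-- The auxiliary graph: edges of `G` avoiding `u`, `v`, together with the edge `u v`. -/
def graphUV {n : ℕ} (G : SimpleGraph (Fin n)) (u v : Fin n) (huv : u ≠ v) :
    SimpleGraph (Fin n) where
  Adj a b := (a = u ∧ b = v) ∨ (a = v ∧ b = u) ∨
    (¬ (a = u ∨ a = v ∨ b = u ∨ b = v) ∧ G.Adj a b)
  symm := ⟨by
    intro a b h
    rcases h with h | h | ⟨h1, h2⟩
    · exact Or.inr (Or.inl ⟨h.2, h.1⟩)
    · exact Or.inl ⟨h.2, h.1⟩
    · exact Or.inr (Or.inr ⟨by tauto, h2.symm⟩)⟩
  loopless := ⟨by
    intro a h
    rcases h with h | h | ⟨_, h2⟩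
    · exact huv (h.1.symm.trans h.2)
    · exact huv (h.2.symm.trans h.1)
    · exact G.loopless.irrefl a h2⟩

/-- If `G` has exactly one perfect matching `σ`, then an edge `u v` lies in it iff the determinant
of `adjUV G u v` is odd. -/
theorem odd_det_iff {n : ℕ} {G : SimpleGraph (Fin n)} {σ : Fin n → Fin n} (h : IsPM G σ)
    (huniq : ∀ τ, IsPM G τ → τ = σ) {u v : Fin n} (huv : G.Adj u v) :
    (adjUV G u v).det % 2 = 1 ↔ v = σ u := by
  classical
  have hne : u ≠ v := huv.ne
  have hmat : adjUV G u v = Matrix.of fun a b =>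
      if (graphUV G u v hne).Adj a b then (1 : ℤ) else 0 := by
    ext a b
    simp only [adjUV, Matrix.of_apply, graphUV]
    by_cases h1 : a = u ∨ a = v ∨ b = u ∨ b = v
    · rw [if_pos h1]
      by_cases h2 : (a = u ∧ b = v) ∨ (a = v ∧ b = u)
      · rw [if_pos h2, if_pos]
        rcases h2 with h2 | h2
        · exact Or.inl h2
        · exact Or.inr (Or.inl h2)
      · rw [if_neg h2, if_neg]
        rintro (h3 | h3 | h3)
        · exact h2 (Or.inl h3)
        · exact h2 (Or.inr h3)
        · exact h3.1 h1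
    · rw [if_neg h1]
      by_cases h2 : G.Adj a b
      · rw [if_pos h2, if_pos]
        exact Or.inr (Or.inr ⟨h1, h2⟩)
      · rw [if_neg h2, if_neg]
        rintro (h3 | h3 | h3)
        · exact h1 (Or.inl h3.1)
        · exact h1 (Or.inr (Or.inl h3.1))
        · exact h2 h3.2
  have hle : ∀ τ, IsPM (graphUV G u v hne) τ → IsPM G τ := by
    intro τ hτ x
    refine ⟨(hτ x).1, ?_⟩
    rcases (hτ x).2 with h3 | h3 | h3
    · have h4 := h3.1
      have h5 := h3.2
      rw [h5, h4]
      exact huv
    · have h4 := h3.1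
      have h5 := h3.2
      rw [h5, h4]
      exact huv.symm
    · exact h3.2
  have hpar := det_parity (graphUV G u v hne)
  rw [← hmat] at hpar
  by_cases hv : v = σ u
  · have hset : {τ : Fin n → Fin n | IsPM (graphUV G u v hne) τ} = {σ} := by
      ext τ
      rw [Set.mem_singleton_iff]
      constructor
      · intro hτ
        exact huniq τ (hle τ hτ)
      · rintro rfl
        intro x
        refine ⟨(h x).1, ?_⟩
        by_cases hx : x = u
        · left
          exact ⟨hx, by rw [hx, hv]⟩
        · by_cases hx' : x = v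
          · right; left
            refine ⟨hx', ?_⟩
            rw [hx', hv, (h u).1]
          · right; right
            refine ⟨?_, (h x).2⟩
            rintro (h3 | h3 | h3 | h3)
            · exact hx h3
            · exact hx' h3
            · apply hx'
              rw [hv, ← h3, (h x).1]
            · apply hx
              rw [← (h x).1, h3, hv, (h u).1]
    rw [hset, Set.ncard_singleton] at hpar
    refine ⟨fun _ => hv, fun _ => ?_⟩
    have h6 : (((adjUV G u v).det : ℤ) : ZMod 2) = ((1 : ℤ) : ZMod 2) := by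
      rw [hpar]; simp
    rw [ZMod.intCast_eq_intCast_iff] at h6
    have h7 : (adjUV G u v).det % 2 = 1 % 2 := h6
    rw [h7]; rfl
  · have hset : {τ : Fin n → Fin n | IsPM (graphUV G u v hne) τ} = ∅ := by
      ext τ
      rw [Set.mem_empty_iff_false, iff_false]
      intro hτ
      have hτσ := huniq τ (hle τ hτ)
      rcases (hτ u).2 with h3 | h3 | h3
      · apply hv
        rw [← hτσ]
        exact h3.2.symm
      · exact hne h3.1
      · exact h3.1 (Or.inl rfl)
    rw [hset, Set.ncard_empty] at hpar
    refine ⟨fun h5 => ?_, fun h5 => absurd h5 hv⟩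
    exfalso
    have h6 : (((adjUV G u v).det : ℤ) : ZMod 2) = ((0 : ℤ) : ZMod 2) := by
      rw [hpar]; simp
    rw [ZMod.intCast_eq_intCast_iff] at h6
    have h7 : (adjUV G u v).det % 2 = 0 % 2 := h6
    rw [h7] at h5
    norm_num at h5

end Pool.Agent.H79.Upm
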