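import Pool.Agent.H79.Upm.AlgBase
import Pool.Agent.H79.Upm.Chistov
import Pool.Agent.H79.Upm.Parity

/-!
# Stage 1: the candidate matching
-/

namespace Pool.Agent.H79.Upm

open PowerSeries

/-- Entries of `adjUV` from the adjacency matrix `S`, cut off at `k`; the index is
`⟨⟨⟨u, v⟩, k⟩, ⟨a, b⟩⟩`. -/
def h1 (n : ℕ) (S : ℕ → ℤ) (z : ℕ) : ℤ :=
  if z.unpair.2.unpair.1 < z.unpair.1.unpair.2 ∧ z.unpair.2.unpair.2 < z.unpair.1.unpair.2 then
    (if z.unpair.2.unpair.1 = z.unpair.1.unpair.1.unpair.1 ∨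
        z.unpair.2.unpair.1 = z.unpair.1.unpair.1.unpair.2 ∨
        z.unpair.2.unpair.2 = z.unpair.1.unpair.1.unpair.1 ∨
        z.unpair.2.unpair.2 = z.unpair.1.unpair.1.unpair.2 then
      (if (z.unpair.2.unpair.1 = z.unpair.1.unpair.1.unpair.1 ∧
          z.unpair.2.unpair.2 = z.unpair.1.unpair.1.unpair.2) ∨
          (z.unpair.2.unpair.1 = z.unpair.1.unpair.1.unpair.2 ∧
          z.unpair.2.unpair.2 = z.unpair.1.unpair.1.unpair.1) then 1 else 0)
      else S (z.unpair.2.unpair.1 * n + z.unpair.2.unpair.2))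
  else 0

theorem h1_op {K : ℕ → ℕ} (hK : LS K) : AOp ℤ K (fun p _ S z => h1 (nv p) S z) := by
  refine AOp.ite3 (R := ℤ) hK ?_ (AOp.ite3 (R := ℤ) hK ?_ (AOp.bit3 (R := ℤ) hK ?_)
    (AOp.re3 (R := ℤ) hK ?_)) (AOp.zero hK)
  all_goals
    with_reducible repeat' first
      | exact LS.id
      | exact LS.const _
      | apply LSP.and
      | apply LSP.or
      | apply LSP.lt
      | apply LSP.eq
      | apply LS.add
      | apply LS.mul
      | apply LS.fst
      | apply LS.snd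
      | apply LS.pair
      | apply nv_comp

/-- The matrices of `h1`. -/
noncomputable def mA (p : ℕ) (S : ℕ → ℤ) (κ : ℕ) : Mat (nv p) :=
  Matrix.of fun x y => PowerSeries.C (h1 (nv p) S (Nat.pair κ (Nat.pair x y)))

/-- Their geometric series. -/
noncomputable def gA (p : ℕ) (S : ℕ → ℤ) (κ : ℕ) : Mat (nv p) :=
  geoV (lg p) ((X : ℤ⟦X⟧) • mA p S κ)

/-- The chain matrices. -/
noncomputable def mB (p : ℕ) (S : ℕ → ℤ) (κ : ℕ) : Mat (nv p + 1) :=
  Matrix.of fun x y => if H : (y : ℕ) = x + 1 ∧ (x : ℕ) < nv p ∧ (x : ℕ) < nv p then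
    gA p S (Nat.pair κ y) ⟨x, H.2.1⟩ ⟨x, H.2.2⟩ else 0

/-- Their geometric series. -/
noncomputable def gB (p : ℕ) (S : ℕ → ℤ) (κ : ℕ) : Mat (nv p + 1) := geoV (lg p) (mB p S κ)

/-- The corner entry as a `1 × 1` matrix. -/
noncomputable def mC (p : ℕ) (S : ℕ → ℤ) (κ : ℕ) : Mat 1 :=
  Matrix.of fun _ _ => if H : True ∧ 0 < nv p + 1 ∧ nv p < nv p + 1 then
    gB p S κ ⟨0, H.2.1⟩ ⟨nv p, H.2.2⟩ else 0

/-- Its inverse. -/
noncomputable def gC (p : ℕ) (S : ℕ → ℤ) (κ : ℕ) : Mat 1 := geoV (lg p) (1 - mC p S κ)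

/-- Up to sign the determinant of `adjUV G u v`, at the index `z = ⟨u, v⟩`. -/
noncomputable def c1 (p : ℕ) (S : ℕ → ℤ) (z : ℕ) : ℤ := arr 1 (dg p) (gC p S) (cm z 0 0 (nv p))

theorem c1_op {K : ℕ → ℕ} (hK : LS K) : AOp ℤ K (fun p _ S z => c1 p S z) := by
  have hA : MOp nv dg K (fun p _ S κ => mA p S κ) := MOp.ofArr nv_ls dg_ls hK (h1_op hK)
  have hgA : MOp nv dg K (fun p _ S κ => gA p S κ) :=
    MOp.geo nv_ls dg_ls hK lg_ls lg_polyLog (MOp.X_smul nv_ls dg_ls hK hA)
  have hB : MOp (fun p => nv p + 1) dg K (fun p _ S κ => mB p S κ) := by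
    refine MOp.re4 (f := fun _ _ x _ => x) (g := fun _ _ x _ => x)
      (h := fun _ κ _ y => Nat.pair κ y) nv_ls.succ nv_ls dg_ls hK hgA
      (P := fun _ _ x y => y = x + 1) ?_ ?_ ?_ ?_
    all_goals
      with_reducible repeat' first
        | exact LS.id
        | exact LS.const _
        | apply LSP.eq
        | apply LS.succ
        | apply LS.fst
        | apply LS.snd
        | apply LS.pair
  have hgB : MOp (fun p => nv p + 1) dg K (fun p _ S κ => gB p S κ) :=
    MOp.geo nv_ls.succ dg_ls hK lg_ls lg_polyLog hB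
  have hC : MOp (fun _ => 1) dg K (fun p _ S κ => mC p S κ) := by
    refine MOp.re4 (f := fun _ _ _ _ => 0) (g := fun p _ _ _ => nv p)
      (h := fun _ κ _ _ => κ) one_ls nv_ls.succ dg_ls hK hgB
      (P := fun _ _ _ _ => True) ?_ ?_ ?_ ?_
    · exact (LS.const 1).comp LS.id
    all_goals
      with_reducible repeat' first
        | exact LS.id
        | exact LS.const _
        | apply LS.fst
        | apply LS.snd
        | apply nv_comp
  have hgC : MOp (fun _ => 1) dg K (fun p _ S κ => gC p S κ) :=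
    MOp.geo one_ls dg_ls hK lg_ls lg_polyLog (MOp.sub hK (MOp.one one_ls dg_ls hK) hC)
  refine AOp.reOf3 (R := ℤ) hK hgC (g := fun p _ z => cm z 0 0 (nv p)) ?_
  unfold cm
  with_reducible repeat' first
    | exact LS.id
    | exact LS.const _
    | apply LS.fst
    | apply LS.snd
    | apply LS.pair
    | apply nv_comp

/-- The array `S` contains the adjacency matrix of `G`. -/
def HasAdj {n : ℕ} (G : SimpleGraph (Fin n)) (S : ℕ → ℤ) : Prop :=
  ∀ a b : Fin n, (G.Adj a b → S (a * n + b) = 1) ∧ (¬ G.Adj a b → S (a * n + b) = 0)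

theorem mA_eq {p : ℕ} {G : SimpleGraph (Fin (nv p))} {S : ℕ → ℤ} (hS : HasAdj G S)
    (u v : Fin (nv p)) (k : ℕ) :
    mA p S (Nat.pair (Nat.pair u v) k) = lead (adjUV G u v) k := by
  ext1 a b
  simp only [mA, lead, Matrix.of_apply, h1, Nat.unpair_pair, adjUV]
  split_ifs with h1 h2 h3 h4 h5 h6 h7 h8 h9 <;>
    first
      | rfl
      | (simp [Fin.ext_iff] at *; done)
      | simp only [(hS a b).1 (by assumption)]
      | simp only [(hS a b).2 (by assumption)]
      | (exfalso; simp only [Fin.ext_iff] at *; tauto)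

theorem mB_eq {p : ℕ} {G : SimpleGraph (Fin (nv p))} {S : ℕ → ℤ} (hS : HasAdj G S)
    (u v : Fin (nv p)) : mB p S (Nat.pair u v) = chainMat (lg p) (adjUV G u v) := by
  ext1 x y
  simp only [mB, chainMat, Matrix.of_apply, gA, mA_eq hS]
  by_cases h : (y : ℕ) = x + 1 ∧ (x : ℕ) < nv p
  · rw [dif_pos ⟨h.1, h.2, h.2⟩, dif_pos h]
  · rw [dif_neg fun h' => h ⟨h'.1, h'.2.1⟩, dif_neg h]

theorem one_by_one_pow (M : Mat 1) (i : ℕ) : (M ^ i) 0 0 = (M 0 0) ^ i := by
  induction i with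
  | zero => rw [pow_zero, pow_zero, Matrix.one_apply_eq]
  | succ i ih => rw [pow_succ, pow_succ, Matrix.mul_apply, Fin.sum_univ_one, ih]

theorem c1_eq {p : ℕ} {G : SimpleGraph (Fin (nv p))} {S : ℕ → ℤ} (hS : HasAdj G S)
    (u v : Fin (nv p)) : c1 p S (Nat.pair u v) = (-1) ^ nv p * (adjUV G u v).det := by
  have h1 : c1 p S (Nat.pair u v) = coeff (nv p) (gC p S (Nat.pair u v) 0 0) := by
    unfold c1 arr cm
    simp only [Nat.unpair_pair]
    rw [dif_pos ⟨by norm_num, by norm_num, by unfold dg; omega⟩]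
    rfl
  have h2 : ∀ i : ℕ, ((1 - mC p S (Nat.pair u v)) ^ i) 0 0 =
      (1 - geoV (lg p) (chainMat (lg p) (adjUV G u v)) 0 (Fin.last _)) ^ i := by
    intro i
    have h00 : mC p S (Nat.pair u v) 0 0 =
        geoV (lg p) (chainMat (lg p) (adjUV G u v)) 0 (Fin.last _) := by
      unfold mC gB
      rw [mB_eq hS, Matrix.of_apply, dif_pos ⟨trivial, by omega, by omega⟩]
      rfl
    rw [one_by_one_pow, Matrix.sub_apply, Matrix.one_apply_eq, h00]
  have h3 : gC p S (Nat.pair u v) 0 0 = ∑ i ∈ Finset.range (2 ^ lg p),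
      (1 - geoV (lg p) (chainMat (lg p) (adjUV G u v)) 0 (Fin.last _)) ^ i := by
    unfold gC geoV
    rw [Matrix.sum_apply]
    exact Finset.sum_congr rfl fun i _ => h2 i
  rw [h1, h3]
  exact chistov _ (nv_lt p)

/-- The parity of `c1` at an edge tells whether the edge lies in the unique perfect matching. -/
theorem c1_odd {p : ℕ} {G : SimpleGraph (Fin (nv p))} {S : ℕ → ℤ} (hS : HasAdj G S)
    {σ : Fin (nv p) → Fin (nv p)} (h : IsPM G σ) (huniq : ∀ τ, IsPM G τ → τ = σ)
    {u v : Fin (nv p)} (huv : G.Adj u v) : c1 p S (Nat.pair u v) % 2 = 1 ↔ v = σ u := by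
  rw [← odd_det_iff h huniq huv, c1_eq hS]
  rcases Nat.even_or_odd (nv p) with he | ho
  · rw [he.neg_one_pow, one_mul]
  · rw [ho.neg_one_pow, neg_one_mul]
    omega

/-- The candidate matching matrix, from the adjacency matrix `x`. -/
noncomputable def sB (p : ℕ) (x : ℕ → ZMod 2) (z : ℕ) : ZMod 2 :=
  if z.unpair.1 < nv p ∧ z.unpair.2 < nv p then
    x (z.unpair.1 * nv p + z.unpair.2) * (if c1 p (lift x) z % 2 = 1 then 1 else 0) else 0

theorem sB_op {K : ℕ → ℕ} (hK : LS K) : AOp (ZMod 2) K (fun p _ x z => sB p x z) := by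
  refine AOp.ite3 hK ?_ (AOp.mul hK (AOp.re3 hK ?_) ?_) (AOp.zero hK)
  · with_reducible repeat' first
      | exact LS.id
      | exact LS.const _
      | apply LSP.and
      | apply LSP.lt
      | apply LS.fst
      | apply LS.snd
      | apply nv_comp
  · with_reducible repeat' first
      | exact LS.id
      | exact LS.const _
      | apply LS.add
      | apply LS.mul
      | apply LS.fst
      | apply LS.snd
      | apply nv_comp
  · refine (AOp.reOf3 hK (AOp.modEq hK (c1_op hK))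
      (g := fun _ _ z => Nat.pair 2 (Nat.pair z 1)) ?_).congr fun p k S z _ => ?_
    · with_reducible repeat' first
        | exact LS.id
        | exact LS.const _
        | apply LS.fst
        | apply LS.snd
        | apply LS.pair
    · simp only [Nat.unpair_pair]
      norm_num

/-- The array `x` over `ZMod 2` contains the adjacency matrix of `G`. -/
def HasAdj2 {n : ℕ} (G : SimpleGraph (Fin n)) (x : ℕ → ZMod 2) : Prop :=
  ∀ a b : Fin n, (G.Adj a b → x (a * n + b) = 1) ∧ (¬ G.Adj a b → x (a * n + b) = 0)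

theorem HasAdj2.lift {n : ℕ} {G : SimpleGraph (Fin n)} {x : ℕ → ZMod 2} (h : HasAdj2 G x) :
    HasAdj G (lift x) := by
  intro a b
  constructor
  · intro hab
    simp [Upm.lift, (h a b).1 hab]
  · intro hab
    simp [Upm.lift, (h a b).2 hab]

theorem sB_eq {p : ℕ} {G : SimpleGraph (Fin (nv p))} {x : ℕ → ZMod 2} (hx : HasAdj2 G x)
    {σ : Fin (nv p) → Fin (nv p)} (h : IsPM G σ) (huniq : ∀ τ, IsPM G τ → τ = σ)
    (u v : Fin (nv p)) : sB p x (Nat.pair u v) = if v = σ u then 1 else 0 := by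
  unfold sB
  simp only [Nat.unpair_pair]
  rw [if_pos ⟨u.2, v.2⟩]
  by_cases huv : G.Adj u v
  · rw [(hx u v).1 huv, one_mul]
    have := c1_odd hx.lift h huniq huv
    by_cases hv : v = σ u
    · rw [if_pos hv, if_pos (this.2 hv)]
    · rw [if_neg hv, if_neg fun h' => hv (this.1 h')]
  · rw [(hx u v).2 huv, zero_mul, if_neg]
    rintro rfl
    exact huv (h u).2

end Pool.Agent.H79.Upm
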