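import Pool.Agent.H79.Upm.Newton

/-!
# The Newton step is causal
-/

namespace Pool.Agent.H79.Upm

open PowerSeries

variable {V : Type} [Fintype V] [DecidableEq V]

omit [Fintype V] [DecidableEq V] in
theorem cg_iff {e : ℕ} {M M' : Matrix V V ℤ⟦X⟧} :
    Cg e M M' ↔ ∀ x y, ∀ d < e, coeff d (M x y) = coeff d (M' x y) := by
  constructor
  · intro h x y d hd
    have := PowerSeries.X_pow_dvd_iff.1 (h x y) d hd
    rwa [map_sub, sub_eq_zero] at this
  · intro h x y
    rw [PowerSeries.X_pow_dvd_iff]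
    intro d hd
    rw [map_sub, h x y d hd, sub_self]

omit [DecidableEq V] in
theorem Cg.mul {e : ℕ} {M M' N N' : Matrix V V ℤ⟦X⟧} (h : Cg e M M') (h' : Cg e N N') :
    Cg e (M * N) (M' * N') := (Cg.mul_right N h).trans (Cg.mul_left M' h')

omit [Fintype V] [DecidableEq V] in
theorem Cg.neg {e : ℕ} {M M' : Matrix V V ℤ⟦X⟧} (h : Cg e M M') : Cg e (-M) (-M') := by
  intro x y
  rw [Matrix.neg_apply, Matrix.neg_apply, neg_sub_neg]
  exact h.symm x y

omit [Fintype V] [DecidableEq V] in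
theorem Cg.smul {e : ℕ} {M M' : Matrix V V ℤ⟦X⟧} (c : ℤ⟦X⟧) (h : Cg e M M') :
    Cg e (c • M) (c • M') := by
  intro x y
  rw [Matrix.smul_apply, Matrix.smul_apply, ← smul_sub, smul_eq_mul]
  exact (h x y).mul_left _

omit [Fintype V] in
theorem Cg.diag {e : ℕ} {M M' : Matrix V V ℤ⟦X⟧} (h : Cg e M M') :
    Cg e (Matrix.diagonal fun x => M x x) (Matrix.diagonal fun x => M' x x) := by
  intro x y
  by_cases hxy : x = y
  · subst hxy
    rw [Matrix.diagonal_apply_eq, Matrix.diagonal_apply_eq]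
    exact h x x
  · rw [Matrix.diagonal_apply_ne _ hxy, Matrix.diagonal_apply_ne _ hxy, sub_zero]
    exact dvd_zero _

omit [Fintype V] [DecidableEq V] in
theorem Cg.hadamard {e : ℕ} {M M' N N' : Matrix V V ℤ⟦X⟧} (h : Cg e M M') (h' : Cg e N N') :
    Cg e (Matrix.of fun x y => M x y * N.transpose x y)
      (Matrix.of fun x y => M' x y * N'.transpose x y) := by
  intro x y
  simp only [Matrix.of_apply, Matrix.transpose_apply]
  have : M x y * N y x - M' x y * N' y x =
      (M x y - M' x y) * N y x + M' x y * (N y x - N' y x) := by ring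
  rw [this]
  exact dvd_add ((h x y).mul_right _) ((h' y x).mul_left _)

theorem Cg.pow {e : ℕ} {M M' : Matrix V V ℤ⟦X⟧} (h : Cg e M M') (n : ℕ) :
    Cg e (M ^ n) (M' ^ n) := by
  induction n with
  | zero => rw [pow_zero, pow_zero]; exact Cg.refl _ _
  | succ n ih => rw [pow_succ, pow_succ]; exact ih.mul h

theorem Cg.geo {e : ℕ} {M M' : Matrix V V ℤ⟦X⟧} (h : Cg e M M') (L : ℕ) :
    Cg e (geoV L M) (geoV L M') := by
  intro x y
  unfold geoV
  rw [Matrix.sum_apply, Matrix.sum_apply, ← Finset.sum_sub_distrib]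
  exact Finset.dvd_sum fun i _ => h.pow i x y

theorem kOf_causal {e L : ℕ} {D S B B' : Matrix V V ℤ⟦X⟧} (h : Cg e B B') :
    Cg e (kOf L D S B) (kOf L D S B') :=
  ((Cg.refl e _).sub (h.mul (Cg.refl e _))).geo L

theorem newtonStep_causal {e L : ℕ} {D S B B' : Matrix V V ℤ⟦X⟧} (h : Cg e B B') :
    Cg e (newtonStep L D S B) (newtonStep L D S B') := by
  have hk := kOf_causal (L := L) (D := D) (S := S) h
  have hr := Cg.refl e (V := V)
  have hQ := (((hr D).mul hk).hadamard ((((hr S).mul hk).mul (hr D)).mul (hr S))).smul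
    (X : ℤ⟦X⟧) |>.smul (X : ℤ⟦X⟧)
  have hA := ((((((hr D).mul hk).mul (hr D)).mul (hr S)).smul (X : ℤ⟦X⟧)).smul
    (X : ℤ⟦X⟧)).diag.sub h
  exact h.add (((hQ.neg.geo L).mul hA).mul (hr _)).diag

end Pool.Agent.H79.Upm
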