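import Pool.Agent.H79.Upm.AlgBase
import Pool.Agent.H79.Upm.Causal
import Pool.Agent.H79.Upm.Parity

/-!
# Stage 2: the generating functions of the alternating paths
-/

namespace Pool.Agent.H79.Upm

open PowerSeries

/-- The candidate matching matrix, from the odd entries of `S`. -/
noncomputable def sgM (n : ℕ) (S : ℕ → ℤ) : Mat n :=
  Matrix.of fun a b => PowerSeries.C (S (2 * Nat.pair a b + 1))

/-- The matrix of the non-matching edges; the adjacency matrix is in the even entries of `S`. -/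
noncomputable def apM (n : ℕ) (S : ℕ → ℤ) : Mat n :=
  Matrix.of fun a b => PowerSeries.C (S (2 * (a * n + b)) - S (2 * Nat.pair a b + 1))

/-- Both `a` and its partner are less than `r`. -/
def mu (n : ℕ) (S : ℕ → ℤ) (z : ℕ) : ℤ :=
  if z.unpair.2 < z.unpair.1 then
    ∑ b ∈ Finset.range n, if b < z.unpair.1 then S (2 * Nat.pair z.unpair.2 b + 1) else 0
  else 0

/-- The matrix of the relation `altRel`, restricted to the vertices below `κ`. -/
noncomputable def dM (n : ℕ) (S : ℕ → ℤ) (κ : ℕ) : Mat n :=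
  Matrix.of fun a b =>
    (Matrix.of fun a b => PowerSeries.C (mu n S (Nat.pair κ a) * mu n S (Nat.pair κ b))) a b *
      (sgM n S * apM n S) a b

/-- The approximate path matrix. -/
noncomputable def kM (p : ℕ) (S : ℕ → ℤ) (κ : ℕ) : Mat (nv p) :=
  kOf (lg p) (dM (nv p) S κ) (sgM (nv p) S)
    ((newtonStep (lg p) (dM (nv p) S κ) (sgM (nv p) S))^[lg p] 0)

section ops

variable {K : ℕ → ℕ}

theorem mu_op (hK : LS K) : AOp ℤ K (fun p _ S z => mu (nv p) S z) := by
  refine AOp.ite3 hK ?_ ?_ (AOp.zero hK)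
  · with_reducible repeat' first
      | exact LS.id
      | apply LSP.lt
      | apply LS.fst
      | apply LS.snd
  · have h1 : AOp ℤ K (fun _ _ S z =>
        if z.unpair.2 < z.unpair.1.unpair.1 then
          S (2 * Nat.pair z.unpair.1.unpair.2 z.unpair.2 + 1) else 0) := by
      refine AOp.ite3 hK ?_ (AOp.re3 hK ?_) (AOp.zero hK)
      all_goals
        with_reducible repeat' first
          | exact LS.id
          | exact LS.const _
          | apply LSP.lt
          | apply LS.succ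
          | apply LS.mul
          | apply LS.fst
          | apply LS.snd
          | apply LS.pair
    refine (AOp.sum hK nv_ls h1).congr fun p k S i _ => ?_
    simp only [Nat.unpair_pair]

theorem sgM_op (hK : LS K) : MOp nv dg K (fun p _ S _ => sgM (nv p) S) := by
  have h : AOp ℤ K (fun _ _ S z => S (2 * z.unpair.2 + 1)) := by
    refine AOp.re3 hK ?_
    with_reducible repeat' first
      | exact LS.id
      | exact LS.const _
      | apply LS.succ
      | apply LS.mul
      | apply LS.snd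
  refine (MOp.ofArr nv_ls dg_ls hK h).congr fun p k S κ x y d _ _ => ?_
  simp only [sgM, Matrix.of_apply, Nat.unpair_pair]

theorem apM_op (hK : LS K) : MOp nv dg K (fun p _ S _ => apM (nv p) S) := by
  have h : AOp ℤ K (fun p _ S z => S (2 * (z.unpair.2.unpair.1 * nv p + z.unpair.2.unpair.2)) -
      S (2 * z.unpair.2 + 1)) := by
    refine AOp.sub hK (AOp.re3 hK ?_) (AOp.re3 hK ?_)
    all_goals
      with_reducible repeat' first
        | exact LS.id
        | exact LS.const _
        | apply LS.succ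
        | apply LS.mul
        | apply LS.add
        | apply LS.fst
        | apply LS.snd
        | apply nv_comp
  refine (MOp.ofArr nv_ls dg_ls hK h).congr fun p k S κ x y d _ _ => ?_
  simp only [apM, Matrix.of_apply, Nat.unpair_pair]

theorem dM_op (hK : LS K) : MOp nv dg K (fun p _ S κ => dM (nv p) S κ) := by
  have h : AOp ℤ K (fun p _ S z => mu (nv p) S (Nat.pair z.unpair.1 z.unpair.2.unpair.1) *
      mu (nv p) S (Nat.pair z.unpair.1 z.unpair.2.unpair.2)) := by
    refine AOp.mul hK (AOp.reOf3 hK (mu_op hK) (g := fun _ _ z => Nat.pair z.unpair.1 z.unpair.2.unpair.1) ?_)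
      (AOp.reOf3 hK (mu_op hK) (g := fun _ _ z => Nat.pair z.unpair.1 z.unpair.2.unpair.2) ?_)
    all_goals
      with_reducible repeat' first
        | exact LS.id
        | apply LS.fst
        | apply LS.snd
        | apply LS.pair
  refine MOp.hadamard nv_ls dg_ls hK ?_ (MOp.mul nv_ls dg_ls hK (sgM_op hK) (apM_op hK))
  refine (MOp.ofArr nv_ls dg_ls hK h).congr fun p k S κ x y d _ _ => ?_
  simp only [Matrix.of_apply, Nat.unpair_pair]

theorem kOf_op (hK : LS K) {F G H : (p : ℕ) → ℕ → (ℕ → ℤ) → ℕ → Mat (nv p)}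
    (hF : MOp nv dg K F) (hG : MOp nv dg K G) (hH : MOp nv dg K H) :
    MOp nv dg K (fun p k S κ => kOf (lg p) (F p k S κ) (G p k S κ) (H p k S κ)) :=
  MOp.geo nv_ls dg_ls hK lg_ls lg_polyLog
    (MOp.sub hK (MOp.X_smul nv_ls dg_ls hK hF) (MOp.mul nv_ls dg_ls hK hH hG))

theorem ones_op (hK : LS K) : MOp nv dg K (fun _ _ _ _ => Matrix.of fun _ _ => 1) := by
  refine (MOp.ofArr nv_ls dg_ls hK (AOp.one hK)).congr fun p k S κ x y d _ _ => ?_
  simp only [Matrix.of_apply, map_one]

theorem newtonStep_op (hK : LS K) {F G H : (p : ℕ) → ℕ → (ℕ → ℤ) → ℕ → Mat (nv p)}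
    (hF : MOp nv dg K F) (hG : MOp nv dg K G) (hH : MOp nv dg K H) :
    MOp nv dg K (fun p k S κ => newtonStep (lg p) (F p k S κ) (G p k S κ) (H p k S κ)) := by
  have hk := kOf_op hK hF hG hH
  have m {F G : (p : ℕ) → ℕ → (ℕ → ℤ) → ℕ → Mat (nv p)} (hF : MOp nv dg K F)
    (hG : MOp nv dg K G) := MOp.mul nv_ls dg_ls hK hF hG
  have x {F : (p : ℕ) → ℕ → (ℕ → ℤ) → ℕ → Mat (nv p)} (hF : MOp nv dg K F) :=
    MOp.X_smul nv_ls dg_ls hK hF
  have hQ := x (x (MOp.hadamard nv_ls dg_ls hK (m hF hk)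
    (MOp.transpose nv_ls dg_ls hK (m (m (m hG hk) hF) hG))))
  have hA := MOp.sub hK (MOp.diagPart nv_ls dg_ls hK (x (x (m (m (m hF hk) hF) hG)))) hH
  have hg := MOp.geo nv_ls dg_ls hK lg_ls lg_polyLog (MOp.neg hK hQ)
  exact MOp.add hK hH (MOp.diagPart nv_ls dg_ls hK (m (m hg hA) (ones_op hK)))

/-- Precomposition with the selection of the even entries. -/
theorem even_op (hK : LS K) {F : (p : ℕ) → ℕ → (ℕ → ℤ) → ℕ → Mat (nv p)}
    (hF : MOp nv dg K F) : MOp nv dg K (fun p k S κ => F p k (fun i => S (2 * i)) κ) := by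
  refine MOp.comp hK hF (AOp.re3 hK ?_)
  with_reducible repeat' first
    | exact LS.id
    | exact LS.const _
    | apply LS.mul
    | apply LS.snd

theorem odd_op (hK : LS K) {F : (p : ℕ) → ℕ → (ℕ → ℤ) → ℕ → Mat (nv p)}
    (hF : MOp nv dg K F) : MOp nv dg K (fun p k S κ => F p k (fun i => S (2 * i + 1)) κ) := by
  refine MOp.comp hK hF (AOp.re3 hK ?_)
  with_reducible repeat' first
    | exact LS.id
    | exact LS.const _
    | apply LS.succ
    | apply LS.mul
    | apply LS.snd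

theorem kM_op (hK : LS K) : MOp nv dg K (fun p _ S κ => kM p S κ) := by
  refine kOf_op hK (dM_op hK) (sgM_op hK) ?_
  refine MOp.iterate (Φ := fun p S κ => newtonStep (lg p) (dM (nv p) S κ) (sgM (nv p) S))
    nv_ls dg_ls hK lg_ls lg_polyLog ?_ ?_ (F0 := fun _ _ _ _ => 0) (MOp.zero nv_ls dg_ls hK)
  · intro p S κ V V' h
    rw [← cg_iff] at h ⊢
    exact newtonStep_causal h
  · exact newtonStep_op lg_ls (even_op lg_ls (dM_op lg_ls)) (even_op lg_ls (sgM_op lg_ls))
      (odd_op lg_ls (MOp.ofToMat nv_ls dg_ls lg_ls))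

end ops

/-- The array `S` contains the adjacency matrix of `G` and the matching `σ`. -/
def HasBoth {n : ℕ} (G : SimpleGraph (Fin n)) (σ : Fin n → Fin n) (S : ℕ → ℤ) : Prop :=
  (∀ a b : Fin n, (G.Adj a b → S (2 * (a * n + b)) = 1) ∧
    (¬ G.Adj a b → S (2 * (a * n + b)) = 0)) ∧
  ∀ a b : Fin n, S (2 * Nat.pair a b + 1) = if b = σ a then 1 else 0

theorem sgM_eq {n : ℕ} {G : SimpleGraph (Fin n)} {σ : Fin n → Fin n} {S : ℕ → ℤ}
    (h : HasBoth G σ S) : sgM n S = relMat (fun a b => b = σ a) := by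
  ext1 a b
  simp only [sgM, relMat, Matrix.of_apply, h.2 a b]
  split_ifs <;> simp

theorem mu_eq {n : ℕ} {G : SimpleGraph (Fin n)} {σ : Fin n → Fin n} {S : ℕ → ℤ}
    (h : HasBoth G σ S) (r : ℕ) (a : Fin n) :
    mu n S (Nat.pair r a) = if (a : ℕ) < r ∧ (σ a : ℕ) < r then 1 else 0 := by
  unfold mu
  simp only [Nat.unpair_pair]
  by_cases ha : (a : ℕ) < r
  · rw [if_pos ha, ← Fin.sum_univ_eq_sum_range
      (fun b => if b < r then S (2 * Nat.pair a b + 1) else 0) n]
    simp only [h.2 a]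
    rw [Finset.sum_eq_single (σ a)]
    · simp [ha]
    · intro b _ hb
      simp [hb]
    · intro h'
      exact absurd (Finset.mem_univ _) h'
  · rw [if_neg ha, if_neg fun h' => ha h'.1]

theorem sg_ap_eq {n : ℕ} {G : SimpleGraph (Fin n)} {σ : Fin n → Fin n} {S : ℕ → ℤ}
    (h : HasBoth G σ S) (hσ : IsPM G σ) (a b : Fin n) :
    (sgM n S * apM n S) a b = relMat (altRel G σ) a b := by
  classical
  rw [sgM_eq h, Matrix.mul_apply, Finset.sum_eq_single (σ a)]
  · have h1 : S (2 * Nat.pair (σ a) b + 1) = if b = a then 1 else 0 := by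
      rw [h.2 (σ a) b, (hσ a).1]
    simp only [relMat, Matrix.of_apply, if_true, apM, one_mul, h1, altRel]
    by_cases hab : G.Adj (σ a) b
    · rw [(h.1 (σ a) b).1 hab]
      by_cases hb : b = a
      · simp [hb]
      · simp [hab, hb]
    · rw [(h.1 (σ a) b).2 hab]
      have hb : b ≠ a := by
        rintro rfl
        exact hab (hσ b).2.symm
      simp [hab, hb]
  · intro c _ hc
    simp [relMat, hc]
  · intro h'
    exact absurd (Finset.mem_univ _) h'

theorem dM_eq {n : ℕ} {G : SimpleGraph (Fin n)} {σ : Fin n → Fin n} {S : ℕ → ℤ}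
    (h : HasBoth G σ S) (hσ : IsPM G σ) (r : ℕ) :
    dM n S r = relMat (below σ (altRel G σ) r) := by
  classical
  ext1 a b
  unfold dM
  rw [Matrix.of_apply, Matrix.of_apply, sg_ap_eq h hσ, mu_eq h, mu_eq h]
  simp only [relMat, Matrix.of_apply, below]
  by_cases h1 : (a : ℕ) < r ∧ (σ a : ℕ) < r
  · by_cases h2 : (b : ℕ) < r ∧ (σ b : ℕ) < r
    · by_cases h3 : altRel G σ a b
      · simp [h1, h2, h3]
      · simp [h3]
    · simp [h2]
  · simp [h1]

theorem IsPM.ne {V : Type} {G : SimpleGraph V} {σ : V → V} (h : IsPM G σ) (x : V) : σ x ≠ x :=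
  fun hx => G.loopless.irrefl x (by have := (h x).2; rwa [hx] at this)

theorem altRel_irrefl {V : Type} {G : SimpleGraph V} {σ : V → V} (x : V) : ¬ altRel G σ x x :=
  fun h => h.2 rfl

theorem altRel_irrefl' {V : Type} {G : SimpleGraph V} {σ : V → V} (x : V) :
    ¬ altRel G σ x (σ x) := fun h => G.loopless.irrefl _ h.1

theorem below_symm {n : ℕ} {σ : Fin n → Fin n} {D : Fin n → Fin n → Prop}
    (hσ : ∀ x, σ (σ x) = x) (hD : ∀ x y, D x y → D (σ y) (σ x)) (r : ℕ) (x y : Fin n)
    (h : below σ D r x y) : below σ D r (σ y) (σ x) := by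
  obtain ⟨h1, ⟨h2, h3⟩, h4, h5⟩ := h
  exact ⟨hD _ _ h1, ⟨h5, by rwa [hσ]⟩, h3, by rwa [hσ]⟩

theorem kM_eq {p : ℕ} {G : SimpleGraph (Fin (nv p))} {σ : Fin (nv p) → Fin (nv p)}
    {S : ℕ → ℤ} (h : HasBoth G σ S) (hσ : IsPM G σ) {r : ℕ}
    (hno : ¬ RegCycle σ (below σ (altRel G σ) r)) (a b : Fin (nv p)) {d : ℕ} (hd : d < dg p) :
    coeff d (kM p S r a b) = (pathCount σ (below σ (altRel G σ) r) d a b : ℤ) := by
  have hkey := key_identity (σ := σ) (D := below σ (altRel G σ) r) (fun x => (hσ x).1) hσ.ne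
    (below_symm (fun x => (hσ x).1) (fun x y => altRel_symm hσ) r)
    (fun x hx => altRel_irrefl x hx.1) (fun x hx => altRel_irrefl' x hx.1) hno
  unfold kM
  rw [dM_eq h hσ, sgM_eq h, newton_converges (e := dg p) (fun x => rfl) hkey (nv_lt p) (nv_lt p)
    a b hd]
  simp [Kmat]

end Pool.Agent.H79.Upm
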