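import Mathlib

/-!
# Small moduli detect nonzero numbers
-/

namespace Pool.Agent.H79.Upm

theorem exists_small_not_dvd {n c : ℕ} (hc : 0 < c) (hcn : c ≤ n ^ n) :
    ∃ q, 1 ≤ q ∧ q < 2 * n ^ 2 + 8 ∧ ¬ q ∣ c := by
  by_contra hcon
  push Not at hcon
  have hk : 0 < n ^ 2 + 3 := by positivity
  have h1 : (n ^ 2 + 3).centralBinom ∣ c := by
    rw [← Nat.factorization_prime_le_iff_dvd (Nat.centralBinom_ne_zero _) hc.ne']
    intro p hp
    rw [← hp.pow_dvd_iff_le_factorization hc.ne']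
    have h2 : p ^ (n ^ 2 + 3).centralBinom.factorization p ≤ 2 * (n ^ 2 + 3) := by
      rw [Nat.centralBinom_eq_two_mul_choose]
      exact Nat.pow_factorization_choose_le (by omega)
    refine hcon _ (Nat.one_le_pow _ _ hp.pos) ?_
    omega
  have h2 := Nat.four_pow_le_two_mul_self_mul_centralBinom (n ^ 2 + 3) hk
  have h3 : (n ^ 2 + 3).centralBinom ≤ n ^ n := (Nat.le_of_dvd hc h1).trans hcn
  have h4 : n ^ n ≤ 2 ^ (n ^ 2) := by
    calc n ^ n ≤ (2 ^ n) ^ n := Nat.pow_le_pow_left Nat.lt_two_pow_self.le n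
      _ = 2 ^ (n ^ 2) := by rw [← pow_mul, sq]
  have h5 : n ^ 2 < 2 ^ (n ^ 2) := Nat.lt_two_pow_self
  have h6 : 4 ^ (n ^ 2 + 3) = 64 * (2 ^ (n ^ 2) * 2 ^ (n ^ 2)) := by
    rw [pow_add, ← mul_pow]; ring
  rw [h6] at h2
  set y := 2 ^ (n ^ 2) with hy
  have h7 : 2 * (n ^ 2 + 3) * (n ^ 2 + 3).centralBinom ≤ (8 * y) * y := by
    refine Nat.mul_le_mul ?_ (h3.trans h4)
    omega
  have h8 : 0 < y * y := by positivity
  nlinarith

end Pool.Agent.H79.Upm
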