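import Pool.Agent.H79.Upm.Alg1
import Pool.Agent.H79.Upm.Alg2
import Pool.Agent.H79.Upm.Mods

/-!
# Stage 3: the final test
-/

namespace Pool.Agent.H79.Upm

open PowerSeries

/-- The coefficients of the path matrices modulo all small numbers, in one-hot form. -/
noncomputable def tB (p : ℕ) (y : ℕ → ZMod 2) (z : ℕ) : ZMod 2 :=
  if z.unpair.1 ≠ 0 ∧
    arr (nv p) (dg p) (kM p (lift y)) z.unpair.2.unpair.1 % (z.unpair.1 : ℤ) =
      (z.unpair.2.unpair.2 : ℤ)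
  then 1 else 0

theorem tB_op {K : ℕ → ℕ} (hK : LS K) : AOp (ZMod 2) K (fun p _ y z => tB p y z) :=
  AOp.modEq hK (kM_op hK)

/-- Adjacency matrix. -/
def xv (n : ℕ) (Y : ℕ → ZMod 2) (a b : ℕ) : ZMod 2 := Y (4 * (a * n + b))

/-- Candidate matching. -/
def sv (Y : ℕ → ZMod 2) (a b : ℕ) : ZMod 2 := Y (4 * Nat.pair a b + 2)

/-- `altRel`. -/
def dv (n : ℕ) (Y : ℕ → ZMod 2) (a b : ℕ) : ZMod 2 :=
  if b = a then 0 else ∑ c ∈ Finset.range n, sv Y a c * xv n Y c b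

/-- `a` and its partner are less than `r`. -/
def mv (n : ℕ) (Y : ℕ → ZMod 2) (r a : ℕ) : ZMod 2 :=
  if a < r then ∑ b ∈ Finset.range n, if b < r then sv Y a b else 0 else 0

/-- One instance of the successive test: nothing is wrong with the coefficient of degree `d` of
the entry `(u, w)` of the path matrix number `r`, modulo `q`. -/
def cv (n : ℕ) (Y : ℕ → ZMod 2) (r u w d q : ℕ) : ZMod 2 :=
  if q = 0 then 1 else
    1 + mv n Y r u * (mv n Y r w * (dv n Y r u * (dv n Y w r *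
      (1 + Y (2 * Nat.pair q (Nat.pair (cm r u w d) 0) + 1)))))

/-- Bound for the moduli. -/
def qb (p : ℕ) : ℕ := 2 * nv p ^ 2 + 8

/-- The final test. -/
def fin (p : ℕ) (Y : ℕ → ZMod 2) : ZMod 2 :=
  (if p = nv p * nv p then 1 else 0) *
  ((∏ a ∈ Finset.range (nv p), ∏ b ∈ Finset.range (nv p),
      (1 + xv (nv p) Y a b + xv (nv p) Y b a)) *
  ((∏ a ∈ Finset.range (nv p), (1 + xv (nv p) Y a a)) *
  ((∏ a ∈ Finset.range (nv p), ∏ b ∈ Finset.range (nv p), (1 + sv Y a b + sv Y b a)) *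
  ((∏ a ∈ Finset.range (nv p), ∑ b ∈ Finset.range (nv p), sv Y a b) *
  ((∏ a ∈ Finset.range (nv p), ∏ b ∈ Finset.range (nv p), ∏ c ∈ Finset.range (nv p),
      (if b = c then 1 else 1 + sv Y a b * sv Y a c)) *
  (∏ r ∈ Finset.range (nv p), ∏ u ∈ Finset.range (nv p), ∏ w ∈ Finset.range (nv p),
    ∏ d ∈ Finset.range (dg p), ∏ q ∈ Finset.range (qb p), cv (nv p) Y r u w d q))))))

theorem qb_ls : LS qb := ((LS.const 2).mul (nv_ls.pow 2)).add (LS.const 8)

section ops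

variable {K : ℕ → ℕ}

theorem xv_op (hK : LS K) {f g : ℕ → ℕ} (hf : LS f) (hg : LS g) :
    AOp (ZMod 2) K (fun p _ Y z => xv (nv p) Y (f z) (g z)) := by
  refine AOp.re3 hK ?_
  refine LS.mul (LS.const 4) (LS.add (LS.mul (hf.comp (LS.snd LS.id)) ?_)
    (hg.comp (LS.snd LS.id)))
  exact nv_comp (LS.fst (LS.fst LS.id))

theorem sv_op (hK : LS K) {f g : ℕ → ℕ} (hf : LS f) (hg : LS g) :
    AOp (ZMod 2) K (fun _ _ Y z => sv Y (f z) (g z)) := by
  refine AOp.re3 hK ?_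
  exact ((LS.const 4).mul ((hf.comp (LS.snd LS.id)).pair (hg.comp (LS.snd LS.id)))).add
    (LS.const 2)

theorem dv_op (hK : LS K) {f g : ℕ → ℕ} (hf : LS f) (hg : LS g) :
    AOp (ZMod 2) K (fun p _ Y z => dv (nv p) Y (f z) (g z)) := by
  refine AOp.ite3 hK (LSP.eq (hg.comp (LS.snd LS.id)) (hf.comp (LS.snd LS.id))) (AOp.zero hK) ?_
  refine (AOp.sum hK nv_ls (AOp.mul hK (sv_op hK (hf.comp (LS.fst LS.id)) (LS.snd LS.id))
    (xv_op hK (LS.snd LS.id) (hg.comp (LS.fst LS.id))))).congr fun p k S i _ => ?_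
  simp only [Nat.unpair_pair]

theorem mv_op (hK : LS K) {f g : ℕ → ℕ} (hf : LS f) (hg : LS g) :
    AOp (ZMod 2) K (fun p _ Y z => mv (nv p) Y (f z) (g z)) := by
  refine AOp.ite3 hK (LSP.lt (hg.comp (LS.snd LS.id)) (hf.comp (LS.snd LS.id))) ?_ (AOp.zero hK)
  have h : AOp (ZMod 2) K (fun p _ Y z =>
      if z.unpair.2 < f z.unpair.1 then sv Y (g z.unpair.1) z.unpair.2 else 0) :=
    AOp.ite3 hK (LSP.lt (LS.snd (LS.snd LS.id)) (hf.comp (LS.fst (LS.snd LS.id))))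
      (sv_op hK (hg.comp (LS.fst LS.id)) (LS.snd LS.id)) (AOp.zero hK)
  refine (AOp.sum hK nv_ls h).congr fun p k S i _ => ?_
  simp only [Nat.unpair_pair]

theorem cv_op (hK : LS K) {r u w d q : ℕ → ℕ} (hr : LS r) (hu : LS u) (hw : LS w) (hd : LS d)
    (hq : LS q) :
    AOp (ZMod 2) K (fun p _ Y z => cv (nv p) Y (r z) (u z) (w z) (d z) (q z)) := by
  refine AOp.ite3 hK (LSP.eq (hq.comp (LS.snd LS.id)) (LS.const 0)) (AOp.one hK) ?_
  refine AOp.add hK (AOp.one hK) (AOp.mul hK (mv_op hK hr hu) (AOp.mul hK (mv_op hK hr hw)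
    (AOp.mul hK (dv_op hK hr hu) (AOp.mul hK (dv_op hK hw hr) (AOp.add hK (AOp.one hK) ?_)))))
  refine AOp.re3 hK ?_
  unfold cm
  exact ((LS.const 2).mul ((hq.comp (LS.snd LS.id)).pair ((LS.pair (hr.comp (LS.snd LS.id))
    (((hu.comp (LS.snd LS.id)).pair (hw.comp (LS.snd LS.id))).pair
      (hd.comp (LS.snd LS.id)))).pair (LS.const 0)))).succ

theorem fin_op (hK : LS K) : AOp (ZMod 2) K (fun p _ Y _ => fin p Y) := by
  have i1 : LS (fun z => z.unpair.2) := LS.snd LS.id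
  have i2 : LS (fun z => z.unpair.1.unpair.2) := LS.snd (LS.fst LS.id)
  have i3 : LS (fun z => z.unpair.1.unpair.1.unpair.2) := LS.snd (LS.fst (LS.fst LS.id))
  have i4 : LS (fun z => z.unpair.1.unpair.1.unpair.1.unpair.2) :=
    LS.snd (LS.fst (LS.fst (LS.fst LS.id)))
  have i5 : LS (fun z => z.unpair.1.unpair.1.unpair.1.unpair.1.unpair.2) :=
    LS.snd (LS.fst (LS.fst (LS.fst (LS.fst LS.id))))
  refine AOp.mul hK ?_ (AOp.mul hK ?_ (AOp.mul hK ?_ (AOp.mul hK ?_ (AOp.mul hK ?_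
    (AOp.mul hK ?_ ?_)))))
  · refine AOp.bit3 hK (LSP.eq (LS.fst (LS.fst LS.id)) (LS.mul ?_ ?_)) <;>
      exact nv_comp (LS.fst (LS.fst LS.id))
  · refine (AOp.prod hK nv_ls (AOp.prod hK nv_ls (AOp.add hK (AOp.add hK (AOp.one hK)
      (xv_op hK i2 i1)) (xv_op hK i1 i2)))).congr fun p k S i _ => ?_
    simp only [Nat.unpair_pair]
  · refine (AOp.prod hK nv_ls (AOp.add hK (AOp.one hK)
      (xv_op hK i1 i1))).congr fun p k S i _ => ?_
    simp only [Nat.unpair_pair]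
  · refine (AOp.prod hK nv_ls (AOp.prod hK nv_ls (AOp.add hK (AOp.add hK (AOp.one hK)
      (sv_op hK i2 i1)) (sv_op hK i1 i2)))).congr fun p k S i _ => ?_
    simp only [Nat.unpair_pair]
  · refine (AOp.prod hK nv_ls (AOp.sum hK nv_ls (sv_op hK i2 i1))).congr fun p k S i _ => ?_
    simp only [Nat.unpair_pair]
  · have h : AOp (ZMod 2) K (fun _ _ Y z =>
        if z.unpair.1.unpair.2 = z.unpair.2 then 1 else
          1 + sv Y z.unpair.1.unpair.1.unpair.2 z.unpair.1.unpair.2 *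
            sv Y z.unpair.1.unpair.1.unpair.2 z.unpair.2) :=
      AOp.ite3 hK (LSP.eq (LS.snd (LS.fst (LS.snd LS.id))) (LS.snd (LS.snd LS.id)))
        (AOp.one hK) (AOp.add hK (AOp.one hK) (AOp.mul hK (sv_op hK i3 i2) (sv_op hK i3 i1)))
    refine (AOp.prod hK nv_ls (AOp.prod hK nv_ls (AOp.prod hK nv_ls h))).congr
      fun p k S i _ => ?_
    simp only [Nat.unpair_pair]
  · refine (AOp.prod hK nv_ls (AOp.prod hK nv_ls (AOp.prod hK nv_ls (AOp.prod hK dg_ls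
      (AOp.prod hK qb_ls (cv_op hK i5 i4 i3 i2 i1)))))).congr fun p k S i _ => ?_
    simp only [Nat.unpair_pair]

/-- The complete algorithm. -/
noncomputable def alg (p : ℕ) (x : ℕ → ZMod 2) : ZMod 2 :=
  fin p (jn (jn x (sB p x)) (tB p (jn x (sB p x))))

theorem alg_op (hK : LS K) : AOp (ZMod 2) K (fun p _ x _ => alg p x) := by
  have h1 : AOp (ZMod 2) K (fun p _ x => jn x (sB p x)) := AOp.join hK (AOp.id hK) (sB_op hK)
  have h2 : AOp (ZMod 2) K (fun p _ y => jn y (tB p y)) := AOp.join hK (AOp.id hK) (tB_op hK)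
  exact AOp.comp hK (AOp.comp hK h1 h2) (fin_op hK)

end ops

end Pool.Agent.H79.Upm
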