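import Pool.Agent.H79.Upm.SysSum

/-!
# Simulation of integer systems over the two element ring

Residues modulo all small numbers `q` are represented in one-hot form.
-/

namespace Pool.Agent.H79.Upm

/-- An array over `ZMod 2` as an array of integers `0` and `1`. -/
def lift (x : ℕ → ZMod 2) (i : ℕ) : ℤ := if x i = 0 then 0 else 1

/-! ### The simulating system -/

/-- Index `⟨κ, ⟨q, ⟨i, r⟩⟩⟩` of the bit `entry i of the κ-th run is r modulo q`. -/
def smIx (κ q i r : ℕ) : ℕ := Nat.pair κ (Nat.pair q (Nat.pair i r))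

def smk (z : ℕ) : ℕ := z.unpair.1
def smq (z : ℕ) : ℕ := z.unpair.2.unpair.1
def smi (z : ℕ) : ℕ := z.unpair.2.unpair.2.unpair.1
def smr (z : ℕ) : ℕ := z.unpair.2.unpair.2.unpair.2

@[simp] theorem smk_ix (κ q i r : ℕ) : smk (smIx κ q i r) = κ := by simp [smk, smIx]
@[simp] theorem smq_ix (κ q i r : ℕ) : smq (smIx κ q i r) = q := by simp [smq, smIx]
@[simp] theorem smi_ix (κ q i r : ℕ) : smi (smIx κ q i r) = i := by simp [smi, smIx]
@[simp] theorem smr_ix (κ q i r : ℕ) : smr (smIx κ q i r) = r := by simp [smr, smIx]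

theorem LS.smk {f : ℕ → ℕ} (h : LS f) : LS (fun n => smk (f n)) := h.fst
theorem LS.smq {f : ℕ → ℕ} (h : LS f) : LS (fun n => smq (f n)) := h.snd.fst
theorem LS.smi {f : ℕ → ℕ} (h : LS f) : LS (fun n => smi (f n)) := h.snd.snd.fst
theorem LS.smr {f : ℕ → ℕ} (h : LS f) : LS (fun n => smr (f n)) := h.snd.snd.snd

theorem LS.smIx {f g h e : ℕ → ℕ} (hf : LS f) (hg : LS g) (hh : LS h) (he : LS e) :
    LS (fun n => smIx (f n) (g n) (h n) (e n)) := hf.pair (hg.pair (hh.pair he))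

theorem LS.cd {f g h e : ℕ → ℕ} (hf : LS f) (hg : LS g) (hh : LS h) (he : LS e) :
    LS (fun n => cd (f n) (g n) (h n) (e n)) := (hf.pair hg).pair (hh.pair he)

theorem smPair_le {a b c d : ℕ} (h1 : a ≤ c) (h2 : b ≤ d) : Nat.pair a b ≤ Nat.pair c d := by
  rcases h1.lt_or_eq with h | rfl
  · rcases h2.lt_or_eq with h' | rfl
    · exact ((Nat.pair_lt_pair_left _ h).trans (Nat.pair_lt_pair_right _ h')).le
    · exact (Nat.pair_lt_pair_left _ h).le
  · rcases h2.lt_or_eq with h' | rfl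
    · exact (Nat.pair_lt_pair_right _ h').le
    · exact le_rfl

theorem smIx_le {κ q i r κ' q' i' r' : ℕ} (h1 : κ ≤ κ') (h2 : q ≤ q') (h3 : i ≤ i')
    (h4 : r ≤ r') : smIx κ q i r ≤ smIx κ' q' i' r' :=
  smPair_le h1 (smPair_le h2 (smPair_le h3 h4))

/-- The condition in the sum over all pairs of residues. -/
def smC (E : USys) (c q r r1 r2 : ℕ) : Prop :=
  (r1 < q ∧ r2 < q) ∧ ((E.op c = 4 ∧ (r1 + r2) % q = r) ∨ (¬ E.op c = 4 ∧ (r1 * r2) % q = r))

instance (E : USys) (c q r r1 r2 : ℕ) : Decidable (smC E c q r r1 r2) := by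
  unfold smC; infer_instance

/-- One term of the sum over all pairs of residues. -/
def smTerm (E : USys) (p t : ℕ) (Y : ℕ → ZMod 2) (m : ℕ) : ZMod 2 :=
  (if smC E (cd p (smk m.unpair.1) t (smi m.unpair.1)) (smq m.unpair.1) (smr m.unpair.1)
      m.unpair.2.unpair.1 m.unpair.2.unpair.2 then 1 else 0) *
    (Y (2 * smIx (smk m.unpair.1) (smq m.unpair.1)
        (E.a (cd p (smk m.unpair.1) t (smi m.unpair.1))) m.unpair.2.unpair.1 + 1) *
      Y (2 * smIx (smk m.unpair.1) (smq m.unpair.1)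
        (E.b (cd p (smk m.unpair.1) t (smi m.unpair.1))) m.unpair.2.unpair.2 + 1))

/-- The simulating step. -/
def smStep (E : USys) (B : ℕ → ℕ) (p t : ℕ) (Y : ℕ → ZMod 2) (z : ℕ) : ZMod 2 :=
  if E.op (cd p (smk z) t (smi z)) = 0 then (if 0 < smq z ∧ smr z = 0 then 1 else 0)
  else if E.op (cd p (smk z) t (smi z)) = 1 then
    (if 0 < smq z ∧ 1 % smq z = smr z then 1 else 0)
  else if E.op (cd p (smk z) t (smi z)) = 2 then
    (if 0 < smq z ∧ smq z - 1 = smr z then 1 else 0)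
  else if E.op (cd p (smk z) t (smi z)) = 3 then
    Y (2 * smIx (smk z) (smq z) (E.a (cd p (smk z) t (smi z))) (smr z) + 1)
  else ∑ j ∈ Finset.range (B p), smTerm E p t Y (Nat.pair z j)

/-- The initial state. -/
def smInit (_p _k : ℕ) (x : ℕ → ZMod 2) (z : ℕ) : ZMod 2 :=
  x (smi z) * (if 0 < smq z ∧ 1 % smq z = smr z then 1 else 0) +
    (1 - x (smi z)) * (if 0 < smq z ∧ smr z = 0 then 1 else 0)

section uniform

theorem smTerm_aop (E : USys) {K' : ℕ → ℕ} (hK' : LS K') (hop : LS E.op) (ha : LS E.a)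
    (hb : LS E.b) : AOp (ZMod 2) K' (smTerm E) := by
  have lp : LS (fun n => n.unpair.1.unpair.1) := LS.id.fst.fst
  have lt : LS (fun n => n.unpair.1.unpair.2) := LS.id.fst.snd
  have lz : LS (fun n => n.unpair.2.unpair.1) := LS.id.snd.fst
  have lr1 : LS (fun n => n.unpair.2.unpair.2.unpair.1) := LS.id.snd.snd.fst
  have lr2 : LS (fun n => n.unpair.2.unpair.2.unpair.2) := LS.id.snd.snd.snd
  have lc : LS (fun n => cd n.unpair.1.unpair.1 (smk n.unpair.2.unpair.1) n.unpair.1.unpair.2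
      (smi n.unpair.2.unpair.1)) := LS.cd lp lz.smk lt lz.smi
  have hC : LSP (fun n => smC E (cd n.unpair.1.unpair.1 (smk n.unpair.2.unpair.1)
      n.unpair.1.unpair.2 (smi n.unpair.2.unpair.1)) (smq n.unpair.2.unpair.1)
      (smr n.unpair.2.unpair.1) n.unpair.2.unpair.2.unpair.1 n.unpair.2.unpair.2.unpair.2) := by
    have h := ((LSP.lt lr1 lz.smq).and (LSP.lt lr2 lz.smq)).and
      (((LSP.eq (hop.comp lc) (LS.const 4)).and
        (LSP.eq ((lr1.add lr2).mod lz.smq) lz.smr)).or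
       ((LSP.eq (hop.comp lc) (LS.const 4)).not.and
        (LSP.eq ((lr1.mul lr2).mod lz.smq) lz.smr)))
    unfold LSP at h ⊢
    refine (congrArg LS (funext fun n => ?_)).mp h
    exact if_congr Iff.rfl rfl rfl
  have h1 := AOp.bit (R := ZMod 2) hK' hC
  have h2 := AOp.reindex (R := ZMod 2) hK' (((LS.const 2).mul
    (LS.smIx lz.smk lz.smq (ha.comp lc) lr1)).succ)
  have h3 := AOp.reindex (R := ZMod 2) hK' (((LS.const 2).mul
    (LS.smIx lz.smk lz.smq (hb.comp lc) lr2)).succ)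
  refine (AOp.mul hK' h1 (AOp.mul hK' h2 h3)).congr fun p k S i _ => ?_
  simp only [ci, Nat.unpair_pair, smTerm]

theorem smStep_aop (E : USys) {K' : ℕ → ℕ} (hK' : LS K') (hop : LS E.op) (ha : LS E.a)
    (hb : LS E.b) {B : ℕ → ℕ} (hB : LS B) : AOp (ZMod 2) K' (smStep E B) := by
  have lp : LS (fun n => n.unpair.1.unpair.1) := LS.id.fst.fst
  have lt : LS (fun n => n.unpair.1.unpair.2) := LS.id.fst.snd
  have lz : LS (fun n => n.unpair.2) := LS.id.snd
  have lc : LS (fun n => cd n.unpair.1.unpair.1 (smk n.unpair.2) n.unpair.1.unpair.2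
      (smi n.unpair.2)) := LS.cd lp lz.smk lt lz.smi
  have b0 := AOp.bit (R := ZMod 2) hK' ((LSP.lt (LS.const 0) lz.smq).and
    (LSP.eq lz.smr (LS.const 0)))
  have b1 := AOp.bit (R := ZMod 2) hK' ((LSP.lt (LS.const 0) lz.smq).and
    (LSP.eq ((LS.const 1).mod lz.smq) lz.smr))
  have b2 := AOp.bit (R := ZMod 2) hK' ((LSP.lt (LS.const 0) lz.smq).and
    (LSP.eq (lz.smq.sub (LS.const 1)) lz.smr))
  have b3 := AOp.reindex (R := ZMod 2) hK' (((LS.const 2).mul
    (LS.smIx lz.smk lz.smq (ha.comp lc) lz.smr)).succ)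
  have b4 := AOp.sum hK' hB (smTerm_aop E hK' hop ha hb)
  have h := AOp.ite hK' (LSP.eq (hop.comp lc) (LS.const 0)) b0
    (AOp.ite hK' (LSP.eq (hop.comp lc) (LS.const 1)) b1
      (AOp.ite hK' (LSP.eq (hop.comp lc) (LS.const 2)) b2
        (AOp.ite hK' (LSP.eq (hop.comp lc) (LS.const 3)) b3 b4)))
  refine h.congr fun p k S i _ => ?_
  simp only [ci, Nat.unpair_pair, smStep]

theorem smInit_aop {K : ℕ → ℕ} (hK : LS K) : AOp (ZMod 2) K smInit := by
  have lz : LS (fun n => n.unpair.2) := LS.id.snd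
  have b0 := AOp.bit (R := ZMod 2) hK ((LSP.lt (LS.const 0) lz.smq).and
    (LSP.eq lz.smr (LS.const 0)))
  have b1 := AOp.bit (R := ZMod 2) hK ((LSP.lt (LS.const 0) lz.smq).and
    (LSP.eq ((LS.const 1).mod lz.smq) lz.smr))
  have bone := AOp.bit (R := ZMod 2) hK (LSP.eq (LS.const 0) (LS.const 0))
  have bx := AOp.reindex (R := ZMod 2) hK lz.smi
  refine (AOp.add hK (AOp.mul hK bx b1) (AOp.mul hK (AOp.sub hK bone bx) b0)).congr
    fun p k S i _ => ?_
  simp only [ci, Nat.unpair_pair, smInit, if_true]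

end uniform

/-! ### Correctness -/

theorem jn_oddM {R : Type} (x V : ℕ → R) (m : ℕ) : jn x V (2 * m + 1) = V m := by
  unfold jn
  rw [if_neg (by omega)]
  congr 1
  omega

theorem smInit_spec (p k : ℕ) (x : ℕ → ZMod 2) (κ q i r : ℕ) :
    smInit p k x (smIx κ q i r) = if q ≠ 0 ∧ lift x i % (q : ℤ) = (r : ℤ) then 1 else 0 := by
  unfold smInit lift
  rw [smq_ix, smi_ix, smr_ix]
  by_cases hx : x i = 0
  · rw [hx, if_pos rfl, zero_mul, zero_add, sub_zero, one_mul, Int.zero_emod]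
    refine if_congr ?_ rfl rfl
    constructor
    · rintro ⟨h1, h2⟩; exact ⟨by omega, by rw [h2]; rfl⟩
    · rintro ⟨h1, h2⟩; exact ⟨by omega, by exact_mod_cast h2.symm⟩
  · have hx1 : x i = 1 := by
      have : ∀ y : ZMod 2, y ≠ 0 → y = 1 := by decide
      exact this _ hx
    rw [if_neg hx, hx1, one_mul, sub_self, zero_mul, add_zero]
    refine if_congr ?_ rfl rfl
    constructor
    · rintro ⟨h1, h2⟩; exact ⟨by omega, by exact_mod_cast congrArg (Nat.cast (R := ℤ)) h2⟩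
    · rintro ⟨h1, h2⟩; exact ⟨by omega, by exact_mod_cast h2⟩

theorem smSum_spec (q r w N : ℕ) (A B : ℤ) (f g : ℕ → ZMod 2) (D : ℕ → ℕ → Prop)
    [∀ a b, Decidable (D a b)] (hqw : q < w) (hN : Nat.pair w w < N)
    (hf : ∀ r' < w, f r' = if q ≠ 0 ∧ A % (q : ℤ) = (r' : ℤ) then 1 else 0)
    (hg : ∀ r' < w, g r' = if q ≠ 0 ∧ B % (q : ℤ) = (r' : ℤ) then 1 else 0) :
    ∑ j ∈ Finset.range N, (if (j.unpair.1 < q ∧ j.unpair.2 < q) ∧ D j.unpair.1 j.unpair.2
      then (1 : ZMod 2) else 0) * (f j.unpair.1 * g j.unpair.2) =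
      if q ≠ 0 ∧ D (A % (q : ℤ)).toNat (B % (q : ℤ)).toNat then 1 else 0 := by
  by_cases hq : q = 0
  · subst hq
    rw [Finset.sum_eq_zero]
    · rw [if_neg]; rintro ⟨h, _⟩; exact h rfl
    · intro j _
      rw [if_neg, zero_mul]
      rintro ⟨⟨h, _⟩, _⟩
      omega
  have hqz : (0 : ℤ) < q := by exact_mod_cast Nat.pos_of_ne_zero hq
  have hA0 := Int.emod_nonneg A hqz.ne'
  have hA1 := Int.emod_lt_of_pos A hqz
  have hB0 := Int.emod_nonneg B hqz.ne'
  have hB1 := Int.emod_lt_of_pos B hqz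
  have hA : (((A % (q : ℤ)).toNat : ℕ) : ℤ) = A % (q : ℤ) := Int.toNat_of_nonneg hA0
  have hB : (((B % (q : ℤ)).toNat : ℕ) : ℤ) = B % (q : ℤ) := Int.toNat_of_nonneg hB0
  have hAq : (A % (q : ℤ)).toNat < q := by omega
  have hBq : (B % (q : ℤ)).toNat < q := by omega
  rw [Finset.sum_eq_single (Nat.pair (A % (q : ℤ)).toNat (B % (q : ℤ)).toNat)]
  · rw [Nat.unpair_pair]
    simp only
    rw [hf _ (hAq.trans hqw), hg _ (hBq.trans hqw), hA, hB, if_pos (⟨hq, rfl⟩ : q ≠ 0 ∧ _),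
      if_pos (⟨hq, rfl⟩ : q ≠ 0 ∧ _), mul_one, mul_one]
    refine if_congr ?_ rfl rfl
    constructor
    · rintro ⟨_, h⟩; exact ⟨hq, h⟩
    · rintro ⟨_, h⟩; exact ⟨⟨hAq, hBq⟩, h⟩
  · intro j _ hj
    by_cases hC : (j.unpair.1 < q ∧ j.unpair.2 < q) ∧ D j.unpair.1 j.unpair.2
    · by_cases h1 : A % (q : ℤ) = (j.unpair.1 : ℤ)
      · have h2 : ¬ (q ≠ 0 ∧ B % (q : ℤ) = (j.unpair.2 : ℤ)) := by
          rintro ⟨_, h2⟩
          apply hj
          rw [h1, h2, Int.toNat_natCast, Int.toNat_natCast, Nat.pair_unpair]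
        rw [hg _ (hC.1.2.trans hqw), if_neg h2, mul_zero, mul_zero]
      · have h2 : ¬ (q ≠ 0 ∧ A % (q : ℤ) = (j.unpair.1 : ℤ)) := fun h => h1 h.2
        rw [hf _ (hC.1.1.trans hqw), if_neg h2, zero_mul, mul_zero]
    · rw [if_neg hC, zero_mul]
  · intro h
    exfalso
    apply h
    rw [Finset.mem_range]
    exact (smPair_le (hAq.trans hqw).le (hBq.trans hqw).le).trans_lt hN

theorem smStep_spec (E : USys) (B : ℕ → ℕ) (p t : ℕ) (x V : ℕ → ZMod 2) (κ q i r w W : ℕ)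
    (S : ℕ → ℤ) (hB : Nat.pair w w < B p) (hq : q < w) (hr : r < w)
    (ha : E.a (cd p κ t i) < W) (hb : E.b (cd p κ t i) < W)
    (hV : ∀ i' < W, ∀ r' < w, V (smIx κ q i' r') =
      if q ≠ 0 ∧ S i' % (q : ℤ) = (r' : ℤ) then 1 else 0) :
    smStep E B p t (jn x V) (smIx κ q i r) =
      if q ≠ 0 ∧ E.step p κ t S i % (q : ℤ) = (r : ℤ) then 1 else 0 := by
  unfold smStep USys.step
  rw [smk_ix, smq_ix, smi_ix, smr_ix]
  by_cases h0 : E.op (cd p κ t i) = 0
  · rw [if_pos h0, if_pos h0, Int.zero_emod]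
    refine if_congr ?_ rfl rfl
    constructor
    · rintro ⟨h1, h2⟩; exact ⟨by omega, by rw [h2]; rfl⟩
    · rintro ⟨h1, h2⟩; exact ⟨by omega, by exact_mod_cast h2.symm⟩
  rw [if_neg h0, if_neg h0]
  by_cases h1 : E.op (cd p κ t i) = 1
  · rw [if_pos h1, if_pos h1]
    refine if_congr ?_ rfl rfl
    constructor
    · rintro ⟨h1, h2⟩; exact ⟨by omega, by exact_mod_cast congrArg (Nat.cast (R := ℤ)) h2⟩
    · rintro ⟨h1, h2⟩; exact ⟨by omega, by exact_mod_cast h2⟩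
  rw [if_neg h1, if_neg h1]
  by_cases h2 : E.op (cd p κ t i) = 2
  · rw [if_pos h2, if_pos h2]
    refine if_congr ?_ rfl rfl
    constructor
    · rintro ⟨h3, h4⟩
      refine ⟨by omega, ?_⟩
      have h5 : (-1 : ℤ) % (q : ℤ) = (q : ℤ) - 1 := by
        rw [← Int.add_mul_emod_self_left (-1) (q : ℤ) 1, mul_one]
        rw [Int.emod_eq_of_lt (by omega) (by omega)]
        ring
      rw [h5]
      omega
    · rintro ⟨h3, h4⟩
      refine ⟨by omega, ?_⟩
      have h5 : (-1 : ℤ) % (q : ℤ) = (q : ℤ) - 1 := by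
        rw [← Int.add_mul_emod_self_left (-1) (q : ℤ) 1, mul_one]
        rw [Int.emod_eq_of_lt (by omega) (by omega)]
        ring
      rw [h5] at h4
      omega
  rw [if_neg h2, if_neg h2]
  by_cases h3 : E.op (cd p κ t i) = 3
  · rw [if_pos h3, if_pos h3, jn_oddM]
    exact hV _ ha _ hr
  rw [if_neg h3, if_neg h3]
  have hterm : ∀ j, smTerm E p t (jn x V) (Nat.pair (smIx κ q i r) j) =
      (if (j.unpair.1 < q ∧ j.unpair.2 < q) ∧
        ((E.op (cd p κ t i) = 4 ∧ (j.unpair.1 + j.unpair.2) % q = r) ∨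
          (¬ E.op (cd p κ t i) = 4 ∧ (j.unpair.1 * j.unpair.2) % q = r)) then (1 : ZMod 2) else 0) *
      (V (smIx κ q (E.a (cd p κ t i)) j.unpair.1) * V (smIx κ q (E.b (cd p κ t i)) j.unpair.2)) := by
    intro j
    unfold smTerm
    rw [Nat.unpair_pair]
    simp only [smk_ix, smq_ix, smi_ix, smr_ix, jn_oddM]
    congr 1
  rw [Finset.sum_congr rfl fun j _ => hterm j]
  rw [smSum_spec q r w (B p) (S (E.a (cd p κ t i))) (S (E.b (cd p κ t i)))
    (fun r' => V (smIx κ q (E.a (cd p κ t i)) r')) (fun r' => V (smIx κ q (E.b (cd p κ t i)) r'))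
    (fun a b => (E.op (cd p κ t i) = 4 ∧ (a + b) % q = r) ∨
      (¬ E.op (cd p κ t i) = 4 ∧ (a * b) % q = r)) hq hB (hV _ ha) (hV _ hb)]
  by_cases hq0 : q = 0
  · rw [if_neg (fun h => h.1 hq0), if_neg (fun h => h.1 hq0)]
  have hqz : (0 : ℤ) < q := by exact_mod_cast Nat.pos_of_ne_zero hq0
  have hA : (((S (E.a (cd p κ t i)) % (q : ℤ)).toNat : ℕ) : ℤ) = S (E.a (cd p κ t i)) % (q : ℤ) :=
    Int.toNat_of_nonneg (Int.emod_nonneg _ hqz.ne')
  have hB' : (((S (E.b (cd p κ t i)) % (q : ℤ)).toNat : ℕ) : ℤ) = S (E.b (cd p κ t i)) % (q : ℤ) :=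
    Int.toNat_of_nonneg (Int.emod_nonneg _ hqz.ne')
  refine if_congr (and_congr_right fun _ => ?_) rfl rfl
  by_cases h4 : E.op (cd p κ t i) = 4
  · rw [if_pos h4]
    have : ((S (E.a (cd p κ t i)) % (q : ℤ)).toNat + (S (E.b (cd p κ t i)) % (q : ℤ)).toNat) % q
        = r ↔ (S (E.a (cd p κ t i)) + S (E.b (cd p κ t i))) % (q : ℤ) = (r : ℤ) := by
      rw [Int.add_emod, ← hA, ← hB']
      constructor
      · intro h; exact_mod_cast congrArg (Nat.cast (R := ℤ)) h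
      · intro h; exact_mod_cast h
    rw [← this]
    constructor
    · rintro (⟨_, h⟩ | ⟨h, _⟩)
      · exact h
      · exact absurd h4 h
    · intro h; exact Or.inl ⟨h4, h⟩
  · rw [if_neg h4]
    have : ((S (E.a (cd p κ t i)) % (q : ℤ)).toNat * (S (E.b (cd p κ t i)) % (q : ℤ)).toNat) % q
        = r ↔ (S (E.a (cd p κ t i)) * S (E.b (cd p κ t i))) % (q : ℤ) = (r : ℤ) := by
      rw [Int.mul_emod, ← hA, ← hB']
      constructor
      · intro h; exact_mod_cast congrArg (Nat.cast (R := ℤ)) h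
      · intro h; exact_mod_cast h
    rw [← this]
    constructor
    · rintro (⟨h, _⟩ | ⟨_, h⟩)
      · exact absurd h h4
      · exact h
    · intro h; exact Or.inr ⟨h4, h⟩

/-- If `G` is an integer operator, then all the bits `[G(x)_i ≡ r mod q]`, with index
`⟨q, ⟨i, r⟩⟩`, are computed from the bits `x` by systems over `ZMod 2`. -/
theorem AOp.modEq {K : ℕ → ℕ} (hK : LS K) {G : ℕ → ℕ → (ℕ → ℤ) → ℕ → ℤ}
    (hG : AOp ℤ K G) :
    AOp (ZMod 2) K (fun p k x z =>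
      if z.unpair.1 ≠ 0 ∧
        G p k (lift x) z.unpair.2.unpair.1 % (z.unpair.1 : ℤ) = (z.unpair.2.unpair.2 : ℤ)
      then 1 else 0) := by
  refine AOp.of_forall fun w hw => ?_
  obtain ⟨E, T, W, hE, hwW, hrun⟩ := hG w hw
  have hB : LS (fun p => Nat.pair (w p) (w p) + 1) := (hw.pair hw).succ
  have hZ : LS (fun p => smIx (K p) (w p) (W p) (w p) + 1) := (LS.smIx hK hw hE.lsW hw).succ
  have hiter := AOp.iter hK hE.lsT hE.polyLog hZ
    (smStep_aop E hE.lsT hE.lsOp hE.lsA hE.lsB hB) (smInit_aop hK)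
  have hsel : LS (fun n => Nat.pair n.unpair.1.unpair.2 n.unpair.2) :=
    LS.id.fst.snd.pair LS.id.snd
  refine ⟨_, AOp.reindexOf hK hiter hsel, ?_⟩
  intro p k x z hk hz
  have inv : ∀ t, ∀ κ < K p, ∀ q < w p, ∀ i < W p, ∀ r < w p,
      iterA (fun k' V => tr (smIx (K p) (w p) (W p) (w p) + 1)
        (smStep E (fun p => Nat.pair (w p) (w p) + 1) p k' (jn x V))) t
        (tr (smIx (K p) (w p) (W p) (w p) + 1) (smInit p k x)) (smIx κ q i r) =
      if q ≠ 0 ∧ E.run p κ t (lift x) i % (q : ℤ) = (r : ℤ) then 1 else 0 := by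
    intro t
    induction t with
    | zero =>
      intro κ hκ q hq i hi r hr
      show tr _ (smInit p k x) (smIx κ q i r) = _
      unfold tr
      rw [if_pos (Nat.lt_succ_of_le (smIx_le hκ.le hq.le hi.le hr.le)), smInit_spec]
      rfl
    | succ t ih =>
      intro κ hκ q hq i hi r hr
      show tr _ (smStep E _ p t (jn x _)) (smIx κ q i r) = _
      unfold tr
      rw [if_pos (Nat.lt_succ_of_le (smIx_le hκ.le hq.le hi.le hr.le))]
      exact smStep_spec E _ p t x _ κ q i r (w p) (W p) (E.run p κ t (lift x))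
        (Nat.lt_succ_self _) hq hr (hE.closed_a p κ t i hκ hi) (hE.closed_b p κ t i hκ hi)
        (fun i' hi' r' hr' => ih κ hκ q hq i' hi' r' hr')
  have hz1 : z.unpair.1 < w p := (Nat.unpair_left_le z).trans_lt hz
  have hz2 : z.unpair.2 < w p := (Nat.unpair_right_le z).trans_lt hz
  have hz3 : z.unpair.2.unpair.1 < w p := (Nat.unpair_left_le _).trans_lt hz2
  have hz4 : z.unpair.2.unpair.2 < w p := (Nat.unpair_right_le _).trans_lt hz2
  have hzz : Nat.pair k z = smIx k z.unpair.1 z.unpair.2.unpair.1 z.unpair.2.unpair.2 := by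
    rw [smIx, Nat.pair_unpair, Nat.pair_unpair]
  simp only [ci, Nat.unpair_pair]
  rw [hzz, inv (T p) k hk _ hz1 _ (hz3.trans_le (hwW p)) _ hz4, hrun p k hk _ _ hz3]

end Pool.Agent.H79.Upm
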