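import Pool.Agent.H79.Upm.MOpGeo
import Pool.Agent.H79.Upm.SysMod

/-!
# Conveniences for building operators
-/

namespace Pool.Agent.H79.Upm

open PowerSeries

/-- Number of vertices of a graph whose adjacency matrix has `p` entries. -/
def nv (p : ℕ) : ℕ := Nat.sqrt p

/-- Degree bound. -/
def dg (p : ℕ) : ℕ := nv p + 1

/-- Number of squarings. -/
def lg (p : ℕ) : ℕ := Nat.log 2 (nv p) + 1

theorem nv_ls : LS nv := LS.id.sqrt
theorem dg_ls : LS dg := nv_ls.succ
theorem lg_ls : LS lg := (LS.log nv_ls).succ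
theorem lg_polyLog : PolyLog lg :=
  PolyLog.add (PolyLog.log nv_ls.polyBd) (PolyLog.const 1)
theorem one_ls : LS (fun _ => 1) := LS.const 1

theorem nv_lt (p : ℕ) : nv p < 2 ^ lg p := Nat.lt_pow_succ_log_self (by norm_num) _

theorem nv_comp {f : ℕ → ℕ} (hf : LS f) : LS (fun c => nv (f c)) := nv_ls.comp hf

namespace AOp

variable {R : Type} [CommRing R] {K : ℕ → ℕ} {F G : ℕ → ℕ → (ℕ → R) → ℕ → R}

theorem ite3 (hK : LS K) {P : ℕ → ℕ → ℕ → Prop} [∀ p k i, Decidable (P p k i)]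
    (hP : LSP (fun c => P c.unpair.1.unpair.1 c.unpair.1.unpair.2 c.unpair.2))
    (hF : AOp R K F) (hG : AOp R K G) :
    AOp R K (fun p k S i => if P p k i then F p k S i else G p k S i) := by
  refine (AOp.ite hK hP hF hG).congr fun p k S i _ => ?_
  simp only [ci, Nat.unpair_pair]

theorem bit3 (hK : LS K) {P : ℕ → ℕ → ℕ → Prop} [∀ p k i, Decidable (P p k i)]
    (hP : LSP (fun c => P c.unpair.1.unpair.1 c.unpair.1.unpair.2 c.unpair.2)) :
    AOp R K (fun p k _ i => if P p k i then 1 else 0) := by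
  refine (AOp.bit hK hP).congr fun p k S i _ => ?_
  simp only [ci, Nat.unpair_pair]

theorem re3 (hK : LS K) {g : ℕ → ℕ → ℕ → ℕ}
    (hg : LS (fun c => g c.unpair.1.unpair.1 c.unpair.1.unpair.2 c.unpair.2)) :
    AOp R K (fun p k S i => S (g p k i)) := by
  refine (AOp.reindex hK hg).congr fun p k S i _ => ?_
  simp only [ci, Nat.unpair_pair]

theorem reOf3 (hK : LS K) (hF : AOp R K F) {g : ℕ → ℕ → ℕ → ℕ}
    (hg : LS (fun c => g c.unpair.1.unpair.1 c.unpair.1.unpair.2 c.unpair.2)) :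
    AOp R K (fun p k S i => F p k S (g p k i)) := by
  refine (AOp.reindexOf hK hF hg).congr fun p k S i _ => ?_
  simp only [ci, Nat.unpair_pair]

theorem zero (hK : LS K) : AOp R K (fun _ _ _ _ => 0) := by
  refine (AOp.bit (R := R) hK (P := fun _ => False) ?_).congr fun p k S i _ => ?_
  · exact (LS.const 0).comp LS.id
  · simp

theorem one (hK : LS K) : AOp R K (fun _ _ _ _ => 1) := by
  refine (AOp.bit (R := R) hK (P := fun _ => True) ?_).congr fun p k S i _ => ?_
  · exact (LS.const 1).comp LS.id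
  · simp

end AOp

namespace MOp

variable {N D K : ℕ → ℕ}

/-- Reindexing with functions of the four arguments `p`, `κ`, `x`, `y`. -/
theorem re4 {N' : ℕ → ℕ} (hN : LS N) (hN' : LS N') (hD : LS D) (hK : LS K)
    {F' : (p : ℕ) → ℕ → (ℕ → ℤ) → ℕ → Mat (N' p)} (hF : MOp N' D K F')
    {P : ℕ → ℕ → ℕ → ℕ → Prop} [∀ p κ x y, Decidable (P p κ x y)]
    (hP : LSP (fun c => P c.unpair.1 c.unpair.2.unpair.1 c.unpair.2.unpair.2.unpair.1
      c.unpair.2.unpair.2.unpair.2)) {f g h : ℕ → ℕ → ℕ → ℕ → ℕ}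
    (hf : LS (fun c => f c.unpair.1 c.unpair.2.unpair.1 c.unpair.2.unpair.2.unpair.1
      c.unpair.2.unpair.2.unpair.2))
    (hg : LS (fun c => g c.unpair.1 c.unpair.2.unpair.1 c.unpair.2.unpair.2.unpair.1
      c.unpair.2.unpair.2.unpair.2))
    (hh : LS (fun c => h c.unpair.1 c.unpair.2.unpair.1 c.unpair.2.unpair.2.unpair.1
      c.unpair.2.unpair.2.unpair.2)) :
    MOp N D K (fun p k S κ => Matrix.of fun x y =>
      if H : P p κ x y ∧ f p κ x y < N' p ∧ g p κ x y < N' p then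
        F' p k S (h p κ x y) ⟨f p κ x y, H.2.1⟩ ⟨g p κ x y, H.2.2⟩
      else 0) := by
  refine (MOp.reindex hN hN' hD hK hF hP hf hg hh).congr fun p k S κ x y d _ _ => ?_
  simp only [ce, Nat.unpair_pair]

end MOp

end Pool.Agent.H79.Upm
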