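import Pool.Agent.H79.Upm.RProg

/-!
# Counter programs for the pairing functions
-/

namespace Pool.Agent.H79.Upm

/-! ### States given by a list of values -/

/-- The counters `d, d + 1, …` contain the values in `v`, the other counters are as in `σ`. -/
def stL (σ : ℕ → ℕ) (d : ℕ) (v : List ℕ) : ℕ → ℕ := fun e =>
  if d ≤ e ∧ e < d + v.length then v.getD (e - d) 0 else σ e

theorem stL_get (σ : ℕ → ℕ) (d : ℕ) (v : List ℕ) (i : ℕ) (hi : i < v.length) :
    stL σ d v (d + i) = v.getD i 0 := by
  unfold stL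
  rw [if_pos ⟨by omega, by omega⟩]
  congr 1
  omega

theorem stL_upd (σ : ℕ → ℕ) (d : ℕ) (v : List ℕ) (i : ℕ) (hi : i < v.length) (a : ℕ) :
    Function.update (stL σ d v) (d + i) a = stL σ d (v.set i a) := by
  funext e
  unfold stL
  rw [Function.update_apply, List.length_set]
  by_cases he : e = d + i
  · subst he
    rw [if_pos rfl, if_pos ⟨by omega, by omega⟩]
    have : d + i - d = i := by omega
    rw [this, List.getD_eq_getElem?_getD, List.getElem?_set_self hi]
    rfl
  · rw [if_neg he]
    by_cases h : d ≤ e ∧ e < d + v.length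
    · rw [if_pos h, if_pos h, List.getD_eq_getElem?_getD, List.getD_eq_getElem?_getD,
        List.getElem?_set_ne (by omega)]
    · rw [if_neg h, if_neg h]

namespace RProg

theorem ex_inc {B : ℕ} (σ : ℕ → ℕ) (d : ℕ) (v : List ℕ) (i : ℕ) (hi : i < v.length)
    (hB : v.getD i 0 < B) :
    Exec B (inc (d + i)) (stL σ d v) (stL σ d (v.set i (v.getD i 0 + 1))) [] := by
  have h1 := Exec.inc (B := B) (stL σ d v) (d + i) (by rw [stL_get σ d v i hi]; exact hB)
  rw [stL_get σ d v i hi, stL_upd σ d v i hi] at h1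
  exact h1

theorem ex_dec {B : ℕ} (σ : ℕ → ℕ) (d : ℕ) (v : List ℕ) (i : ℕ) (hi : i < v.length) :
    Exec B (dec (d + i)) (stL σ d v) (stL σ d (v.set i (v.getD i 0 - 1))) [] := by
  have h1 := Exec.dec (B := B) (stL σ d v) (d + i)
  rw [stL_get σ d v i hi, stL_upd σ d v i hi] at h1
  exact h1

theorem ex_seq {B : ℕ} {P Q : RProg} {σ σ' σ'' : ℕ → ℕ} (h : Exec B P σ σ' [])
    (h' : Exec B Q σ' σ'' []) : Exec B (seq P Q) σ σ'' [] := by
  simpa using Exec.seq h h'

theorem ex_ifzZ {B : ℕ} {P Q : RProg} {σ σ' : ℕ → ℕ} {d : ℕ} {v : List ℕ} {i : ℕ}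
    (hi : i < v.length) (hv : v.getD i 0 = 0) (h : Exec B P (stL σ d v) σ' []) :
    Exec B (ifz (d + i) P Q) (stL σ d v) σ' [] :=
  Exec.ifzZ (by rw [stL_get σ d v i hi]; exact hv) h

theorem ex_ifzS {B : ℕ} {P Q : RProg} {σ σ' : ℕ → ℕ} {d : ℕ} {v : List ℕ} {i : ℕ}
    (hi : i < v.length) (hv : v.getD i 0 ≠ 0) (h : Exec B Q (stL σ d v) σ' []) :
    Exec B (ifz (d + i) P Q) (stL σ d v) σ' [] :=
  Exec.ifzS (by rw [stL_get σ d v i hi]; exact hv) h

/-- loops with a prescribed sequence of states -/
theorem ex_loop {B : ℕ} {P : RProg} (σ : ℕ → ℕ) (d i n : ℕ) (L : ℕ → List ℕ)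
    (hi : ∀ k ≤ n, i < (L k).length) (hv : ∀ k ≤ n, (L k).getD i 0 = n - k)
    (hstep : ∀ k < n, Exec B P (stL σ d ((L k).set i (n - (k + 1)))) (stL σ d (L (k + 1))) []) :
    Exec B (loop (d + i) P) (stL σ d (L 0)) (stL σ d (L n)) [] := by
  have key : ∀ m ≤ n, Exec B (loop (d + i) P) (stL σ d (L (n - m))) (stL σ d (L n)) [] := by
    intro m
    induction m with
    | zero =>
      intro _
      refine Exec.loopZ ?_
      rw [Nat.sub_zero, stL_get σ d _ i (hi n le_rfl), hv n le_rfl, Nat.sub_self]
    | succ m ih =>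
      intro hm
      have h1 := hstep (n - (m + 1)) (by omega)
      have h2 := ih (by omega)
      have h3 : n - (m + 1) + 1 = n - m := by omega
      rw [h3] at h1
      have hg := stL_get σ d (L (n - (m + 1))) i (hi _ (by omega))
      rw [hv _ (by omega)] at hg
      have h4 : Exec B P (Function.update (stL σ d (L (n - (m + 1)))) (d + i)
          (stL σ d (L (n - (m + 1))) (d + i) - 1)) (stL σ d (L (n - m))) [] := by
        rw [stL_upd σ d _ i (hi _ (by omega)), hg]
        have h5 : n - (n - (m + 1)) - 1 = n - (n - m) := by omega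
        rw [h5]
        exact h1
      simpa using Exec.loopS (by rw [hg]; omega) h4 h2
  simpa using key n le_rfl

end RProg

open RProg

/-- The program of `exists_prog_pair` -/
def pairProg (d : ℕ) : RProg :=
  -- `[x, y, 0, 0, 0] → [x, y, y - x, 0, 0]`
  seq (loop (d + 1) (seq (inc (d + 2)) (inc (d + 3)))) <|
  seq (loop (d + 3) (inc (d + 1))) <|
  seq (loop (d + 0) (seq (dec (d + 2)) (inc (d + 3)))) <|
  seq (loop (d + 3) (inc (d + 0))) <|
  ifz (d + 2)
    (seq (loop (d + 0) (seq (inc (d + 2)) (inc (d + 3)))) <|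
      seq (loop (d + 2) (seq (loop (d + 3) (seq (inc (d + 0)) (inc (d + 4))))
        (loop (d + 4) (inc (d + 3))))) <|
      seq (loop (d + 3) (inc (d + 0))) (loop (d + 1) (inc (d + 0))))
    (seq (loop (d + 2) skip) <|
      seq (loop (d + 1) (seq (inc (d + 2)) (inc (d + 3)))) <|
      seq (loop (d + 2) (seq (loop (d + 3) (seq (inc (d + 0)) (inc (d + 4))))
        (loop (d + 4) (inc (d + 3)))))
      (loop (d + 3) skip))

theorem ex_skipLoop {B : ℕ} (σ : ℕ → ℕ) (d i : ℕ) (v : List ℕ) (hi : i < v.length) :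
    Exec B (loop (d + i) skip) (stL σ d v) (stL σ d (v.set i 0)) [] := by
  have h := ex_loop (B := B) (P := skip) σ d i (v.getD i 0) (fun k => v.set i (v.getD i 0 - k))
    (fun k _ => by rw [List.length_set]; exact hi)
    (fun k _ => by
      rw [List.getD_eq_getElem?_getD, List.getElem?_set_self hi]
      rfl)
    (fun k _ => by
      rw [List.set_set]
      exact Exec.skip _)
  have h0 : v.set i (v.getD i 0 - 0) = v := by
    rw [Nat.sub_zero]
    apply List.ext_getElem?
    intro j
    by_cases hj : j = i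
    · subst hj
      rw [List.getElem?_set_self hi, List.getD_eq_getElem?_getD, List.getElem?_eq_getElem hi]
      rfl
    · rw [List.getElem?_set_ne (Ne.symm hj)]
  rw [h0, Nat.sub_self] at h
  exact h

/-- the multiplication loop: `[a, b, m, k, 0] → [a + m * k, b, 0, k, 0]` -/
theorem ex_mulLoop {B : ℕ} (σ : ℕ → ℕ) (d a b m k : ℕ) (hB : a + m * k < B) (hk : k < B) :
    Exec B (loop (d + 2) (seq (loop (d + 3) (seq (inc (d + 0)) (inc (d + 4))))
        (loop (d + 4) (inc (d + 3))))) (stL σ d [a, b, m, k, 0])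
      (stL σ d [a + m * k, b, 0, k, 0]) [] := by
  have h := ex_loop (B := B) (P := seq (loop (d + 3) (seq (inc (d + 0)) (inc (d + 4))))
        (loop (d + 4) (inc (d + 3)))) σ d 2 m (fun j => [a + j * k, b, m - j, k, 0])
    (fun _ _ => by simp) (fun _ _ => rfl) ?_
  · simpa using h
  · intro j hj
    have hjm : (j + 1) * k ≤ m * k := Nat.mul_le_mul_right k hj
    have hj1 : (j + 1) * k = j * k + k := by ring
    refine ex_seq (σ' := stL σ d [a + (j + 1) * k, b, m - (j + 1), 0, k]) ?_ ?_
    · have h1 := ex_loop (B := B) (P := seq (inc (d + 0)) (inc (d + 4))) σ d 3 k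
        (fun i => [a + j * k + i, b, m - (j + 1), k - i, i]) (fun _ _ => by simp)
        (fun _ _ => rfl) (fun i hi => by
          refine ex_seq (ex_inc σ d _ 0 (by simp) ?_) (ex_inc σ d _ 4 (by simp) ?_)
          · show a + j * k + i < B
            omega
          · show i < B
            omega)
      simpa [hj1, add_assoc] using h1
    · have h1 := ex_loop (B := B) (P := inc (d + 3)) σ d 4 k
        (fun i => [a + (j + 1) * k, b, m - (j + 1), i, k - i]) (fun _ _ => by simp)
        (fun _ _ => rfl) (fun i hi => by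
          refine ex_inc σ d _ 3 (by simp) ?_
          show i < B
          omega)
      simpa using h1

theorem pairProg_exec {B : ℕ} (σ : ℕ → ℕ) (d x y : ℕ) (hB : (x + y + 2) ^ 2 ≤ B) :
    Exec B (pairProg d) (stL σ d [x, y, 0, 0, 0]) (stL σ d [Nat.pair x y, 0, 0, 0, 0]) [] := by
  have hB1 : x + y + 2 ≤ B := by nlinarith
  have hxx : x * x + x + y < B := by nlinarith
  have hyy : y * y + x < B := by nlinarith
  refine ex_seq (σ' := stL σ d [x, 0, y, y, 0]) ?_ ?_
  · have h1 := ex_loop (B := B) (P := seq (inc (d + 2)) (inc (d + 3))) σ d 1 y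
      (fun i => [x, y - i, i, i, 0]) (fun _ _ => by simp) (fun _ _ => rfl) (fun i hi => by
        refine ex_seq (ex_inc σ d _ 2 (by simp) ?_) (ex_inc σ d _ 3 (by simp) ?_)
        · show i < B
          omega
        · show i < B
          omega)
    simpa using h1
  refine ex_seq (σ' := stL σ d [x, y, y, 0, 0]) ?_ ?_
  · have h1 := ex_loop (B := B) (P := inc (d + 1)) σ d 3 y
      (fun i => [x, i, y, y - i, 0]) (fun _ _ => by simp) (fun _ _ => rfl) (fun i hi => by
        refine ex_inc σ d _ 1 (by simp) ?_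
        show i < B
        omega)
    simpa using h1
  refine ex_seq (σ' := stL σ d [0, y, y - x, x, 0]) ?_ ?_
  · have h1 := ex_loop (B := B) (P := seq (dec (d + 2)) (inc (d + 3))) σ d 0 x
      (fun i => [x - i, y, y - i, i, 0]) (fun _ _ => by simp) (fun _ _ => rfl) (fun i hi => by
        refine ex_seq (ex_dec σ d _ 2 (by simp)) (ex_inc σ d _ 3 (by simp) ?_)
        show i < B
        omega)
    simpa using h1
  refine ex_seq (σ' := stL σ d [x, y, y - x, 0, 0]) ?_ ?_
  · have h1 := ex_loop (B := B) (P := inc (d + 0)) σ d 3 x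
      (fun i => [i, y, y - x, x - i, 0]) (fun _ _ => by simp) (fun _ _ => rfl) (fun i hi => by
        refine ex_inc σ d _ 0 (by simp) ?_
        show i < B
        omega)
    simpa using h1
  by_cases hxy : x < y
  · refine ex_ifzS (by simp) (by show y - x ≠ 0; omega) ?_
    have hpair : Nat.pair x y = y * y + x := by rw [Nat.pair, if_pos hxy]
    refine ex_seq (σ' := stL σ d [x, y, 0, 0, 0]) ?_ ?_
    · exact ex_skipLoop σ d 2 _ (by simp)
    refine ex_seq (σ' := stL σ d [x, 0, y, y, 0]) ?_ ?_
    · have h1 := ex_loop (B := B) (P := seq (inc (d + 2)) (inc (d + 3))) σ d 1 y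
        (fun i => [x, y - i, i, i, 0]) (fun _ _ => by simp) (fun _ _ => rfl) (fun i hi => by
          refine ex_seq (ex_inc σ d _ 2 (by simp) ?_) (ex_inc σ d _ 3 (by simp) ?_)
          · show i < B
            omega
          · show i < B
            omega)
      simpa using h1
    refine ex_seq (σ' := stL σ d [x + y * y, 0, 0, y, 0]) ?_ ?_
    · exact ex_mulLoop σ d x 0 y y (by omega) (by omega)
    have h1 := ex_skipLoop (B := B) σ d 3 [x + y * y, 0, 0, y, 0] (by simp)
    have h2 : x + y * y = y * y + x := add_comm _ _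
    rw [hpair, ← h2]
    exact h1
  · refine ex_ifzZ (by simp) (by show y - x = 0; omega) ?_
    have hyx : y - x = 0 := by omega
    rw [hyx]
    have hpair : Nat.pair x y = x * x + x + y := by rw [Nat.pair, if_neg hxy]
    refine ex_seq (σ' := stL σ d [0, y, x, x, 0]) ?_ ?_
    · have h1 := ex_loop (B := B) (P := seq (inc (d + 2)) (inc (d + 3))) σ d 0 x
        (fun i => [x - i, y, i, i, 0]) (fun _ _ => by simp) (fun _ _ => rfl) (fun i hi => by
          refine ex_seq (ex_inc σ d _ 2 (by simp) ?_) (ex_inc σ d _ 3 (by simp) ?_)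
          · show i < B
            omega
          · show i < B
            omega)
      simpa using h1
    refine ex_seq (σ' := stL σ d [x * x, y, 0, x, 0]) ?_ ?_
    · have h1 := ex_mulLoop (B := B) σ d 0 y x x (by omega) (by omega)
      simpa using h1
    refine ex_seq (σ' := stL σ d [x * x + x, y, 0, 0, 0]) ?_ ?_
    · have h1 := ex_loop (B := B) (P := inc (d + 0)) σ d 3 x
        (fun i => [x * x + i, y, 0, x - i, 0]) (fun _ _ => by simp) (fun _ _ => rfl) (fun i hi => by
          refine ex_inc σ d _ 0 (by simp) ?_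
          show x * x + i < B
          omega)
      simpa using h1
    · have h1 := ex_loop (B := B) (P := inc (d + 0)) σ d 1 y
        (fun i => [x * x + x + i, y - i, 0, 0, 0]) (fun _ _ => by simp) (fun _ _ => rfl)
        (fun i hi => by
          refine ex_inc σ d _ 0 (by simp) ?_
          show x * x + x + i < B
          omega)
      rw [hpair]
      simpa using h1

theorem stL_five_eq (σ τ : ℕ → ℕ) (d a b : ℕ) (h0 : τ d = a) (h1 : τ (d + 1) = b)
    (h2 : ∀ e, d + 1 < e → τ e = 0) (h3 : ∀ e, d + 4 < e → σ e = 0) (h4 : ∀ e < d, τ e = σ e) :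
    stL σ d [a, b, 0, 0, 0] = τ := by
  funext e
  unfold stL
  by_cases h : d ≤ e ∧ e < d + [a, b, 0, 0, 0].length
  · rw [if_pos h]
    simp only [List.length_cons, List.length_nil] at h
    obtain ⟨i, rfl⟩ := Nat.exists_eq_add_of_le h.1
    have hi : i < 5 := by omega
    have h5 : d + i - d = i := by omega
    rw [h5]
    interval_cases i
    · exact h0.symm
    · exact h1.symm
    · exact (h2 _ (by omega)).symm
    · exact (h2 _ (by omega)).symm
    · exact (h2 _ (by omega)).symm
  · rw [if_neg h]
    simp only [List.length_cons, List.length_nil] at h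
    by_cases hd : e < d
    · exact (h4 e hd).symm
    · rw [h3 e (by omega), h2 e (by omega)]

/-- A program that replaces the contents `x`, `y` of the counters `d`, `d + 1` by
`Nat.pair x y` and `0`, with the counters `> d + 1` as clean scratch space. -/
theorem exists_prog_pair (d : ℕ) : ∃ (P : RProg) (c : ℕ), ∀ σ : ℕ → ℕ,
    (∀ e, d + 1 < e → σ e = 0) →
      P.Exec ((σ d + σ (d + 1) + 2) ^ c) σ
        (Function.update (Function.update σ d (Nat.pair (σ d) (σ (d + 1)))) (d + 1) 0) [] := by
  refine ⟨pairProg d, 2, fun σ hσ => ?_⟩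
  have h := pairProg_exec σ d (σ d) (σ (d + 1)) le_rfl
  rw [stL_five_eq σ σ d _ _ rfl rfl hσ (fun e he => hσ e (by omega)) (fun _ _ => rfl),
    stL_five_eq σ (Function.update (Function.update σ d (Nat.pair (σ d) (σ (d + 1)))) (d + 1) 0)
      d _ _ (by simp) (by simp) ?_ (fun e he => hσ e (by omega)) ?_] at h
  · exact h
  · intro e he
    rw [Function.update_of_ne (by omega), Function.update_of_ne (by omega)]
    exact hσ e he
  · intro e he
    rw [Function.update_of_ne (by omega), Function.update_of_ne (by omega)]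

/-- One step in the enumeration of pairs; the counters are `[_, x, y, y - x, x - y]`. -/
def succProg (d : ℕ) : RProg :=
  ifz (d + 3)
    (ifz (d + 4)
      (seq (inc (d + 2)) (seq (loop (d + 1) (inc (d + 3))) (inc (d + 3))))
      (seq (inc (d + 2)) (dec (d + 4))))
    (seq (inc (d + 1)) (seq (dec (d + 3)) (ifz (d + 3) (loop (d + 2) (inc (d + 4))) skip)))

theorem succProg_exec {B : ℕ} (σ : ℕ → ℕ) (d w x y : ℕ) (hB : x + y + 1 < B) :
    Exec B (succProg d) (stL σ d [w, x, y, y - x, x - y])
      (stL σ d [w, (Nat.unpair (Nat.pair x y + 1)).1, (Nat.unpair (Nat.pair x y + 1)).2,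
        (Nat.unpair (Nat.pair x y + 1)).2 - (Nat.unpair (Nat.pair x y + 1)).1,
        (Nat.unpair (Nat.pair x y + 1)).1 - (Nat.unpair (Nat.pair x y + 1)).2]) [] := by
  rcases lt_trichotomy x y with hxy | hxy | hxy
  · -- `x < y`
    refine ex_ifzS (by simp) (by show y - x ≠ 0; omega) ?_
    by_cases hxy1 : x + 1 = y
    · have hp : Nat.pair x y + 1 = Nat.pair y 0 := by
        rw [Nat.pair, if_pos hxy, Nat.pair, if_neg (by omega)]
        omega
      rw [hp, Nat.unpair_pair]
      show Exec B _ _ (stL σ d [w, y, 0, 0 - y, y - 0]) []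
      refine ex_seq (ex_inc σ d _ 1 (by simp) (by show x < B; omega)) ?_
      refine ex_seq (ex_dec σ d _ 3 (by simp)) ?_
      show Exec B _ (stL σ d [w, x + 1, y, y - x - 1, x - y]) _ []
      have e1 : y - x - 1 = 0 := by omega
      have e2 : x - y = 0 := by omega
      have e3 : 0 - y = 0 := by omega
      rw [e1, e2, e3, hxy1, Nat.sub_zero]
      refine ex_ifzZ (by simp) rfl ?_
      have h1 := ex_loop (B := B) (P := inc (d + 4)) σ d 2 y
        (fun i => [w, y, y - i, 0, i]) (fun _ _ => by simp) (fun _ _ => rfl) (fun i hi => by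
          refine ex_inc σ d _ 4 (by simp) ?_
          show i < B
          omega)
      simpa using h1
    · have hp : Nat.pair x y + 1 = Nat.pair (x + 1) y := by
        rw [Nat.pair, if_pos hxy, Nat.pair, if_pos (by omega)]
        omega
      rw [hp, Nat.unpair_pair]
      show Exec B _ _ (stL σ d [w, x + 1, y, y - (x + 1), x + 1 - y]) []
      refine ex_seq (ex_inc σ d _ 1 (by simp) (by show x < B; omega)) ?_
      refine ex_seq (ex_dec σ d _ 3 (by simp)) ?_
      show Exec B _ (stL σ d [w, x + 1, y, y - x - 1, x - y]) _ []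
      have e1 : y - x - 1 = y - (x + 1) := by omega
      have e2 : x - y = x + 1 - y := by omega
      rw [e1, e2]
      exact ex_ifzS (by simp) (by show y - (x + 1) ≠ 0; omega) (Exec.skip _)
  · -- `x = y`
    subst hxy
    have hp : Nat.pair x x + 1 = Nat.pair 0 (x + 1) := by
      rw [Nat.pair, if_neg (by omega), Nat.pair, if_pos (by omega)]
      ring
    rw [hp, Nat.unpair_pair]
    show Exec B _ (stL σ d [w, x, x, x - x, x - x]) (stL σ d [w, 0, x + 1, x + 1 - 0,
      0 - (x + 1)]) []
    rw [Nat.sub_self, Nat.sub_zero, Nat.zero_sub]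
    refine ex_ifzZ (by simp) rfl (ex_ifzZ (by simp) rfl ?_)
    refine ex_seq (ex_inc σ d _ 2 (by simp) (by show x < B; omega)) ?_
    show Exec B _ (stL σ d [w, x, x + 1, 0, 0]) _ []
    refine ex_seq (σ' := stL σ d [w, 0, x + 1, x, 0]) ?_ ?_
    · have h1 := ex_loop (B := B) (P := inc (d + 3)) σ d 1 x
        (fun i => [w, x - i, x + 1, i, 0]) (fun _ _ => by simp) (fun _ _ => rfl) (fun i hi => by
          refine ex_inc σ d _ 3 (by simp) ?_
          show i < B
          omega)
      simpa using h1
    · exact ex_inc σ d _ 3 (by simp) (by show x < B; omega)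
  · -- `y < x`
    have hp : Nat.pair x y + 1 = Nat.pair x (y + 1) := by
      rw [Nat.pair, if_neg (by omega), Nat.pair, if_neg (by omega)]
      omega
    rw [hp, Nat.unpair_pair]
    show Exec B _ _ (stL σ d [w, x, y + 1, y + 1 - x, x - (y + 1)]) []
    refine ex_ifzZ (by simp) (by show y - x = 0; omega)
      (ex_ifzS (by simp) (by show x - y ≠ 0; omega) ?_)
    refine ex_seq (ex_inc σ d _ 2 (by simp) (by show y < B; omega)) ?_
    have h1 := ex_dec (B := B) σ d [w, x, y + 1, y - x, x - y] 4 (by simp)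
    have e1 : y + 1 - x = y - x := by omega
    have e2 : x - (y + 1) = x - y - 1 := by omega
    rw [e1, e2]
    exact h1

theorem unpairLoop_exec {B : ℕ} (σ : ℕ → ℕ) (d z : ℕ) (hB : 2 * z + 1 < B) :
    Exec B (loop (d + 0) (succProg d)) (stL σ d [z, 0, 0, 0, 0])
      (stL σ d [0, z.unpair.1, z.unpair.2, z.unpair.2 - z.unpair.1,
        z.unpair.1 - z.unpair.2]) [] := by
  have h := ex_loop (B := B) (P := succProg d) σ d 0 z
    (fun k => [z - k, k.unpair.1, k.unpair.2, k.unpair.2 - k.unpair.1,
      k.unpair.1 - k.unpair.2]) (fun _ _ => by simp) (fun _ _ => rfl) (fun k hk => by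
      have h1 : k.unpair.1 ≤ k := Nat.unpair_left_le k
      have h2 : k.unpair.2 ≤ k := Nat.unpair_right_le k
      have h3 := succProg_exec (B := B) σ d (z - (k + 1)) k.unpair.1 k.unpair.2 (by omega)
      rw [Nat.pair_unpair] at h3
      exact h3)
  have h0 : Nat.unpair 0 = (0, 0) := Nat.unpair_zero
  simp only [h0, Nat.sub_zero, Nat.sub_self] at h
  exact h

/-- A program that replaces the contents `z`, `0` of the counters `d`, `d + 1` by the two
components of `Nat.unpair z`, with the counters `> d + 1` as clean scratch space. -/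
theorem exists_prog_unpair (d : ℕ) : ∃ (P : RProg) (c : ℕ), ∀ σ : ℕ → ℕ,
    (∀ e, d < e → σ e = 0) →
      P.Exec ((σ d + 2) ^ c) σ
        (Function.update (Function.update σ d (σ d).unpair.1) (d + 1) (σ d).unpair.2) [] := by
  refine ⟨seq (loop (d + 0) (succProg d)) <| seq (loop (d + 1) (inc (d + 0))) <|
    seq (loop (d + 2) (inc (d + 1))) <| seq (loop (d + 3) skip) (loop (d + 4) skip), 2,
    fun σ hσ => ?_⟩
  obtain ⟨z, hz⟩ : ∃ z, σ d = z := ⟨_, rfl⟩
  rw [hz]
  have hB : 2 * z + 1 < (z + 2) ^ 2 := by nlinarith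
  generalize (z + 2) ^ 2 = B at hB
  have hx : z.unpair.1 ≤ z := Nat.unpair_left_le z
  have hy : z.unpair.2 ≤ z := Nat.unpair_right_le z
  have hσ0 : σ = stL σ d [z, 0, 0, 0, 0] :=
    (stL_five_eq σ σ d z 0 hz (hσ _ (by omega)) (fun e he => hσ e (by omega))
      (fun e he => hσ e (by omega)) (fun _ _ => rfl)).symm
  have hσ1 : Function.update (Function.update σ d z.unpair.1) (d + 1) z.unpair.2 =
      stL σ d [z.unpair.1, z.unpair.2, 0, 0, 0] := by
    symm
    refine stL_five_eq σ _ d _ _ (by simp) (by simp) ?_ (fun e he => hσ e (by omega)) ?_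
    · intro e he
      rw [Function.update_of_ne (by omega), Function.update_of_ne (by omega)]
      exact hσ e (by omega)
    · intro e he
      rw [Function.update_of_ne (by omega), Function.update_of_ne (by omega)]
  rw [hσ1]
  have hmain : Exec B (seq (loop (d + 0) (succProg d)) <| seq (loop (d + 1) (inc (d + 0))) <|
    seq (loop (d + 2) (inc (d + 1))) <| seq (loop (d + 3) skip) (loop (d + 4) skip))
      (stL σ d [z, 0, 0, 0, 0]) (stL σ d [z.unpair.1, z.unpair.2, 0, 0, 0]) [] := by
    generalize hxe : z.unpair.1 = x at *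
    generalize hye : z.unpair.2 = y at *
    refine ex_seq (σ' := stL σ d [0, x, y, y - x, x - y]) ?_ ?_
    · have := unpairLoop_exec (B := B) σ d z hB
      rw [hxe, hye] at this
      exact this
    refine ex_seq (σ' := stL σ d [x, 0, y, y - x, x - y]) ?_ ?_
    · have h1 := ex_loop (B := B) (P := inc (d + 0)) σ d 1 x
        (fun i => [i, x - i, y, y - x, x - y]) (fun _ _ => by simp) (fun _ _ => rfl)
        (fun i hi => by
          refine ex_inc σ d _ 0 (by simp) ?_
          show i < B
          omega)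
      simpa using h1
    refine ex_seq (σ' := stL σ d [x, y, 0, y - x, x - y]) ?_ ?_
    · have h1 := ex_loop (B := B) (P := inc (d + 1)) σ d 2 y
        (fun i => [x, i, y - i, y - x, x - y]) (fun _ _ => by simp) (fun _ _ => rfl)
        (fun i hi => by
          refine ex_inc σ d _ 1 (by simp) ?_
          show i < B
          omega)
      simpa using h1
    exact ex_seq (ex_skipLoop σ d 3 _ (by simp)) (ex_skipLoop σ d 4 _ (by simp))
  rw [← hσ0] at hmain
  exact hmain

end Pool.Agent.H79.Upm
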