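import Pool.Agent.H79.Upm.LSLib
import Pool.Agent.H79.Upm.CompPair

/-!
# Linear space functions are computed by counter programs
-/

namespace Pool.Agent.H79.Upm

namespace CompileAux

open RProg Function

/-! ### polynomial bounds -/

theorem pb_id : PolyBd (fun n => n) := ⟨1, fun n => by
  show n ≤ _
  rw [pow_one]; omega⟩

theorem pb_const (k : ℕ) : PolyBd (fun _ => k) :=
  ⟨k, fun n => (Nat.lt_two_pow_self).le.trans (Nat.pow_le_pow_left (by omega) k)⟩

theorem pb_add {f g : ℕ → ℕ} (hf : PolyBd f) (hg : PolyBd g) : PolyBd (fun n => f n + g n) := by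
  obtain ⟨a, ha⟩ := hf
  obtain ⟨b, hb⟩ := hg
  refine ⟨a + b + 1, fun n => ?_⟩
  have h1 : f n ≤ (n + 2) ^ (a + b) :=
    (ha n).trans (Nat.pow_le_pow_right (by omega) (by omega))
  have h2 : g n ≤ (n + 2) ^ (a + b) :=
    (hb n).trans (Nat.pow_le_pow_right (by omega) (by omega))
  calc f n + g n ≤ (n + 2) ^ (a + b) * 2 := by omega
    _ ≤ (n + 2) ^ (a + b) * (n + 2) := Nat.mul_le_mul_left _ (by omega)
    _ = (n + 2) ^ (a + b + 1) := (pow_succ _ _).symm

theorem pb_pow {f : ℕ → ℕ} (hf : PolyBd f) (k : ℕ) : PolyBd (fun n => f n ^ k) := by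
  obtain ⟨a, ha⟩ := hf
  refine ⟨a * k, fun n => ?_⟩
  rw [pow_mul]
  exact Nat.pow_le_pow_left (ha n) k

/-! ### states -/

/-- the state given by `σ` below `d` and by the list `l` from `d` on -/
def st (σ : ℕ → ℕ) (d : ℕ) (l : List ℕ) : ℕ → ℕ := fun e => if e < d then σ e else l.getD (e - d) 0

theorem st_add (σ : ℕ → ℕ) (d : ℕ) (l : List ℕ) (k : ℕ) : st σ d l (d + k) = l.getD k 0 := by
  unfold st
  rw [if_neg (by omega), Nat.add_sub_cancel_left]

theorem st_zero (σ : ℕ → ℕ) (d : ℕ) (l : List ℕ) : st σ d l d = l.getD 0 0 := st_add σ d l 0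

theorem st_ext {τ τ' : ℕ → ℕ} (d : ℕ) (h1 : ∀ e, e < d → τ e = τ' e)
    (h2 : ∀ k, τ (d + k) = τ' (d + k)) : τ = τ' := by
  funext e
  by_cases h : e < d
  · exact h1 e h
  · obtain ⟨k, rfl⟩ := Nat.exists_eq_add_of_le (not_lt.1 h)
    exact h2 k

theorem eq_st {σ : ℕ → ℕ} {d : ℕ} (h : ∀ e, d < e → σ e = 0) : σ = st σ d [σ d] := by
  apply st_ext d
  · intro e he
    simp [st, he]
  · intro k
    rw [st_add]
    rcases k with _ | k
    · simp
    · rw [h _ (by omega)]; simp

theorem upd_st (σ : ℕ → ℕ) (d : ℕ) (l l' : List ℕ) (i v : ℕ)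
    (h : ∀ k, l'.getD k 0 = if k = i then v else l.getD k 0) :
    update (st σ d l) (d + i) v = st σ d l' := by
  apply st_ext d
  · intro e he
    rw [update_of_ne (by omega)]
    simp [st, he]
  · intro k
    rw [st_add, h, update_apply]
    by_cases hk : k = i
    · rw [if_pos (by omega), if_pos hk]
    · rw [if_neg (by omega), if_neg hk, st_add]

/-! ### basic programs -/

theorem exec_clear (B r : ℕ) (σ : ℕ → ℕ) :
    (loop r skip).Exec B σ (update σ r 0) [] := by
  obtain ⟨n, hn⟩ : ∃ n, σ r = n := ⟨_, rfl⟩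
  induction n generalizing σ with
  | zero =>
    have h : update σ r 0 = σ := by rw [← hn]; exact update_eq_self r σ
    rw [h]
    exact Exec.loopZ hn
  | succ n ih =>
    have h1 := ih (update σ r (σ r - 1)) (by rw [update_self]; omega)
    rw [update_idem] at h1
    exact Exec.loopS (u := []) (by omega) (Exec.skip _) h1

theorem exec_move {B r r' : ℕ} (hr : r ≠ r') (σ : ℕ → ℕ) (hB : σ r' + σ r ≤ B) :
    (loop r (inc r')).Exec B σ (update (update σ r 0) r' (σ r' + σ r)) [] := by
  obtain ⟨n, hn⟩ : ∃ n, σ r = n := ⟨_, rfl⟩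
  induction n generalizing σ with
  | zero =>
    have h : update (update σ r 0) r' (σ r' + σ r) = σ := by
      rw [hn, add_zero]
      funext e
      simp only [update_apply]
      split_ifs with h1 h2
      · rw [h1]
      · rw [h2, hn]
      · rfl
    rw [h]
    exact Exec.loopZ hn
  | succ n ih =>
    set τ : ℕ → ℕ := update (update σ r (σ r - 1)) r' (σ r' + 1) with hτ
    have e1 : τ r = n := by
      rw [hτ, update_of_ne hr, update_self]; omega
    have e2 : τ r' = σ r' + 1 := by rw [hτ, update_self]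
    have h1 := ih τ (by rw [e1, e2]; omega) e1
    have h2 : update (update τ r 0) r' (τ r' + τ r) =
        update (update σ r 0) r' (σ r' + σ r) := by
      rw [e1, e2]
      funext e
      simp only [hτ, update_apply]
      split_ifs
      · omega
      · rfl
      · rfl
    rw [h2] at h1
    have h3 : (inc r').Exec B (update σ r (σ r - 1)) τ [] := by
      have := Exec.inc (B := B) (update σ r (σ r - 1)) r' (by
        rw [update_of_ne hr.symm]; omega)
      rwa [update_of_ne hr.symm] at this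
    exact Exec.loopS (u := []) (by omega) h3 h1

/-- copy counter `r` to `r'` through the scratch counter `s` -/
def copy (r r' s : ℕ) : RProg := seq (loop r (seq (inc r') (inc s))) (loop s (inc r))

theorem exec_copy1 {B r r' s : ℕ} (h1 : r ≠ r') (h2 : r ≠ s) (h3 : r' ≠ s) (σ : ℕ → ℕ)
    (hB : σ r' + σ r ≤ B) (hB' : σ s + σ r ≤ B) :
    (loop r (seq (inc r') (inc s))).Exec B σ
      (update (update (update σ r 0) r' (σ r' + σ r)) s (σ s + σ r)) [] := by
  obtain ⟨n, hn⟩ : ∃ n, σ r = n := ⟨_, rfl⟩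
  induction n generalizing σ with
  | zero =>
    have h : update (update (update σ r 0) r' (σ r' + σ r)) s (σ s + σ r) = σ := by
      rw [hn, add_zero, add_zero]
      funext e
      simp only [update_apply]
      split_ifs with h1 h2 h3
      · rw [h1]
      · rw [h2]
      · rw [h3, hn]
      · rfl
    rw [h]
    exact Exec.loopZ hn
  | succ n ih =>
    set τ₁ : ℕ → ℕ := update (update σ r (σ r - 1)) r' (σ r' + 1) with hτ₁
    set τ : ℕ → ℕ := update τ₁ s (σ s + 1) with hτ
    have e1 : τ r = n := by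
      rw [hτ, update_of_ne h2, hτ₁, update_of_ne h1, update_self]; omega
    have e2 : τ r' = σ r' + 1 := by rw [hτ, update_of_ne h3, hτ₁, update_self]
    have e3 : τ s = σ s + 1 := by rw [hτ, update_self]
    have i1 := ih τ (by rw [e1, e2]; omega) (by rw [e1, e3]; omega) e1
    have i2 : update (update (update τ r 0) r' (τ r' + τ r)) s (τ s + τ r) =
        update (update (update σ r 0) r' (σ r' + σ r)) s (σ s + σ r) := by
      rw [e1, e2, e3]
      funext e
      simp only [hτ, hτ₁, update_apply]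
      split_ifs
      · omega
      · omega
      · rfl
      · rfl
    rw [i2] at i1
    have i3 : (inc r').Exec B (update σ r (σ r - 1)) τ₁ [] := by
      have := Exec.inc (B := B) (update σ r (σ r - 1)) r' (by
        rw [update_of_ne h1.symm]; omega)
      rwa [update_of_ne h1.symm] at this
    have i4 : (inc s).Exec B τ₁ τ [] := by
      have hs : τ₁ s = σ s := by
        rw [hτ₁, update_of_ne h3.symm, update_of_ne h2.symm]
      have := Exec.inc (B := B) τ₁ s (by rw [hs]; omega)
      rwa [hs] at this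
    exact Exec.loopS (u := []) (by omega) (Exec.seq (u := []) i3 i4) i1

theorem exec_copy {B r r' s : ℕ} (h1 : r ≠ r') (h2 : r ≠ s) (h3 : r' ≠ s) (σ : ℕ → ℕ)
    (hs : σ s = 0) (hB : σ r' + σ r ≤ B) :
    (copy r r' s).Exec B σ (update σ r' (σ r' + σ r)) [] := by
  have i1 := exec_copy1 h1 h2 h3 σ hB (by rw [hs]; omega)
  set τ := update (update (update σ r 0) r' (σ r' + σ r)) s (σ s + σ r) with hτ
  have e1 : τ s = σ r := by rw [hτ, update_self, hs, zero_add]
  have e2 : τ r = 0 := by rw [hτ, update_of_ne h2, update_of_ne h1, update_self]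
  have i2 := exec_move (B := B) h2.symm τ (by rw [e1, e2]; omega)
  have i3 : update (update τ s 0) r (τ r + τ s) = update σ r' (σ r' + σ r) := by
    rw [e1, e2]
    funext e
    simp only [hτ, update_apply]
    by_cases a1 : e = r
    · subst a1; rw [if_pos rfl, if_neg h1, zero_add]
    · by_cases a2 : e = s
      · subst a2; rw [if_neg a1, if_pos rfl, if_neg h3.symm, hs]
      · rw [if_neg a1, if_neg a2, if_neg a2, if_neg a1]
  rw [i3] at i2
  exact Exec.seq (u := []) i1 i2

/-! ### programs acting on states -/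

theorem st_clear (B : ℕ) (σ : ℕ → ℕ) (d i : ℕ) (l l' : List ℕ)
    (h : ∀ k, l'.getD k 0 = if k = i then 0 else l.getD k 0) :
    (loop (d + i) skip).Exec B (st σ d l) (st σ d l') [] := by
  have := exec_clear B (d + i) (st σ d l)
  rwa [upd_st σ d l l' i 0 h] at this

theorem st_move (B : ℕ) (σ : ℕ → ℕ) (d i j : ℕ) (hij : i ≠ j) (l l' : List ℕ)
    (hj : l.getD j 0 = 0) (hB : l.getD i 0 ≤ B)
    (h : ∀ k, l'.getD k 0 = if k = j then l.getD i 0 else if k = i then 0 else l.getD k 0) :
    (loop (d + i) (inc (d + j))).Exec B (st σ d l) (st σ d l') [] := by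
  have h1 := exec_move (B := B) (r := d + i) (r' := d + j) (by omega) (st σ d l)
    (by rw [st_add, st_add, hj]; omega)
  have h2 : update (update (st σ d l) (d + i) 0) (d + j) (st σ d l (d + j) + st σ d l (d + i)) =
      st σ d l' := by
    rw [st_add, st_add, hj, zero_add]
    apply st_ext d
    · intro e he
      rw [update_of_ne (by omega), update_of_ne (by omega)]
      simp [st, he]
    · intro k
      rw [st_add, h]
      simp only [update_apply, st_add]
      by_cases k1 : k = j
      · rw [if_pos (by omega), if_pos k1]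
      · by_cases k2 : k = i
        · rw [if_neg (by omega), if_pos (by omega), if_neg k1, if_pos k2]
        · rw [if_neg (by omega), if_neg (by omega), if_neg k1, if_neg k2]
  rwa [h2] at h1

theorem st_copy (B : ℕ) (σ : ℕ → ℕ) (d i j s : ℕ) (hij : i ≠ j) (his : i ≠ s) (hjs : j ≠ s)
    (l l' : List ℕ) (hs : l.getD s 0 = 0) (hj : l.getD j 0 = 0) (hB : l.getD i 0 ≤ B)
    (h : ∀ k, l'.getD k 0 = if k = j then l.getD i 0 else l.getD k 0) :
    (copy (d + i) (d + j) (d + s)).Exec B (st σ d l) (st σ d l') [] := by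
  have h1 := exec_copy (B := B) (r := d + i) (r' := d + j) (s := d + s) (by omega) (by omega)
    (by omega) (st σ d l) (by rw [st_add, hs]) (by rw [st_add, st_add, hj]; omega)
  rw [st_add, st_add, hj, zero_add, upd_st σ d l l' j _ h] at h1
  exact h1

theorem st_inc (B : ℕ) (σ : ℕ → ℕ) (d i : ℕ) (l l' : List ℕ) (hB : l.getD i 0 < B)
    (h : ∀ k, l'.getD k 0 = if k = i then l.getD i 0 + 1 else l.getD k 0) :
    (inc (d + i)).Exec B (st σ d l) (st σ d l') [] := by
  have h1 := Exec.inc (B := B) (st σ d l) (d + i) (by rw [st_add]; exact hB)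
  rw [st_add, upd_st σ d l l' i _ h] at h1
  exact h1

/-- a program computing `f` in place at counter `d` -/
def Comp (d : ℕ) (f : ℕ → ℕ) (P : RProg) (c : ℕ) : Prop := ∀ σ : ℕ → ℕ, (∀ e, d < e → σ e = 0) →
  P.Exec ((σ d + 2) ^ c) σ (update σ d (f (σ d))) []

theorem st_run {f : ℕ → ℕ} {P : RProg} {c : ℕ} (σ : ℕ → ℕ) (d i : ℕ) (hP : Comp (d + i) f P c)
    (B v : ℕ) (l l' : List ℕ) (hv : l.getD i 0 = v) (hl : l.length ≤ i + 1)
    (hB : (v + 2) ^ c ≤ B)
    (h : ∀ k, l'.getD k 0 = if k = i then f v else l.getD k 0) :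
    P.Exec B (st σ d l) (st σ d l') [] := by
  have h1 := hP (st σ d l) (by
    intro e he
    obtain ⟨k, rfl⟩ := Nat.exists_eq_add_of_le (show d ≤ e by omega)
    rw [st_add]
    exact List.getD_eq_default _ _ (by omega))
  rw [st_add, hv, upd_st σ d l l' i _ h] at h1
  exact h1.mono hB

/-- the specification of the pairing program -/
def CompPair (d : ℕ) (P : RProg) (c : ℕ) : Prop := ∀ σ : ℕ → ℕ,
    (∀ e, d + 1 < e → σ e = 0) →
      P.Exec ((σ d + σ (d + 1) + 2) ^ c) σ
        (Function.update (Function.update σ d (Nat.pair (σ d) (σ (d + 1)))) (d + 1) 0) []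

theorem st_pair {P : RProg} {c : ℕ} (σ : ℕ → ℕ) (d i : ℕ) (hP : CompPair (d + i) P c)
    (B v w : ℕ) (l l' : List ℕ) (hv : l.getD i 0 = v) (hw : l.getD (i + 1) 0 = w)
    (hl : l.length ≤ i + 2) (hB : (v + w + 2) ^ c ≤ B)
    (h : ∀ k, l'.getD k 0 = if k = i then Nat.pair v w else if k = i + 1 then 0
      else l.getD k 0) :
    P.Exec B (st σ d l) (st σ d l') [] := by
  have h1 := hP (st σ d l) (by
    intro e he
    obtain ⟨k, rfl⟩ := Nat.exists_eq_add_of_le (show d ≤ e by omega)
    rw [st_add]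
    exact List.getD_eq_default _ _ (by omega))
  rw [Nat.add_assoc d i 1, st_add, st_add, hv, hw] at h1
  have h2 : update (update (st σ d l) (d + i) (Nat.pair v w)) (d + (i + 1)) 0 = st σ d l' := by
    apply st_ext d
    · intro e he
      rw [update_of_ne (by omega), update_of_ne (by omega)]
      simp [st, he]
    · intro k
      rw [st_add, h]
      simp only [update_apply, st_add]
      by_cases k1 : k = i
      · rw [if_neg (by omega), if_pos (by omega), if_pos k1]
      · by_cases k2 : k = i + 1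
        · rw [if_pos (by omega), if_neg k1, if_pos k2]
        · rw [if_neg (by omega), if_neg (by omega), if_neg k1, if_neg k2]
  rw [h2] at h1
  exact h1.mono hB

/-- the specification of the unpairing program -/
def CompUnpair (d : ℕ) (P : RProg) (c : ℕ) : Prop := ∀ σ : ℕ → ℕ,
    (∀ e, d < e → σ e = 0) →
      P.Exec ((σ d + 2) ^ c) σ
        (Function.update (Function.update σ d (σ d).unpair.1) (d + 1) (σ d).unpair.2) []

theorem st_unpair {P : RProg} {c : ℕ} (σ : ℕ → ℕ) (d : ℕ) (hP : CompUnpair d P c)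
    (B v : ℕ) (hB : (v + 2) ^ c ≤ B) :
    P.Exec B (st σ d [v]) (st σ d [v.unpair.1, v.unpair.2]) [] := by
  have h1 := hP (st σ d [v]) (by
    intro e he
    obtain ⟨k, rfl⟩ := Nat.exists_eq_add_of_le (show d ≤ e by omega)
    rw [st_add]
    exact List.getD_eq_default _ _ (by simp only [List.length_singleton]; omega))
  have hv : st σ d [v] d = v := st_zero _ _ _
  rw [hv] at h1
  have h2 : update (update (st σ d [v]) d v.unpair.1) (d + 1) v.unpair.2 =
      st σ d [v.unpair.1, v.unpair.2] := by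
    apply st_ext d
    · intro e he
      rw [update_of_ne (by omega), update_of_ne (by omega)]
      simp [st, he]
    · intro k
      rw [st_add]
      simp only [update_apply, st_add]
      rcases k with _ | _ | k
      · simp
      · simp
      · rw [if_neg (by omega), if_neg (by omega)]
        simp
  rw [h2] at h1
  exact h1.mono hB

theorem seq0 {B : ℕ} {P Q : RProg} {σ σ' σ'' : ℕ → ℕ} (h : P.Exec B σ σ' [])
    (h' : Q.Exec B σ' σ'' []) : (seq P Q).Exec B σ σ'' [] := Exec.seq (u := []) h h'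

/-- from states to the specification `Comp` -/
theorem comp_of_st {f : ℕ → ℕ} {d : ℕ} {P : RProg} {Bd : ℕ → ℕ} (hB : PolyBd Bd)
    (h : ∀ (σ : ℕ → ℕ) (v : ℕ), P.Exec (Bd v) (st σ d [v]) (st σ d [f v]) []) :
    ∃ c, Comp d f P c := by
  obtain ⟨c, hc⟩ := hB
  refine ⟨c, fun σ hσ => ?_⟩
  have h1 := h σ (σ d)
  rw [← eq_st hσ] at h1
  have h2 : update σ d (f (σ d)) = st σ d [f (σ d)] := by
    have h3 := upd_st σ d [σ d] [f (σ d)] 0 (f (σ d)) (by
      intro k
      rcases k with _ | k
      · simp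
      · simp)
    rw [← eq_st hσ, add_zero] at h3
    exact h3
  rw [h2]
  exact h1.mono (hc _)

end CompileAux

open CompileAux RProg in
/-- Every `LS` function `f` is computed, in place on counter `d` and with the counters `> d` as
(clean) scratch space, by a counter program whose counters stay polynomially bounded. (Hint:
induction on `LS f` for all `d`; `LS.polyBd` bounds intermediate values.) -/
theorem LS.compile {f : ℕ → ℕ} (hf : LS f) (d : ℕ) :
    ∃ (P : RProg) (c : ℕ), ∀ σ : ℕ → ℕ, (∀ e, d < e → σ e = 0) →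
      P.Exec ((σ d + 2) ^ c) σ (Function.update σ d (f (σ d))) [] := by
  show ∃ P c, Comp d f P c
  induction hf generalizing d with
  | id =>
    refine ⟨skip, comp_of_st (pb_const 0) fun σ v => Exec.skip _⟩
  | zero =>
    refine ⟨loop (d + 0) skip, comp_of_st (pb_const 0) fun σ v => ?_⟩
    exact st_clear _ σ d 0 _ _ (by intro k; rcases k with _ | k <;> simp)
  | @succ f hf ih =>
    obtain ⟨P, c, hP⟩ := ih d
    refine ⟨seq P (inc (d + 0)), comp_of_st (Bd := fun n => (n + 2) ^ c + (f n + 1))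
      (pb_add (pb_pow (pb_add pb_id (pb_const 2)) c) (pb_add hf.polyBd (pb_const 1)))
      fun σ v => ?_⟩
    refine seq0 (st_run σ d 0 hP _ v [v] [f v] rfl le_rfl (Nat.le_add_right _ _) ?_)
      (st_inc _ σ d 0 _ _ ?_ ?_)
    · intro k; rcases k with _ | k <;> simp
    · show f v < _
      omega
    · intro k; rcases k with _ | k <;> simp
  | @fst f hf ih =>
    obtain ⟨P, c, hP⟩ := ih d
    obtain ⟨Q, c', hQ⟩ := exists_prog_unpair d
    refine ⟨seq P (seq Q (loop (d + 1) skip)),
      comp_of_st (Bd := fun n => (n + 2) ^ c + (f n + 2) ^ c')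
      (pb_add (pb_pow (pb_add pb_id (pb_const 2)) c) (pb_pow (pb_add hf.polyBd (pb_const 2)) c'))
      fun σ v => ?_⟩
    refine seq0 (st_run σ d 0 hP _ v [v] [f v] rfl le_rfl (Nat.le_add_right _ _) ?_)
      (seq0 (st_unpair σ d hQ _ (f v) (Nat.le_add_left _ _)) (st_clear _ σ d 1 _ _ ?_))
    · intro k; rcases k with _ | k <;> simp
    · intro k; rcases k with _ | _ | k <;> simp
  | @snd f hf ih =>
    obtain ⟨P, c, hP⟩ := ih d
    obtain ⟨Q, c', hQ⟩ := exists_prog_unpair d
    refine ⟨seq P (seq Q (seq (loop (d + 0) skip) (loop (d + 1) (inc (d + 0))))),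
      comp_of_st (Bd := fun n => ((n + 2) ^ c + (f n + 2) ^ c') + f n)
      (pb_add (pb_add (pb_pow (pb_add pb_id (pb_const 2)) c)
        (pb_pow (pb_add hf.polyBd (pb_const 2)) c')) hf.polyBd)
      fun σ v => ?_⟩
    refine seq0 (st_run σ d 0 hP _ v [v] [f v] rfl le_rfl (by omega) ?_)
      (seq0 (st_unpair σ d hQ _ (f v) (by omega))
      (seq0 (st_clear _ σ d 0 _ [0, (f v).unpair.2] ?_) (st_move _ σ d 1 0 one_ne_zero _ _ rfl ?_ ?_)))
    · intro k; rcases k with _ | k <;> simp
    · intro k; rcases k with _ | _ | k <;> simp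
    · show (f v).unpair.2 ≤ _
      have := Nat.unpair_right_le (f v)
      omega
    · intro k; rcases k with _ | _ | k <;> simp
  | @pair f g hf hg ihf ihg =>
    obtain ⟨P, c, hP⟩ := ihf (d + 1)
    obtain ⟨Q, c', hQ⟩ := ihg (d + 2)
    obtain ⟨R, c'', hR⟩ := exists_prog_pair (d + 0)
    refine ⟨seq (copy (d + 0) (d + 1) (d + 2)) (seq P (seq (copy (d + 0) (d + 2) (d + 3)) (seq Q
      (seq (loop (d + 0) skip) (seq (loop (d + 1) (inc (d + 0)))
      (seq (loop (d + 2) (inc (d + 1))) R)))))),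
      comp_of_st (Bd := fun n => ((n + (f n + g n)) + ((n + 2) ^ c + (n + 2) ^ c')) +
        (f n + g n + 2) ^ c'')
      (pb_add (pb_add (pb_add pb_id (pb_add hf.polyBd hg.polyBd))
        (pb_add (pb_pow (pb_add pb_id (pb_const 2)) c) (pb_pow (pb_add pb_id (pb_const 2)) c')))
        (pb_pow (pb_add (pb_add hf.polyBd hg.polyBd) (pb_const 2)) c''))
      fun σ v => ?_⟩
    refine seq0 (st_copy _ σ d 0 1 2 (by omega) (by omega) (by omega) [v] [v, v] rfl rfl ?_ ?_)
      (seq0 (st_run σ d 1 hP _ v [v, v] [v, f v] rfl le_rfl ?_ ?_)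
      (seq0 (st_copy _ σ d 0 2 3 (by omega) (by omega) (by omega) [v, f v] [v, f v, v]
        rfl rfl ?_ ?_)
      (seq0 (st_run σ d 2 hQ _ v [v, f v, v] [v, f v, g v] rfl le_rfl ?_ ?_)
      (seq0 (st_clear _ σ d 0 _ [0, f v, g v] ?_)
      (seq0 (st_move _ σ d 1 0 (by omega) _ [f v, 0, g v] rfl ?_ ?_)
      (seq0 (st_move _ σ d 2 1 (by omega) _ [f v, g v] rfl ?_ ?_)
      (st_pair σ d 0 hR _ (f v) (g v) _ _ rfl rfl le_rfl ?_ ?_)))))))
    all_goals first
      | (intro k; rcases k with _ | _ | _ | k <;> simp; done)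
      | (simp only [List.getD_cons_zero, List.getD_cons_succ]; omega)
      | omega
  | @comp f g hf hg ihf ihg =>
    obtain ⟨P, c, hP⟩ := ihf d
    obtain ⟨Q, c', hQ⟩ := ihg d
    refine ⟨seq Q P, comp_of_st (Bd := fun n => (n + 2) ^ c' + (g n + 2) ^ c)
      (pb_add (pb_pow (pb_add pb_id (pb_const 2)) c') (pb_pow (pb_add hg.polyBd (pb_const 2)) c))
      fun σ v => ?_⟩
    refine seq0 (st_run σ d 0 hQ _ v [v] [g v] rfl le_rfl (Nat.le_add_right _ _) ?_)
      (st_run σ d 0 hP _ (g v) [g v] [f (g v)] rfl le_rfl (Nat.le_add_left _ _) ?_)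
    · intro k; rcases k with _ | k <;> simp
    · intro k; rcases k with _ | k <;> simp
  | @prec f g c₀ hf hg hb ihf ihg =>
    obtain ⟨P, c, hP⟩ := ihf (d + 3)
    obtain ⟨Q, c', hQ⟩ := ihg (d + 4)
    obtain ⟨U, cu, hU⟩ := exists_prog_unpair d
    obtain ⟨R, c1, hR⟩ := exists_prog_pair (d + 5)
    obtain ⟨S, c2, hS⟩ := exists_prog_pair (d + 4)
    -- polynomial bounds
    let Rz : ℕ → ℕ := fun z => (z + z + 2) ^ c₀
    let Q1 : ℕ → ℕ := fun z => (z + Rz z + 1) ^ 2
    let Q2 : ℕ → ℕ := fun z => (z + Q1 z + 1) ^ 2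
    let Bd : ℕ → ℕ := fun z => (((z + 1) + Rz z) + ((z + 2) ^ cu + (z + 2) ^ c)) +
      ((z + Rz z + 2) ^ c1 + ((z + Q1 z + 2) ^ c2 + (Q2 z + 2) ^ c'))
    have pRz : PolyBd Rz := pb_pow (pb_add (pb_add pb_id pb_id) (pb_const 2)) c₀
    have pQ1 : PolyBd Q1 := pb_pow (pb_add (pb_add pb_id pRz) (pb_const 1)) 2
    have pQ2 : PolyBd Q2 := pb_pow (pb_add (pb_add pb_id pQ1) (pb_const 1)) 2
    have pBd : PolyBd Bd := pb_add
      (pb_add (pb_add (pb_add pb_id (pb_const 1)) pRz) (pb_add
        (pb_pow (pb_add pb_id (pb_const 2)) cu) (pb_pow (pb_add pb_id (pb_const 2)) c)))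
      (pb_add (pb_pow (pb_add (pb_add pb_id pRz) (pb_const 2)) c1) (pb_add
        (pb_pow (pb_add (pb_add pb_id pQ1) (pb_const 2)) c2)
        (pb_pow (pb_add pQ2 (pb_const 2)) c')))
    let body : RProg := seq (copy (d + 2) (d + 5) (d + 7)) (seq (loop (d + 3) (inc (d + 6)))
      (seq R (seq (copy (d + 0) (d + 4) (d + 6)) (seq S (seq Q
      (seq (loop (d + 4) (inc (d + 3))) (inc (d + 2))))))))
    refine ⟨seq U (seq (copy (d + 0) (d + 3) (d + 4)) (seq P (seq (loop (d + 1) body)
      (seq (loop (d + 0) skip) (seq (loop (d + 2) skip) (loop (d + 3) (inc (d + 0)))))))),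
      comp_of_st (Bd := Bd) pBd fun σ z => ?_⟩
    set a := z.unpair.1 with ha
    set n := z.unpair.2 with hn
    have haz : a ≤ z := Nat.unpair_left_le z
    have hnz : n ≤ z := Nat.unpair_right_le z
    let F : ℕ → ℕ := fun y => Nat.rec (f a) (fun y r => g (Nat.pair a (Nat.pair y r))) y
    have hF : ∀ y, F (y + 1) = g (Nat.pair a (Nat.pair y (F y))) := fun y => rfl
    have hFb : ∀ y, y ≤ z → F y ≤ Rz z := fun y hy =>
      (hb a y).trans (Nat.pow_le_pow_left (by omega) _)
    have hpair : ∀ x y : ℕ, Nat.pair x y ≤ (x + y + 1) ^ 2 := fun x y =>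
      (Nat.pair_lt_max_add_one_sq x y).le.trans (Nat.pow_le_pow_left (by omega) 2)
    have hBd : Bd z = (((z + 1) + Rz z) + ((z + 2) ^ cu + (z + 2) ^ c)) +
      ((z + Rz z + 2) ^ c1 + ((z + Q1 z + 2) ^ c2 + (Q2 z + 2) ^ c')) := rfl
    -- the body
    have hbody : ∀ k y, y < z → body.Exec (Bd z) (st σ d [a, k, y, F y])
        (st σ d [a, k, y + 1, F (y + 1)]) [] := by
      intro k y hy
      have b1 := hFb y hy.le
      have b2 := hFb (y + 1) hy
      have b3 : Nat.pair y (F y) ≤ Q1 z :=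
        (hpair y (F y)).trans (Nat.pow_le_pow_left (by omega) 2)
      have b4 : Nat.pair a (Nat.pair y (F y)) ≤ Q2 z :=
        (hpair a _).trans (Nat.pow_le_pow_left (by omega) 2)
      have b5 : (y + F y + 2) ^ c1 ≤ (z + Rz z + 2) ^ c1 := Nat.pow_le_pow_left (by omega) _
      have b6 : (a + Nat.pair y (F y) + 2) ^ c2 ≤ (z + Q1 z + 2) ^ c2 :=
        Nat.pow_le_pow_left (by omega) _
      have b7 : (Nat.pair a (Nat.pair y (F y)) + 2) ^ c' ≤ (Q2 z + 2) ^ c' :=
        Nat.pow_le_pow_left (by omega) _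
      refine seq0 (st_copy _ σ d 2 5 7 (by omega) (by omega) (by omega) _
        [a, k, y, F y, 0, y] rfl rfl ?_ ?_)
        (seq0 (st_move _ σ d 3 6 (by omega) _ [a, k, y, 0, 0, y, F y] rfl ?_ ?_)
        (seq0 (st_pair σ d 5 hR _ y (F y) _ [a, k, y, 0, 0, Nat.pair y (F y)] rfl rfl le_rfl ?_ ?_)
        (seq0 (st_copy _ σ d 0 4 6 (by omega) (by omega) (by omega) _
          [a, k, y, 0, a, Nat.pair y (F y)] rfl rfl ?_ ?_)
        (seq0 (st_pair σ d 4 hS _ a (Nat.pair y (F y)) _
          [a, k, y, 0, Nat.pair a (Nat.pair y (F y))] rfl rfl le_rfl ?_ ?_)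
        (seq0 (st_run σ d 4 hQ _ (Nat.pair a (Nat.pair y (F y))) _
          [a, k, y, 0, F (y + 1)] rfl le_rfl ?_ ?_)
        (seq0 (st_move _ σ d 4 3 (by omega) _ [a, k, y, F (y + 1)] rfl ?_ ?_)
        (st_inc _ σ d 2 _ _ ?_ ?_)))))))
      all_goals first
        | (intro k; rcases k with _ | _ | _ | _ | _ | _ | _ | _ | k <;> simp; done)
        | (intro k; rcases k with _ | _ | _ | _ | _ | _ | _ | _ | k <;> simp [hF]; done)
        | (simp only [List.getD_cons_zero, List.getD_cons_succ]; omega)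
        | omega
    have hloop : ∀ k y, y + k ≤ z → (loop (d + 1) body).Exec (Bd z) (st σ d [a, k, y, F y])
        (st σ d [a, 0, y + k, F (y + k)]) [] := by
      intro k
      induction k with
      | zero =>
        intro y _
        exact Exec.loopZ (by rw [st_add]; rfl)
      | succ k ihk =>
        intro y hy
        refine Exec.loopS (u := []) (σ' := st σ d [a, k, y + 1, F (y + 1)]) (v := []) ?_ ?_ ?_
        · rw [st_add]; simp
        · have h1 : Function.update (st σ d [a, k + 1, y, F y]) (d + 1)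
              (st σ d [a, k + 1, y, F y] (d + 1) - 1) = st σ d [a, k, y, F y] := by
            rw [st_add]
            apply upd_st
            intro i; rcases i with _ | _ | i <;> simp
          rw [h1]
          exact hbody k y (by omega)
        · have h2 := ihk (y + 1) (by omega)
          have h3 : y + 1 + k = y + (k + 1) := by omega
          rwa [h3] at h2
    have hl := hloop n 0 (by omega)
    rw [zero_add] at hl
    have b8 : (a + 2) ^ c ≤ (z + 2) ^ c := Nat.pow_le_pow_left (by omega) _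
    have b9 := hFb n hnz
    refine seq0 (st_unpair σ d hU _ z (by omega))
      (seq0 (st_copy _ σ d 0 3 4 (by omega) (by omega) (by omega) _ [a, n, 0, a] rfl rfl ?_ ?_)
      (seq0 (st_run σ d 3 hP _ a _ [a, n, 0, F 0] rfl le_rfl ?_ ?_)
      (seq0 hl
      (seq0 (st_clear _ σ d 0 _ [0, 0, n, F n] ?_)
      (seq0 (st_clear _ σ d 2 _ [0, 0, 0, F n] ?_)
      (st_move _ σ d 3 0 (by omega) _ _ rfl ?_ ?_))))))
    all_goals first
      | (intro k; rcases k with _ | _ | _ | _ | _ | _ | _ | _ | k <;> simp <;> rfl; done)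
      | (intro k; rcases k with _ | _ | _ | _ | _ | _ | _ | _ | k <;> simp; done)
      | (simp only [List.getD_cons_zero, List.getD_cons_succ]; omega)
      | omega

end Pool.Agent.H79.Upm
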