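import Pool.Agent.H79.Upm.FlowTM

/-!
# From counter programs to logarithmic space transducers
-/

namespace Pool.Agent.H79.Upm

/-- A counter program with polynomially bounded counters is simulated by a transducer with
logarithmic work space: if the program, started with `n` in counter `0` and `0` in all other
counters, prints `w n`, then a logspace transducer prints `w n` on input `1 ^ n`. -/
theorem RProg.toTransducer (P : RProg) (c : ℕ) (w : ℕ → List Bool)
    (h : ∀ n : ℕ, ∃ σ', P.Exec ((n + 2) ^ c) (Function.update (fun _ => 0) 0 n) σ' (w n)) :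
    ∃ (M : Transducer) (c' : ℕ), ∀ n : ℕ,
      M.Outputs (List.replicate n true) (w n) ∧
        M.SpaceBound (List.replicate n true) (c' * (Nat.log 2 n + 1)) := by
  obtain ⟨F, fin, R, hR, hfin, hF, hrun⟩ := P.toFlow
  refine F.toTransducer hR hF c w fun n => ?_
  obtain ⟨σ', hσ'⟩ := h n
  exact ⟨fin, σ', hfin, hrun _ _ _ _ hσ'⟩

end Pool.Agent.H79.Upm
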