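import Pool.Agent.H79.Upm.LSLib
import Pool.Agent.H79.Upm.Compile
import Pool.Agent.H79.Upm.ToTrans

/-!
# Circuits described by linear space functions are logspace uniform
-/

namespace Pool.Agent.H79.Upm

/-- The gate with kind number `t` and arguments `a`, `b`. -/
def mkGate (t a b : ℕ) : Gate :=
  if t = 0 then .const false
  else if t = 1 then .const true
  else if t = 2 then .input a
  else if t = 3 then .not a
  else if t = 4 then .and a b
  else .or a b

/-- The circuit with `s n` gates whose `g`-th gate is given by the functions `t`, `a`, `b`. -/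
def mkCircuit (s t a b : ℕ → ℕ) (n : ℕ) : Circuit :=
  (List.range (s n)).map fun g =>
    mkGate (t (Nat.pair n g)) (a (Nat.pair n g)) (b (Nat.pair n g))

/-! ## Words printed symbol by symbol -/

namespace Print

/-- The word printed for the symbol code `v`: nothing, `false` or `true`. -/
def sym (v : ℕ) : List Bool := if v = 0 then [] else if v = 1 then [false] else [true]

open RProg

/-- Clear counter `r`. -/
def clearP (r : ℕ) : RProg := .loop r .skip

theorem exec_clear (B r : ℕ) : ∀ (k : ℕ) (σ : ℕ → ℕ), σ r = k →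
    Exec B (clearP r) σ (Function.update σ r 0) [] := by
  intro k
  induction k with
  | zero =>
    intro σ h
    have : Function.update σ r 0 = σ := by
      funext x; by_cases hx : x = r
      · subst hx; simp [h]
      · simp [hx]
    rw [this]
    exact .loopZ h
  | succ k ih =>
    intro σ h
    have h2 := ih (Function.update σ r k) (by simp)
    rw [Function.update_idem] at h2
    have := Exec.loopS (B := B) (P := .skip) (σ := σ) (r := r) (by omega)
      (.skip _) (by rw [h]; exact h2)
    simpa [clearP] using this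

/-- Move counter `r` to counter `r'`. -/
def moveP (r r' : ℕ) : RProg := .loop r (.inc r')

theorem exec_move (B r r' : ℕ) (hr : r ≠ r') : ∀ (k : ℕ) (σ : ℕ → ℕ), σ r = k →
    σ r + σ r' ≤ B → Exec B (moveP r r') σ
      (Function.update (Function.update σ r' (σ r' + σ r)) r 0) [] := by
  intro k
  induction k with
  | zero =>
    intro σ h hB
    have : Function.update (Function.update σ r' (σ r' + σ r)) r 0 = σ := by
      funext x; by_cases hx : x = r
      · subst hx; simp [h]
      · by_cases hx' : x = r'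
        · subst hx'; simp [hx, h]
        · simp [hx, hx']
    rw [this]
    exact .loopZ h
  | succ k ih =>
    intro σ h hB
    set σ₁ := Function.update σ r (σ r - 1) with hσ₁
    set σ₂ := Function.update σ₁ r' (σ₁ r' + 1) with hσ₂
    have e1 : Exec B (.inc r') σ₁ σ₂ [] := by
      apply Exec.inc
      have : σ₁ r' = σ r' := by simp [hσ₁, hr.symm]
      omega
    have h2r : σ₂ r = k := by simp [hσ₂, hσ₁, hr, h]
    have h2r' : σ₂ r' = σ r' + 1 := by simp [hσ₂, hσ₁, hr.symm]
    have e2 := ih σ₂ h2r (by omega)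
    have : Function.update (Function.update σ₂ r' (σ₂ r' + σ₂ r)) r 0 =
        Function.update (Function.update σ r' (σ r' + σ r)) r 0 := by
      funext x; by_cases hx : x = r
      · subst hx; simp
      · by_cases hx' : x = r'
        · subst hx'
          simp only [ne_eq, hx, not_false_eq_true, Function.update_of_ne, Function.update_self]
          omega
        · simp [hx, hx', hσ₂, hσ₁]
    rw [this] at e2
    have := Exec.loopS (B := B) (P := .inc r') (σ := σ) (r := r) (by omega) e1 e2
    simpa [moveP] using this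

/-- Copy counter `r` to counter `r'`, with the help of counter `r''`. -/
def copyP (r r' r'' : ℕ) : RProg :=
  .seq (.loop r (.seq (.inc r') (.inc r''))) (moveP r'' r)

theorem exec_copy_aux (B r r' r'' : ℕ) (h1 : r ≠ r') (h2 : r ≠ r'') (h3 : r' ≠ r'') :
    ∀ (k : ℕ) (σ : ℕ → ℕ), σ r = k → σ r + σ r' ≤ B → σ r + σ r'' ≤ B →
      Exec B (.loop r (.seq (.inc r') (.inc r''))) σ
      (Function.update (Function.update (Function.update σ r' (σ r' + σ r)) r'' (σ r'' + σ r))
        r 0) [] := by
  intro k
  induction k with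
  | zero =>
    intro σ h hB hB'
    have : (Function.update (Function.update (Function.update σ r' (σ r' + σ r)) r''
        (σ r'' + σ r)) r 0) = σ := by
      funext x
      by_cases hx : x = r
      · subst hx; simp [h]
      · by_cases hx' : x = r'
        · subst hx'; simp [hx, h]
        · by_cases hx'' : x = r''
          · subst hx''; simp [hx, h]
          · simp [hx, hx', hx'']
    rw [this]
    exact .loopZ h
  | succ k ih =>
    intro σ h hB hB'
    set σ₁ := Function.update σ r (σ r - 1) with hσ₁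
    set σ₂ := Function.update σ₁ r' (σ₁ r' + 1) with hσ₂
    set σ₃ := Function.update σ₂ r'' (σ₂ r'' + 1) with hσ₃
    have a1 : σ₁ r' = σ r' := by simp [hσ₁, h1.symm]
    have a2 : σ₁ r'' = σ r'' := by simp [hσ₁, h2.symm]
    have a3 : σ₂ r'' = σ r'' := by simp [hσ₂, h3.symm, a2]
    have e1 : Exec B (.inc r') σ₁ σ₂ [] := by
      apply Exec.inc
      omega
    have e2 : Exec B (.inc r'') σ₂ σ₃ [] := by
      apply Exec.inc
      omega
    have h3r : σ₃ r = k := by simp [hσ₃, hσ₂, hσ₁, h1, h2, h]
    have h3r' : σ₃ r' = σ r' + 1 := by simp [hσ₃, hσ₂, h3, a1]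
    have h3r'' : σ₃ r'' = σ r'' + 1 := by simp [hσ₃, a3]
    have e3 := ih σ₃ h3r (by omega) (by omega)
    have : (Function.update (Function.update (Function.update σ₃ r' (σ₃ r' + σ₃ r)) r''
        (σ₃ r'' + σ₃ r)) r 0) = (Function.update (Function.update (Function.update σ r'
        (σ r' + σ r)) r'' (σ r'' + σ r)) r 0) := by
      funext x
      by_cases hx : x = r
      · subst hx; simp
      · by_cases hx' : x = r''
        · subst hx'
          simp only [ne_eq, hx, not_false_eq_true, Function.update_of_ne, Function.update_self]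
          omega
        · by_cases hx'' : x = r'
          · subst hx''
            simp only [ne_eq, hx, hx', not_false_eq_true, Function.update_of_ne,
              Function.update_self]
            omega
          · simp [hx, hx', hx'', hσ₃, hσ₂, hσ₁]
    rw [this] at e3
    have := Exec.loopS (B := B) (σ := σ) (r := r) (by omega) (Exec.seq e1 e2) e3
    simpa using this

theorem exec_copy (B r r' r'' : ℕ) (h1 : r ≠ r') (h2 : r ≠ r'') (h3 : r' ≠ r'')
    (σ : ℕ → ℕ) (h' : σ r' = 0) (h'' : σ r'' = 0) (hB : σ r ≤ B) :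
    Exec B (copyP r r' r'') σ (Function.update σ r' (σ r)) [] := by
  have e1 := exec_copy_aux B r r' r'' h1 h2 h3 _ σ rfl (by omega) (by omega)
  set σ₁ := (Function.update (Function.update (Function.update σ r' (σ r' + σ r)) r''
        (σ r'' + σ r)) r 0) with hσ₁
  have a1 : σ₁ r'' = σ r := by simp [hσ₁, h2.symm, h'']
  have a2 : σ₁ r = 0 := by simp [hσ₁]
  have e2 := exec_move B r'' r h2.symm _ σ₁ rfl (by omega)
  have : Function.update (Function.update σ₁ r (σ₁ r + σ₁ r'')) r'' 0 =
      Function.update σ r' (σ r) := by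
    funext x
    by_cases hx : x = r
    · subst hx; simp [h1, h2, a1, a2]
    · by_cases hx' : x = r''
      · subst hx'; simp [h3.symm, h'']
      · by_cases hx'' : x = r'
        · subst hx''; simp [hx, hx', hσ₁, h']
        · simp [hx, hx', hx'', hσ₁]
  rw [this] at e2
  simpa [copyP] using Exec.seq e1 e2

/-- Print the symbol with the code in counter `r` and clear this counter. -/
def printP (r : ℕ) : RProg :=
  .ifz r .skip (.seq (.dec r) (.ifz r (.out false) (.seq (clearP r) (.out true))))

theorem exec_print (B r : ℕ) (σ : ℕ → ℕ) :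
    Exec B (printP r) σ (Function.update σ r 0) (sym (σ r)) := by
  by_cases h0 : σ r = 0
  · have : Function.update σ r 0 = σ := by
      funext x; by_cases hx : x = r
      · subst hx; simp [h0]
      · simp [hx]
    rw [this, sym, if_pos h0]
    exact .ifzZ h0 (.skip _)
  · refine .ifzS h0 ?_
    by_cases h1 : σ r = 1
    · rw [sym, if_neg h0, if_pos h1]
      have e1 := Exec.dec (B := B) σ r
      rw [h1] at e1
      have e2 : Exec B (.ifz r (.out false) (.seq (clearP r) (.out true)))
        (Function.update σ r (1 - 1)) (Function.update σ r (1 - 1)) [false] :=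
        .ifzZ (by simp) (.out _ _)
      exact Exec.seq e1 e2
    · rw [sym, if_neg h0, if_neg h1]
      have e1 := Exec.dec (B := B) σ r
      have e2 := exec_clear B r _ (Function.update σ r (σ r - 1)) rfl
      rw [Function.update_idem] at e2
      have e3 : Exec B (.ifz r (.out false) (.seq (clearP r) (.out true)))
        (Function.update σ r (σ r - 1)) (Function.update σ r 0) [true] :=
        .ifzS (by simp; omega) (Exec.seq e2 (.out _ _))
      exact Exec.seq e1 e3

/-- The state of the counters in the main loop. -/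
def st (l z : ℕ) : ℕ → ℕ := Function.update (Function.update (fun _ => 0) 1 l) 2 z

theorem st_one (l z : ℕ) : st l z 1 = l := by simp [st]

theorem st_two (l z : ℕ) : st l z 2 = z := by simp [st]

theorem st_other (l z x : ℕ) (h1 : x ≠ 1) (h2 : x ≠ 2) : st l z x = 0 := by simp [st, h1, h2]

/-- Circuits (words) described by linear space functions can be printed in logarithmic space. -/
theorem exists_prog {T e : ℕ → ℕ} (hT : LS T) (he : LS e) : ∃ (P : RProg) (c : ℕ), ∀ n : ℕ,
    ∃ σ', P.Exec ((n + 2) ^ c) (Function.update (fun _ => 0) 0 n) σ'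
      ((List.range (T n)).flatMap fun j => sym (e (Nat.pair n j))) := by
  obtain ⟨PT, cT, hPT⟩ := hT.compile 1
  obtain ⟨P0, c0, hP0⟩ := (LS.pair LS.id LS.zero).compile 2
  obtain ⟨Pe, ce, hPe⟩ := he.compile 3
  obtain ⟨Pn, cn, hPn⟩ := (LS.pair (LS.fst LS.id) (LS.succ (LS.snd LS.id))).compile 2
  obtain ⟨bT, hbT⟩ := hT.polyBd
  let body : RProg := .seq (copyP 2 3 4) (.seq Pe (.seq (printP 3) Pn))
  let pre : RProg := .seq (copyP 0 1 2) (.seq PT (.seq (moveP 0 2) P0))
  -- a common bound
  obtain ⟨c, hc⟩ : ∃ c : ℕ, ∀ n j : ℕ, j ≤ T n → (n + 2) ^ cT ≤ (n + 2) ^ c ∧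
      (n + 2) ^ c0 ≤ (n + 2) ^ c ∧ n ≤ (n + 2) ^ c ∧ T n ≤ (n + 2) ^ c ∧
      (Nat.pair n j + 2) ^ ce ≤ (n + 2) ^ c ∧ (Nat.pair n j + 2) ^ cn ≤ (n + 2) ^ c ∧
      Nat.pair n j ≤ (n + 2) ^ c := by
    -- `pair n j + 2 ≤ (n + 2) ^ m`
    obtain ⟨m, hm⟩ : ∃ m : ℕ, ∀ n j : ℕ, j ≤ T n → Nat.pair n j + 2 ≤ (n + 2) ^ m := by
      refine ⟨2 * (bT + 2) + 1, fun n j hj => ?_⟩
      have h1 : j ≤ (n + 2) ^ bT := hj.trans (hbT n)
      have h2 : Nat.pair n j < (max n j + 1) ^ 2 := Nat.pair_lt_max_add_one_sq n j
      have h3 : max n j + 1 ≤ (n + 2) ^ (bT + 2) := by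
        have h4 : (n + 2) ^ bT * (n + 2) ^ 2 = (n + 2) ^ (bT + 2) := by rw [pow_add]
        have h5 : 1 ≤ (n + 2) ^ bT := Nat.one_le_pow _ _ (by omega)
        have h6 : max n j ≤ n + (n + 2) ^ bT := max_le (by omega) (by omega)
        rw [← h4]
        generalize (n + 2) ^ bT = X at h5 h6
        have h7 : X * (n + 2) ≤ X * (n + 2) ^ 2 :=
          Nat.mul_le_mul_left _ (Nat.le_self_pow (by norm_num) _)
        have h8 : 1 * n ≤ X * n := Nat.mul_le_mul_right _ h5
        have h9 : X * (n + 2) = X * n + 2 * X := by ring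
        omega
      have h6 : (max n j + 1) ^ 2 ≤ ((n + 2) ^ (bT + 2)) ^ 2 := Nat.pow_le_pow_left h3 2
      have h7 : (n + 2) ^ (2 * (bT + 2) + 1) = ((n + 2) ^ (bT + 2)) ^ 2 * (n + 2) := by
        rw [pow_succ, mul_comm 2, pow_mul]
      have h8 : 1 ≤ ((n + 2) ^ (bT + 2)) ^ 2 := Nat.one_le_pow _ _ (by positivity)
      rw [h7]
      nlinarith
    refine ⟨cT + c0 + bT + m * ce + m * cn + m + 1, fun n j hj => ?_⟩
    have hn : 0 < n + 2 := by omega
    refine ⟨Nat.pow_le_pow_right hn (by omega), Nat.pow_le_pow_right hn (by omega), ?_,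
      (hbT n).trans (Nat.pow_le_pow_right hn (by omega)), ?_, ?_, ?_⟩
    · calc n ≤ (n + 2) ^ 1 := by simp
        _ ≤ _ := Nat.pow_le_pow_right hn (by omega)
    · calc (Nat.pair n j + 2) ^ ce ≤ ((n + 2) ^ m) ^ ce := Nat.pow_le_pow_left (hm n j hj) ce
        _ = (n + 2) ^ (m * ce) := (pow_mul _ _ _).symm
        _ ≤ _ := Nat.pow_le_pow_right hn (by omega)
    · calc (Nat.pair n j + 2) ^ cn ≤ ((n + 2) ^ m) ^ cn := Nat.pow_le_pow_left (hm n j hj) cn
        _ = (n + 2) ^ (m * cn) := (pow_mul _ _ _).symm
        _ ≤ _ := Nat.pow_le_pow_right hn (by omega)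
    · calc Nat.pair n j ≤ (n + 2) ^ m := by have := hm n j hj; omega
        _ ≤ _ := Nat.pow_le_pow_right hn (by omega)
  -- the loop body
  have hbody : ∀ n l j : ℕ, j ≤ T n → Exec ((n + 2) ^ c) body (st l (Nat.pair n j))
      (st l (Nat.pair n (j + 1))) (sym (e (Nat.pair n j))) := by
    intro n l j hj
    obtain ⟨-, -, -, -, b1, b2, b3⟩ := hc n j hj
    have e1 := exec_copy ((n + 2) ^ c) 2 3 4 (by omega) (by omega) (by omega)
      (st l (Nat.pair n j)) (st_other _ _ _ (by omega) (by omega))
      (st_other _ _ _ (by omega) (by omega)) (by rw [st_two]; exact b3)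
    rw [st_two] at e1
    set σ₁ := Function.update (st l (Nat.pair n j)) 3 (Nat.pair n j) with hσ₁
    have e2 := hPe σ₁ (fun x hx => by
      rw [hσ₁, Function.update_of_ne (by omega), st_other _ _ _ (by omega) (by omega)])
    have a3 : σ₁ 3 = Nat.pair n j := by simp [hσ₁]
    rw [a3] at e2
    have e2' := Exec.mono b1 e2
    have e3 := exec_print ((n + 2) ^ c) 3 (Function.update σ₁ 3 (e (Nat.pair n j)))
    rw [Function.update_self] at e3
    have a4 : Function.update (Function.update σ₁ 3 (e (Nat.pair n j))) 3 0 =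
        st l (Nat.pair n j) := by
      funext x
      by_cases hx : x = 3
      · subst hx; simp [st_other]
      · simp [hx, hσ₁]
    rw [a4] at e3
    have e4 := hPn (st l (Nat.pair n j)) (fun x hx => by
      rw [st_other _ _ _ (by omega) (by omega)])
    rw [st_two, Nat.unpair_pair] at e4
    have e4' := Exec.mono b2 e4
    have a5 : Function.update (st l (Nat.pair n j)) 2 (Nat.pair n (j + 1)) =
        st l (Nat.pair n (j + 1)) := by
      simp [st]
    rw [a5] at e4'
    simpa using Exec.seq e1 (Exec.seq e2' (Exec.seq e3 e4'))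
  -- the loop
  have hloop : ∀ n l j : ℕ, j + l ≤ T n → Exec ((n + 2) ^ c) (.loop 1 body)
      (st l (Nat.pair n j)) (st 0 (Nat.pair n (j + l)))
      ((List.range l).flatMap fun i => sym (e (Nat.pair n (j + i)))) := by
    intro n l
    induction l with
    | zero =>
      intro j hj
      exact .loopZ (st_one _ _)
    | succ l ih =>
      intro j hj
      have e1 := hbody n l j (by omega)
      have e2 := ih (j + 1) (by omega)
      have a1 : Function.update (st (l + 1) (Nat.pair n j)) 1 (st (l + 1) (Nat.pair n j) 1 - 1) =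
          st l (Nat.pair n j) := by
        funext x
        by_cases hx : x = 1
        · subst hx; simp [st]
        · by_cases hx' : x = 2
          · subst hx'; simp [st]
          · simp [st, hx, hx']
      rw [← a1] at e1
      have e3 := Exec.loopS (by rw [st_one]; omega) e1 e2
      rw [List.range_succ_eq_map, List.flatMap_cons, List.flatMap_map]
      convert e3 using 1
      · congr 2; omega
      · congr 1
        refine congrArg (fun F => List.flatMap F (List.range l)) (funext fun i => ?_)
        have : j + i.succ = j + 1 + i := by omega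
        rw [this]
  refine ⟨.seq pre (.loop 1 body), c, fun n => ⟨st 0 (Nat.pair n (0 + T n)), ?_⟩⟩
  obtain ⟨b1, b2, b3, b4, -, -, -⟩ := hc n 0 (Nat.zero_le _)
  set σ₀ : ℕ → ℕ := Function.update (fun _ => 0) 0 n with hσ₀
  have e1 := exec_copy ((n + 2) ^ c) 0 1 2 (by omega) (by omega) (by omega) σ₀ (by simp [hσ₀])
    (by simp [hσ₀]) (by simpa [hσ₀] using b3)
  have a0 : σ₀ 0 = n := by simp [hσ₀]
  rw [a0] at e1
  set σ₁ : ℕ → ℕ := Function.update σ₀ 1 n with hσ₁
  have e2 := hPT σ₁ (fun x hx => by
    rw [hσ₁, hσ₀, Function.update_of_ne (by omega), Function.update_of_ne (by omega)])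
  have a1 : σ₁ 1 = n := by simp [hσ₁]
  rw [a1] at e2
  have e2' := Exec.mono b1 e2
  set σ₂ : ℕ → ℕ := Function.update σ₁ 1 (T n) with hσ₂
  have c0 : σ₂ 0 = n := by simp [hσ₂, hσ₁, hσ₀]
  have c2 : σ₂ 2 = 0 := by simp [hσ₂, hσ₁, hσ₀]
  have e3 := exec_move ((n + 2) ^ c) 0 2 (by omega) _ σ₂ rfl (by omega)
  have a3 : Function.update (Function.update σ₂ 2 (σ₂ 2 + σ₂ 0)) 0 0 = st (T n) n := by
    rw [c0, c2]
    funext x
    by_cases hx : x = 0
    · subst hx; simp [st]
    · by_cases hx' : x = 1
      · subst hx'; simp [st, hσ₂]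
      · by_cases hx'' : x = 2
        · subst hx''; simp [st]
        · simp [st, hx, hx', hx'', hσ₂, hσ₁, hσ₀]
  rw [a3] at e3
  have e4 := hP0 (st (T n) n) (fun x hx => by
      rw [st_other _ _ _ (by omega) (by omega)])
  rw [st_two] at e4
  have e4' := Exec.mono b2 e4
  have a4 : Function.update (st (T n) n) 2 (Nat.pair n 0) = st (T n) (Nat.pair n 0) := by
    simp [st]
  rw [a4] at e4'
  have e5 := hloop n (T n) 0 (by omega)
  have e6 := Exec.seq (Exec.seq e1 (Exec.seq e2' (Exec.seq e3 e4'))) e5
  simpa using e6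

/-! ## The description of a gate, symbol by symbol -/

/-- The code of the `k`-th symbol (`k ≤ 2 * B`) of the word `encNat m`, the words being padded
with empty symbols before the last one. -/
def slotNat (m B k : ℕ) : ℕ :=
  if k = 2 * B then 1 else if m / 2 ^ (k / 2) = 0 then 0
    else if k % 2 = 0 then 2 else m / 2 ^ (k / 2) % 2 + 1

theorem bits_flatMap : ∀ (B m : ℕ), m ≤ B →
    (List.range B).flatMap (fun i => if m / 2 ^ i = 0 then [] else
      [true, decide (m / 2 ^ i % 2 = 1)]) = m.bits.flatMap (fun b => [true, b]) := by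
  intro B
  induction B with
  | zero =>
    intro m hm
    obtain rfl : m = 0 := by omega
    simp
  | succ B ih =>
    intro m hm
    rw [List.range_succ_eq_map, List.flatMap_cons, List.flatMap_map]
    rcases Nat.eq_zero_or_pos m with rfl | hpos
    · simp
    · have h1 := ih (m / 2) (by omega)
      have h2 : ∀ i : ℕ, m / 2 ^ i.succ = m / 2 / 2 ^ i := fun i => by
        rw [Nat.div_div_eq_div_mul, Nat.succ_eq_add_one, pow_succ, mul_comm]
      have h3 : m.bits = decide (m % 2 = 1) :: (m / 2).bits := by
        rcases Nat.mod_two_eq_zero_or_one m with h | h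
        · have h4 : m = 2 * (m / 2) := by omega
          conv_lhs => rw [h4]
          rw [Nat.bit0_bits _ (by omega)]
          simp [h]
        · have h4 : m = 2 * (m / 2) + 1 := by omega
          conv_lhs => rw [h4]
          rw [Nat.bit1_bits]
          simp [h]
      rw [h3, List.flatMap_cons, ← h1]
      simp only [pow_zero, Nat.div_one, h2]
      rw [if_neg (by omega)]

theorem slotNat_flatMap (m B : ℕ) (h : m ≤ B) :
    (List.range (2 * B + 1)).flatMap (fun k => sym (slotNat m B k)) = encNat m := by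
  have key : ∀ B' : ℕ, B' ≤ B → (List.range (2 * B')).flatMap (fun k => sym (slotNat m B k)) =
      (List.range B').flatMap (fun i => if m / 2 ^ i = 0 then [] else
        [true, decide (m / 2 ^ i % 2 = 1)]) := by
    intro B'
    induction B' with
    | zero => intro _; rfl
    | succ B' ih =>
      intro hB
      rw [show 2 * (B' + 1) = 2 * B' + 1 + 1 by ring, List.range_succ, List.range_succ,
        List.range_succ, List.flatMap_append, List.flatMap_append, List.flatMap_append,
        ih (by omega)]
      simp only [List.flatMap_cons, List.flatMap_nil, List.append_nil]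
      rw [List.append_assoc]
      congr 1
      have h1 : 2 * B' / 2 = B' := by omega
      have h2 : (2 * B' + 1) / 2 = B' := by omega
      have h4 : ¬ 2 * B' = 2 * B := by omega
      have h5 : ¬ 2 * B' + 1 = 2 * B := by omega
      have h6 : 2 * B' % 2 = 0 := by omega
      have h7 : ¬ (2 * B' + 1) % 2 = 0 := by omega
      simp only [slotNat, if_neg h4, if_neg h5, h1, h2, if_pos h6, if_neg h7]
      by_cases h3 : m / 2 ^ B' = 0
      · simp only [if_pos h3]; rfl
      · simp only [if_neg h3]
        rcases Nat.mod_two_eq_zero_or_one (m / 2 ^ B') with h | h <;> simp [h, sym]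
  rw [List.range_succ, List.flatMap_append, key B le_rfl, bits_flatMap B m h]
  simp [encNat, slotNat, sym]

/-- The code of the `k`-th symbol (`k < 3`) of the kind bits of a gate. -/
def slotKind (t k : ℕ) : ℕ :=
  if k = 0 then (if 4 ≤ t then 2 else 1)
  else if k = 1 then (if 2 ≤ t ∧ t < 4 then 2 else 1)
  else (if (t = 1 ∨ t = 3) ∨ 5 ≤ t then 2 else 1)

/-- The code of the `k`-th symbol of the description of a gate. -/
def slot (t a b B k : ℕ) : ℕ :=
  if k < 3 then slotKind t k
  else if k < 3 + (2 * B + 1) then (if t < 2 then 0 else slotNat a B (k - 3))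
  else (if t < 4 then 0 else slotNat b B (k - (3 + (2 * B + 1))))

theorem slot_flatMap (t a b B : ℕ) (ha : a ≤ B) (hb : b ≤ B) :
    (List.range (3 + (2 * B + 1) + (2 * B + 1))).flatMap (fun k => sym (slot t a b B k)) =
      (mkGate t a b).enc := by
  have h1 : (List.range 3).flatMap (fun k => sym (slot t a b B k)) =
      (List.range 3).flatMap (fun k => sym (slotKind t k)) := by
    refine List.flatMap_congr fun k hk => ?_
    rw [List.mem_range] at hk
    rw [slot, if_pos hk]
  have h2 : ((List.range (2 * B + 1)).map (3 + ·)).flatMap (fun k => sym (slot t a b B k)) =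
      if t < 2 then [] else encNat a := by
    rw [List.flatMap_map]
    split_ifs with h
    · rw [List.flatMap_eq_nil_iff]
      intro k hk
      rw [List.mem_range] at hk
      rw [slot, if_neg (by omega), if_pos (by omega), if_pos h]
      rfl
    · rw [← slotNat_flatMap a B ha]
      refine List.flatMap_congr fun k hk => ?_
      rw [List.mem_range] at hk
      rw [slot, if_neg (by omega), if_pos (by omega), if_neg h, Nat.add_sub_cancel_left]
  have h3 : ((List.range (2 * B + 1)).map ((3 + (2 * B + 1)) + ·)).flatMap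
      (fun k => sym (slot t a b B k)) = if t < 4 then [] else encNat b := by
    rw [List.flatMap_map]
    split_ifs with h
    · rw [List.flatMap_eq_nil_iff]
      intro k hk
      rw [List.mem_range] at hk
      rw [slot, if_neg (by omega), if_neg (by omega), if_pos h]
      rfl
    · rw [← slotNat_flatMap b B hb]
      refine List.flatMap_congr fun k hk => ?_
      rw [List.mem_range] at hk
      rw [slot, if_neg (by omega), if_neg (by omega), if_neg h, Nat.add_sub_cancel_left]
  rw [List.range_add, List.range_add, List.flatMap_append, List.flatMap_append, h1, h2, h3]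
  rw [show List.range 3 = [0, 1, 2] from rfl]
  simp only [List.flatMap_cons, List.flatMap_nil, List.append_nil]
  by_cases t0 : t = 0
  · subst t0; rfl
  by_cases t1 : t = 1
  · subst t1; rfl
  by_cases t2 : t = 2
  · subst t2; simp [mkGate, slotKind, sym, Gate.enc]
  by_cases t3 : t = 3
  · subst t3; simp [mkGate, slotKind, sym, Gate.enc]
  by_cases t4 : t = 4
  · subst t4; simp [mkGate, slotKind, sym, Gate.enc]
  · have h5 : 5 ≤ t := by omega
    have h6 : ¬ t < 2 := by omega
    have h7 : ¬ t < 4 := by omega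
    have h8 : 4 ≤ t := by omega
    simp [mkGate, slotKind, sym, Gate.enc, t0, t1, t2, t3, t4, h5, h6, h7, h8]

theorem flatMap_range_mul (F : ℕ → List Bool) (L : ℕ) : ∀ s : ℕ,
    (List.range (s * L)).flatMap F =
      (List.range s).flatMap fun g => (List.range L).flatMap fun k => F (g * L + k) := by
  intro s
  induction s with
  | zero => simp
  | succ s ih =>
    rw [Nat.succ_mul, List.range_add, List.flatMap_append, ih, List.flatMap_map,
      List.range_succ, List.flatMap_append]
    simp

/-! ## Everything is in `LS` -/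

theorem ls_shift {f g : ℕ → ℕ} (hf : LS f) (hg : LS g) : LS (fun n => f n / 2 ^ g n) := by
  have key : ∀ a n : ℕ, (Nat.rec ((fun n => n) a)
      (fun y r => (fun z : ℕ => z.unpair.2.unpair.2 / 2) (Nat.pair a (Nat.pair y r))) n : ℕ) =
        a / 2 ^ n := by
    intro a n
    induction n with
    | zero => simp
    | succ n ih =>
      simp only [Nat.unpair_pair] at ih ⊢
      rw [ih, pow_succ, Nat.div_div_eq_div_mul]
  have h1 : LS (fun z : ℕ => z.unpair.2.unpair.2 / 2) :=
    LS.div (LS.snd (LS.snd LS.id)) (LS.const 2)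
  have h2 := LS.prec (c := 1) LS.id h1 (by
    intro a n
    rw [key a n, pow_one]
    exact (Nat.div_le_self _ _).trans (by omega))
  have h3 := LS.comp h2 (LS.pair hf hg)
  have h4 : (fun n => f n / 2 ^ g n) = fun n => (Nat.rec ((fun n => n) (Nat.pair (f n) (g n)).unpair.1)
      (fun y r => (fun z : ℕ => z.unpair.2.unpair.2 / 2)
        (Nat.pair (Nat.pair (f n) (g n)).unpair.1 (Nat.pair y r)))
          (Nat.pair (f n) (g n)).unpair.2 : ℕ) := by
    funext n
    rw [key, Nat.unpair_pair]
  rw [h4]
  exact h3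

theorem ls_slotNat {m B k : ℕ → ℕ} (hm : LS m) (hB : LS B) (hk : LS k) :
    LS (fun n => slotNat (m n) (B n) (k n)) := by
  have h2 := LS.const 2
  have hs := ls_shift hm (LS.div hk h2)
  exact LSP.ite (LSP.eq hk (LS.mul h2 hB)) (LS.const 1)
    (LSP.ite (LSP.eq hs LS.zero) LS.zero
      (LSP.ite (LSP.eq (LS.mod hk h2) LS.zero) h2 (LS.succ (LS.mod hs h2))))

theorem ls_slotKind {t k : ℕ → ℕ} (ht : LS t) (hk : LS k) :
    LS (fun n => slotKind (t n) (k n)) := by
  have c1 := LS.const 1
  have c2 := LS.const 2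
  exact LSP.ite (LSP.eq hk LS.zero) (LSP.ite (LSP.le (LS.const 4) ht) c2 c1)
    (LSP.ite (LSP.eq hk c1)
      (LSP.ite (LSP.and (LSP.le c2 ht) (LSP.lt ht (LS.const 4))) c2 c1)
      (LSP.ite (LSP.or (LSP.or (LSP.eq ht c1) (LSP.eq ht (LS.const 3)))
        (LSP.le (LS.const 5) ht)) c2 c1))

theorem ls_slot {t a b B k : ℕ → ℕ} (ht : LS t) (ha : LS a) (hb : LS b) (hB : LS B)
    (hk : LS k) : LS (fun n => slot (t n) (a n) (b n) (B n) (k n)) := by
  have h1 : LS (fun n => 3 + (2 * B n + 1)) :=
    LS.add (LS.const 3) (LS.succ (LS.mul (LS.const 2) hB))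
  exact LSP.ite (LSP.lt hk (LS.const 3)) (ls_slotKind ht hk)
    (LSP.ite (LSP.lt hk h1)
      (LSP.ite (LSP.lt ht (LS.const 2)) LS.zero (ls_slotNat ha hB (LS.sub hk (LS.const 3))))
      (LSP.ite (LSP.lt ht (LS.const 4)) LS.zero (ls_slotNat hb hB (LS.sub hk h1))))

end Print

open Print in
theorem logspaceUniform_mkCircuit {s t a b : ℕ → ℕ} (hs : LS s) (ht : LS t) (ha : LS a)
    (hb : LS b) : LogspaceUniform (mkCircuit s t a b) := by
  obtain ⟨ca, hca⟩ := ha.polyBd
  obtain ⟨cb, hcb⟩ := hb.polyBd
  -- a bound for the arguments of the gates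
  set B : ℕ → ℕ := fun n => ((n + s n + 1) ^ 2 + 2) ^ ca + ((n + s n + 1) ^ 2 + 2) ^ cb with hBdef
  have hB : LS B := by
    have h1 : LS (fun n => (n + s n + 1) ^ 2 + 2) :=
      LS.add (LS.pow (LS.succ (LS.add LS.id hs)) 2) (LS.const 2)
    exact LS.add (LS.pow h1 ca) (LS.pow h1 cb)
  have hpair : ∀ n g : ℕ, g < s n → Nat.pair n g ≤ (n + s n + 1) ^ 2 := fun n g hg =>
    (Nat.pair_lt_max_add_one_sq n g).le.trans (Nat.pow_le_pow_left (by
      have : max n g ≤ n + s n := max_le (by omega) (by omega)
      omega) 2)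
  have hBa : ∀ n g : ℕ, g < s n → a (Nat.pair n g) ≤ B n := fun n g hg =>
    ((hca _).trans (Nat.pow_le_pow_left (Nat.add_le_add_right (hpair n g hg) 2) ca)).trans
      (Nat.le_add_right _ _)
  have hBb : ∀ n g : ℕ, g < s n → b (Nat.pair n g) ≤ B n := fun n g hg =>
    ((hcb _).trans (Nat.pow_le_pow_left (Nat.add_le_add_right (hpair n g hg) 2) cb)).trans
      (Nat.le_add_left _ _)
  -- the number of symbols reserved for a gate
  set L : ℕ → ℕ := fun n => 3 + (2 * B n + 1) + (2 * B n + 1) with hLdef
  have hL : LS L := by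
    have h1 : LS (fun n => 2 * B n + 1) := LS.succ (LS.mul (LS.const 2) hB)
    exact LS.add (LS.add (LS.const 3) h1) h1
  have hLpos : ∀ n, 0 < L n := fun n => by simp only [hLdef]; omega
  -- the symbol codes
  have hn : LS (fun z : ℕ => z.unpair.1) := LS.fst LS.id
  have hj : LS (fun z : ℕ => z.unpair.2) := LS.snd LS.id
  have hLn : LS (fun z : ℕ => L z.unpair.1) := LS.comp hL hn
  have hg : LS (fun z : ℕ => Nat.pair z.unpair.1 (z.unpair.2 / L z.unpair.1)) :=
    LS.pair hn (LS.div hj hLn)
  have he : LS (fun z : ℕ => slot (t (Nat.pair z.unpair.1 (z.unpair.2 / L z.unpair.1)))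
      (a (Nat.pair z.unpair.1 (z.unpair.2 / L z.unpair.1)))
      (b (Nat.pair z.unpair.1 (z.unpair.2 / L z.unpair.1))) (B z.unpair.1)
      (z.unpair.2 % L z.unpair.1)) :=
    ls_slot (LS.comp ht hg) (LS.comp ha hg) (LS.comp hb hg) (LS.comp hB hn) (LS.mod hj hLn)
  obtain ⟨P, c, hP⟩ := exists_prog (LS.mul hs hL) he
  refine RProg.toTransducer P c (fun n => (mkCircuit s t a b n).enc) fun n => ?_
  obtain ⟨σ', hσ'⟩ := hP n
  refine ⟨σ', ?_⟩
  convert hσ' using 1
  rw [flatMap_range_mul, Circuit.enc, mkCircuit, List.flatMap_map]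
  refine List.flatMap_congr fun g hg => ?_
  rw [List.mem_range] at hg
  rw [← slot_flatMap _ _ _ (B n) (hBa n g hg) (hBb n g hg)]
  refine List.flatMap_congr fun k hk => ?_
  rw [List.mem_range] at hk
  have hk' : k < L n := hk
  have h1 : (g * L n + k) / L n = g := by
    rw [mul_comm, Nat.mul_add_div (hLpos n), Nat.div_eq_of_lt hk', add_zero]
  have h2 : (g * L n + k) % L n = k := by
    rw [mul_comm, Nat.mul_add_mod, Nat.mod_eq_of_lt hk']
  rw [Nat.unpair_pair]
  simp only [h1, h2]

end Pool.Agent.H79.Upm
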