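import Pool.Agent.H79.Upm.Sys
import Pool.Agent.H79.Upm.Print

/-!
# From systems over `ZMod 2` to uniform Boolean circuits
-/

namespace Pool.Agent.H79.Upm

/-- The bits of a word as an array over `ZMod 2`. -/
def bits (w : List Bool) (i : ℕ) : ZMod 2 := if w.getD i false then 1 else 0

namespace SysCirc

/-! ### General lemmas on circuits given by functions -/

lemma mk0 (a b : ℕ) : mkGate 0 a b = .const false := rfl
lemma mk1 (a b : ℕ) : mkGate 1 a b = .const true := rfl
lemma mk2 (a b : ℕ) : mkGate 2 a b = .input a := rfl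
lemma mk3 (a b : ℕ) : mkGate 3 a b = .not a := rfl
lemma mk4 (a b : ℕ) : mkGate 4 a b = .and a b := rfl
lemma mk5 (a b : ℕ) : mkGate 5 a b = .or a b := rfl

lemma getD_map_range {α : Type} (v : ℕ → α) (d : α) {a g : ℕ} (h : a < g) :
    ((List.range g).map v).getD a d = v a := by
  simp [List.getD, h]

lemma vals_range (x : List Bool) (gate : ℕ → Gate) (v : ℕ → Bool) (s : ℕ)
    (h : ∀ g < s, (gate g).val x ((List.range g).map v) = v g) :
    Circuit.vals x ((List.range s).map gate) = (List.range s).map v := by
  induction s with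
  | zero => rfl
  | succ s ih =>
    have ih' := ih (fun g hg => h g (Nat.lt_succ_of_lt hg))
    rw [List.range_succ, List.map_append, Circuit.vals, List.foldl_append]
    rw [Circuit.vals] at ih'
    rw [ih']
    simp only [List.map_cons, List.map_nil, List.foldl_cons, List.foldl_nil, List.map_append]
    rw [h s (Nat.lt_succ_self s)]

lemma deps_range (gate : ℕ → Gate) (d : ℕ → ℕ) (s : ℕ)
    (h : ∀ g < s, (gate g).dep ((List.range g).map d) = d g) :
    Circuit.deps ((List.range s).map gate) = (List.range s).map d := by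
  induction s with
  | zero => rfl
  | succ s ih =>
    have ih' := ih (fun g hg => h g (Nat.lt_succ_of_lt hg))
    rw [List.range_succ, List.map_append, Circuit.deps, List.foldl_append]
    rw [Circuit.deps] at ih'
    rw [ih']
    simp only [List.map_cons, List.map_nil, List.foldl_cons, List.foldl_nil, List.map_append]
    rw [h s (Nat.lt_succ_self s)]

/-- the depth function of a family of gates -/
def depF (gate : ℕ → Gate) : ℕ → ℕ
  | g => (gate g).dep (((List.finRange g).map fun a => depF gate a.1))
termination_by g => g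
decreasing_by exact a.2

lemma depF_eq (gate : ℕ → Gate) (g : ℕ) :
    (gate g).dep ((List.range g).map (depF gate)) = depF gate g := by
  rw [depF]
  congr 1
  apply List.ext_getElem
  · simp
  · intro i h1 h2
    simp

lemma foldl_max_le (l : List ℕ) (m M : ℕ) (hm : m ≤ M) (h : ∀ x ∈ l, x ≤ M) :
    l.foldl max m ≤ M := by
  induction l generalizing m with
  | nil => exact hm
  | cons a l ih =>
    exact ih _ (max_le hm (h a (by simp))) (fun x hx => h x (by simp [hx]))

lemma depth_range_le (gate : ℕ → Gate) (s : ℕ) (B : ℕ → ℕ) (M : ℕ)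
    (hB : ∀ g < s, B g ≤ M)
    (h : ∀ g < s, ∀ d : ℕ → ℕ, (∀ a < g, d a ≤ B a) → (gate g).dep ((List.range g).map d) ≤ B g) :
    Circuit.depth ((List.range s).map gate) ≤ M := by
  rw [Circuit.depth, deps_range gate (depF gate) s (fun g _ => depF_eq gate g)]
  have key : ∀ g, g < s → depF gate g ≤ B g := by
    intro g
    induction g using Nat.strong_induction_on with
    | _ g ih =>
      intro hg
      rw [← depF_eq]
      exact h g hg _ (fun a ha => ih a ha (ha.trans hg))
  apply foldl_max_le _ _ _ (Nat.zero_le _)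
  intro x hx
  rw [List.mem_map] at hx
  obtain ⟨g, hg, rfl⟩ := hx
  rw [List.mem_range] at hg
  exact (key g hg).trans (hB g hg)

/-! ### The circuit of a system -/

variable (E : USys) (T W : ℕ → ℕ)

/-- index -/
def cW (n g : ℕ) : ℕ := (g / 4) % W n
/-- layer -/
def cT (n g : ℕ) : ℕ := (g / 4) / W n
/-- code of the gate -/
def cC (n g : ℕ) : ℕ := cd n 0 (cT W n g - 1) (cW W n g)
/-- kind of the gate of the system -/
def cop (n g : ℕ) : ℕ := E.op (cC W n g)
/-- position of the first argument -/
def cA (n g : ℕ) : ℕ := 4 * ((cT W n g - 1) * W n + E.a (cC W n g)) + 3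
/-- position of the second argument -/
def cB (n g : ℕ) : ℕ := 4 * ((cT W n g - 1) * W n + E.b (cC W n g)) + 3
/-- position of the output gate -/
def lst (n : ℕ) : ℕ := 4 * ((T n + 1) * W n)
/-- number of gates -/
def sz (n : ℕ) : ℕ := lst T W n + 1
/-- position of the result -/
def res (n : ℕ) : ℕ := 4 * (T n * W n) + 3

/-- kind -/
def kindF (n g : ℕ) : ℕ :=
  if g = lst T W n then 5
  else if g % 4 = 3 then
    (if cT W n g = 0 then (if cW W n g < n then 2 else 0)
     else if cop E W n g = 0 then 0
     else if cop E W n g = 1 then 1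
     else if cop E W n g = 2 then 1
     else if cop E W n g = 3 then 5 else 4)
  else if cT W n g = 0 then 0
  else if cop E W n g = 4 then (if g % 4 = 0 then 5 else if g % 4 = 1 then 4 else 3)
  else 0

/-- first argument -/
def argA (n g : ℕ) : ℕ :=
  if g = lst T W n then res T W n
  else if g % 4 = 3 then
    (if cT W n g = 0 then cW W n g else if cop E W n g = 4 then g - 3 else cA E W n g)
  else if g % 4 = 2 then g - 1 else cA E W n g

/-- second argument -/
def argB (n g : ℕ) : ℕ :=
  if g = lst T W n then res T W n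
  else if g % 4 = 3 then
    (if cop E W n g = 4 then g - 1 else if cop E W n g = 3 then cA E W n g else cB E W n g)
  else cB E W n g

section LSproofs

lemma ls_cW (hW : LS W) : LS (fun z => cW W z.unpair.1 z.unpair.2) :=
  (LS.div (LS.snd LS.id) (LS.const 4)).mod (LS.comp hW (LS.fst LS.id))

lemma ls_cT (hW : LS W) : LS (fun z => cT W z.unpair.1 z.unpair.2) :=
  (LS.div (LS.snd LS.id) (LS.const 4)).div (LS.comp hW (LS.fst LS.id))

lemma ls_cC (hW : LS W) : LS (fun z => cC W z.unpair.1 z.unpair.2) :=
  LS.pair (LS.pair (LS.fst LS.id) (LS.const 0))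
    (LS.pair ((ls_cT W hW).sub (LS.const 1)) (ls_cW W hW))

lemma ls_cop (hE : LS E.op) (hW : LS W) : LS (fun z => cop E W z.unpair.1 z.unpair.2) :=
  LS.comp hE (ls_cC W hW)

lemma ls_cA (hE : LS E.a) (hW : LS W) : LS (fun z => cA E W z.unpair.1 z.unpair.2) :=
  LS.add (LS.mul (LS.const 4) (LS.add (LS.mul ((ls_cT W hW).sub (LS.const 1))
    (LS.comp hW (LS.fst LS.id))) (LS.comp hE (ls_cC W hW)))) (LS.const 3)

lemma ls_cB (hE : LS E.b) (hW : LS W) : LS (fun z => cB E W z.unpair.1 z.unpair.2) :=
  LS.add (LS.mul (LS.const 4) (LS.add (LS.mul ((ls_cT W hW).sub (LS.const 1))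
    (LS.comp hW (LS.fst LS.id))) (LS.comp hE (ls_cC W hW)))) (LS.const 3)

lemma ls_lst (hT : LS T) (hW : LS W) : LS (lst T W) :=
  LS.mul (LS.const 4) (LS.mul (LS.succ hT) hW)

lemma ls_sz (hT : LS T) (hW : LS W) : LS (sz T W) := LS.succ (ls_lst T W hT hW)

lemma ls_res (hT : LS T) (hW : LS W) : LS (res T W) :=
  LS.add (LS.mul (LS.const 4) (LS.mul hT hW)) (LS.const 3)

lemma ls_mod4 : LS (fun z : ℕ => z.unpair.2 % 4) := LS.mod (LS.snd LS.id) (LS.const 4)

lemma ls_isLst (hT : LS T) (hW : LS W) : LSP (fun z => z.unpair.2 = lst T W z.unpair.1) :=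
  LSP.eq (LS.snd LS.id) (LS.comp (ls_lst T W hT hW) (LS.fst LS.id))

lemma ls_kindF (hE : LS E.op) (hT : LS T) (hW : LS W) :
    LS (fun z => kindF E T W z.unpair.1 z.unpair.2) := by
  have hop := ls_cop E W hE hW
  have hct := ls_cT W hW
  exact LSP.ite (ls_isLst T W hT hW) (LS.const 5)
    (LSP.ite (LSP.eq ls_mod4 (LS.const 3))
      (LSP.ite (LSP.eq hct (LS.const 0))
        (LSP.ite (LSP.lt (ls_cW W hW) (LS.fst LS.id)) (LS.const 2) (LS.const 0))
        (LSP.ite (LSP.eq hop (LS.const 0)) (LS.const 0)
          (LSP.ite (LSP.eq hop (LS.const 1)) (LS.const 1)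
            (LSP.ite (LSP.eq hop (LS.const 2)) (LS.const 1)
              (LSP.ite (LSP.eq hop (LS.const 3)) (LS.const 5) (LS.const 4))))))
      (LSP.ite (LSP.eq hct (LS.const 0)) (LS.const 0)
        (LSP.ite (LSP.eq hop (LS.const 4))
          (LSP.ite (LSP.eq ls_mod4 (LS.const 0)) (LS.const 5)
            (LSP.ite (LSP.eq ls_mod4 (LS.const 1)) (LS.const 4) (LS.const 3)))
          (LS.const 0))))

lemma ls_argA (hE : LS E.op) (hEa : LS E.a) (hT : LS T) (hW : LS W) :
    LS (fun z => argA E T W z.unpair.1 z.unpair.2) := by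
  have hop := ls_cop E W hE hW
  have hct := ls_cT W hW
  exact LSP.ite (ls_isLst T W hT hW) (LS.comp (ls_res T W hT hW) (LS.fst LS.id))
    (LSP.ite (LSP.eq ls_mod4 (LS.const 3))
      (LSP.ite (LSP.eq hct (LS.const 0)) (ls_cW W hW)
        (LSP.ite (LSP.eq hop (LS.const 4)) (LS.sub (LS.snd LS.id) (LS.const 3))
          (ls_cA E W hEa hW)))
      (LSP.ite (LSP.eq ls_mod4 (LS.const 2)) (LS.sub (LS.snd LS.id) (LS.const 1))
        (ls_cA E W hEa hW)))

lemma ls_argB (hE : LS E.op) (hEa : LS E.a) (hEb : LS E.b) (hT : LS T) (hW : LS W) :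
    LS (fun z => argB E T W z.unpair.1 z.unpair.2) := by
  have hop := ls_cop E W hE hW
  exact LSP.ite (ls_isLst T W hT hW) (LS.comp (ls_res T W hT hW) (LS.fst LS.id))
    (LSP.ite (LSP.eq ls_mod4 (LS.const 3))
      (LSP.ite (LSP.eq hop (LS.const 4)) (LS.sub (LS.snd LS.id) (LS.const 1))
        (LSP.ite (LSP.eq hop (LS.const 3)) (ls_cA E W hEa hW) (ls_cB E W hEb hW)))
      (ls_cB E W hEb hW))

end LSproofs

/-- the gate number `g` -/
def gt (n g : ℕ) : Gate := mkGate (kindF E T W n g) (argA E T W n g) (argB E T W n g)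

/-- truth value of a system gate -/
def R (n : ℕ) (S : ℕ → ZMod 2) (t i : ℕ) : Bool := decide (E.run n 0 t S i = 1)

/-- value of the gate number `g` -/
def vF (n : ℕ) (S : ℕ → ZMod 2) (g : ℕ) : Bool :=
  if g = lst T W n then R E n S (T n) 0
  else if g % 4 = 3 then R E n S (cT W n g) (cW W n g)
  else if cT W n g = 0 then false
  else if cop E W n g = 4 then
    (if g % 4 = 0 then
      R E n S (cT W n g - 1) (E.a (cC W n g)) || R E n S (cT W n g - 1) (E.b (cC W n g))
     else if g % 4 = 1 then
      R E n S (cT W n g - 1) (E.a (cC W n g)) && R E n S (cT W n g - 1) (E.b (cC W n g))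
     else
      !(R E n S (cT W n g - 1) (E.a (cC W n g)) && R E n S (cT W n g - 1) (E.b (cC W n g))))
  else false

variable {E T W}

lemma code_facts {n w t a : ℕ} (hw : W n = w) (ha : a < w) :
    (4 * (t * w + a) + 3) % 4 = 3 ∧ cT W n (4 * (t * w + a) + 3) = t ∧
      cW W n (4 * (t * w + a) + 3) = a := by
  have h1 : (4 * (t * w + a) + 3) / 4 = t * w + a := by omega
  refine ⟨by omega, ?_, ?_⟩
  · rw [cT, h1, hw, Nat.add_comm, Nat.add_mul_div_right _ _ (by omega), Nat.div_eq_of_lt ha]
    omega
  · rw [cW, h1, hw, Nat.add_comm, Nat.add_mul_mod_self_right, Nat.mod_eq_of_lt ha]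

lemma decomp {n g : ℕ} (hW : 0 < W n) (hg : g < lst T W n) :
    cW W n g < W n ∧ cT W n g ≤ T n ∧ g = 4 * (cT W n g * W n + cW W n g) + g % 4 := by
  refine ⟨Nat.mod_lt _ hW, ?_, ?_⟩
  · rw [lst] at hg
    have h1 : g / 4 < (T n + 1) * W n := by omega
    have h2 : g / 4 / W n < T n + 1 := Nat.div_lt_of_lt_mul (by rw [mul_comm]; exact h1)
    rw [cT]; omega
  · have h1 := Nat.div_add_mod (g / 4) (W n)
    have h2 := Nat.div_add_mod g 4
    rw [cT, cW, mul_comm (g / 4 / W n), h1]
    omega

/-- position of an argument: smaller than the gate -/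
lemma arg_lt {n g x : ℕ} (hW : 0 < W n) (hg : g < lst T W n) (ht : cT W n g ≠ 0)
    (hx : x < W n) : 4 * ((cT W n g - 1) * W n + x) + 3 < g - g % 4 := by
  obtain ⟨h1, h2, h3⟩ := decomp (T := T) hW hg
  obtain ⟨t, ht'⟩ := Nat.exists_eq_succ_of_ne_zero ht
  rw [ht'] at h3 ⊢
  have h4 : (t + 1) * W n = t * W n + W n := by ring
  simp only [Nat.succ_eq_add_one, Nat.add_sub_cancel] at h3 ⊢
  rw [h4] at h3
  omega

lemma vF_arg {n g x : ℕ} (S : ℕ → ZMod 2) (hW : 0 < W n) (hg : g < lst T W n)
    (ht : cT W n g ≠ 0) (hx : x < W n) :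
    vF E T W n S (4 * ((cT W n g - 1) * W n + x) + 3) = R E n S (cT W n g - 1) x := by
  have h1 := arg_lt (T := T) hW hg ht hx
  obtain ⟨h2, h3, h4⟩ := code_facts (W := W) (n := n) (t := cT W n g - 1) rfl hx
  rw [vF, if_neg (by omega), if_pos h2, h3, h4]

lemma zmod2 (x : ZMod 2) : x = 0 ∨ x = 1 := by
  fin_cases x
  · left; rfl
  · right; rfl

variable (hK : ∀ p k t i, k < 1 → i < W p → E.a (cd p k t i) < W p)
  (hK' : ∀ p k t i, k < 1 → i < W p → E.b (cd p k t i) < W p)

include hK hK' in
lemma gate_eq (x : List Bool) {n g : ℕ} (hn : x.length = n) (hW : 0 < W n)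
    (hg : g < sz T W n) :
    (gt E T W n g).val x ((List.range g).map (vF E T W n (bits x))) = vF E T W n (bits x) g := by
  by_cases hl : g = lst T W n
  · -- output gate
    have h1 : res T W n < g := by
      rw [hl, res, lst]
      have : (T n + 1) * W n = T n * W n + W n := by ring
      omega
    have h0 : res T W n = 4 * (T n * W n + 0) + 3 := by rw [res]; ring
    have h2 : vF E T W n (bits x) (res T W n) = R E n (bits x) (T n) 0 := by
      obtain ⟨h3, h4, h5⟩ := code_facts (W := W) (n := n) (t := T n) rfl hW
      rw [vF, if_neg (by omega), h0, if_pos h3, h4, h5]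
    simp only [gt, kindF, argA, argB, if_pos hl]
    simp only [mk0, mk1, mk2, mk3, mk4, mk5, Gate.val]
    rw [getD_map_range _ _ h1, h2, vF, if_pos hl, Bool.or_self]
  · have hg' : g < lst T W n := by rw [sz] at hg; omega
    obtain ⟨hi, htT, hdec⟩ := decomp (T := T) hW hg'
    by_cases ht : cT W n g = 0
    · -- input layer
      by_cases h3 : g % 4 = 3
      · have hv : vF E T W n (bits x) g = x.getD (cW W n g) false := by
          rw [vF, if_neg hl, if_pos h3, ht, R, USys.run, bits]
          cases h : x.getD (cW W n g) false <;> simp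
        rw [hv]
        by_cases hin : cW W n g < n
        · simp only [gt, kindF, argA, if_neg hl, if_pos h3, if_pos ht, if_pos hin]
          simp only [mk0, mk1, mk2, mk3, mk4, mk5, Gate.val]
        · simp only [gt, kindF, if_neg hl, if_pos h3, if_pos ht, if_neg hin]
          simp only [mk0, mk1, mk2, mk3, mk4, mk5, Gate.val]
          rw [List.getD_eq_default _ _ (by omega)]
      · have hv : vF E T W n (bits x) g = false := by
          rw [vF, if_neg hl, if_neg h3, if_pos ht]
        rw [hv]
        simp only [gt, kindF, if_neg hl, if_neg h3, if_pos ht]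
        simp only [mk0, mk1, mk2, mk3, mk4, mk5, Gate.val]
    · -- computation layers
      obtain ⟨t, ht'⟩ := Nat.exists_eq_succ_of_ne_zero ht
      have ht1 : cT W n g - 1 = t := by omega
      have hcC : cC W n g = cd n 0 t (cW W n g) := by rw [cC, ht1]
      have haW : E.a (cC W n g) < W n := by rw [hcC]; exact hK _ _ _ _ one_pos hi
      have hbW : E.b (cC W n g) < W n := by rw [hcC]; exact hK' _ _ _ _ one_pos hi
      have hA := arg_lt (T := T) hW hg' ht haW
      have hB := arg_lt (T := T) hW hg' ht hbW
      have hA' : cA E W n g < g := by rw [cA]; omega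
      have hB' : cB E W n g < g := by rw [cB]; omega
      have hvA : vF E T W n (bits x) (cA E W n g) = R E n (bits x) t (E.a (cC W n g)) := by
        rw [cA, vF_arg (bits x) hW hg' ht haW, ht1]
      have hvB : vF E T W n (bits x) (cB E W n g) = R E n (bits x) t (E.b (cC W n g)) := by
        rw [cB, vF_arg (bits x) hW hg' ht hbW, ht1]
      have gA := getD_map_range (vF E T W n (bits x)) false hA'
      have gB := getD_map_range (vF E T W n (bits x)) false hB'
      rw [hvA] at gA
      rw [hvB] at gB
      have hstep : R E n (bits x) (cT W n g) (cW W n g) =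
          decide (E.step n 0 t (E.run n 0 t (bits x)) (cW W n g) = 1) := by
        rw [R, ht']; rfl
      by_cases h3 : g % 4 = 3
      · rw [vF, if_neg hl, if_pos h3, hstep, USys.step, ← hcC]
        have hopdef : E.op (cC W n g) = cop E W n g := rfl
        rw [hopdef]
        by_cases o0 : cop E W n g = 0
        · simp only [gt, kindF, if_neg hl, if_pos h3, if_neg ht, if_pos o0]
          simp only [mk0, mk1, mk2, mk3, mk4, mk5, Gate.val]
          decide
        by_cases o1 : cop E W n g = 1
        · simp only [gt, kindF, if_neg hl, if_pos h3, if_neg ht, if_neg o0, if_pos o1]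
          simp only [mk0, mk1, mk2, mk3, mk4, mk5, Gate.val]
          decide
        by_cases o2 : cop E W n g = 2
        · simp only [gt, kindF, if_neg hl, if_pos h3, if_neg ht, if_neg o0, if_neg o1, if_pos o2]
          simp only [mk0, mk1, mk2, mk3, mk4, mk5, Gate.val]
          decide
        by_cases o3 : cop E W n g = 3
        · have o4 : ¬ cop E W n g = 4 := by omega
          simp only [gt, kindF, argA, argB, if_neg hl, if_pos h3, if_neg ht, if_neg o0,
            if_neg o1, if_neg o2, if_pos o3, if_neg o4]
          simp only [mk0, mk1, mk2, mk3, mk4, mk5, Gate.val]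
          rw [gA, Bool.or_self]
          rfl
        by_cases o4 : cop E W n g = 4
        · -- xor
          simp only [gt, kindF, argA, argB, if_neg hl, if_pos h3, if_neg ht, if_neg o0,
            if_neg o1, if_neg o2, if_neg o3, if_pos o4]
          simp only [mk0, mk1, mk2, mk3, mk4, mk5, Gate.val]
          have e3 : (g - 3) % 4 = 0 := by omega
          have e1 : (g - 1) % 4 = 2 := by omega
          have d3 : (g - 3) / 4 = g / 4 := by omega
          have d1 : (g - 1) / 4 = g / 4 := by omega
          have t3 : cT W n (g - 3) = cT W n g := by rw [cT, cT, d3]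
          have t1 : cT W n (g - 1) = cT W n g := by rw [cT, cT, d1]
          have w3 : cW W n (g - 3) = cW W n g := by rw [cW, cW, d3]
          have w1 : cW W n (g - 1) = cW W n g := by rw [cW, cW, d1]
          have c3 : cC W n (g - 3) = cC W n g := by rw [cC, cC, t3, w3]
          have c1 : cC W n (g - 1) = cC W n g := by rw [cC, cC, t1, w1]
          have o3' : cop E W n (g - 3) = cop E W n g := by rw [cop, cop, c3]
          have o1' : cop E W n (g - 1) = cop E W n g := by rw [cop, cop, c1]
          have v3 : vF E T W n (bits x) (g - 3) = (R E n (bits x) t (E.a (cC W n g)) ||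
              R E n (bits x) t (E.b (cC W n g))) := by
            rw [vF, if_neg (by omega), if_neg (by omega), t3, if_neg ht, o3', if_pos o4,
              if_pos e3, c3, ht1]
          have v1 : vF E T W n (bits x) (g - 1) = !(R E n (bits x) t (E.a (cC W n g)) &&
              R E n (bits x) t (E.b (cC W n g))) := by
            rw [vF, if_neg (by omega), if_neg (by omega), t1, if_neg ht, o1', if_pos o4,
              if_neg (by omega), if_neg (by omega), c1, ht1]
          have g3 := getD_map_range (vF E T W n (bits x)) false (show g - 3 < g by omega)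
          have g1 := getD_map_range (vF E T W n (bits x)) false (show g - 1 < g by omega)
          rw [v3] at g3
          rw [v1] at g1
          rw [g3, g1, R, R]
          rcases zmod2 (E.run n 0 t (bits x) (E.a (cC W n g))) with ha | ha <;>
          rcases zmod2 (E.run n 0 t (bits x) (E.b (cC W n g))) with hb | hb <;>
          rw [ha, hb] <;> decide
        · simp only [gt, kindF, argA, argB, if_neg hl, if_pos h3, if_neg ht, if_neg o0,
            if_neg o1, if_neg o2, if_neg o3, if_neg o4]
          simp only [mk0, mk1, mk2, mk3, mk4, mk5, Gate.val]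
          rw [gA, gB, R, R]
          rcases zmod2 (E.run n 0 t (bits x) (E.a (cC W n g))) with ha | ha <;>
          rcases zmod2 (E.run n 0 t (bits x) (E.b (cC W n g))) with hb | hb <;>
          rw [ha, hb] <;> decide
      · rw [vF, if_neg hl, if_neg h3, if_neg ht]
        by_cases o4 : cop E W n g = 4
        · rw [if_pos o4, ht1]
          by_cases m0 : g % 4 = 0
          · have m2 : ¬ g % 4 = 2 := by omega
            rw [if_pos m0]
            simp only [gt, kindF, argA, argB, if_neg hl, if_neg h3, if_neg ht, if_pos o4,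
              if_pos m0, if_neg m2]
            simp only [mk0, mk1, mk2, mk3, mk4, mk5, Gate.val]
            rw [gA, gB]
          · rw [if_neg m0]
            by_cases m1 : g % 4 = 1
            · have m2 : ¬ g % 4 = 2 := by omega
              rw [if_pos m1]
              simp only [gt, kindF, argA, argB, if_neg hl, if_neg h3, if_neg ht, if_pos o4,
                if_neg m0, if_pos m1, if_neg m2]
              simp only [mk0, mk1, mk2, mk3, mk4, mk5, Gate.val]
              rw [gA, gB]
            · have m2 : g % 4 = 2 := by omega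
              rw [if_neg m1]
              simp only [gt, kindF, argA, argB, if_neg hl, if_neg h3, if_neg ht, if_pos o4,
                if_neg m0, if_neg m1, if_pos m2]
              simp only [mk0, mk1, mk2, mk3, mk4, mk5, Gate.val]
              have e1 : (g - 1) % 4 = 1 := by omega
              have d1 : (g - 1) / 4 = g / 4 := by omega
              have t1 : cT W n (g - 1) = cT W n g := by rw [cT, cT, d1]
              have w1 : cW W n (g - 1) = cW W n g := by rw [cW, cW, d1]
              have c1 : cC W n (g - 1) = cC W n g := by rw [cC, cC, t1, w1]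
              have o1' : cop E W n (g - 1) = cop E W n g := by rw [cop, cop, c1]
              have v1 : vF E T W n (bits x) (g - 1) = (R E n (bits x) t (E.a (cC W n g)) &&
                  R E n (bits x) t (E.b (cC W n g))) := by
                rw [vF, if_neg (by omega), if_neg (by omega), t1, if_neg ht, o1', if_pos o4,
                  if_neg (by omega), if_pos (by omega), c1, ht1]
              have g1 := getD_map_range (vF E T W n (bits x)) false (show g - 1 < g by omega)
              rw [v1] at g1
              rw [g1]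
        · rw [if_neg o4]
          simp only [gt, kindF, if_neg hl, if_neg h3, if_neg ht, if_neg o4]
          simp only [mk0, mk1, mk2, mk3, mk4, mk5, Gate.val]

/-- bound of the depth -/
def dB (T W : ℕ → ℕ) (n g : ℕ) : ℕ :=
  if g = lst T W n then 3 * T n + 1
  else if cT W n g = 0 then 0
  else 3 * (cT W n g - 1) + (if g % 4 = 0 then 1 else g % 4)

lemma dB_aux {t : ℕ} (x c : ℕ) (hx : x % 4 = 3) (hc : c = t) :
    (if c = 0 then 0 else 3 * (c - 1) + (if x % 4 = 0 then 1 else x % 4)) = 3 * t := by
  subst hc
  rw [hx]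
  by_cases h : c = 0
  · rw [if_pos h]; omega
  · rw [if_neg h, if_neg (by norm_num)]; omega

include hK hK' in
lemma legal_dep {n g : ℕ} (hW : 0 < W n) (hg : g < sz T W n) :
    (gt E T W n g).Legal n g ∧ ∀ d : ℕ → ℕ, (∀ a < g, d a ≤ dB T W n a) →
      (gt E T W n g).dep ((List.range g).map d) ≤ dB T W n g := by
  by_cases hl : g = lst T W n
  · have h1 : res T W n < g := by
      rw [hl, res, lst]
      have : (T n + 1) * W n = T n * W n + W n := by ring
      omega
    have h0 : res T W n = 4 * (T n * W n + 0) + 3 := by rw [res]; ring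
    obtain ⟨h3, h4, h5⟩ := code_facts (W := W) (n := n) (t := T n) rfl hW
    have hd : dB T W n (res T W n) = 3 * T n := by
      rw [dB, if_neg (by omega), h0]
      exact dB_aux _ _ h3 h4
    simp only [gt, kindF, argA, argB, if_pos hl]
    have hgt : mkGate 5 (res T W n) (res T W n) = Gate.or (res T W n) (res T W n) := rfl
    rw [hgt]
    refine ⟨⟨h1, h1⟩, fun d hd' => ?_⟩
    rw [Gate.dep, getD_map_range d 0 h1, dB, if_pos hl]
    have := hd' _ h1
    rw [hd] at this
    simp only [max_self]
    omega
  · have hg' : g < lst T W n := by rw [sz] at hg; omega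
    obtain ⟨hi, htT, hdec⟩ := decomp (T := T) hW hg'
    -- trivial kinds
    have triv0 : ∀ a b, (mkGate 0 a b).Legal n g ∧ ∀ d : ℕ → ℕ, (∀ a < g, d a ≤ dB T W n a) →
        (mkGate 0 a b).dep ((List.range g).map d) ≤ dB T W n g :=
      fun a b => ⟨trivial, fun d _ => Nat.zero_le _⟩
    have triv1 : ∀ a b, (mkGate 1 a b).Legal n g ∧ ∀ d : ℕ → ℕ, (∀ a < g, d a ≤ dB T W n a) →
        (mkGate 1 a b).dep ((List.range g).map d) ≤ dB T W n g :=
      fun a b => ⟨trivial, fun d _ => Nat.zero_le _⟩
    -- gates with arguments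
    have tArg : ∀ a b, a < g → b < g → dB T W n a + 1 ≤ dB T W n g →
        dB T W n b + 1 ≤ dB T W n g → ∀ k, (k = 3 ∨ k = 4 ∨ k = 5) →
        (mkGate k a b).Legal n g ∧ ∀ d : ℕ → ℕ, (∀ a < g, d a ≤ dB T W n a) →
        (mkGate k a b).dep ((List.range g).map d) ≤ dB T W n g := by
      intro a b ha hb hda hdb k hk
      rcases hk with rfl | rfl | rfl
      · refine ⟨ha, fun d hd => ?_⟩
        show ((List.range g).map d).getD a 0 + 1 ≤ _
        rw [getD_map_range d 0 ha]
        have := hd a ha
        omega
      · refine ⟨⟨ha, hb⟩, fun d hd => ?_⟩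
        show max (((List.range g).map d).getD a 0) (((List.range g).map d).getD b 0) + 1 ≤ _
        rw [getD_map_range d 0 ha, getD_map_range d 0 hb]
        have h1 := hd a ha
        have h2 := hd b hb
        have : max (d a) (d b) ≤ dB T W n g - 1 := max_le (by omega) (by omega)
        omega
      · refine ⟨⟨ha, hb⟩, fun d hd => ?_⟩
        show max (((List.range g).map d).getD a 0) (((List.range g).map d).getD b 0) + 1 ≤ _
        rw [getD_map_range d 0 ha, getD_map_range d 0 hb]
        have h1 := hd a ha
        have h2 := hd b hb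
        have : max (d a) (d b) ≤ dB T W n g - 1 := max_le (by omega) (by omega)
        omega
    by_cases ht : cT W n g = 0
    · by_cases h3 : g % 4 = 3
      · by_cases hin : cW W n g < n
        · simp only [gt, kindF, argA, if_neg hl, if_pos h3, if_pos ht, if_pos hin]
          exact ⟨hin, fun d _ => Nat.zero_le _⟩
        · simp only [gt, kindF, if_neg hl, if_pos h3, if_pos ht, if_neg hin]
          exact triv0 _ _
      · simp only [gt, kindF, if_neg hl, if_neg h3, if_pos ht]
        exact triv0 _ _
    · obtain ⟨t, ht'⟩ := Nat.exists_eq_succ_of_ne_zero ht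
      have ht1 : cT W n g - 1 = t := by omega
      have hcC : cC W n g = cd n 0 t (cW W n g) := by rw [cC, ht1]
      have haW : E.a (cC W n g) < W n := by rw [hcC]; exact hK _ _ _ _ one_pos hi
      have hbW : E.b (cC W n g) < W n := by rw [hcC]; exact hK' _ _ _ _ one_pos hi
      have hA := arg_lt (T := T) hW hg' ht haW
      have hB := arg_lt (T := T) hW hg' ht hbW
      have hA' : cA E W n g < g := by rw [cA]; omega
      have hB' : cB E W n g < g := by rw [cB]; omega
      have hdA : dB T W n (cA E W n g) = 3 * t := by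
        obtain ⟨h3, h4, h5⟩ := code_facts (W := W) (n := n) (t := cT W n g - 1) rfl haW
        rw [dB, if_neg (by omega), cA]
        exact dB_aux _ _ h3 (h4.trans ht1)
      have hdB : dB T W n (cB E W n g) = 3 * t := by
        obtain ⟨h3, h4, h5⟩ := code_facts (W := W) (n := n) (t := cT W n g - 1) rfl hbW
        rw [dB, if_neg (by omega), cB]
        exact dB_aux _ _ h3 (h4.trans ht1)
      have hdg : dB T W n g = 3 * t + (if g % 4 = 0 then 1 else g % 4) := by
        rw [dB, if_neg hl, if_neg ht, ht1]
      have hdA1 : dB T W n (cA E W n g) + 1 ≤ dB T W n g := by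
        rw [hdA, hdg]; split_ifs <;> omega
      have hdB1 : dB T W n (cB E W n g) + 1 ≤ dB T W n g := by
        rw [hdB, hdg]; split_ifs <;> omega
      by_cases h3 : g % 4 = 3
      · by_cases o0 : cop E W n g = 0
        · simp only [gt, kindF, if_neg hl, if_pos h3, if_neg ht, if_pos o0]
          exact triv0 _ _
        by_cases o1 : cop E W n g = 1
        · simp only [gt, kindF, if_neg hl, if_pos h3, if_neg ht, if_neg o0, if_pos o1]
          exact triv1 _ _
        by_cases o2 : cop E W n g = 2
        · simp only [gt, kindF, if_neg hl, if_pos h3, if_neg ht, if_neg o0, if_neg o1, if_pos o2]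
          exact triv1 _ _
        by_cases o3 : cop E W n g = 3
        · have o4 : ¬ cop E W n g = 4 := by omega
          simp only [gt, kindF, argA, argB, if_neg hl, if_pos h3, if_neg ht, if_neg o0,
            if_neg o1, if_neg o2, if_pos o3, if_neg o4]
          exact tArg _ _ hA' hA' hdA1 hdA1 _ (by simp)
        by_cases o4 : cop E W n g = 4
        · simp only [gt, kindF, argA, argB, if_neg hl, if_pos h3, if_neg ht, if_neg o0,
            if_neg o1, if_neg o2, if_neg o3, if_pos o4]
          have t3 : cT W n (g - 3) = cT W n g := by rw [cT, cT, show (g - 3) / 4 = g / 4 by omega]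
          have t1 : cT W n (g - 1) = cT W n g := by rw [cT, cT, show (g - 1) / 4 = g / 4 by omega]
          refine tArg _ _ (by omega) (by omega) ?_ ?_ _ (by simp)
          · rw [dB, if_neg (by omega), t3, if_neg ht, hdg, ht1]; split_ifs <;> omega
          · rw [dB, if_neg (by omega), t1, if_neg ht, hdg, ht1]; split_ifs <;> omega
        · simp only [gt, kindF, argA, argB, if_neg hl, if_pos h3, if_neg ht, if_neg o0,
            if_neg o1, if_neg o2, if_neg o3, if_neg o4]
          exact tArg _ _ hA' hB' hdA1 hdB1 _ (by simp)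
      · by_cases o4 : cop E W n g = 4
        · by_cases m0 : g % 4 = 0
          · have m2 : ¬ g % 4 = 2 := by omega
            simp only [gt, kindF, argA, argB, if_neg hl, if_neg h3, if_neg ht, if_pos o4,
              if_pos m0, if_neg m2]
            exact tArg _ _ hA' hB' hdA1 hdB1 _ (by simp)
          · by_cases m1 : g % 4 = 1
            · have m2 : ¬ g % 4 = 2 := by omega
              simp only [gt, kindF, argA, argB, if_neg hl, if_neg h3, if_neg ht, if_pos o4,
                if_neg m0, if_pos m1, if_neg m2]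
              exact tArg _ _ hA' hB' hdA1 hdB1 _ (by simp)
            · have m2 : g % 4 = 2 := by omega
              simp only [gt, kindF, argA, argB, if_neg hl, if_neg h3, if_neg ht, if_pos o4,
                if_neg m0, if_neg m1, if_pos m2]
              have t1 : cT W n (g - 1) = cT W n g := by
                rw [cT, cT, show (g - 1) / 4 = g / 4 by omega]
              refine tArg _ _ (by omega) hB' ?_ hdB1 _ (by simp)
              rw [dB, if_neg (by omega), t1, if_neg ht, hdg, ht1]; split_ifs <;> omega
        · simp only [gt, kindF, if_neg hl, if_neg h3, if_neg ht, if_neg o4]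
          exact triv0 _ _

end SysCirc

open SysCirc in
/-- A language decided by a uniform system over `ZMod 2` is in `NC`. The parameter `p` is the
length of the input word. -/
theorem AOp.mem_NC {G : ℕ → ℕ → (ℕ → ZMod 2) → ℕ → ZMod 2}
    (hG : AOp (ZMod 2) (fun _ => 1) G) {L : Set (List Bool)}
    (hL : ∀ w, w ∈ L ↔ G w.length 0 (bits w) 0 = 1) : L ∈ NC := by
  obtain ⟨E, T, W, hE, hwW, hrun⟩ := hG (fun _ => 1) (LS.const 1)
  have hWpos : ∀ n, 0 < W n := fun n => hwW n
  have hCeq : ∀ n, mkCircuit (sz T W) (fun z => kindF E T W z.unpair.1 z.unpair.2)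
      (fun z => argA E T W z.unpair.1 z.unpair.2)
      (fun z => argB E T W z.unpair.1 z.unpair.2) n = (List.range (sz T W n)).map (gt E T W n) := by
    intro n
    rw [mkCircuit]
    apply List.map_congr_left
    intro g _
    simp only [Nat.unpair_pair, gt]
  refine ⟨mkCircuit (sz T W) (fun z => kindF E T W z.unpair.1 z.unpair.2)
      (fun z => argA E T W z.unpair.1 z.unpair.2)
      (fun z => argB E T W z.unpair.1 z.unpair.2), ?_, ?_, ?_, ?_, ?_⟩
  · intro n
    rw [hCeq]
    refine ⟨?_, ?_⟩
    · intro h
      have := congrArg List.length h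
      simp [sz] at this
    · intro i h
      have hi : i < sz T W n := by simpa using h
      simp only [List.getElem_map, List.getElem_range]
      exact (legal_dep hE.closed_a hE.closed_b (hWpos n) hi).1
  · exact logspaceUniform_mkCircuit (ls_sz T W hE.lsT hE.lsW)
      (ls_kindF E T W hE.lsOp hE.lsT hE.lsW) (ls_argA E T W hE.lsOp hE.lsA hE.lsT hE.lsW)
      (ls_argB E T W hE.lsOp hE.lsA hE.lsB hE.lsT hE.lsW)
  · obtain ⟨c, hc⟩ := (ls_sz T W hE.lsT hE.lsW).polyBd
    refine ⟨(Polynomial.X + Polynomial.C 2) ^ c, fun n => ?_⟩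
    rw [hCeq]
    simp only [List.length_map, List.length_range, Polynomial.eval_pow, Polynomial.eval_add,
      Polynomial.eval_X, Polynomial.eval_C]
    exact hc n
  · obtain ⟨c, hc⟩ := hE.polyLog
    refine ⟨c, 3 * 4 ^ c + 1, fun n => ?_⟩
    rw [hCeq]
    have h1 : Circuit.depth ((List.range (sz T W n)).map (gt E T W n)) ≤ 3 * T n + 1 := by
      apply depth_range_le _ _ (dB T W n)
      · intro g hg
        by_cases hl : g = lst T W n
        · rw [dB, if_pos hl]
        · have hg' : g < lst T W n := by rw [sz] at hg; omega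
          obtain ⟨_, h2, _⟩ := decomp (T := T) (hWpos n) hg'
          rw [dB, if_neg hl]; split_ifs <;> omega
      · intro g hg d hd
        exact (legal_dep hE.closed_a hE.closed_b (hWpos n) hg).2 d hd
    refine h1.trans ?_
    have h2 : Nat.log 2 (n + 2) ≤ Nat.log 2 n + 1 := by
      rcases Nat.lt_or_ge n 2 with h | h
      · have : Nat.log 2 (n + 2) ≤ 1 := by
          have : Nat.log 2 (n + 2) < 2 := Nat.log_lt_of_lt_pow (by omega) (by omega)
          omega
        omega
      · have h3 : n + 2 ≤ n * 2 := by omega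
        calc Nat.log 2 (n + 2) ≤ Nat.log 2 (n * 2) := Nat.log_mono_right h3
          _ = Nat.log 2 n + 1 := Nat.log_mul_base (by norm_num) (by omega)
    have h4 : T n ≤ 4 ^ c * (Nat.log 2 n) ^ c + 4 ^ c := by
      refine (hc n).trans ?_
      rcases Nat.eq_zero_or_pos (Nat.log 2 n) with h | h
      · calc (Nat.log 2 (n + 2) + 1) ^ c ≤ 4 ^ c := Nat.pow_le_pow_left (by omega) c
          _ ≤ _ := Nat.le_add_left _ _
      · calc (Nat.log 2 (n + 2) + 1) ^ c ≤ (4 * Nat.log 2 n) ^ c :=
              Nat.pow_le_pow_left (by omega) c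
          _ = 4 ^ c * (Nat.log 2 n) ^ c := mul_pow _ _ _
          _ ≤ _ := Nat.le_add_right _ _
    have h5 : 3 * T n + 1 ≤ 3 * (4 ^ c * (Nat.log 2 n) ^ c + 4 ^ c) + 1 := by omega
    refine h5.trans ?_
    have h6 : (3 * 4 ^ c + 1) * (Nat.log 2 n) ^ c = 3 * (4 ^ c * (Nat.log 2 n) ^ c) +
      (Nat.log 2 n) ^ c := by ring
    rw [h6]
    omega
  · intro w
    rw [hCeq, hL, Circuit.eval, vals_range w _ (vF E T W w.length (bits w)) _
      (fun g hg => gate_eq hE.closed_a hE.closed_b w rfl (hWpos _) hg)]
    have h1 : ((List.range (sz T W w.length)).map (vF E T W w.length (bits w))).getLastD false =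
        vF E T W w.length (bits w) (lst T W w.length) := by
      rw [sz, List.range_succ, List.map_append]
      simp
    rw [h1, vF, if_pos rfl, R, hrun w.length 0 one_pos (bits w) 0 one_pos]
    simp

end Pool.Agent.H79.Upm
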