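import Pool.Agent.H79.Upm.Alg3
import Pool.Agent.H79.Upm.SysCirc

/-!
# Correctness of the algorithm
-/

namespace Pool.Agent.H79.Upm

open PowerSeries

theorem z2_cases (x : ZMod 2) : x = 0 ∨ x = 1 := by
  revert x; decide

theorem z2_one_iff (x : ZMod 2) : x = 1 ↔ x ≠ 0 := by
  revert x; decide

theorem z2_mul_iff (x y : ZMod 2) : x * y = 1 ↔ x = 1 ∧ y = 1 := by
  revert x y; decide

theorem z2_add_iff (x y : ZMod 2) : 1 + x + y = 1 ↔ x = y := by
  revert x y; decide

theorem z2_add_iff' (x : ZMod 2) : 1 + x = 1 ↔ x = 0 := by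
  revert x; decide

theorem z2_mul_zero_iff (x y : ZMod 2) : 1 + x * y = 1 ↔ ¬ (x = 1 ∧ y = 1) := by
  revert x y; decide

theorem z2_prod_iff (s : Finset ℕ) (f : ℕ → ZMod 2) :
    ∏ i ∈ s, f i = 1 ↔ ∀ i ∈ s, f i = 1 := by
  have : Fact (Nat.Prime 2) := ⟨Nat.prime_two⟩
  simp only [z2_one_iff, Finset.prod_ne_zero_iff]

theorem jn_even' {R : Type} (S V : ℕ → R) (j : ℕ) : jn S V (2 * j) = S j := by
  simp [jn]

theorem jn_odd' {R : Type} (S V : ℕ → R) (j : ℕ) : jn S V (2 * j + 1) = V j := by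
  have h1 : (2 * j + 1) % 2 = 1 := by omega
  have h2 : (2 * j + 1) / 2 = j := by omega
  simp [jn, h1, h2]

theorem xv_jn (n : ℕ) (x s t : ℕ → ZMod 2) (a b : ℕ) :
    xv n (jn (jn x s) t) a b = x (a * n + b) := by
  unfold xv
  rw [show 4 * (a * n + b) = 2 * (2 * (a * n + b)) by ring, jn_even', jn_even']

theorem sv_jn (x s t : ℕ → ZMod 2) (a b : ℕ) :
    sv (jn (jn x s) t) a b = s (Nat.pair a b) := by
  unfold sv
  rw [show 4 * Nat.pair a b + 2 = 2 * (2 * Nat.pair a b + 1) by ring, jn_even', jn_odd']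

/-- What the final test checks. -/
structure Passes (n : ℕ) (x s t : ℕ → ZMod 2) : Prop where
  symm : ∀ a < n, ∀ b < n, x (a * n + b) = x (b * n + a)
  irrefl : ∀ a < n, x (a * n + a) = 0
  ssymm : ∀ a < n, ∀ b < n, s (Nat.pair a b) = s (Nat.pair b a)
  srow : ∀ a < n, ∑ b ∈ Finset.range n, s (Nat.pair a b) = 1
  suniq : ∀ a < n, ∀ b < n, ∀ c < n, b ≠ c → ¬ (s (Nat.pair a b) = 1 ∧ s (Nat.pair a c) = 1)

theorem fin_iff (p : ℕ) (x s t : ℕ → ZMod 2) :
    fin p (jn (jn x s) t) = 1 ↔ p = nv p * nv p ∧ Passes (nv p) x s t ∧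
      ∀ r < nv p, ∀ u < nv p, ∀ w < nv p, ∀ d < dg p, ∀ q < qb p,
        cv (nv p) (jn (jn x s) t) r u w d q = 1 := by
  unfold fin
  simp only [z2_mul_iff, z2_prod_iff, Finset.mem_range, xv_jn, sv_jn, z2_add_iff, z2_add_iff']
  constructor
  · rintro ⟨h1, h2, h3, h4, h5, h6, h7⟩
    refine ⟨?_, ⟨h2, h3, h4, h5, ?_⟩, h7⟩
    · by_contra h
      rw [if_neg h] at h1
      exact zero_ne_one h1
    · intro a ha b hb c hc hbc
      have := h6 a ha b hb c hc
      rwa [if_neg hbc, z2_mul_zero_iff] at this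
  · rintro ⟨h1, ⟨h2, h3, h4, h5, h6⟩, h7⟩
    refine ⟨if_pos h1, h2, h3, h4, h5, ?_, h7⟩
    intro a ha b hb c hc
    split_ifs with hbc
    · rfl
    · rw [z2_mul_zero_iff]
      exact h6 a ha b hb c hc hbc

/-! ## Words and adjacency matrices -/

theorem getElem?_flatMap_const {α β : Type} {n : ℕ} (g : α → List β)
    (hg : ∀ x, (g x).length = n) (l : List α) (a b : ℕ) (hb : b < n) :
    (l.flatMap g)[a * n + b]? = (l[a]?).bind fun x => (g x)[b]? := by
  induction l generalizing a with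
  | nil => simp
  | cons x l ih =>
    rw [List.flatMap_cons]
    cases a with
    | zero =>
      rw [Nat.zero_mul, Nat.zero_add, List.getElem?_append_left (by rw [hg]; exact hb)]
      simp
    | succ a =>
      rw [List.getElem?_append_right (by rw [hg]; nlinarith), hg,
        show (a + 1) * n + b - n = a * n + b by
          rw [Nat.add_mul, Nat.one_mul]; omega, ih]
      simp

theorem length_adjWord {n : ℕ} (G : SimpleGraph (Fin n)) : (adjWord G).length = n * n := by
  unfold adjWord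
  rw [List.length_flatMap]
  simp

open Classical in
theorem getElem?_adjWord {n : ℕ} (G : SimpleGraph (Fin n)) (a b : Fin n) :
    (adjWord G)[(a : ℕ) * n + b]? = some (decide (G.Adj a b)) := by
  unfold adjWord
  rw [getElem?_flatMap_const _ (fun x => by simp) _ _ _ b.2]
  simp

theorem hasAdj2_adjWord {n : ℕ} (G : SimpleGraph (Fin n)) : HasAdj2 G (bits (adjWord G)) := by
  classical
  intro a b
  have h := getElem?_adjWord G a b
  constructor
  · intro hab
    simp [bits, List.getD_eq_getElem?_getD, h, hab]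
  · intro hab
    simp [bits, List.getD_eq_getElem?_getD, h, hab]

theorem nv_sq (n : ℕ) : nv (n * n) = n := Nat.sqrt_eq n

/-! ## The arrays for a graph with a perfect matching -/

section graph

variable {p : ℕ} {G : SimpleGraph (Fin (nv p))} {σ : Fin (nv p) → Fin (nv p)}
  {x s : ℕ → ZMod 2}

theorem hasBoth_of (hx : HasAdj2 G x)
    (hs : ∀ a b : Fin (nv p), s (Nat.pair a b) = if b = σ a then 1 else 0) :
    HasBoth G σ (lift (jn x s)) := by
  constructor
  · intro a b
    constructor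
    · intro hab
      simp [lift, jn_even', (hx a b).1 hab]
    · intro hab
      simp [lift, jn_even', (hx a b).2 hab]
  · intro a b
    unfold lift
    rw [jn_odd', hs a b]
    split_ifs <;> simp_all

theorem mv_eq (hs : ∀ a b : Fin (nv p), s (Nat.pair a b) = if b = σ a then 1 else 0)
    (t : ℕ → ZMod 2) (r : ℕ) (a : Fin (nv p)) :
    mv (nv p) (jn (jn x s) t) r a = if (a : ℕ) < r ∧ (σ a : ℕ) < r then 1 else 0 := by
  unfold mv
  simp only [sv_jn]
  by_cases ha : (a : ℕ) < r
  · rw [if_pos ha, ← Fin.sum_univ_eq_sum_range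
      (fun b => if b < r then s (Nat.pair a b) else 0) (nv p)]
    simp only [hs a]
    rw [Finset.sum_eq_single (σ a)]
    · simp [ha]
    · intro b _ hb
      simp [hb]
    · intro h'
      exact absurd (Finset.mem_univ _) h'
  · rw [if_neg ha, if_neg fun h' => ha h'.1]

open Classical in
theorem dv_eq (hσ : IsPM G σ) (hx : HasAdj2 G x)
    (hs : ∀ a b : Fin (nv p), s (Nat.pair a b) = if b = σ a then 1 else 0)
    (t : ℕ → ZMod 2) (a b : Fin (nv p)) :
    dv (nv p) (jn (jn x s) t) a b = if altRel G σ a b then 1 else 0 := by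
  unfold dv
  simp only [sv_jn, xv_jn]
  by_cases hb : b = a
  · subst hb
    rw [if_pos rfl, if_neg (altRel_irrefl b)]
  · rw [if_neg (fun h => hb (Fin.ext h)), ← Fin.sum_univ_eq_sum_range
      (fun c => s (Nat.pair a c) * x (c * nv p + b)) (nv p), Finset.sum_eq_single (σ a)]
    · rw [hs a (σ a), if_pos rfl, one_mul]
      by_cases hab : G.Adj (σ a) b
      · rw [(hx _ _).1 hab, if_pos ⟨hab, hb⟩]
      · rw [(hx _ _).2 hab, if_neg fun h => hab h.1]
    · intro c _ hc
      rw [hs a c, if_neg hc, zero_mul]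
    · intro h'
      exact absurd (Finset.mem_univ _) h'

theorem cv_iff (hσ : IsPM G σ) (hx : HasAdj2 G x)
    (hs : ∀ a b : Fin (nv p), s (Nat.pair a b) = if b = σ a then 1 else 0)
    (t : ℕ → ZMod 2) (r u w : Fin (nv p)) (d q : ℕ) :
    cv (nv p) (jn (jn x s) t) r u w d q = 1 ↔
      (q ≠ 0 → ((u : ℕ) < r ∧ (σ u : ℕ) < r) → ((w : ℕ) < r ∧ (σ w : ℕ) < r) →
        altRel G σ r u → altRel G σ w r →
          t (Nat.pair q (Nat.pair (cm r u w d) 0)) = 1) := by
  classical
  unfold cv
  rw [mv_eq hs, mv_eq hs, dv_eq hσ hx hs, dv_eq hσ hx hs, jn_odd']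
  by_cases hq : q = 0
  · simp [hq]
  · rw [if_neg hq]
    by_cases h1 : (u : ℕ) < r ∧ (σ u : ℕ) < r
    · by_cases h2 : (w : ℕ) < r ∧ (σ w : ℕ) < r
      · by_cases h3 : altRel G σ r u
        · by_cases h4 : altRel G σ w r
          · rw [if_pos h1, if_pos h2, if_pos h3, if_pos h4]
            simp only [one_mul, h1, h2, h3, h4, hq, ne_eq, not_false_eq_true, forall_true_left,
              and_self]
            rcases z2_cases (t (Nat.pair q (Nat.pair (cm r u w d) 0))) with h | h
            · rw [h]; decide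
            · rw [h]; decide
          · simp [h4]
        · simp [h3]
      · rw [if_neg h2, zero_mul, mul_zero, add_zero]
        exact ⟨fun _ _ _ h' => absurd h' h2, fun _ => rfl⟩
    · rw [if_neg h1, zero_mul, add_zero]
      exact ⟨fun _ _ h' => absurd h' h1, fun _ => rfl⟩

/-- The value of the array `tB` at the places that are used. -/
theorem tB_eq (hσ : IsPM G σ) (hx : HasAdj2 G x)
    (hs : ∀ a b : Fin (nv p), s (Nat.pair a b) = if b = σ a then 1 else 0)
    (r : ℕ) (hno : ¬ RegCycle σ (below σ (altRel G σ) r)) (u w : Fin (nv p)) {d q : ℕ}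
    (hd : d < dg p) (hq : q ≠ 0) :
    tB p (jn x s) (Nat.pair q (Nat.pair (cm r u w d) 0)) = 1 ↔
      q ∣ pathCount σ (below σ (altRel G σ) r) d u w := by
  have h1 : arr (nv p) (dg p) (kM p (lift (jn x s))) (cm r u w d) =
      (pathCount σ (below σ (altRel G σ) r) d u w : ℤ) := by
    unfold arr cm
    simp only [Nat.unpair_pair]
    rw [dif_pos ⟨u.2, w.2, hd⟩]
    exact kM_eq (hasBoth_of hx hs) hσ hno u w hd
  unfold tB
  simp only [Nat.unpair_pair]
  rw [h1]
  have h2 : ((pathCount σ (below σ (altRel G σ) r) d u w : ℤ) % (q : ℤ) = ((0 : ℕ) : ℤ)) ↔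
      q ∣ pathCount σ (below σ (altRel G σ) r) d u w := by
    rw [Nat.cast_zero, ← Int.dvd_iff_emod_eq_zero, Int.natCast_dvd_natCast]
  by_cases h3 : q ∣ pathCount σ (below σ (altRel G σ) r) d u w
  · rw [if_pos ⟨hq, h2.2 h3⟩]
    simp [h3]
  · rw [if_neg fun h => h3 (h2.1 h.2)]
    simp [h3]

/-- The successive test is correct. -/
theorem test_iff (hσ : IsPM G σ) (hx : HasAdj2 G x)
    (hs : ∀ a b : Fin (nv p), s (Nat.pair a b) = if b = σ a then 1 else 0) :
    (∀ r < nv p, ∀ u < nv p, ∀ w < nv p, ∀ d < dg p, ∀ q < qb p,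
        cv (nv p) (jn (jn x s) (tB p (jn x s))) r u w d q = 1) ↔
      ¬ RegCycle σ (altRel G σ) := by
  have hσ1 : ∀ x, σ (σ x) = x := fun x => (hσ x).1
  have hD : ∀ x y, altRel G σ x y → altRel G σ (σ y) (σ x) := fun x y => altRel_symm hσ
  constructor
  · intro h
    have key : ∀ r : ℕ, r ≤ nv p → ¬ RegCycle σ (below σ (altRel G σ) r) := by
      intro r
      induction r with
      | zero =>
        rintro _ ⟨a, b, l, _, h'⟩
        exact absurd h'.2.1.1 (Nat.not_lt_zero _)
      | succ r ih =>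
        intro hr
        have h0 := ih (by omega)
        refine regCycle_below_succ hσ1 hσ.ne hD altRel_irrefl altRel_irrefl' ⟨r, hr⟩ h0 ?_
        intro u w hu hw hru hwr hl
        obtain ⟨d, hd⟩ := (pathCount_pos_iff _ _ _ _).2 hl
        have hdn : d < nv p := by
          by_contra hdn
          rw [pathCount_eq_zero _ _ (by rw [Fintype.card_fin]; omega)] at hd
          exact absurd hd (lt_irrefl _)
        have hle := pathCount_le σ (below σ (altRel G σ) r) d u w
        rw [Fintype.card_fin] at hle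
        obtain ⟨q, hq1, hq2, hq3⟩ := exists_small_not_dvd hd hle
        have hc := (cv_iff hσ hx hs _ ⟨r, hr⟩ u w d q).1
          (h r hr u u.2 w w.2 d (by unfold dg; omega) q hq2) (by omega) hu hw hru hwr
        exact hq3 ((tB_eq hσ hx hs r h0 u w (by unfold dg; omega) (by omega)).1 hc)
    intro hc
    obtain ⟨a, b, l, h1, h2⟩ := hc
    refine key (nv p) le_rfl ⟨a, b, l, ⟨h1.1, h1.2.1, ?_, h1.2.2.2⟩, h2, ⟨b.2, (σ b).2⟩, a.2,
      (σ a).2⟩
    exact h1.2.2.1.imp fun c e hce => ⟨hce, ⟨c.2, (σ c).2⟩, e.2, (σ e).2⟩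
  · intro hno r hr u hu w hw d hd q hq
    refine (cv_iff hσ hx hs _ ⟨r, hr⟩ ⟨u, hu⟩ ⟨w, hw⟩ d q).2 ?_
    intro hq0 h1 h2 h3 h4
    have hno' : ¬ RegCycle σ (below σ (altRel G σ) r) := by
      rintro ⟨a, b, l, h5, h6⟩
      exact hno ⟨a, b, l, ⟨h5.1, h5.2.1, h5.2.2.1.imp fun c e hce => hce.1, h5.2.2.2⟩, h6.1⟩
    refine (tB_eq hσ hx hs r hno' ⟨u, hu⟩ ⟨w, hw⟩ hd hq0).2 ?_
    have hz : pathCount σ (below σ (altRel G σ) r) d ⟨u, hu⟩ ⟨w, hw⟩ = 0 := by
      by_contra hne
      exact (not_regCycle_iff hσ1 hσ.ne hD altRel_irrefl altRel_irrefl').1 hno ⟨r, hr⟩ ⟨u, hu⟩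
        ⟨w, hw⟩ h1 h2 h3 h4 ((pathCount_pos_iff _ _ _ _).1 ⟨d, Nat.pos_of_ne_zero hne⟩)
    rw [hz]
    exact dvd_zero _

end graph

/-- **Correctness**: the algorithm accepts exactly the adjacency matrices of the graphs with
exactly one perfect matching. -/
theorem alg_correct (w : List Bool) : w ∈ UPM ↔ alg w.length (bits w) = 1 := by
  classical
  unfold alg
  rw [fin_iff]
  constructor
  · rintro ⟨n, G, hw, hM⟩
    have hlen : w.length = n * n := by rw [hw]; exact length_adjWord G
    have hn : n = nv w.length := by rw [hlen]; exact (nv_sq n).symm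
    generalize hp : w.length = p at hlen hn
    subst hn
    have hx : HasAdj2 G (bits w) := by rw [hw]; exact hasAdj2_adjWord G
    obtain ⟨σ, hσ, huniq⟩ := (existsUnique_perfectMatching_iff G).1 hM
    have hs : ∀ a b : Fin (nv p), sB p (bits w) (Nat.pair a b) = if b = σ a then 1 else 0 :=
      fun a b => sB_eq hx hσ huniq a b
    refine ⟨hlen, ⟨?_, ?_, ?_, ?_, ?_⟩, ?_⟩
    · intro a ha b hb
      by_cases hab : G.Adj ⟨a, ha⟩ ⟨b, hb⟩
      · exact ((hx ⟨a, ha⟩ ⟨b, hb⟩).1 hab).trans ((hx ⟨b, hb⟩ ⟨a, ha⟩).1 hab.symm).symm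
      · exact ((hx ⟨a, ha⟩ ⟨b, hb⟩).2 hab).trans
          ((hx ⟨b, hb⟩ ⟨a, ha⟩).2 fun h => hab h.symm).symm
    · intro a ha
      exact (hx ⟨a, ha⟩ ⟨a, ha⟩).2 (G.loopless.irrefl _)
    · intro a ha b hb
      have h1 := hs ⟨a, ha⟩ ⟨b, hb⟩
      have h2 := hs ⟨b, hb⟩ ⟨a, ha⟩
      simp only at h1 h2
      rw [h1, h2]
      refine if_congr ?_ rfl rfl
      constructor
      · intro h; rw [h, (hσ _).1]
      · intro h; rw [h, (hσ _).1]
    · intro a ha
      rw [← Fin.sum_univ_eq_sum_range (fun b => sB p (bits w) (Nat.pair a b)) (nv p),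
        Finset.sum_eq_single (σ ⟨a, ha⟩)]
      · have := hs ⟨a, ha⟩ (σ ⟨a, ha⟩)
        rwa [if_pos rfl] at this
      · intro b _ hb
        have := hs ⟨a, ha⟩ b
        rwa [if_neg hb] at this
      · intro h'
        exact absurd (Finset.mem_univ _) h'
    · rintro a ha b hb c hc hbc ⟨h1, h2⟩
      have h3 := hs ⟨a, ha⟩ ⟨b, hb⟩
      have h4 := hs ⟨a, ha⟩ ⟨c, hc⟩
      simp only at h3 h4
      rw [h1] at h3
      rw [h2] at h4
      have h5 : (⟨b, hb⟩ : Fin (nv p)) = σ ⟨a, ha⟩ := by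
        by_contra h; rw [if_neg h] at h3; exact one_ne_zero h3
      have h6 : (⟨c, hc⟩ : Fin (nv p)) = σ ⟨a, ha⟩ := by
        by_contra h; rw [if_neg h] at h4; exact one_ne_zero h4
      exact hbc (congrArg Fin.val (h5.trans h6.symm))
    · exact (test_iff hσ hx hs).2 ((unique_iff_not_regCycle hσ).1 huniq)
  · rintro ⟨hlen, hpass, htest⟩
    generalize hp : w.length = p at hlen hpass htest
    obtain ⟨G, hG⟩ : ∃ G : SimpleGraph (Fin (nv p)),
        ∀ a b, G.Adj a b ↔ bits w (a * nv p + b) = 1 :=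
      ⟨{ Adj := fun a b => bits w (a * nv p + b) = 1
         symm := ⟨fun (a b : Fin (nv p)) hab => by
          rw [← hpass.symm a a.2 b b.2]; exact hab⟩
         loopless := ⟨fun (a : Fin (nv p)) ha => by
          rw [hpass.irrefl a a.2] at ha; exact zero_ne_one ha⟩ }, fun _ _ => Iff.rfl⟩
    have hx : HasAdj2 G (bits w) := by
      intro a b
      refine ⟨fun h => (hG a b).1 h, fun h => ?_⟩
      rcases z2_cases (bits w (a * nv p + b)) with h0 | h1
      · exact h0
      · exact absurd ((hG a b).2 h1) h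
    have hex : ∀ a : Fin (nv p), ∃ b : Fin (nv p), sB p (bits w) (Nat.pair a b) = 1 := by
      intro a
      by_contra hcon
      push Not at hcon
      have h1 := hpass.srow a a.2
      rw [Finset.sum_eq_zero] at h1
      · exact zero_ne_one h1
      · intro b hb
        rcases z2_cases (sB p (bits w) (Nat.pair a b)) with h0 | h2
        · exact h0
        · exact absurd h2 (hcon ⟨b, Finset.mem_range.1 hb⟩)
    choose σ hσ1 using hex
    have hs : ∀ a b : Fin (nv p), sB p (bits w) (Nat.pair a b) = if b = σ a then 1 else 0 := by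
      intro a b
      by_cases hb : b = σ a
      · rw [if_pos hb, hb]; exact hσ1 a
      · rw [if_neg hb]
        rcases z2_cases (sB p (bits w) (Nat.pair a b)) with h0 | h1
        · exact h0
        · exact absurd ⟨h1, hσ1 a⟩ (hpass.suniq a a.2 b b.2 (σ a) (σ a).2
            fun h => hb (Fin.ext h))
    have hσ : IsPM G σ := by
      intro a
      constructor
      · have h1 := hσ1 a
        rw [hpass.ssymm a a.2 (σ a) (σ a).2, hs (σ a) a] at h1
        by_contra h
        rw [if_neg fun h' => h h'.symm] at h1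
        exact zero_ne_one h1
      · have h1 := hσ1 a
        unfold sB at h1
        simp only [Nat.unpair_pair] at h1
        rw [if_pos ⟨a.2, (σ a).2⟩, z2_mul_iff] at h1
        exact (hG _ _).2 h1.1
    have huniq := (unique_iff_not_regCycle hσ).2 ((test_iff hσ hx hs).1 htest)
    refine ⟨nv p, G, ?_, (existsUnique_perfectMatching_iff G).2 ⟨σ, hσ, huniq⟩⟩
    refine List.ext_getElem? fun i => ?_
    by_cases hi : i < nv p * nv p
    · have hn0 : 0 < nv p := Nat.pos_of_ne_zero fun h => by rw [h] at hi; simp at hi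
      have ha : i / nv p < nv p := Nat.div_lt_of_lt_mul hi
      have hb : i % nv p < nv p := Nat.mod_lt _ hn0
      have hab : (i / nv p) * nv p + i % nv p = i := Nat.div_add_mod' i (nv p)
      have h1 := getElem?_adjWord G ⟨i / nv p, ha⟩ ⟨i % nv p, hb⟩
      simp only [hab] at h1
      rw [h1]
      have hi' : i < w.length := by omega
      rw [List.getElem?_eq_getElem hi']
      congr 1
      have h2 : (G.Adj ⟨i / nv p, ha⟩ ⟨i % nv p, hb⟩) ↔ w[i] = true := by
        rw [hG]
        simp only [hab]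
        unfold bits
        rw [List.getD_eq_getElem?_getD, List.getElem?_eq_getElem hi', Option.getD_some]
        cases w[i] <;> simp
      rw [Bool.eq_iff_iff, decide_eq_true_iff]
      exact h2.symm
    · rw [List.getElem?_eq_none (by omega), List.getElem?_eq_none (by
        rw [length_adjWord]; omega)]

/-- **Unique perfect matching for general graphs is in `NC`.** -/
theorem upm_mem_NC : UPM ∈ NC :=
  AOp.mem_NC (alg_op one_ls) alg_correct

end Pool.Agent.H79.Upm
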