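import Mathlib

/-!
# Boolean circuits, logarithmic space transducers, the class NC, unique perfect matchings

All languages are sets of words over `Bool`.
-/

namespace Pool.Agent.H79.Upm

/-! ## Circuits -/

/-- The gates of a Boolean circuit (fan-in at most two). A circuit is a list of gates; the
numbers `a`, `b` refer to gates by their position in the list, `input i` reads the `i`-th
input bit. -/
inductive Gate : Type
  | const (b : Bool)
  | input (i : ℕ)
  | not (a : ℕ)
  | and (a b : ℕ)
  | or (a b : ℕ)

/-- A circuit: the list of its gates; the last gate is the output gate. -/
abbrev Circuit := List Gate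

namespace Gate

/-- The value of a gate on input `x`, given the list `v` of the values of the earlier gates. -/
def val (x v : List Bool) : Gate → Bool
  | const b => b
  | input i => x.getD i false
  | not a => !(v.getD a false)
  | and a b => v.getD a false && v.getD b false
  | or a b => v.getD a false || v.getD b false

/-- The depth of a gate, given the list `d` of the depths of the earlier gates. -/
def dep (d : List ℕ) : Gate → ℕ
  | const _ => 0
  | input _ => 0
  | not a => d.getD a 0 + 1
  | and a b => max (d.getD a 0) (d.getD b 0) + 1
  | or a b => max (d.getD a 0) (d.getD b 0) + 1

/-- A gate at position `i` of a circuit with `n` inputs is legal: it refers only to earlier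
gates and to existing inputs. -/
def Legal (n i : ℕ) : Gate → Prop
  | const _ => True
  | input j => j < n
  | not a => a < i
  | and a b => a < i ∧ b < i
  | or a b => a < i ∧ b < i

end Gate

/-- Self-delimiting binary code of a number: the binary digits, least significant first, each
preceded by `true`; then `false`. -/
def encNat (m : ℕ) : List Bool := m.bits.flatMap (fun b => [true, b]) ++ [false]

/-- The code of a gate: three bits for the kind of the gate, then the codes of its numbers. -/
def Gate.enc : Gate → List Bool
  | const b => [false, false, b]
  | input i => [false, true, false] ++ encNat i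
  | not a => [false, true, true] ++ encNat a
  | and a b => [true, false, false] ++ encNat a ++ encNat b
  | or a b => [true, false, true] ++ encNat a ++ encNat b

namespace Circuit

/-- The list of the values of all gates. -/
def vals (x : List Bool) (C : Circuit) : List Bool :=
  C.foldl (fun v g => v ++ [g.val x v]) []

/-- The value computed by the circuit: the value of its last gate. -/
def eval (C : Circuit) (x : List Bool) : Bool := (vals x C).getLastD false

/-- The list of the depths of all gates. -/
def deps (C : Circuit) : List ℕ := C.foldl (fun d g => d ++ [g.dep d]) []

/-- The depth of the circuit: the maximal depth of a gate. -/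
def depth (C : Circuit) : ℕ := (deps C).foldl max 0

/-- `C` is a legal circuit with `n` inputs. -/
def WF (n : ℕ) (C : Circuit) : Prop :=
  C ≠ [] ∧ ∀ (i : ℕ) (h : i < C.length), (C[i]).Legal n i

/-- The description of the circuit as a word. -/
def enc (C : Circuit) : List Bool := C.flatMap Gate.enc

end Circuit

/-! ## Logarithmic space -/

/-- Head moves. -/
inductive Move
  | left
  | stay
  | right

/-- The displacement of a head move. -/
def Move.toInt : Move → ℤ
  | .left => -1
  | .stay => 0
  | .right => 1

/-- A deterministic Turing machine with a read-only input tape, finitely many work tapes
(indexed by `K`, tape symbols `Γ` and the blank `none`) and a write-only output tape.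
`δ q a s = none`: the machine halts in state `q` when it scans `a` on the input tape and `s k`
on the work tape `k`. `δ q a s = some (q', d, r, o)`: it goes to state `q'`, moves the input
head by `d`, on each work tape `k` writes `(r k).1` and moves by `(r k).2`, and appends the bit
`b` to the output if `o = some b`. -/
structure Transducer where
  K : Type
  [decK : DecidableEq K]
  [finK : Finite K]
  Γ : Type
  [finΓ : Finite Γ]
  Q : Type
  [finQ : Finite Q]
  start : Q
  δ : Q → Option Bool → (K → Option Γ) →
    Option (Q × Move × (K → Option Γ × Move) × Option Bool)

attribute [instance] Transducer.decK Transducer.finK Transducer.finΓ Transducer.finQ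

namespace Transducer

variable (M : Transducer)

/-- A configuration. -/
structure Cfg where
  state : M.Q
  ipos : ℤ
  head : M.K → ℤ
  tape : M.K → ℤ → Option M.Γ
  out : List Bool

/-- The content of cell `z` of the input tape: the word `x` stands in the cells
`0, …, |x| - 1`, all other cells are blank. -/
def inp (x : List Bool) (z : ℤ) : Option Bool := if 0 ≤ z then x[z.toNat]? else none

/-- One step on input `x`; `none` if the machine has halted. -/
def step (x : List Bool) (c : M.Cfg) : Option M.Cfg :=
  (M.δ c.state (inp x c.ipos) (fun k => c.tape k (c.head k))).map fun r =>
    { state := r.1
      ipos := c.ipos + r.2.1.toInt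
      head := fun k => c.head k + (r.2.2.1 k).2.toInt
      tape := fun k => Function.update (c.tape k) (c.head k) (r.2.2.1 k).1
      out := c.out ++ r.2.2.2.toList }

/-- The initial configuration: all heads on cell `0`, work tapes blank, no output. -/
def init : M.Cfg where
  state := M.start
  ipos := 0
  head := fun _ => 0
  tape := fun _ _ => none
  out := []

/-- The configuration after `n` steps on input `x` (a halted machine stays where it is). -/
def conf (x : List Bool) (n : ℕ) : M.Cfg := (fun c => (M.step x c).getD c)^[n] M.init

/-- On input `x` the machine halts, with the word `w` on its output tape. -/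
def Outputs (x w : List Bool) : Prop :=
  ∃ n, M.step x (M.conf x n) = none ∧ (M.conf x n).out = w

/-- On input `x` the input head never leaves the input word by more than one cell, and no work
head ever leaves the cells `-s, …, s`. -/
def SpaceBound (x : List Bool) (s : ℕ) : Prop :=
  ∀ n, (-1 ≤ (M.conf x n).ipos ∧ (M.conf x n).ipos ≤ x.length) ∧
    ∀ k, |(M.conf x n).head k| ≤ s

end Transducer

/-- A family of circuits is logspace uniform: a Turing machine with read-only input, write-only
output and work space `O(log n)` prints the description of `C n` on input `1 ^ n`. -/
def LogspaceUniform (C : ℕ → Circuit) : Prop :=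
  ∃ (M : Transducer) (c : ℕ), ∀ n : ℕ,
    M.Outputs (List.replicate n true) (C n).enc ∧
      M.SpaceBound (List.replicate n true) (c * (Nat.log 2 n + 1))

/-- The class `NC`: languages decided by a logspace uniform family of Boolean circuits of
polynomial size and of depth `O((log n) ^ k)` for some `k`. -/
def NC : Set (Set (List Bool)) :=
  {L | ∃ C : ℕ → Circuit, (∀ n, (C n).WF n) ∧ LogspaceUniform C ∧
    (∃ p : Polynomial ℕ, ∀ n, (C n).length ≤ p.eval n) ∧
    (∃ k c : ℕ, ∀ n, (C n).depth ≤ c * (Nat.log 2 n) ^ k + c) ∧
    ∀ w : List Bool, w ∈ L ↔ (C w.length).eval w = true}

/-! ## Unique perfect matchings -/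

open Classical in
/-- The adjacency matrix of a graph with vertices `0, …, n - 1`, written row by row. -/
noncomputable def adjWord {n : ℕ} (G : SimpleGraph (Fin n)) : List Bool :=
  (List.finRange n).flatMap fun i => (List.finRange n).map fun j => decide (G.Adj i j)

/-- The unique perfect matching problem for general graphs: the adjacency matrices of the
graphs that have exactly one perfect matching. -/
def UPM : Set (List Bool) :=
  {w | ∃ (n : ℕ) (G : SimpleGraph (Fin n)), w = adjWord G ∧
    ∃! M : G.Subgraph, M.IsPerfectMatching}

end Pool.Agent.H79.Upm
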