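import Pool.Agent.H79.Upm.RProg

/-!
# Flow charts for counter programs
-/

namespace Pool.Agent.H79.Upm

/-- Instructions of a flow chart with positions `P`. -/
inductive Instr (P : Type) : Type
  | inc (r : ℕ) (p : P) : Instr P
  | dec (r : ℕ) (p : P) : Instr P
  /-- if counter `r` is zero, go to `p`, else go to `q` -/
  | jz (r : ℕ) (p q : P) : Instr P
  | out (b : Bool) (p : P) : Instr P
  | halt : Instr P

/-- The counter used by an instruction is `< R`. -/
def Instr.Below {P : Type} (R : ℕ) : Instr P → Prop
  | inc r _ => r < R
  | dec r _ => r < R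
  | jz r _ _ => r < R
  | out _ _ => True
  | halt => True

/-- A flow chart. -/
structure Flow where
  P : Type
  [finP : Finite P]
  start : P
  instr : P → Instr P

attribute [instance] Flow.finP

/-- `F.Steps B p σ p' σ' u`: from position `p` with counters `σ` the flow chart goes in finitely
many steps to position `p'` with counters `σ'`, with output `u`, and no counter is increased
above `B`. -/
inductive Flow.Steps (F : Flow) (B : ℕ) :
    F.P → (ℕ → ℕ) → F.P → (ℕ → ℕ) → List Bool → Prop
  | refl (p : F.P) (σ : ℕ → ℕ) : F.Steps B p σ p σ []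
  | inc {p q p' : F.P} {σ σ' : ℕ → ℕ} {r : ℕ} {u : List Bool} (h : F.instr p = .inc r q)
      (hr : σ r < B) (h' : F.Steps B q (Function.update σ r (σ r + 1)) p' σ' u) :
      F.Steps B p σ p' σ' u
  | dec {p q p' : F.P} {σ σ' : ℕ → ℕ} {r : ℕ} {u : List Bool} (h : F.instr p = .dec r q)
      (h' : F.Steps B q (Function.update σ r (σ r - 1)) p' σ' u) :
      F.Steps B p σ p' σ' u
  | jzZ {p q q' p' : F.P} {σ σ' : ℕ → ℕ} {r : ℕ} {u : List Bool} (h : F.instr p = .jz r q q')
      (hr : σ r = 0) (h' : F.Steps B q σ p' σ' u) : F.Steps B p σ p' σ' u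
  | jzS {p q q' p' : F.P} {σ σ' : ℕ → ℕ} {r : ℕ} {u : List Bool} (h : F.instr p = .jz r q q')
      (hr : σ r ≠ 0) (h' : F.Steps B q' σ p' σ' u) : F.Steps B p σ p' σ' u
  | out {p q p' : F.P} {σ σ' : ℕ → ℕ} {b : Bool} {u : List Bool} (h : F.instr p = .out b q)
      (h' : F.Steps B q σ p' σ' u) : F.Steps B p σ p' σ' (b :: u)

/-! ### Elementary facts on flow charts -/

/-- Composition of computations. -/
theorem Flow.Steps.trans {F : Flow} {B : ℕ} {p q r : F.P} {σ σ' σ'' : ℕ → ℕ} {u v : List Bool}
    (h : F.Steps B p σ q σ' u) (h' : F.Steps B q σ' r σ'' v) : F.Steps B p σ r σ'' (u ++ v) := by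
  induction h with
  | refl p σ => exact h'
  | inc h hr _ ih => exact .inc h hr (ih h')
  | dec h _ ih => exact .dec h (ih h')
  | jzZ h hr _ ih => exact .jzZ h hr (ih h')
  | jzS h hr _ ih => exact .jzS h hr (ih h')
  | out h _ ih => exact .out h (ih h')

/-- Change the successors of an instruction. -/
def Instr.map {P P' : Type} (g : P → P') : Instr P → Instr P'
  | inc r p => inc r (g p)
  | dec r p => dec r (g p)
  | jz r p q => jz r (g p) (g q)
  | out b p => out b (g p)
  | halt => halt

/-- The counter used by an instruction. -/
def Instr.reg {P : Type} : Instr P → ℕ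
  | inc r _ => r
  | dec r _ => r
  | jz r _ _ => r
  | out _ _ => 0
  | halt => 0

theorem Instr.below_of_reg_lt {P : Type} {R : ℕ} (I : Instr P) (h : I.reg < R) : I.Below R := by
  cases I <;> simp_all [Instr.reg, Instr.Below]

/-- `go e x o`: the position `e p` if `o = some p`, and `x` if `o` is the exit `none`. -/
def go {P P' : Type} (e : P → P') (x : P') : Option P → P'
  | none => x
  | some p => e p

@[simp] theorem go_none {P P' : Type} (e : P → P') (x : P') : go e x none = x := rfl

@[simp] theorem go_some {P P' : Type} (e : P → P') (x : P') (p : P) : go e x (some p) = e p := rfl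

/-- Lift of a map of positions to the exits. -/
def flift {P P' : Type} (g : P → P') (y : Option P') : Option P → Option P'
  | none => y
  | some p => some (g p)

@[simp] theorem flift_none {P P' : Type} (g : P → P') (y : Option P') : flift g y none = y := rfl

@[simp] theorem flift_some {P P' : Type} (g : P → P') (y : Option P') (p : P) :
    flift g y (some p) = some (g p) := rfl

theorem go_lift {P P' P'' : Type} (g : P → P') (y : Option P') (e : P' → P'') (x : P'')
    (o : Option P) : go e x (flift g y o) = go (fun q => e (g q)) (go e x y) o := by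
  cases o <;> rfl

theorem Instr.map_map {P P' P'' : Type} (g : P → P') (h : P' → P'') (I : Instr P) :
    (I.map g).map h = I.map (fun p => h (g p)) := by
  cases I <;> rfl

theorem Instr.map_lift_go {P P' P'' : Type} (g : P → P') (y : Option P') (e : P' → P'') (x : P'')
    (I : Instr (Option P)) :
    (I.map (flift g y)).map (go e x) = I.map (go (fun q => e (g q)) (go e x y)) := by
  rw [Instr.map_map]
  congr 1
  funext o
  exact go_lift g y e x o

namespace RProg

/-! ### Positions -/

/-- Positions of a program. -/
def Pos : RProg → Type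
  | skip => Empty
  | inc _ => Unit
  | dec _ => Unit
  | seq a b => Pos a ⊕ Pos b
  | ifz _ a b => Option (Pos a ⊕ Pos b)
  | loop _ a => Option (Option (Pos a))
  | out _ => Unit

theorem finite_pos : (c : RProg) → Finite c.Pos
  | skip => inferInstanceAs (Finite Empty)
  | inc _ => inferInstanceAs (Finite Unit)
  | dec _ => inferInstanceAs (Finite Unit)
  | seq a b =>
    have := finite_pos a
    have := finite_pos b
    inferInstanceAs (Finite (Pos a ⊕ Pos b))
  | ifz _ a b =>
    have := finite_pos a
    have := finite_pos b
    inferInstanceAs (Finite (Option (Pos a ⊕ Pos b)))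
  | loop _ a =>
    have := finite_pos a
    inferInstanceAs (Finite (Option (Option (Pos a))))
  | out _ => inferInstanceAs (Finite Unit)

/-- The first position of a program (`none`: the exit). -/
def entry : (c : RProg) → Option c.Pos
  | skip => none
  | inc _ => some ()
  | dec _ => some ()
  | seq a b => (flift Sum.inl (flift Sum.inr none (entry b)) (entry a) : Option (Pos a ⊕ Pos b))
  | ifz _ a b => some (none : Option (Pos a ⊕ Pos b))
  | loop _ a => some (none : Option (Option (Pos a)))
  | out _ => some ()

/-- The instructions of a program. -/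
def instr : (c : RProg) → c.Pos → Instr (Option c.Pos)
  | skip => fun (p : Empty) => nomatch p
  | inc r => fun _ => .inc r none
  | dec r => fun _ => .dec r none
  | seq a b => fun (p : Pos a ⊕ Pos b) =>
    match p with
    | Sum.inl q => (instr a q).map (flift Sum.inl (flift Sum.inr none (entry b)))
    | Sum.inr q => (instr b q).map (flift Sum.inr none)
  | ifz r a b => fun (p : Option (Pos a ⊕ Pos b)) =>
    match p with
    | none => .jz r (flift (fun q => some (Sum.inl q)) none (entry a))
        (flift (fun q => some (Sum.inr q)) none (entry b))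
    | some (Sum.inl q) => (instr a q).map (flift (fun q => some (Sum.inl q)) none)
    | some (Sum.inr q) => (instr b q).map (flift (fun q => some (Sum.inr q)) none)
  | loop r a => fun (p : Option (Option (Pos a))) =>
    match p with
    | none => .jz r none (some (some none))
    | some none => .dec r (flift (fun q => some (some q)) (some none) (entry a))
    | some (some q) => (instr a q).map (flift (fun q => some (some q)) (some none))
  | out b => fun _ => .out b none

/-- The flow chart `F` contains a copy of the program `c` (with positions `e p`), whose exit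
is `x`. -/
def Embeds (c : RProg) (F : Flow) (e : c.Pos → F.P) (x : F.P) : Prop :=
  ∀ p, F.instr (e p) = (instr c p).map (go e x)

theorem steps_of_exec {B : ℕ} {c : RProg} {σ σ' : ℕ → ℕ} {u : List Bool} (h : Exec B c σ σ' u)
    (F : Flow) {e : c.Pos → F.P} {x : F.P} (he : Embeds c F e x) :
    F.Steps B (go e x c.entry) σ x σ' u := by
  induction h generalizing x with
  | skip σ => exact .refl _ _
  | inc σ r h =>
    exact Flow.Steps.inc (r := r) (q := x) (he ()) h (.refl _ _)
  | dec σ r =>
    exact Flow.Steps.dec (r := r) (q := x) (he ()) (.refl _ _)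
  | @seq a b σ σ' σ'' u v h h' ih ih' =>
    have hb : Embeds b F (fun q => e (Sum.inr q)) x :=
      fun q => (he (Sum.inr q)).trans (Instr.map_lift_go _ _ _ _ _)
    have ha : Embeds a F (fun q => e (Sum.inl q)) (go (fun q => e (Sum.inr q)) x b.entry) := by
      intro q
      refine (he (Sum.inl q)).trans ((Instr.map_lift_go _ _ _ _ _).trans ?_)
      rw [go_lift]
      rfl
    have h1 := ih ha
    have h2 := ih' hb
    have h3 := h1.trans h2
    have : go e x (entry (seq a b)) = go (fun q => e (Sum.inl q))
        (go (fun q => e (Sum.inr q)) x b.entry) a.entry := by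
      show go e x (flift Sum.inl (flift Sum.inr none (entry b)) (entry a)) = _
      rw [go_lift, go_lift]
      rfl
    rw [this]
    exact h3
  | @ifzZ a b σ σ' r u hr h ih =>
    have ha : Embeds a F (fun q => e (some (Sum.inl q))) x :=
      fun q => (he (some (Sum.inl q))).trans (Instr.map_lift_go _ _ _ _ _)
    refine Flow.Steps.jzZ (r := r) (he none) hr ?_
    rw [go_lift]
    exact ih ha
  | @ifzS a b σ σ' r u hr h ih =>
    have hb : Embeds b F (fun q => e (some (Sum.inr q))) x :=
      fun q => (he (some (Sum.inr q))).trans (Instr.map_lift_go _ _ _ _ _)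
    refine Flow.Steps.jzS (r := r) (he none) hr ?_
    rw [go_lift]
    exact ih hb
  | @loopZ a σ r hr =>
    exact Flow.Steps.jzZ (r := r) (he none) hr (.refl _ _)
  | @loopS a σ σ' σ'' r u v hr h h' ih ih' =>
    have ha : Embeds a F (fun q => e (some (some q))) (e none) :=
      fun q => (he (some (some q))).trans (Instr.map_lift_go _ _ _ _ _)
    have h1 := ih ha
    have h2 := ih' he
    refine Flow.Steps.jzS (r := r) (he none) hr ?_
    refine Flow.Steps.dec (r := r) (he (some none)) ?_
    rw [go_lift]
    exact h1.trans h2
  | out σ b =>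
    exact Flow.Steps.out (b := b) (q := x) (he ()) (.refl _ _)

end RProg

/-- Compilation of counter programs to flow charts. (Hint: positions by recursion on the
program, e.g. `seq P Q ↦ P.Pos ⊕ Q.Pos`, with instructions over `Option Pos` where `none` is
the exit; see Pool/Agent/PPS/Flow.lean for the same construction for stack programs.) -/
theorem RProg.toFlow (Q : RProg) : ∃ (F : Flow) (fin : F.P) (R : ℕ), 0 < R ∧
    F.instr fin = .halt ∧ (∀ p, (F.instr p).Below R) ∧
    ∀ (B : ℕ) (σ σ' : ℕ → ℕ) (u : List Bool), Q.Exec B σ σ' u →
      F.Steps B F.start σ fin σ' u := by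
  have := Q.finite_pos
  let F : Flow := ⟨Option Q.Pos, Q.entry, fun o => match o with
    | none => .halt
    | some p => Q.instr p⟩
  obtain ⟨M, hM⟩ : ∃ M : ℕ, ∀ p : F.P, (F.instr p).reg ≤ M := by
    obtain ⟨M, hM⟩ := (Set.finite_range fun p : F.P => (F.instr p).reg).bddAbove
    exact ⟨M, fun p => hM ⟨p, rfl⟩⟩
  refine ⟨F, none, M + 1, Nat.succ_pos _, rfl,
    fun p => Instr.below_of_reg_lt _ (Nat.lt_succ_of_le (hM p)), ?_⟩
  intro B σ σ' u h
  have he : RProg.Embeds Q F some none := by
    intro p
    show Q.instr p = (Q.instr p).map (go some none)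
    have hid : (go some none : Option Q.Pos → Option Q.Pos) = id := by
      funext o; cases o <;> rfl
    rw [hid]
    cases Q.instr p <;> rfl
  have h1 := RProg.steps_of_exec h F he
  have h2 : (go (some : Q.Pos → F.P) (none : F.P) Q.entry) = F.start := by
    show (go (some : Q.Pos → Option Q.Pos) (none : Option Q.Pos) Q.entry) = Q.entry
    cases Q.entry <;> rfl
  rw [h2] at h1
  exact h1

end Pool.Agent.H79.Upm
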