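import Pool.Agent.H79.Upm.Defs
import Pool.Agent.H79.Upm.Flow

/-!
# Flow charts with polynomially bounded counters on a logarithmic space transducer
-/

set_option autoImplicit false

namespace Pool.Agent.H79.Upm

namespace FlowTM

/-! ## Binary words, least significant bit first -/

/-- The value of a binary word, least significant bit first. -/
def valL : List Bool → ℕ
  | [] => 0
  | b :: l => b.toNat + 2 * valL l

/-- Increment of a binary word. -/
def incL : List Bool → List Bool
  | [] => [true]
  | false :: l => true :: l
  | true :: l => false :: incL l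

/-- Decrement of a binary word of nonzero value. -/
def decL : List Bool → List Bool
  | [] => []
  | false :: l => true :: decL l
  | true :: l => false :: l

theorem valL_incL (l : List Bool) : valL (incL l) = valL l + 1 := by
  induction l with
  | nil => rfl
  | cons b l ih =>
    cases b
    · simp [incL, valL]; omega
    · simp [incL, valL, ih]; omega

theorem length_incL (l : List Bool) :
    (incL l).length = l.length ∨ (incL l).length = l.length + 1 ∧ valL l + 1 = 2 ^ l.length := by
  induction l with
  | nil => right; simp [incL, valL]
  | cons b l ih =>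
    cases b
    · left; simp [incL]
    · rcases ih with h | ⟨h, h'⟩
      · left; simp [incL, h]
      · right
        refine ⟨by simp [incL, h], ?_⟩
        simp only [valL, Bool.toNat_true, List.length_cons, pow_succ]
        omega

theorem length_incL_le (l : List Bool) {S : ℕ} (hl : l.length ≤ S) (h : valL l + 1 < 2 ^ S) :
    (incL l).length ≤ S := by
  rcases length_incL l with h1 | ⟨h1, h2⟩
  · omega
  · rcases Nat.lt_or_ge l.length S with h3 | h3
    · omega
    · have : l.length = S := by omega
      rw [← this] at h
      omega

theorem valL_decL (l : List Bool) (h : valL l ≠ 0) : valL (decL l) = valL l - 1 := by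
  induction l with
  | nil => exact absurd rfl h
  | cons b l ih =>
    cases b
    · have h1 : valL l ≠ 0 := by
        intro h0; apply h; simp [valL, h0]
      have h2 := ih h1
      simp only [decL, valL, Bool.toNat_true, Bool.toNat_false, h2]
      omega
    · simp [decL, valL]

theorem length_decL (l : List Bool) : (decL l).length = l.length := by
  induction l with
  | nil => rfl
  | cons b l ih => cases b <;> simp [decL, ih]

theorem valL_eq_zero {l : List Bool} (h : valL l = 0) : l = List.replicate l.length false := by
  induction l with
  | nil => rfl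
  | cons b l ih =>
    cases b
    · have h1 : valL l = 0 := by simp only [valL] at h; omega
      rw [List.length_cons, List.replicate_succ, ← ih h1]
    · simp only [valL, Bool.toNat_true] at h; omega

/-! ## Tape contents -/

open Transducer (inp)

theorem inp_length (l : List Bool) : inp l (l.length : ℤ) = none := by
  simp [inp]

theorem inp_neg (l : List Bool) : inp l (-1) = none := by
  simp [inp]

theorem inp_append_cons (l m : List Bool) (b : Bool) :
    inp (l ++ b :: m) (l.length : ℤ) = some b := by
  simp [inp]

theorem inp_update (l m : List Bool) (b b' : Bool) :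
    Function.update (inp (l ++ b :: m)) (l.length : ℤ) (some b') = inp (l ++ b' :: m) := by
  funext z
  by_cases hz : z = l.length
  · subst hz
    rw [Function.update_self, inp_append_cons]
  · rw [Function.update_of_ne hz]
    unfold inp
    by_cases h0 : 0 ≤ z
    · simp only [h0, if_true]
      obtain ⟨n, rfl⟩ := Int.eq_ofNat_of_zero_le h0
      have hn : n ≠ l.length := by
        intro h; apply hz; simp [h]
      simp only [Int.toNat_natCast]
      rcases Nat.lt_or_gt_of_ne hn with h | h
      · rw [List.getElem?_append_left h, List.getElem?_append_left h]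
      · rw [List.getElem?_append_right h.le, List.getElem?_append_right h.le]
        obtain ⟨k, hk⟩ := Nat.exists_eq_add_of_lt h
        have : n - l.length = k + 1 := by omega
        rw [this, List.getElem?_cons_succ, List.getElem?_cons_succ]
    · simp [h0]

theorem inp_update_end (l : List Bool) (b : Bool) :
    Function.update (inp l) (l.length : ℤ) (some b) = inp (l ++ [b]) := by
  funext z
  by_cases hz : z = l.length
  · subst hz
    rw [Function.update_self, inp_append_cons]
  · rw [Function.update_of_ne hz]
    unfold inp
    by_cases h0 : 0 ≤ z
    · simp only [h0, if_true]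
      obtain ⟨n, rfl⟩ := Int.eq_ofNat_of_zero_le h0
      have hn : n ≠ l.length := by
        intro h; apply hz; simp [h]
      simp only [Int.toNat_natCast]
      rcases Nat.lt_or_gt_of_ne hn with h | h
      · rw [List.getElem?_append_left h]
      · rw [List.getElem?_eq_none (by omega), List.getElem?_eq_none (by simp; omega)]
    · simp [h0]

/-! ## The machine -/

/-- Kinds of states. -/
inductive Tag : Type
  | at
  | inc
  | back
  | dec
  | undo
  | jz
  deriving DecidableEq, Fintype

/-- States: kind, current tape, targets (`none` is the scanning phase). -/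
abbrev St (P : Type) (R : ℕ) : Type := Tag × Fin R × Option P × Option P

/-- Write and move on tape `r`. -/
def loc {R : ℕ} (r : Fin R) (w : Option Bool) (m : Move) (s : Fin R → Option Bool) :
    Fin R → Option Bool × Move := fun k => if k = r then (w, m) else (s k, .stay)

/-- Leave the tapes unchanged. -/
def idl {R : ℕ} (s : Fin R → Option Bool) : Fin R → Option Bool × Move :=
  fun k => (s k, .stay)

/-- The transition function. -/
def delta (F : Flow) {R : ℕ} (fr : ℕ → Fin R) (q : St F.P R) (a : Option Bool)
    (s : Fin R → Option Bool) :
    Option (St F.P R × Move × (Fin R → Option Bool × Move) × Option Bool) :=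
  match q with
  | (.at, _, none, _) =>
    match a with
    | some _ => some ((.inc, fr 0, none, none), .right, idl s, none)
    | none => some ((.at, fr 0, some F.start, none), .stay, idl s, none)
  | (.at, _, some p, _) =>
    match F.instr p with
    | .inc r q => some ((.inc, fr r, some q, none), .stay, idl s, none)
    | .dec r q => some ((.dec, fr r, some q, none), .stay, idl s, none)
    | .jz r q q' => some ((.jz, fr r, some q, some q'), .stay, idl s, none)
    | .out b q => some ((.at, fr 0, some q, none), .stay, idl s, some b)
    | .halt => none
  | (.inc, r, o, o') =>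
    match s r with
    | some true => some ((.inc, r, o, o'), .stay, loc r (some false) .right s, none)
    | some false => some ((.back, r, o, none), .stay, loc r (some true) .left s, none)
    | none => some ((.back, r, o, none), .stay, loc r (some true) .left s, none)
  | (.back, r, o, o') =>
    match s r with
    | some b => some ((.back, r, o, o'), .stay, loc r (some b) .left s, none)
    | none => some ((.at, fr 0, o, none), .stay, loc r none .right s, none)
  | (.dec, r, o, o') =>
    match s r with
    | some false => some ((.dec, r, o, o'), .stay, loc r (some true) .right s, none)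
    | some true => some ((.back, r, o, none), .stay, loc r (some false) .left s, none)
    | none => some ((.undo, r, o, none), .stay, loc r none .left s, none)
  | (.undo, r, o, o') =>
    match s r with
    | some _ => some ((.undo, r, o, o'), .stay, loc r (some false) .left s, none)
    | none => some ((.at, fr 0, o, none), .stay, loc r none .right s, none)
  | (.jz, r, o, o') =>
    match s r with
    | some false => some ((.jz, r, o, o'), .stay, loc r (some false) .right s, none)
    | some true => some ((.back, r, o', none), .stay, loc r (some true) .left s, none)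
    | none => some ((.back, r, o, none), .stay, loc r none .left s, none)

/-- The machine that simulates a flow chart. -/
def machine (F : Flow) {R : ℕ} (fr : ℕ → Fin R) : Transducer where
  K := Fin R
  Γ := Bool
  Q := St F.P R
  start := (.at, fr 0, none, none)
  δ := delta F fr

section

variable (F : Flow) {R : ℕ} (fr : ℕ → Fin R)

/-- Configurations in which only the head of tape `r` may be off cell `0`. -/
def cfg (q : St F.P R) (ip : ℤ) (W : Fin R → List Bool) (r : Fin R) (j : ℤ)
    (out : List Bool) : (machine F fr).Cfg where
  state := q
  ipos := ip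
  head := fun (k : Fin R) => if k = r then j else 0
  tape := fun (k : Fin R) => inp (W k)
  out := out

theorem cfg_zero (q : St F.P R) (ip : ℤ) (W : Fin R → List Bool) (r r' : Fin R)
    (out : List Bool) : cfg F fr q ip W r 0 out = cfg F fr q ip W r' 0 out := by
  unfold cfg
  simp only [ite_self]

theorem cfg_ext {c c' : (machine F fr).Cfg} (h1 : c.state = c'.state) (h0 : c.ipos = c'.ipos)
    (h2 : ∀ k, c.head k = c'.head k) (h3 : ∀ k, c.tape k = c'.tape k) (h4 : c.out = c'.out) :
    c = c' := by
  cases c; cases c'
  simp only at h0 h1 h2 h3 h4
  rw [Transducer.Cfg.mk.injEq]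
  exact ⟨h1, h0, funext h2, funext h3, h4⟩

/-- local steps -/
theorem lstep {x : List Bool} {q q' : St F.P R} {ip : ℤ} {W W' : Fin R → List Bool}
    {r : Fin R} {j j' : ℤ} {out : List Bool} {a : Option Bool} {wr : Option Bool} {mv : Move}
    (ha : inp (W r) j = a)
    (h : ∀ (i : Option Bool) (s : Fin R → Option Bool), s r = a →
      delta F fr q i s = some (q', .stay, loc r wr mv s, none))
    (hj : j' = j + mv.toInt) (hW : ∀ k, k ≠ r → W' k = W k)
    (hr : inp (W' r) = Function.update (inp (W r)) j wr) :
    (machine F fr).step x (cfg F fr q ip W r j out) = some (cfg F fr q' ip W' r j' out) := by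
  have hs : (if r = r then j else 0) = j := if_pos rfl
  have h1 := h (inp x ip) (fun k => inp (W k) (if k = r then j else 0)) (by
    simp only [if_true]; exact ha)
  unfold Transducer.step
  show Option.map _ (delta F fr q (inp x ip) (fun k => inp (W k) (if k = r then j else 0))) = _
  rw [h1, Option.map_some]
  congr 1
  refine cfg_ext F fr rfl ?_ ?_ ?_ ?_
  · show ip + Move.stay.toInt = ip
    simp [Move.toInt]
  · intro (k : Fin R)
    show (if k = r then j else 0) +
      (loc r wr mv (fun k => inp (W k) (if k = r then j else 0)) k).2.toInt = if k = r then j' else 0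
    by_cases hk : k = r
    · subst hk; simp [loc, hj]
    · simp [hk, loc, Move.toInt]
  · intro (k : Fin R)
    show Function.update (inp (W k)) (if k = r then j else 0)
      (loc r wr mv (fun k => inp (W k) (if k = r then j else 0)) k).1 = inp (W' k)
    by_cases hk : k = r
    · subst hk; simp [loc, hr]
    · simp only [hk, loc, if_false, hW k hk]
      exact Function.update_eq_self _ _
  · show out ++ [] = out
    simp

/-- steps at rest -/
theorem astep {x : List Bool} {q q' : St F.P R} {ip : ℤ} {W : Fin R → List Bool}
    {r r' : Fin R} {out : List Bool} {mv : Move} {ob : Option Bool}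
    (h : ∀ (s : Fin R → Option Bool),
      delta F fr q (inp x ip) s = some (q', mv, idl s, ob)) :
    (machine F fr).step x (cfg F fr q ip W r 0 out) =
      some (cfg F fr q' (ip + mv.toInt) W r' 0 (out ++ ob.toList)) := by
  have h1 := h (fun k => inp (W k) (if k = r then 0 else 0))
  unfold Transducer.step
  show Option.map _ (delta F fr q (inp x ip) (fun k => inp (W k) (if k = r then 0 else 0))) = _
  rw [h1, Option.map_some]
  congr 1
  refine cfg_ext F fr rfl rfl ?_ ?_ rfl
  · intro (k : Fin R)
    show (if k = r then (0 : ℤ) else 0) + Move.stay.toInt = if k = r' then 0 else 0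
    simp [Move.toInt]
  · intro (k : Fin R)
    show Function.update (inp (W k)) (if k = r then 0 else 0)
      (inp (W k) (if k = r then 0 else 0)) = inp (W k)
    exact Function.update_eq_self _ _

/-- bounds for a configuration -/
def Bnd (x : List Bool) (S : ℕ) (c : (machine F fr).Cfg) : Prop :=
  (-1 ≤ c.ipos ∧ c.ipos ≤ x.length) ∧ ∀ k, -1 ≤ c.head k ∧ c.head k ≤ S

/-- runs within the bounds -/
inductive Run (x : List Bool) (S : ℕ) : (machine F fr).Cfg → (machine F fr).Cfg → Prop
  | refl (c) (h : Bnd F fr x S c) : Run x S c c
  | step {c c' c''} (h : Bnd F fr x S c) (hs : (machine F fr).step x c = some c')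
      (h' : Run x S c' c'') : Run x S c c''

variable {F fr}

theorem Run.trans {x : List Bool} {S : ℕ} {c c' c'' : (machine F fr).Cfg}
    (h : Run F fr x S c c') (h' : Run F fr x S c' c'') : Run F fr x S c c'' := by
  induction h with
  | refl c h => exact h'
  | step h hs _ ih => exact .step h hs (ih h')

theorem Run.iterate {x : List Bool} {S : ℕ} {c c' : (machine F fr).Cfg}
    (h : Run F fr x S c c') : ∃ N : ℕ,
      (fun c => ((machine F fr).step x c).getD c)^[N] c = c' ∧
      ∀ n ≤ N, Bnd F fr x S ((fun c => ((machine F fr).step x c).getD c)^[n] c) := by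
  induction h with
  | refl c h =>
    refine ⟨0, rfl, ?_⟩
    intro n hn
    obtain rfl : n = 0 := by omega
    exact h
  | @step c c1 c2 h hs _ ih =>
    obtain ⟨N, h1, h2⟩ := ih
    have h3 : ((machine F fr).step x c).getD c = c1 := by
      simp [hs]
    refine ⟨N + 1, ?_, ?_⟩
    · rw [Function.iterate_succ_apply, h3, h1]
    · intro n hn
      cases n with
      | zero => exact h
      | succ n =>
        rw [Function.iterate_succ_apply, h3]
        exact h2 n (by omega)

theorem bnd_cfg {x : List Bool} {S : ℕ} {q : St F.P R} {ip : ℤ} {W : Fin R → List Bool}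
    {r : Fin R} {j : ℤ} {out : List Bool} (h1 : -1 ≤ ip) (h2 : ip ≤ x.length) (h3 : -1 ≤ j)
    (h4 : j ≤ S) : Bnd F fr x S (cfg F fr q ip W r j out) := by
  refine ⟨⟨h1, h2⟩, ?_⟩
  intro (k : Fin R)
  show -1 ≤ (if k = r then j else 0) ∧ (if k = r then j else 0) ≤ (S : ℤ)
  split_ifs
  · exact ⟨h3, h4⟩
  · constructor <;> omega

section sweeps

variable {x : List Bool} {S : ℕ} {ip : ℤ} (hi1 : -1 ≤ ip) (hi2 : ip ≤ x.length)
  {W : Fin R → List Bool} {r : Fin R} {o o' : Option F.P} {out : List Bool}

include hi1 hi2

theorem run_back (m : ℕ) (hm : m ≤ (W r).length) (hS : (W r).length ≤ S) :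
    Run F fr x S (cfg F fr (.back, r, o, o') ip W r ((m : ℤ) - 1) out)
      (cfg F fr (.at, fr 0, o, none) ip W r 0 out) := by
  induction m with
  | zero =>
    refine .step (bnd_cfg hi1 hi2 (by omega) (by omega)) ?_
      (.refl _ (bnd_cfg hi1 hi2 (by omega) (by omega)))
    refine lstep F fr (a := none) (wr := none) (mv := .right) (inp_neg _) ?_ ?_ (fun _ _ => rfl) ?_
    · intro i s hs
      simp only [delta, hs]
    · simp [Move.toInt]
    · symm
      rw [Function.update_eq_self_iff]
      exact (inp_neg _).symm
  | succ m ih =>
    have hm' : m < (W r).length := hm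
    have hsc : inp (W r) (((m + 1 : ℕ) : ℤ) - 1) = some (W r)[m] := by
      have : ((m + 1 : ℕ) : ℤ) - 1 = m := by omega
      rw [this]
      simp [inp, hm']
    refine .step (bnd_cfg hi1 hi2 (by omega) (by omega)) ?_ (ih (by omega))
    refine lstep F fr (a := some (W r)[m]) (wr := some (W r)[m]) (mv := .left) hsc ?_ ?_
      (fun _ _ => rfl) ?_
    · intro i s hs
      simp only [delta, hs]
    · simp [Move.toInt]; ring
    · symm
      rw [Function.update_eq_self_iff]
      exact hsc.symm

theorem run_inc_sweep (l : List Bool) : ∀ (pre : List Bool) (W : Fin R → List Bool),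
    W r = pre ++ l → (pre ++ l).length ≤ S → (pre ++ incL l).length ≤ S →
    ∃ m ≤ (pre ++ incL l).length,
      Run F fr x S (cfg F fr (.inc, r, o, o') ip W r pre.length out)
        (cfg F fr (.back, r, o, none) ip (Function.update W r (pre ++ incL l)) r
          ((m : ℤ) - 1) out) := by
  induction l with
  | nil =>
    intro pre W hW hS hS'
    rw [List.append_nil] at hW hS
    refine ⟨pre.length, by simp, ?_⟩
    refine .step (bnd_cfg hi1 hi2 (by omega) (by omega)) ?_
      (.refl _ (bnd_cfg hi1 hi2 (by omega) (by omega)))
    refine lstep F fr (a := none) (wr := some true) (mv := .left) ?_ ?_ ?_ ?_ ?_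
    · rw [hW]; exact inp_length _
    · intro i s hs
      simp only [delta, hs]
    · simp only [Move.toInt]; ring
    · intro k hk; exact Function.update_of_ne hk _ _
    · rw [Function.update_self, hW, inp_update_end]; rfl
  | cons b l ih =>
    intro pre W hW hS hS'
    have hlen : pre.length + (l.length + 1) ≤ S := by simpa using hS
    cases b
    · refine ⟨pre.length, by simp, ?_⟩
      refine .step (bnd_cfg hi1 hi2 (by omega) (by omega)) ?_
        (.refl _ (bnd_cfg hi1 hi2 (by omega) (by omega)))
      refine lstep F fr (a := some false) (wr := some true) (mv := .left) ?_ ?_ ?_ ?_ ?_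
      · rw [hW]; exact inp_append_cons _ _ _
      · intro i s hs
        simp only [delta, hs]
      · simp only [Move.toInt]; ring
      · intro k hk; exact Function.update_of_ne hk _ _
      · rw [Function.update_self, hW, inp_update]; rfl
    · have hS1 : ((pre ++ [false]) ++ l).length ≤ S := by simpa using hS
      have hS2 : ((pre ++ [false]) ++ incL l).length ≤ S := by simpa [incL] using hS'
      obtain ⟨m, hm, hrun⟩ := ih (pre ++ [false])
        (Function.update W r ((pre ++ [false]) ++ l)) (Function.update_self _ _ _) hS1 hS2
      refine ⟨m, by simpa [incL] using hm, ?_⟩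
      rw [Function.update_idem] at hrun
      have e1 : pre ++ [false] ++ incL l = pre ++ incL (true :: l) := by simp [incL]
      rw [e1] at hrun
      refine .step (bnd_cfg hi1 hi2 (by omega) (by omega)) ?_ hrun
      refine lstep F fr (a := some true) (wr := some false) (mv := .right) ?_ ?_ ?_ ?_ ?_
      · rw [hW]; exact inp_append_cons _ _ _
      · intro i s hs
        simp only [delta, hs]
      · simp [Move.toInt]
      · intro k hk; exact Function.update_of_ne hk _ _
      · rw [Function.update_self, hW, inp_update]; simp

theorem run_dec_sweep (l : List Bool) : ∀ (pre : List Bool) (W : Fin R → List Bool),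
    W r = pre ++ l → (pre ++ l).length ≤ S → valL l ≠ 0 →
    ∃ m ≤ (pre ++ l).length,
      Run F fr x S (cfg F fr (.dec, r, o, o') ip W r pre.length out)
        (cfg F fr (.back, r, o, none) ip (Function.update W r (pre ++ decL l)) r
          ((m : ℤ) - 1) out) := by
  induction l with
  | nil =>
    intro pre W hW hS hS'
    exact absurd rfl hS'
  | cons b l ih =>
    intro pre W hW hS hS'
    have hlen : pre.length + (l.length + 1) ≤ S := by simpa using hS
    cases b
    · have hS1 : ((pre ++ [true]) ++ l).length ≤ S := by simpa using hS
      have hv : valL l ≠ 0 := by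
        intro h0; apply hS'; simp [valL, h0]
      obtain ⟨m, hm, hrun⟩ := ih (pre ++ [true])
        (Function.update W r ((pre ++ [true]) ++ l)) (Function.update_self _ _ _) hS1 hv
      refine ⟨m, by simpa using hm, ?_⟩
      rw [Function.update_idem] at hrun
      have e1 : pre ++ [true] ++ decL l = pre ++ decL (false :: l) := by simp [decL]
      rw [e1] at hrun
      refine .step (bnd_cfg hi1 hi2 (by omega) (by omega)) ?_ hrun
      refine lstep F fr (a := some false) (wr := some true) (mv := .right) ?_ ?_ ?_ ?_ ?_
      · rw [hW]; exact inp_append_cons _ _ _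
      · intro i s hs
        simp only [delta, hs]
      · simp [Move.toInt]
      · intro k hk; exact Function.update_of_ne hk _ _
      · rw [Function.update_self, hW, inp_update]; simp
    · refine ⟨pre.length, by simp, ?_⟩
      refine .step (bnd_cfg hi1 hi2 (by omega) (by omega)) ?_
        (.refl _ (bnd_cfg hi1 hi2 (by omega) (by omega)))
      refine lstep F fr (a := some true) (wr := some false) (mv := .left) ?_ ?_ ?_ ?_ ?_
      · rw [hW]; exact inp_append_cons _ _ _
      · intro i s hs
        simp only [delta, hs]
      · simp only [Move.toInt]; ring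
      · intro k hk; exact Function.update_of_ne hk _ _
      · rw [Function.update_self, hW, inp_update]; rfl

theorem run_dec_zero (l : List Bool) : ∀ (pre : List Bool) (W : Fin R → List Bool),
    W r = pre ++ l → (pre ++ l).length ≤ S → valL l = 0 →
      Run F fr x S (cfg F fr (.dec, r, o, o') ip W r pre.length out)
        (cfg F fr (.undo, r, o, none) ip
          (Function.update W r (pre ++ List.replicate l.length true)) r
          (((pre ++ l).length : ℤ) - 1) out) := by
  induction l with
  | nil =>
    intro pre W hW hS _
    rw [List.append_nil] at hW hS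
    refine .step (bnd_cfg hi1 hi2 (by omega) (by omega)) ?_
      (.refl _ (bnd_cfg hi1 hi2 (by rw [List.append_nil]; omega) (by rw [List.append_nil]; omega)))
    refine lstep F fr (a := none) (wr := none) (mv := .left) ?_ ?_ ?_ ?_ ?_
    · rw [hW]; exact inp_length _
    · intro i s hs
      simp only [delta, hs]
    · simp only [Move.toInt, List.append_nil]; ring
    · intro k hk; exact Function.update_of_ne hk _ _
    · rw [Function.update_self, hW]
      symm
      rw [List.length_nil, List.replicate_zero, List.append_nil, Function.update_eq_self_iff]
      exact (inp_length _).symm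
  | cons b l ih =>
    intro pre W hW hS hv
    have hlen : pre.length + (l.length + 1) ≤ S := by simpa using hS
    cases b
    · have hS1 : ((pre ++ [true]) ++ l).length ≤ S := by simpa using hS
      have hv' : valL l = 0 := by simp only [valL] at hv; omega
      have hrun := ih (pre ++ [true])
        (Function.update W r ((pre ++ [true]) ++ l)) (Function.update_self _ _ _) hS1 hv'
      rw [Function.update_idem] at hrun
      have e1 : pre ++ [true] ++ List.replicate l.length true =
          pre ++ List.replicate (false :: l).length true := by
        simp [List.replicate_succ]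
      have e2 : (pre ++ [true] ++ l).length = (pre ++ false :: l).length := by simp
      rw [e1, e2] at hrun
      refine .step (bnd_cfg hi1 hi2 (by omega) (by omega)) ?_ hrun
      refine lstep F fr (a := some false) (wr := some true) (mv := .right) ?_ ?_ ?_ ?_ ?_
      · rw [hW]; exact inp_append_cons _ _ _
      · intro i s hs
        simp only [delta, hs]
      · simp [Move.toInt]
      · intro k hk; exact Function.update_of_ne hk _ _
      · rw [Function.update_self, hW, inp_update]; simp
    · simp only [valL, Bool.toNat_true] at hv; omega

theorem run_undo (u : List Bool) : ∀ (k : ℕ) (W : Fin R → List Bool),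
    W r = u ++ List.replicate k false → (W r).length ≤ S →
      Run F fr x S (cfg F fr (.undo, r, o, o') ip W r ((u.length : ℤ) - 1) out)
        (cfg F fr (.at, fr 0, o, none) ip
          (Function.update W r (List.replicate (u.length + k) false)) r 0 out) := by
  induction u using List.reverseRecOn with
  | nil =>
    intro k W hW hS
    refine .step (bnd_cfg hi1 hi2 (by simp only [List.length_nil, Nat.cast_zero]; omega)
      (by simp only [List.length_nil, Nat.cast_zero]; omega)) ?_
      (.refl _ (bnd_cfg hi1 hi2 (by omega) (by omega)))
    refine lstep F fr (a := none) (wr := none) (mv := .right) ?_ ?_ ?_ ?_ ?_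
    · simp [inp]
    · intro i s hs
      simp only [delta, hs]
    · simp [Move.toInt]
    · intro k hk; exact Function.update_of_ne hk _ _
    · rw [Function.update_self, hW]
      symm
      simp only [List.length_nil, List.nil_append, Nat.zero_add]
      rw [Function.update_eq_self_iff]
      simp [inp]
  | append_singleton u b ih =>
    intro k W hW hS
    have hlen : (W r).length = u.length + 1 + k := by
      rw [hW, List.length_append, List.length_append, List.length_replicate,
        List.length_singleton]
    have hrun := ih (k + 1) (Function.update W r (u ++ List.replicate (k + 1) false))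
      (Function.update_self _ _ _) (by
        rw [Function.update_self, List.length_append, List.length_replicate]; omega)
    rw [Function.update_idem] at hrun
    have e1 : u.length + (k + 1) = (u ++ [b]).length + k := by
      rw [List.length_append, List.length_singleton]; omega
    rw [e1] at hrun
    have e2 : (((u ++ [b]).length : ℕ) : ℤ) - 1 = u.length := by simp
    rw [e2]
    refine .step (bnd_cfg hi1 hi2 (by omega) (by omega)) ?_ hrun
    refine lstep F fr (a := some b) (wr := some false) (mv := .left) ?_ ?_ ?_ ?_ ?_
    · rw [hW, List.append_assoc]; exact inp_append_cons _ _ _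
    · intro i s hs
      simp only [delta, hs]
    · simp only [Move.toInt]; ring
    · intro k hk; exact Function.update_of_ne hk _ _
    · rw [Function.update_self, hW, List.append_assoc, List.singleton_append, inp_update,
        List.replicate_succ]

theorem run_jz_zero (l : List Bool) : ∀ (pre : List Bool),
    W r = pre ++ l → (W r).length ≤ S → valL l = 0 →
      Run F fr x S (cfg F fr (.jz, r, o, o') ip W r pre.length out)
        (cfg F fr (.back, r, o, none) ip W r (((W r).length : ℤ) - 1) out) := by
  induction l with
  | nil =>
    intro pre hW hS _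
    rw [List.append_nil] at hW
    refine .step (bnd_cfg hi1 hi2 (by omega) (by rw [hW] at hS; omega)) ?_
      (.refl _ (bnd_cfg hi1 hi2 (by omega) (by omega)))
    refine lstep F fr (a := none) (wr := none) (mv := .left) ?_ ?_ ?_ (fun _ _ => rfl) ?_
    · rw [hW]; exact inp_length _
    · intro i s hs
      simp only [delta, hs]
    · rw [hW]; simp only [Move.toInt]; ring
    · symm
      rw [hW, Function.update_eq_self_iff]
      exact (inp_length _).symm
  | cons b l ih =>
    intro pre hW hS hv
    have hlen : (W r).length = pre.length + (l.length + 1) := by rw [hW]; simp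
    cases b
    · have hv' : valL l = 0 := by simp only [valL] at hv; omega
      have hrun := ih (pre ++ [false]) (by rw [hW]; simp) hS hv'
      refine .step (bnd_cfg hi1 hi2 (by omega) (by omega)) ?_ hrun
      refine lstep F fr (a := some false) (wr := some false) (mv := .right) ?_ ?_ ?_
        (fun _ _ => rfl) ?_
      · rw [hW]; exact inp_append_cons _ _ _
      · intro i s hs
        simp only [delta, hs]
      · simp [Move.toInt]
      · rw [hW, inp_update]
    · simp only [valL, Bool.toNat_true] at hv; omega

theorem run_jz_pos (l : List Bool) : ∀ (pre : List Bool),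
    W r = pre ++ l → (W r).length ≤ S → valL l ≠ 0 →
    ∃ m ≤ (W r).length,
      Run F fr x S (cfg F fr (.jz, r, o, o') ip W r pre.length out)
        (cfg F fr (.back, r, o', none) ip W r ((m : ℤ) - 1) out) := by
  induction l with
  | nil =>
    intro pre hW hS hv
    exact absurd rfl hv
  | cons b l ih =>
    intro pre hW hS hv
    have hlen : (W r).length = pre.length + (l.length + 1) := by rw [hW]; simp
    cases b
    · have hv' : valL l ≠ 0 := by
        intro h0; apply hv; simp [valL, h0]
      obtain ⟨m, hm, hrun⟩ := ih (pre ++ [false]) (by rw [hW]; simp) hS hv'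
      refine ⟨m, hm, ?_⟩
      refine .step (bnd_cfg hi1 hi2 (by omega) (by omega)) ?_ hrun
      refine lstep F fr (a := some false) (wr := some false) (mv := .right) ?_ ?_ ?_
        (fun _ _ => rfl) ?_
      · rw [hW]; exact inp_append_cons _ _ _
      · intro i s hs
        simp only [delta, hs]
      · simp [Move.toInt]
      · rw [hW, inp_update]
    · refine ⟨pre.length, by omega, ?_⟩
      refine .step (bnd_cfg hi1 hi2 (by omega) (by omega)) ?_
        (.refl _ (bnd_cfg hi1 hi2 (by omega) (by omega)))
      refine lstep F fr (a := some true) (wr := some true) (mv := .left) ?_ ?_ ?_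
        (fun _ _ => rfl) ?_
      · rw [hW]; exact inp_append_cons _ _ _
      · intro i s hs
        simp only [delta, hs]
      · simp only [Move.toInt]; ring
      · rw [hW, inp_update]

/-! ### The three operations -/

theorem run_inc (hS : (W r).length ≤ S) (hv : valL (W r) + 1 < 2 ^ S) :
    Run F fr x S (cfg F fr (.inc, r, o, o') ip W r 0 out)
      (cfg F fr (.at, fr 0, o, none) ip (Function.update W r (incL (W r))) r 0 out) := by
  have h1 := length_incL_le (W r) hS hv
  obtain ⟨m, hm, hrun⟩ := run_inc_sweep (F := F) (fr := fr) (x := x) (S := S) (ip := ip)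
    hi1 hi2 (r := r) (o := o) (o' := o')
    (out := out) (W r) [] W rfl hS (by simpa using h1)
  refine Run.trans hrun ?_
  refine run_back hi1 hi2 m ?_ ?_
  · rw [Function.update_self]; exact hm
  · rw [Function.update_self]; exact h1

/-- decrement, cut off at zero -/
theorem run_dec (hS : (W r).length ≤ S) :
    Run F fr x S (cfg F fr (.dec, r, o, o') ip W r 0 out)
      (cfg F fr (.at, fr 0, o, none) ip
        (Function.update W r (if valL (W r) = 0 then W r else decL (W r))) r 0 out) := by
  by_cases hv : valL (W r) = 0
  · rw [if_pos hv]
    have hrun := run_dec_zero (F := F) (fr := fr) (x := x) (S := S) (ip := ip)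
      hi1 hi2 (r := r) (o := o) (o' := o') (out := out) (W r) [] W rfl hS hv
    refine Run.trans hrun ?_
    have h2 := run_undo (F := F) (fr := fr) (x := x) (S := S) (ip := ip)
      hi1 hi2 (r := r) (o := o) (o' := none) (out := out)
      (List.replicate (W r).length true) 0
      (Function.update W r ([] ++ List.replicate (W r).length true))
      (by rw [Function.update_self]; simp) (by rw [Function.update_self]; simpa using hS)
    rw [Function.update_idem, List.length_replicate, Nat.add_zero, ← valL_eq_zero hv] at h2
    exact h2
  · rw [if_neg hv]
    obtain ⟨m, hm, hrun⟩ := run_dec_sweep (F := F) (fr := fr) (x := x) (S := S) (ip := ip)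
      hi1 hi2 (r := r) (o := o) (o' := o')
      (out := out) (W r) [] W rfl hS hv
    refine Run.trans hrun ?_
    refine run_back hi1 hi2 m ?_ ?_
    · rw [Function.update_self, List.nil_append, length_decL]; exact hm
    · rw [Function.update_self, List.nil_append, length_decL]; exact hS

theorem run_jz (hS : (W r).length ≤ S) :
    Run F fr x S (cfg F fr (.jz, r, o, o') ip W r 0 out)
      (cfg F fr (.at, fr 0, if valL (W r) = 0 then o else o', none) ip W r 0 out) := by
  by_cases hv : valL (W r) = 0
  · rw [if_pos hv]
    exact (run_jz_zero (F := F) (fr := fr) (x := x) (S := S) (ip := ip)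
      hi1 hi2 (W := W) (r := r) (o := o) (o' := o') (out := out) (W r) [] rfl hS hv).trans
      (run_back hi1 hi2 _ le_rfl hS)
  · rw [if_neg hv]
    obtain ⟨m, hm, hrun⟩ := run_jz_pos (F := F) (fr := fr) (x := x) (S := S) (ip := ip)
      hi1 hi2 (W := W) (r := r) (o := o) (o' := o') (out := out) (W r) [] rfl hS hv
    exact hrun.trans (run_back hi1 hi2 m hm hS)

end sweeps

/-- the words represent the counters -/
def Rep {R : ℕ} (S : ℕ) (W : Fin R → List Bool) (σ : ℕ → ℕ) : Prop :=
  ∀ k : Fin R, valL (W k) = σ k ∧ (W k).length ≤ S

theorem sim {x : List Bool} {S B : ℕ} {ip : ℤ} (hi1 : -1 ≤ ip) (hi2 : ip ≤ x.length)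
    (hB : B < 2 ^ S) (hF : ∀ p, (F.instr p).Below R) (hfr : ∀ (r : ℕ) (h : r < R), fr r = ⟨r, h⟩)
    {p p' : F.P} {σ σ' : ℕ → ℕ} {u : List Bool} (h : F.Steps B p σ p' σ' u) :
    ∀ (W : Fin R → List Bool) (out : List Bool), Rep S W σ →
    ∃ W' : Fin R → List Bool,
      Run F fr x S (cfg F fr (.at, fr 0, some p, none) ip W (fr 0) 0 out)
        (cfg F fr (.at, fr 0, some p', none) ip W' (fr 0) 0 (out ++ u)) := by
  have hb : ∀ (q : St F.P R) (W : Fin R → List Bool) (r : Fin R) (out : List Bool),
      Bnd F fr x S (cfg F fr q ip W r 0 out) := fun q W r out =>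
    bnd_cfg hi1 hi2 (by omega) (by omega)
  have hkr : ∀ (k : Fin R) (r : ℕ) (h : r < R), k ≠ fr r → (k : ℕ) ≠ r := by
    intro k r h hk hkr
    apply hk
    rw [hfr r h]
    exact Fin.ext hkr
  induction h with
  | refl p σ =>
    intro W out _
    refine ⟨W, ?_⟩
    rw [List.append_nil]
    exact .refl _ (hb _ _ _ _)
  | @inc p q p' σ σ' r u hp hr _ ih =>
    intro W out hW
    have hrR : r < R := by have := hF p; rw [hp] at this; exact this
    have hv : valL (W (fr r)) = σ r := by rw [(hW _).1, hfr r hrR]
    obtain ⟨W', hrun⟩ := ih (Function.update W (fr r) (incL (W (fr r)))) out (by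
      intro k
      by_cases hk : k = fr r
      · subst hk
        have h1 : ((fr r : Fin R) : ℕ) = r := by rw [hfr r hrR]
        rw [Function.update_self, valL_incL, hv, h1, Function.update_self]
        exact ⟨rfl, length_incL_le _ (hW _).2 (by rw [hv]; omega)⟩
      · rw [Function.update_of_ne hk, Function.update_of_ne (hkr k r hrR hk)]
        exact hW k)
    refine ⟨W', ?_⟩
    refine .step (hb _ _ _ _) (astep F fr (r' := fr r) (mv := .stay) (ob := none)
      (q' := (.inc, fr r, some q, none)) ?_) ?_
    · intro s
      simp only [delta, hp]
    · have h1 := run_inc (F := F) (fr := fr) (x := x) (S := S) (ip := ip) hi1 hi2 (W := W)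
        (r := fr r) (o := some q) (o' := none) (out := out) (hW _).2 (by rw [hv]; omega)
      rw [cfg_zero F fr (.at, fr 0, some q, none) ip _ (fr r) (fr 0)] at h1
      simpa [Move.toInt] using h1.trans hrun
  | @dec p q p' σ σ' r u hp _ ih =>
    intro W out hW
    have hrR : r < R := by have := hF p; rw [hp] at this; exact this
    have hv : valL (W (fr r)) = σ r := by rw [(hW _).1, hfr r hrR]
    obtain ⟨W', hrun⟩ := ih (Function.update W (fr r)
      (if valL (W (fr r)) = 0 then W (fr r) else decL (W (fr r)))) out (by
      intro k
      by_cases hk : k = fr r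
      · subst hk
        have h1 : ((fr r : Fin R) : ℕ) = r := by rw [hfr r hrR]
        rw [Function.update_self, h1, Function.update_self]
        split_ifs with h0
        · refine ⟨?_, (hW _).2⟩
          rw [hv] at h0 ⊢
          omega
        · refine ⟨?_, ?_⟩
          · rw [valL_decL _ h0, hv]
          · rw [length_decL]; exact (hW _).2
      · rw [Function.update_of_ne hk, Function.update_of_ne (hkr k r hrR hk)]
        exact hW k)
    refine ⟨W', ?_⟩
    refine .step (hb _ _ _ _) (astep F fr (r' := fr r) (mv := .stay) (ob := none)
      (q' := (.dec, fr r, some q, none)) ?_) ?_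
    · intro s
      simp only [delta, hp]
    · have h1 := run_dec (F := F) (fr := fr) (x := x) (S := S) (ip := ip) hi1 hi2 (W := W)
        (r := fr r) (o := some q) (o' := none) (out := out) (hW _).2
      rw [cfg_zero F fr (.at, fr 0, some q, none) ip _ (fr r) (fr 0)] at h1
      simpa [Move.toInt] using h1.trans hrun
  | @jzZ p q q' p' σ σ' r u hp hr _ ih =>
    intro W out hW
    have hrR : r < R := by have := hF p; rw [hp] at this; exact this
    have hv : valL (W (fr r)) = σ r := by rw [(hW _).1, hfr r hrR]
    obtain ⟨W', hrun⟩ := ih W out hW
    refine ⟨W', ?_⟩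
    refine .step (hb _ _ _ _) (astep F fr (r' := fr r) (mv := .stay) (ob := none)
      (q' := (.jz, fr r, some q, some q')) ?_) ?_
    · intro s
      simp only [delta, hp]
    · have h1 := run_jz (F := F) (fr := fr) (x := x) (S := S) (ip := ip) hi1 hi2 (W := W)
        (r := fr r) (o := some q) (o' := some q') (out := out) (hW _).2
      rw [if_pos (by rw [hv, hr]), cfg_zero F fr (.at, fr 0, some q, none) ip _ (fr r) (fr 0)]
        at h1
      simpa [Move.toInt] using h1.trans hrun
  | @jzS p q q' p' σ σ' r u hp hr _ ih =>
    intro W out hW
    have hrR : r < R := by have := hF p; rw [hp] at this; exact this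
    have hv : valL (W (fr r)) = σ r := by rw [(hW _).1, hfr r hrR]
    obtain ⟨W', hrun⟩ := ih W out hW
    refine ⟨W', ?_⟩
    refine .step (hb _ _ _ _) (astep F fr (r' := fr r) (mv := .stay) (ob := none)
      (q' := (.jz, fr r, some q, some q')) ?_) ?_
    · intro s
      simp only [delta, hp]
    · have h1 := run_jz (F := F) (fr := fr) (x := x) (S := S) (ip := ip) hi1 hi2 (W := W)
        (r := fr r) (o := some q) (o' := some q') (out := out) (hW _).2
      rw [if_neg (by rw [hv]; exact hr),
        cfg_zero F fr (.at, fr 0, some q', none) ip _ (fr r) (fr 0)] at h1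
      simpa [Move.toInt] using h1.trans hrun
  | @out p q p' σ σ' b u hp _ ih =>
    intro W out hW
    obtain ⟨W', hrun⟩ := ih W (out ++ [b]) hW
    refine ⟨W', ?_⟩
    refine .step (hb _ _ _ _) (astep F fr (r' := fr 0) (mv := .stay) (ob := some b)
      (q' := (.at, fr 0, some q, none)) ?_) ?_
    · intro s
      simp only [delta, hp]
    · simpa [Move.toInt] using hrun

/-- the scanning phase -/
theorem scan {S n : ℕ} (hR : 0 < R) (hn : n < 2 ^ S)
    (hfr : ∀ (r : ℕ) (h : r < R), fr r = ⟨r, h⟩) :
    ∀ i ≤ n, ∃ W : Fin R → List Bool, Rep S W (Function.update (fun _ => 0) 0 i) ∧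
      Run F fr (List.replicate n true) S (machine F fr).init
        (cfg F fr (.at, fr 0, none, none) i W (fr 0) 0 []) := by
  intro i hi
  have hlen : ((List.replicate n true).length : ℤ) = n := by simp
  induction i with
  | zero =>
    refine ⟨fun _ => [], ?_, ?_⟩
    · intro k
      refine ⟨?_, by simp⟩
      by_cases hk : (k : ℕ) = 0
      · rw [hk, Function.update_self]; rfl
      · rw [Function.update_of_ne hk]; rfl
    · have : (machine F fr).init = cfg F fr (.at, fr 0, none, none) ((0 : ℕ) : ℤ)
          (fun _ => []) (fr 0) 0 [] := by
        refine cfg_ext F fr rfl rfl ?_ ?_ rfl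
        · intro (k : Fin R)
          show (0 : ℤ) = if k = fr 0 then 0 else 0
          simp
        · intro (k : Fin R)
          show (fun _ => none) = inp []
          funext z
          simp [inp]
      rw [this]
      exact .refl _ (bnd_cfg (by simp) (by simp) (by omega) (by omega))
  | succ i ih =>
    obtain ⟨W, hW, hrun⟩ := ih (by omega)
    have h0 : ((fr 0 : Fin R) : ℕ) = 0 := by rw [hfr 0 hR]
    have hv : valL (W (fr 0)) = i := by
      rw [(hW _).1, h0, Function.update_self]
    refine ⟨Function.update W (fr 0) (incL (W (fr 0))), ?_, ?_⟩
    · intro k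
      by_cases hk : k = fr 0
      · subst hk
        rw [Function.update_self, valL_incL, hv, h0, Function.update_self]
        exact ⟨rfl, length_incL_le _ (hW _).2 (by rw [hv]; omega)⟩
      · have hk0 : (k : ℕ) ≠ 0 := by
          intro h; apply hk; rw [hfr 0 hR]; exact Fin.ext h
        rw [Function.update_of_ne hk, Function.update_of_ne hk0]
        have := hW k
        rwa [Function.update_of_ne hk0] at this
    · refine hrun.trans (.step (bnd_cfg (by omega) (by omega) (by omega) (by omega))
        (astep F fr (r' := fr 0) (mv := .right) (ob := none)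
        (q' := (.inc, fr 0, none, none)) ?_) ?_)
      · intro s
        have : inp (List.replicate n true) (i : ℤ) = some true := by
          have : i < n := by omega
          simp [inp, this]
        simp only [delta, this]
      · have h1 := run_inc (F := F) (fr := fr) (x := List.replicate n true) (S := S)
          (ip := ((i + 1 : ℕ) : ℤ)) (by omega) (by omega) (W := W)
          (r := fr 0) (o := none) (o' := none) (out := []) (hW _).2 (by rw [hv]; omega)
        simpa [Move.toInt] using h1

end

end FlowTM

open FlowTM in
/-- A flow chart that, started with `n` in counter `0` and `0` in all others, prints `w n` and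
halts, its counters being bounded by `(n + 2) ^ c`, is simulated by a transducer with
logarithmic work space that prints `w n` on input `1 ^ n`.
Hint: one work tape per counter `r < R` (`K = Fin R`, `Γ = Bool`); counter `r` is written in
binary, least significant bit first, in the cells `0, 1, …` of tape `r` (leading zeros allowed,
cell `-1` stays blank and serves as left mark; at rest all work heads are on cell `0`).
Phase 1: scan the input from left to right, incrementing tape `0` for every input symbol.
Phase 2: simulate the instructions. Increment: move right over the ones changing them to zeros,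
write a one, go back. Decrement: look for a one first (if there is none the counter is zero and
stays), etc. The length of the binary word on a tape never exceeds `log₂ (max counter) + 1`. -/
theorem Flow.toTransducer (F : Flow) {R : ℕ} (hR : 0 < R) (hF : ∀ p, (F.instr p).Below R)
    (c : ℕ) (w : ℕ → List Bool)
    (h : ∀ n : ℕ, ∃ (fin : F.P) (σ' : ℕ → ℕ), F.instr fin = .halt ∧
      F.Steps ((n + 2) ^ c) F.start (Function.update (fun _ => 0) 0 n) fin σ' (w n)) :
    ∃ (M : Transducer) (c' : ℕ), ∀ n : ℕ,
      M.Outputs (List.replicate n true) (w n) ∧
        M.SpaceBound (List.replicate n true) (c' * (Nat.log 2 n + 1)) := by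
  let fr : ℕ → Fin R := fun r => if h : r < R then ⟨r, h⟩ else ⟨0, hR⟩
  have hfr : ∀ (r : ℕ) (h : r < R), fr r = ⟨r, h⟩ := fun r h => dif_pos h
  refine ⟨machine F fr, 3 * (c + 1), fun n => ?_⟩
  obtain ⟨fin, σ', hfin, hsteps⟩ := h n
  set S : ℕ := (Nat.log 2 n + 3) * (c + 1) with hS
  have hn2 : n + 2 < 2 ^ (Nat.log 2 n + 3) := by
    have h1 : n < 2 ^ (Nat.log 2 n + 1) := Nat.lt_pow_succ_log_self (by norm_num) n
    have h2 : 2 ^ (Nat.log 2 n + 3) = 4 * 2 ^ (Nat.log 2 n + 1) := by
      rw [pow_succ, pow_succ]; ring
    have h3 : 1 ≤ 2 ^ (Nat.log 2 n) := Nat.one_le_two_pow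
    have h4 : 2 ^ (Nat.log 2 n + 1) = 2 * 2 ^ (Nat.log 2 n) := by rw [pow_succ]; ring
    omega
  have hB : (n + 2) ^ (c + 1) < 2 ^ S := by
    rw [hS, pow_mul]
    exact Nat.pow_lt_pow_left hn2 (by omega)
  have hB1 : (n + 2) ^ c < 2 ^ S :=
    lt_of_le_of_lt (Nat.pow_le_pow_right (by omega) (by omega)) hB
  have hn : n < 2 ^ S := by
    have h1 : n + 2 ≤ (n + 2) ^ (c + 1) := Nat.le_self_pow (by omega) _
    omega
  obtain ⟨W, hW, hrun1⟩ := scan (F := F) (fr := fr) hR hn hfr n le_rfl
  have hlen : ((List.replicate n true).length : ℤ) = n := by simp
  obtain ⟨W', hrun3⟩ := sim (F := F) (fr := fr) (x := List.replicate n true) (S := S)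
    (ip := (n : ℤ)) (by omega) (by omega) hB1 hF hfr hsteps W [] hW
  have hrun2 : Run F fr (List.replicate n true) S
      (cfg F fr (.at, fr 0, none, none) n W (fr 0) 0 [])
      (cfg F fr (.at, fr 0, some F.start, none) n W (fr 0) 0 []) := by
    refine .step (bnd_cfg (by omega) (by omega) (by omega) (by omega))
      (c' := cfg F fr (.at, fr 0, some F.start, none) n W (fr 0) 0 []) ?_
      (.refl _ (bnd_cfg (by omega) (by omega) (by omega) (by omega)))
    have := astep F fr (x := List.replicate n true) (q := (.at, fr 0, none, none))
      (q' := (.at, fr 0, some F.start, none)) (ip := (n : ℤ)) (W := W) (r := fr 0) (r' := fr 0)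
      (out := []) (mv := .stay) (ob := none) (fun s => by
        have h1 : Transducer.inp (List.replicate n true) (n : ℤ) = none := by
          simp [Transducer.inp]
        simp only [delta, h1])
    simpa [Move.toInt] using this
  obtain ⟨N, h1, h2⟩ := (hrun1.trans (hrun2.trans hrun3)).iterate
  have hhalt : (machine F fr).step (List.replicate n true)
      (cfg F fr (.at, fr 0, some fin, none) n W' (fr 0) 0 ([] ++ w n)) = none := by
    unfold Transducer.step
    have h3 : ∀ (a : Option Bool) (s : Fin R → Option Bool),
        delta F fr (.at, fr 0, some fin, none) a s = none := by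
      intro a s
      simp only [delta, hfin]
    exact congrArg (Option.map _) (h3 (Transducer.inp (List.replicate n true) n) _)
  refine ⟨⟨N, ?_, ?_⟩, ?_⟩
  · unfold Transducer.conf
    rw [h1]
    exact hhalt
  · unfold Transducer.conf
    rw [h1]
    show [] ++ w n = w n
    simp
  · have hS' : S ≤ 3 * (c + 1) * (Nat.log 2 n + 1) := by
      rw [hS]; nlinarith [Nat.zero_le (Nat.log 2 n * (c + 1)), Nat.zero_le (Nat.log 2 n)]
    have hS1 : 1 ≤ S := by
      rw [hS]; exact Nat.succ_le_of_lt (by positivity)
    have hb : ∀ m, Bnd F fr (List.replicate n true) S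
        ((machine F fr).conf (List.replicate n true) m) := by
      intro m
      rcases le_total m N with hm | hm
      · exact h2 m hm
      · have h3 : (machine F fr).conf (List.replicate n true) m =
            (machine F fr).conf (List.replicate n true) N := by
          have h4 : ∀ d, (fun c => ((machine F fr).step (List.replicate n true) c).getD c)^[d]
              (cfg F fr (.at, fr 0, some fin, none) n W' (fr 0) 0 ([] ++ w n)) =
              cfg F fr (.at, fr 0, some fin, none) n W' (fr 0) 0 ([] ++ w n) := by
            intro d
            induction d with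
            | zero => rfl
            | succ d ih =>
              rw [Function.iterate_succ_apply, hhalt]
              exact ih
          obtain ⟨d, rfl⟩ := Nat.exists_eq_add_of_le hm
          unfold Transducer.conf
          rw [Nat.add_comm, Function.iterate_add_apply, h1]
          exact h4 d
        rw [h3]
        exact h2 N le_rfl
    intro m
    obtain ⟨h3, h4⟩ := hb m
    refine ⟨h3, fun k => ?_⟩
    have h5 := h4 k
    have h6 : (S : ℤ) ≤ ((3 * (c + 1) * (Nat.log 2 n + 1) : ℕ) : ℤ) := by exact_mod_cast hS'
    rw [abs_le]
    constructor <;> omega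

end Pool.Agent.H79.Upm
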