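import Mathlib

/-!
# Geometric series of matrices
-/

namespace Pool.Agent.H79.Upm

/-- Geometric series with `2 ^ L` terms. -/
noncomputable def geoV {V : Type} [Fintype V] [DecidableEq V] (L : ℕ)
    (M : Matrix V V (PowerSeries ℤ)) : Matrix V V (PowerSeries ℤ) :=
  ∑ i ∈ Finset.range (2 ^ L), M ^ i

end Pool.Agent.H79.Upm
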