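import Mathlib

/-!
# Number functions computable in linear space

`LS f`: closure of the basic functions under composition and polynomially bounded recursion
(in unary form, with Cantor pairing `Nat.pair`). All values stay polynomial, and a
counter machine can compute them with polynomially bounded counters.
-/

namespace Pool.Agent.H79.Upm

/-- The number functions obtained from the identity, zero, successor, projections and pairing
by composition and by polynomially bounded recursion. -/
inductive LS : (ℕ → ℕ) → Prop
  | id : LS (fun n => n)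
  | zero : LS (fun _ => 0)
  | succ {f : ℕ → ℕ} : LS f → LS (fun n => f n + 1)
  | fst {f : ℕ → ℕ} : LS f → LS (fun n => (f n).unpair.1)
  | snd {f : ℕ → ℕ} : LS f → LS (fun n => (f n).unpair.2)
  | pair {f g : ℕ → ℕ} : LS f → LS g → LS (fun n => Nat.pair (f n) (g n))
  | comp {f g : ℕ → ℕ} : LS f → LS g → LS (fun n => f (g n))
  | prec {f g : ℕ → ℕ} {c : ℕ} : LS f → LS g →
      (∀ a n : ℕ, (Nat.rec (f a) (fun y r => g (Nat.pair a (Nat.pair y r))) n : ℕ) ≤
        (a + n + 2) ^ c) →
      LS (fun z => Nat.rec (f z.unpair.1)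
        (fun y r => g (Nat.pair z.unpair.1 (Nat.pair y r))) z.unpair.2)

/-- Polynomially bounded. -/
def PolyBd (f : ℕ → ℕ) : Prop := ∃ c : ℕ, ∀ n, f n ≤ (n + 2) ^ c

/-- Polylogarithmically bounded. -/
def PolyLog (f : ℕ → ℕ) : Prop := ∃ c : ℕ, ∀ n, f n ≤ (Nat.log 2 (n + 2) + 1) ^ c

end Pool.Agent.H79.Upm
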