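import Pool.Agent.H79.Upm.LS

/-!
# Library of linear space functions: arithmetic
-/

namespace Pool.Agent.H79.Upm

private theorem pb_mono {n c d : ℕ} (h : c ≤ d) : (n + 2) ^ c ≤ (n + 2) ^ d :=
  Nat.pow_le_pow_right (by omega) h

/-- Hint: induction on `LS f`; `Nat.pair a b < (max a b + 1) ^ 2`, `Nat.unpair_left_le`,
`Nat.unpair_right_le`. -/
theorem LS.polyBd {f : ℕ → ℕ} (hf : LS f) : PolyBd f := by
  induction hf with
  | id => exact ⟨1, fun n => by simp⟩
  | zero => exact ⟨0, fun n => by simp⟩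
  | succ _ ih =>
    obtain ⟨c, hc⟩ := ih
    refine ⟨c + 1, fun n => ?_⟩
    have h1 := hc n
    have h2 : 1 ≤ (n + 2) ^ c := Nat.one_le_pow _ _ (by omega)
    rw [pow_succ]
    nlinarith
  | fst _ ih =>
    obtain ⟨c, hc⟩ := ih
    exact ⟨c, fun n => (Nat.unpair_left_le _).trans (hc n)⟩
  | snd _ ih =>
    obtain ⟨c, hc⟩ := ih
    exact ⟨c, fun n => (Nat.unpair_right_le _).trans (hc n)⟩
  | @pair f g _ _ ih1 ih2 =>
    obtain ⟨c, hc⟩ := ih1
    obtain ⟨d, hd⟩ := ih2
    refine ⟨(max c d + 1) * 2, fun n => ?_⟩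
    have h1 : f n ≤ (n + 2) ^ max c d := (hc n).trans (pb_mono (le_max_left _ _))
    have h2 : g n ≤ (n + 2) ^ max c d := (hd n).trans (pb_mono (le_max_right _ _))
    have h3 : Max.max (f n) (g n) ≤ (n + 2) ^ max c d := max_le h1 h2
    have h4 : 1 ≤ (n + 2) ^ max c d := Nat.one_le_pow _ _ (by omega)
    have h5 : Max.max (f n) (g n) + 1 ≤ (n + 2) ^ (max c d + 1) := by
      rw [pow_succ]
      nlinarith
    calc Nat.pair (f n) (g n) ≤ (Max.max (f n) (g n) + 1) ^ 2 :=
          (Nat.pair_lt_max_add_one_sq _ _).le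
      _ ≤ ((n + 2) ^ (max c d + 1)) ^ 2 := Nat.pow_le_pow_left h5 2
      _ = (n + 2) ^ ((max c d + 1) * 2) := by rw [← pow_mul]
  | @comp f g _ _ ih1 ih2 =>
    obtain ⟨c, hc⟩ := ih1
    obtain ⟨d, hd⟩ := ih2
    refine ⟨(d + 2) * c, fun n => ?_⟩
    have h1 := hd n
    have h4 : 1 ≤ (n + 2) ^ d := Nat.one_le_pow _ _ (by omega)
    have h5 : g n + 2 ≤ (n + 2) ^ (d + 2) := by
      rw [pow_add]
      have h6 : 4 ≤ (n + 2) ^ 2 := by
        rw [pow_two]
        exact Nat.mul_le_mul (show 2 ≤ n + 2 by omega) (show 2 ≤ n + 2 by omega)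
      nlinarith
    calc f (g n) ≤ (g n + 2) ^ c := hc _
      _ ≤ ((n + 2) ^ (d + 2)) ^ c := Nat.pow_le_pow_left h5 c
      _ = (n + 2) ^ ((d + 2) * c) := by rw [← pow_mul]
  | @prec f g c _ _ hb _ _ =>
    refine ⟨2 * c, fun z => ?_⟩
    refine (hb z.unpair.1 z.unpair.2).trans ?_
    have h1 := Nat.unpair_left_le z
    have h2 := Nat.unpair_right_le z
    rw [pow_mul]
    refine Nat.pow_le_pow_left ?_ c
    nlinarith

namespace LS

variable {f g h : ℕ → ℕ}

theorem const (c : ℕ) : LS (fun _ => c) := by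
  induction c with
  | zero => exact LS.zero
  | succ c ih => exact LS.succ ih

/-- Composition with the two argument form of `prec`. -/
private theorem prec2 {f g h : ℕ → ℕ} {c : ℕ} (hf : LS f) (hg : LS g)
    (hb : ∀ a n : ℕ, (Nat.rec (f a) (fun y r => g (Nat.pair a (Nat.pair y r))) n : ℕ) ≤
      (a + n + 2) ^ c) {u : ℕ → ℕ} (hu : LS u) (hh : LS h) :
    LS (fun n => Nat.rec (f (u n)) (fun y r => g (Nat.pair (u n) (Nat.pair y r))) (h n)) := by
  have h1 := LS.comp (LS.prec hf hg hb) (LS.pair hu hh)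
  simpa using h1

theorem ifz {c : ℕ → ℕ} (hc : LS c) (hf : LS f) (hg : LS g) :
    LS (fun n => if c n = 0 then f n else g n) := by
  obtain ⟨e, he⟩ := hf.polyBd
  obtain ⟨d, hd⟩ := hg.polyBd
  have hb : ∀ a n : ℕ, (Nat.rec (f a) (fun y r =>
      (fun w : ℕ => g w.unpair.1) (Nat.pair a (Nat.pair y r))) n : ℕ) ≤ (a + n + 2) ^ max e d := by
    intro a n
    have h3 : (a + 2) ^ max e d ≤ (a + n + 2) ^ max e d := Nat.pow_le_pow_left (by omega) _
    cases n with
    | zero => exact (he a).trans ((pb_mono (le_max_left _ _)).trans h3)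
    | succ n =>
      have h4 : g a ≤ (a + (n + 1) + 2) ^ max e d :=
        (hd a).trans ((pb_mono (le_max_right _ _)).trans h3)
      simpa using h4
  have h1 := prec2 hf (LS.comp hg (LS.fst LS.id)) hb LS.id hc
  have h2 : (fun n => if c n = 0 then f n else g n) = fun n => (Nat.rec (f n) (fun y r =>
      (fun w : ℕ => g w.unpair.1) (Nat.pair n (Nat.pair y r))) (c n) : ℕ) := by
    funext n
    cases h : c n with
    | zero => simp
    | succ m => simp
  rw [h2]
  exact h1

private theorem pred (hf : LS f) : LS (fun n => f n - 1) := by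
  have hb : ∀ a n : ℕ, (Nat.rec ((fun _ : ℕ => 0) a) (fun y r =>
      (fun w : ℕ => w.unpair.2.unpair.1) (Nat.pair a (Nat.pair y r))) n : ℕ) ≤
        (a + n + 2) ^ 1 := by
    intro a n
    cases n with
    | zero => simp
    | succ n =>
      simp
      omega
  have h1 := prec2 LS.zero (LS.fst (LS.snd LS.id)) hb LS.id hf
  have h2 : (fun n => f n - 1) = fun n => (Nat.rec ((fun _ : ℕ => 0) n) (fun y r =>
      (fun w : ℕ => w.unpair.2.unpair.1) (Nat.pair n (Nat.pair y r))) (f n) : ℕ) := by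
    funext n
    cases h : f n with
    | zero => simp
    | succ m => simp
  rw [h2]
  exact h1

theorem sub (hf : LS f) (hg : LS g) : LS (fun n => f n - g n) := by
  have hrec : ∀ a n : ℕ, (Nat.rec ((fun a : ℕ => a) a) (fun y r =>
      (fun w : ℕ => w.unpair.2.unpair.2 - 1) (Nat.pair a (Nat.pair y r))) n : ℕ) = a - n := by
    intro a n
    induction n with
    | zero => simp
    | succ n ih =>
      simp only [Nat.unpair_pair] at ih ⊢
      rw [ih]
      omega
  have hb : ∀ a n : ℕ, (Nat.rec ((fun a : ℕ => a) a) (fun y r =>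
      (fun w : ℕ => w.unpair.2.unpair.2 - 1) (Nat.pair a (Nat.pair y r))) n : ℕ) ≤
        (a + n + 2) ^ 1 := by
    intro a n
    rw [hrec, pow_one]
    omega
  have h1 := prec2 LS.id (pred (LS.snd (LS.snd LS.id))) hb hf hg
  have h2 : (fun n => f n - g n) = fun n => (Nat.rec ((fun a : ℕ => a) (f n)) (fun y r =>
      (fun w : ℕ => w.unpair.2.unpair.2 - 1) (Nat.pair (f n) (Nat.pair y r))) (g n) : ℕ) := by
    funext n
    rw [hrec]
  rw [h2]
  exact h1

theorem add (hf : LS f) (hg : LS g) : LS (fun n => f n + g n) := by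
  have hrec : ∀ a n : ℕ, (Nat.rec ((fun a : ℕ => a) a) (fun y r =>
      (fun w : ℕ => w.unpair.2.unpair.2 + 1) (Nat.pair a (Nat.pair y r))) n : ℕ) = a + n := by
    intro a n
    induction n with
    | zero => simp
    | succ n ih =>
      simp only [Nat.unpair_pair] at ih ⊢
      rw [ih]
      omega
  have hb : ∀ a n : ℕ, (Nat.rec ((fun a : ℕ => a) a) (fun y r =>
      (fun w : ℕ => w.unpair.2.unpair.2 + 1) (Nat.pair a (Nat.pair y r))) n : ℕ) ≤
        (a + n + 2) ^ 1 := by
    intro a n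
    rw [hrec, pow_one]
    omega
  have h1 := prec2 LS.id (LS.succ (LS.snd (LS.snd LS.id))) hb hf hg
  have h2 : (fun n => f n + g n) = fun n => (Nat.rec ((fun a : ℕ => a) (f n)) (fun y r =>
      (fun w : ℕ => w.unpair.2.unpair.2 + 1) (Nat.pair (f n) (Nat.pair y r))) (g n) : ℕ) := by
    funext n
    rw [hrec]
  rw [h2]
  exact h1

/-- Bounded recursion with parameters, from `LS.prec` (to meet its hypothesis for all `n`, use
the recursion step `fun z => if (the step number) < h x then g … else (previous value)`, or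
any other cut-off; cut-offs can be made with recursion only). -/
theorem rec' {c : ℕ} (hf : LS f) (hg : LS g) (hh : LS h)
    (hb : ∀ x k : ℕ, k ≤ h x →
      (Nat.rec (f x) (fun y r => g (Nat.pair x (Nat.pair y r))) k : ℕ) ≤ (x + 2) ^ c) :
    LS (fun x => Nat.rec (f x) (fun y r => g (Nat.pair x (Nat.pair y r))) (h x)) := by
  have hg' : LS (fun w => if h w.unpair.1 - w.unpair.2.unpair.1 = 0 then w.unpair.2.unpair.2
      else g w) :=
    ifz (sub (LS.comp hh (LS.fst LS.id)) (LS.fst (LS.snd LS.id))) (LS.snd (LS.snd LS.id)) hg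
  have hrec : ∀ x n : ℕ, (Nat.rec (f x) (fun y r =>
      (fun w : ℕ => if h w.unpair.1 - w.unpair.2.unpair.1 = 0 then w.unpair.2.unpair.2
        else g w) (Nat.pair x (Nat.pair y r))) n : ℕ) =
      (Nat.rec (f x) (fun y r => g (Nat.pair x (Nat.pair y r))) (min n (h x)) : ℕ) := by
    intro x n
    induction n with
    | zero => simp
    | succ n ih =>
      by_cases h1 : h x ≤ n
      · rw [min_eq_right h1] at ih
        rw [min_eq_right (by omega : h x ≤ n + 1)]
        simp only [Nat.unpair_pair] at ih ⊢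
        rw [if_pos (by omega), ih]
      · rw [min_eq_left (by omega : n ≤ h x)] at ih
        rw [min_eq_left (by omega : n + 1 ≤ h x)]
        simp only [Nat.unpair_pair] at ih ⊢
        rw [if_neg (by omega), ih]
  have hb' : ∀ x n : ℕ, (Nat.rec (f x) (fun y r =>
      (fun w : ℕ => if h w.unpair.1 - w.unpair.2.unpair.1 = 0 then w.unpair.2.unpair.2
        else g w) (Nat.pair x (Nat.pair y r))) n : ℕ) ≤ (x + n + 2) ^ c := by
    intro x n
    rw [hrec]
    exact (hb x _ (min_le_right _ _)).trans (Nat.pow_le_pow_left (by omega) c)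
  have h1 := prec2 hf hg' hb' LS.id hh
  have h2 : (fun x => (Nat.rec (f x) (fun y r => g (Nat.pair x (Nat.pair y r))) (h x) : ℕ)) =
      fun x => (Nat.rec (f x) (fun y r =>
      (fun w : ℕ => if h w.unpair.1 - w.unpair.2.unpair.1 = 0 then w.unpair.2.unpair.2
        else g w) (Nat.pair x (Nat.pair y r))) (h x) : ℕ) := by
    funext x
    rw [hrec, min_self]
  rw [h2]
  exact h1

theorem mul (hf : LS f) (hg : LS g) : LS (fun n => f n * g n) := by
  obtain ⟨e, he⟩ := hf.polyBd
  obtain ⟨d, hd⟩ := hg.polyBd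
  have hrec : ∀ x k : ℕ, (Nat.rec ((fun _ : ℕ => 0) x) (fun y r =>
      (fun w : ℕ => w.unpair.2.unpair.2 + f w.unpair.1) (Nat.pair x (Nat.pair y r))) k : ℕ) =
        f x * k := by
    intro x k
    induction k with
    | zero => simp
    | succ n ih =>
      simp only [Nat.unpair_pair] at ih ⊢
      rw [ih]
      ring
  have h1 := rec' (c := e + d) LS.zero (add (LS.snd (LS.snd LS.id)) (LS.comp hf (LS.fst LS.id)))
    hg (by
      intro x k hk
      have h2 := hrec x k
      rw [h2, pow_add]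
      exact Nat.mul_le_mul (he x) (hk.trans (hd x)))
  have h2 : (fun n => f n * g n) = fun n => (Nat.rec ((fun _ : ℕ => 0) n) (fun y r =>
      (fun w : ℕ => w.unpair.2.unpair.2 + f w.unpair.1) (Nat.pair n (Nat.pair y r)))
        (g n) : ℕ) := by
    funext n
    rw [hrec]
  rw [h2]
  exact h1

theorem pow (hf : LS f) (c : ℕ) : LS (fun n => f n ^ c) := by
  induction c with
  | zero => simpa using const 1
  | succ c ih =>
    simp only [pow_succ]
    exact mul ih hf

end LS

end Pool.Agent.H79.Upm
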