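import Pool.Agent.H79.Upm.LSArith

/-!
# Library of linear space functions: predicates, division, logarithm, square root
-/

namespace Pool.Agent.H79.Upm

theorem LS.congr {f g : ℕ → ℕ} (hf : LS f) (h : ∀ n, g n = f n) : LS g := by
  have : g = f := funext h
  rwa [this]

/-- Decidable predicates whose characteristic function is in `LS`. -/
def LSP (P : ℕ → Prop) [DecidablePred P] : Prop := LS (fun n => if P n then 1 else 0)

namespace LSP

variable {f g : ℕ → ℕ} {P Q : ℕ → Prop} [DecidablePred P] [DecidablePred Q]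

theorem ite (hP : LSP P) (hf : LS f) (hg : LS g) : LS (fun n => if P n then f n else g n) := by
  refine (LS.ifz hP hg hf).congr fun n => ?_
  by_cases h : P n
  · simp [h]
  · simp [h]

theorem lt (hf : LS f) (hg : LS g) : LSP (fun n => f n < g n) := by
  refine (LS.ifz (hg.sub hf) (LS.const 0) (LS.const 1)).congr fun n => ?_
  by_cases h : f n < g n
  · rw [if_pos h, if_neg (by omega)]
  · rw [if_neg h, if_pos (by omega)]

theorem le (hf : LS f) (hg : LS g) : LSP (fun n => f n ≤ g n) := by
  refine (LS.ifz (hf.sub hg) (LS.const 1) (LS.const 0)).congr fun n => ?_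
  by_cases h : f n ≤ g n
  · rw [if_pos h, if_pos (by omega)]
  · rw [if_neg h, if_neg (by omega)]

theorem eq (hf : LS f) (hg : LS g) : LSP (fun n => f n = g n) := by
  refine (LS.ifz ((hf.sub hg).add (hg.sub hf)) (LS.const 1) (LS.const 0)).congr fun n => ?_
  by_cases h : f n = g n
  · rw [if_pos h, if_pos (by omega)]
  · rw [if_neg h, if_neg (by omega)]

theorem not (hP : LSP P) : LSP (fun n => ¬ P n) := by
  refine (LSP.ite hP (LS.const 0) (LS.const 1)).congr fun n => ?_
  by_cases h : P n
  · simp [h]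
  · simp [h]

theorem and (hP : LSP P) (hQ : LSP Q) : LSP (fun n => P n ∧ Q n) := by
  refine (LSP.ite hP hQ (LS.const 0)).congr fun n => ?_
  by_cases h : P n
  · simp [h]
  · simp [h]

theorem or (hP : LSP P) (hQ : LSP Q) : LSP (fun n => P n ∨ Q n) := by
  refine (LSP.ite hP (LS.const 1) hQ).congr fun n => ?_
  by_cases h : P n
  · simp [h]
  · simp [h]

theorem comp (hP : LSP P) (hf : LS f) : LSP (fun n => P (f n)) :=
  LS.comp (f := fun n => if P n then 1 else 0) hP hf

end LSP

namespace LS

variable {f g h : ℕ → ℕ}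

theorem max (hf : LS f) (hg : LS g) : LS (fun n => Max.max (f n) (g n)) :=
  (LSP.ite (LSP.le hf hg) hg hf).congr fun _ => max_def _ _

/-- the step of the recursion for the division -/
def divStep (z : ℕ) : ℕ :=
  if z.unpair.1.unpair.2 = 0 then 0
  else if (z.unpair.2.unpair.2 + 1) * z.unpair.1.unpair.2 ≤ z.unpair.1.unpair.1 then
    z.unpair.2.unpair.2 + 1 else z.unpair.2.unpair.2

theorem divStep_ls : LS divStep := by
  have hr : LS (fun z => z.unpair.2.unpair.2) := (LS.id.snd).snd
  have ha : LS (fun z => z.unpair.1.unpair.1) := (LS.id.fst).fst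
  have hb : LS (fun z => z.unpair.1.unpair.2) := (LS.id.fst).snd
  exact LS.ifz hb (LS.const 0) (LSP.ite (LSP.le (hr.succ.mul hb) ha) hr.succ hr)

theorem divStep_apply (x y r : ℕ) : divStep (Nat.pair x (Nat.pair y r)) =
    if x.unpair.2 = 0 then 0 else if (r + 1) * x.unpair.2 ≤ x.unpair.1 then r + 1 else r := by
  unfold divStep
  simp only [Nat.unpair_pair]

theorem divRec (x k : ℕ) :
    (Nat.rec 0 (fun y r => divStep (Nat.pair x (Nat.pair y r))) k : ℕ) =
      min k (x.unpair.1 / x.unpair.2) := by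
  induction k with
  | zero => simp
  | succ k ih =>
    show divStep (Nat.pair x (Nat.pair k (Nat.rec 0 (fun y r => divStep
      (Nat.pair x (Nat.pair y r))) k : ℕ))) = _
    rw [ih, divStep_apply]
    by_cases hb : x.unpair.2 = 0
    · rw [if_pos hb, hb, Nat.div_zero]
      simp
    · rw [if_neg hb]
      have h1 := Nat.le_div_iff_mul_le (x := min k (x.unpair.1 / x.unpair.2) + 1)
        (y := x.unpair.1) (Nat.pos_of_ne_zero hb)
      split_ifs with h2
      · have h3 := h1.2 h2
        omega
      · have h3 : ¬ (min k (x.unpair.1 / x.unpair.2) + 1 ≤ x.unpair.1 / x.unpair.2) :=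
          fun h => h2 (h1.1 h)
        omega

theorem div2 : LS (fun x => x.unpair.1 / x.unpair.2) := by
  have h := LS.rec' (f := fun _ => 0) (g := divStep) (h := fun x => x.unpair.1) (c := 1)
    (LS.const 0) divStep_ls LS.id.fst (by
      intro x k hk
      rw [divRec]
      have := Nat.unpair_left_le x
      rw [pow_one]
      omega)
  refine h.congr fun x => ?_
  rw [divRec]
  exact (min_eq_right (Nat.div_le_self _ _)).symm

theorem div (hf : LS f) (hg : LS g) : LS (fun n => f n / g n) := by
  refine (LS.comp div2 (hf.pair hg)).congr fun n => ?_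
  simp only [Nat.unpair_pair]

theorem mod (hf : LS f) (hg : LS g) : LS (fun n => f n % g n) := by
  refine (hf.sub (hg.mul (hf.div hg))).congr fun n => ?_
  exact Nat.mod_eq_sub_mul_div

/-- the step of the recursion for the logarithm -/
def logStep (z : ℕ) : ℕ :=
  if z.unpair.2.unpair.2.unpair.2 < 2 then z.unpair.2.unpair.2
  else Nat.pair (z.unpair.2.unpair.2.unpair.1 + 1) (z.unpair.2.unpair.2.unpair.2 / 2)

theorem logStep_ls : LS logStep := by
  have hr : LS (fun z => z.unpair.2.unpair.2) := (LS.id.snd).snd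
  exact LSP.ite (LSP.lt hr.snd (LS.const 2)) hr (hr.fst.succ.pair (hr.snd.div (LS.const 2)))

theorem logStep_apply (x y r : ℕ) : logStep (Nat.pair x (Nat.pair y r)) =
    if r.unpair.2 < 2 then r else Nat.pair (r.unpair.1 + 1) (r.unpair.2 / 2) := by
  unfold logStep
  simp only [Nat.unpair_pair]

theorem logRec (x k : ℕ) : ∃ c v : ℕ,
    (Nat.rec (Nat.pair 0 x) (fun y r => logStep (Nat.pair x (Nat.pair y r))) k : ℕ) =
      Nat.pair c v ∧ c + Nat.log 2 v = Nat.log 2 x ∧ (v < 2 ∨ c = k) ∧ v ≤ x ∧ c ≤ k := by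
  induction k with
  | zero => exact ⟨0, x, rfl, by simp, Or.inr rfl, le_rfl, le_rfl⟩
  | succ k ih =>
    obtain ⟨c, v, h1, h2, h3, h4, h5⟩ := ih
    have h6 : (Nat.rec (Nat.pair 0 x) (fun y r => logStep (Nat.pair x (Nat.pair y r)))
        (k + 1) : ℕ) = if v < 2 then Nat.pair c v else Nat.pair (c + 1) (v / 2) := by
      show logStep (Nat.pair x (Nat.pair k (Nat.rec (Nat.pair 0 x) (fun y r => logStep
        (Nat.pair x (Nat.pair y r))) k : ℕ))) = _
      rw [h1, logStep_apply, Nat.unpair_pair]
    by_cases hv : v < 2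
    · rw [if_pos hv] at h6
      exact ⟨c, v, h6, h2, Or.inl hv, h4, by omega⟩
    · rw [if_neg hv] at h6
      refine ⟨c + 1, v / 2, h6, ?_, Or.inr ?_, by omega, by omega⟩
      · rw [Nat.log_div_base, ← h2]
        have : 0 < Nat.log 2 v := Nat.log_pos (by norm_num) (by omega)
        omega
      · rcases h3 with h3 | h3
        · exact absurd h3 hv
        · rw [h3]

theorem log1 : LS (fun n => Nat.log 2 n) := by
  have h := LS.rec' (f := fun x => Nat.pair 0 x) (g := logStep) (h := fun x => x) (c := 2)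
    ((LS.const 0).pair LS.id) logStep_ls LS.id (by
      intro x k hk
      obtain ⟨c, v, h1, -, -, h4, h5⟩ := logRec x k
      rw [h1]
      have h6 := Nat.pair_lt_max_add_one_sq c v
      refine h6.le.trans ?_
      refine Nat.pow_le_pow_left ?_ 2
      have : Max.max c v ≤ x := max_le (h5.trans hk) h4
      omega)
  refine h.fst.congr fun x => ?_
  obtain ⟨c, v, h1, h2, h3, -, -⟩ := logRec x x
  rw [h1, Nat.unpair_pair]
  show Nat.log 2 x = c
  rcases h3 with h3 | h3
  · rw [← h2, Nat.log_of_lt h3, add_zero]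
  · have h4 : Nat.log 2 x ≤ x := Nat.log_le_self 2 x
    omega

theorem log (hf : LS f) : LS (fun n => Nat.log 2 (f n)) := LS.comp log1 hf

theorem sqrt_eq_max (n : ℕ) : Nat.sqrt n = Max.max n.unpair.1 n.unpair.2 := by
  have h1 := Nat.sqrt_le_add n
  have h2 := Nat.sqrt_le n
  unfold Nat.unpair
  dsimp only
  split_ifs with h
  · exact (max_eq_right (le_of_lt h)).symm
  · refine (max_eq_left ?_).symm
    show n - Nat.sqrt n * Nat.sqrt n - Nat.sqrt n ≤ Nat.sqrt n
    omega

/-- Hint: `Nat.sqrt n` is the maximum of the two components of `n.unpair`. -/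
theorem sqrt (hf : LS f) : LS (fun n => Nat.sqrt (f n)) :=
  (LS.max hf.fst hf.snd).congr fun _ => sqrt_eq_max _

/-- An `LS` function attains on the codes `⟨⟨p, k⟩, i⟩` with `k < K p`, `i < w p` only values
below a suitable `LS` function of `p`. -/
theorem bound_three {K w : ℕ → ℕ} (hf : LS f) (hK : LS K) (hw : LS w) :
    ∃ W, LS W ∧ ∀ p k i, k < K p → i < w p → f (Nat.pair (Nat.pair p k) i) < W p := by
  obtain ⟨c, hc⟩ := hf.polyBd
  refine ⟨fun p => (Nat.pair (Nat.pair p (K p)) (w p) + 1 + 1) ^ c + 1,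
    ((((LS.id.pair hK).pair hw).succ.succ).pow c).succ, ?_⟩
  intro p k i hk hi
  have h1 : Nat.pair (Nat.pair p k) i < Nat.pair (Nat.pair p (K p)) (w p) :=
    (Nat.pair_lt_pair_left i (Nat.pair_lt_pair_right p hk)).trans (Nat.pair_lt_pair_right _ hi)
  refine Nat.lt_succ_of_le ((hc _).trans (Nat.pow_le_pow_left ?_ c))
  omega

end LS

end Pool.Agent.H79.Upm
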