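import Pool.Agent.H79.Upm.LS

/-!
# Polynomial and polylogarithmic bounds
-/

namespace Pool.Agent.H79.Upm

theorem PolyBd.mono {f g : ℕ → ℕ} (hg : PolyBd g) (h : ∀ n, f n ≤ g n) : PolyBd f := by
  obtain ⟨c, hc⟩ := hg
  exact ⟨c, fun n => (h n).trans (hc n)⟩

theorem PolyBd.comp {f g : ℕ → ℕ} (hf : PolyBd f) (hg : PolyBd g) :
    PolyBd (fun n => f (g n)) := by
  obtain ⟨a, ha⟩ := hf
  obtain ⟨b, hb⟩ := hg
  refine ⟨(b + 2) * a, fun n => ?_⟩
  have h1 : g n + 2 ≤ (n + 2) ^ (b + 2) := by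
    have h2 : 1 ≤ (n + 2) ^ b := Nat.one_le_pow _ _ (by omega)
    have h3 : 2 * 2 ≤ (n + 2) * (n + 2) := Nat.mul_le_mul (by omega) (by omega)
    calc g n + 2 ≤ (n + 2) ^ b + 2 := Nat.add_le_add_right (hb n) 2
      _ ≤ (n + 2) ^ b * (2 * 2) := by omega
      _ ≤ (n + 2) ^ b * ((n + 2) * (n + 2)) := Nat.mul_le_mul_left _ h3
      _ = (n + 2) ^ (b + 2) := by ring
  calc f (g n) ≤ (g n + 2) ^ a := ha _
    _ ≤ ((n + 2) ^ (b + 2)) ^ a := Nat.pow_le_pow_left h1 a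
    _ = (n + 2) ^ ((b + 2) * a) := (pow_mul _ _ _).symm

theorem PolyLog.mono {f g : ℕ → ℕ} (hg : PolyLog g) (h : ∀ n, f n ≤ g n) : PolyLog f := by
  obtain ⟨c, hc⟩ := hg
  exact ⟨c, fun n => (h n).trans (hc n)⟩

/-- The base of the polylogarithmic bounds is at least two. -/
theorem two_le_base (n : ℕ) : 2 ≤ Nat.log 2 (n + 2) + 1 := by
  have : 0 < Nat.log 2 (n + 2) := Nat.log_pos (by norm_num) (by omega)
  omega

theorem PolyLog.const (c : ℕ) : PolyLog (fun _ => c) := by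
  refine ⟨c, fun n => ?_⟩
  exact (Nat.lt_two_pow_self).le.trans (Nat.pow_le_pow_left (two_le_base n) c)

theorem PolyLog.add {f g : ℕ → ℕ} (hf : PolyLog f) (hg : PolyLog g) :
    PolyLog (fun n => f n + g n) := by
  obtain ⟨a, ha⟩ := hf
  obtain ⟨b, hb⟩ := hg
  refine ⟨a + b + 1, fun n => ?_⟩
  have hB := two_le_base n
  set B := Nat.log 2 (n + 2) + 1 with hBdef
  have h1 : B ^ a ≤ B ^ (a + b) := Nat.pow_le_pow_right (by omega) (by omega)
  have h2 : B ^ b ≤ B ^ (a + b) := Nat.pow_le_pow_right (by omega) (by omega)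
  calc f n + g n ≤ B ^ (a + b) + B ^ (a + b) :=
        add_le_add ((ha n).trans h1) ((hb n).trans h2)
    _ = B ^ (a + b) * 2 := by ring
    _ ≤ B ^ (a + b) * B := Nat.mul_le_mul_left _ hB
    _ = B ^ (a + b + 1) := (pow_succ _ _).symm

theorem PolyLog.mul {f g : ℕ → ℕ} (hf : PolyLog f) (hg : PolyLog g) :
    PolyLog (fun n => f n * g n) := by
  obtain ⟨a, ha⟩ := hf
  obtain ⟨b, hb⟩ := hg
  refine ⟨a + b, fun n => ?_⟩
  rw [pow_add]
  exact Nat.mul_le_mul (ha n) (hb n)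

/-- The logarithm of a power. -/
theorem log_pow_le (n c : ℕ) : Nat.log 2 ((n + 2) ^ c) ≤ c * (Nat.log 2 (n + 2) + 1) := by
  have h1 : (n + 2) ^ c ≤ 2 ^ (c * (Nat.log 2 (n + 2) + 1)) := by
    rw [mul_comm, pow_mul]
    exact Nat.pow_le_pow_left (Nat.lt_pow_succ_log_self (by norm_num) _).le c
  calc Nat.log 2 ((n + 2) ^ c) ≤ Nat.log 2 (2 ^ (c * (Nat.log 2 (n + 2) + 1))) :=
        Nat.log_mono_right h1
    _ = _ := Nat.log_pow (by norm_num) _

/-- `log` of a polynomially bounded function. -/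
theorem PolyLog.log {g : ℕ → ℕ} (hg : PolyBd g) : PolyLog (fun n => Nat.log 2 (g n)) := by
  obtain ⟨c, hc⟩ := hg
  have h1 : PolyLog (fun n => c * (Nat.log 2 (n + 2) + 1)) :=
    (PolyLog.const c).mul ⟨1, fun n => by rw [pow_one]⟩
  exact h1.mono fun n => (Nat.log_mono_right (hc n)).trans (log_pow_le n c)

/-- Polylogarithmic functions of a polynomially bounded argument. -/
theorem PolyLog.comp {f g : ℕ → ℕ} (hf : PolyLog f) (hg : PolyBd g) :
    PolyLog (fun n => f (g n)) := by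
  obtain ⟨a, ha⟩ := hf
  have hg2 : PolyBd (fun n => g n + 2) := PolyBd.comp (f := fun n => n + 2) ⟨1, fun n => by simp⟩ hg
  obtain ⟨b, hb⟩ := (PolyLog.log hg2).add (PolyLog.const 1)
  refine ⟨b * a, fun n => ?_⟩
  rw [pow_mul]
  exact (ha (g n)).trans (Nat.pow_le_pow_left (hb n) a)

end Pool.Agent.H79.Upm
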