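import Pool.Agent.H79.Upm.LSDiv
import Pool.Agent.H79.Upm.PolyLog

/-!
# Library of linear space functions
-/

namespace Pool.Agent.H79.Upm

/-- Common upper bound of two `LS` functions. -/
theorem LS.exists_ge {f g : ℕ → ℕ} (hf : LS f) (hg : LS g) :
    ∃ W, LS W ∧ (∀ p, f p ≤ W p) ∧ ∀ p, g p ≤ W p :=
  ⟨fun p => Max.max (f p) (g p), hf.max hg, fun _ => le_max_left _ _, fun _ => le_max_right _ _⟩

end Pool.Agent.H79.Upm
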