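import Pool.Agent.H79.Upm.SysSum

/-!
# Families of matrices of power series computed by layered systems

A family `F κ` of `N × N` matrices over `ℤ⟦X⟧`, given up to degree `< D`, is stored in an
integer array with index `⟨κ, ⟨⟨x, y⟩, d⟩⟩`.
-/

namespace Pool.Agent.H79.Upm

open PowerSeries

/-- Code of a coefficient. -/
def cm (κ x y d : ℕ) : ℕ := Nat.pair κ (Nat.pair (Nat.pair x y) d)

/-- Code of an entry, with the parameter `p`. -/
def ce (p κ x y : ℕ) : ℕ := Nat.pair p (Nat.pair κ (Nat.pair x y))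

/-- Square matrices of size `N` over `ℤ⟦X⟧`. -/
abbrev Mat (N : ℕ) := Matrix (Fin N) (Fin N) ℤ⟦X⟧

/-- The array that stores the family `F` of matrices up to degree `< D`. -/
noncomputable def arr (N D : ℕ) (F : ℕ → Mat N) (z : ℕ) : ℤ :=
  if h : z.unpair.2.unpair.1.unpair.1 < N ∧ z.unpair.2.unpair.1.unpair.2 < N ∧
      z.unpair.2.unpair.2 < D then
    coeff z.unpair.2.unpair.2 (F z.unpair.1 ⟨_, h.1⟩ ⟨_, h.2.1⟩)
  else 0

/-- The matrix number `κ` stored in an array. -/
noncomputable def toMat (N : ℕ) (S : ℕ → ℤ) (κ : ℕ) : Mat N :=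
  Matrix.of fun x y => PowerSeries.mk fun d => S (cm κ x y d)

/-- The family `F` of matrices is computed by layered systems. -/
def MOp (N D K : ℕ → ℕ) (F : (p : ℕ) → ℕ → (ℕ → ℤ) → ℕ → Mat (N p)) : Prop :=
  AOp ℤ K (fun p k S => arr (N p) (D p) (F p k S))

end Pool.Agent.H79.Upm
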