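import Pool.Agent.H79.Upm.MOp

/-!
# Matrix families: basic closure properties
-/

namespace Pool.Agent.H79.Upm

open PowerSeries

namespace MOp

/-! ### Coordinates of codes -/

private theorem lsP : LS (fun n => n.unpair.1.unpair.1) := LS.fst (LS.fst LS.id)
private theorem lsK : LS (fun n => n.unpair.2.unpair.1) := LS.fst (LS.snd LS.id)
private theorem lsX : LS (fun n => n.unpair.2.unpair.2.unpair.1.unpair.1) :=
  LS.fst (LS.fst (LS.snd (LS.snd LS.id)))
private theorem lsY : LS (fun n => n.unpair.2.unpair.2.unpair.1.unpair.2) :=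
  LS.snd (LS.fst (LS.snd (LS.snd LS.id)))
private theorem lsDg : LS (fun n => n.unpair.2.unpair.2.unpair.2) :=
  LS.snd (LS.snd (LS.snd LS.id))

private theorem cm_unpair (z : ℕ) :
    cm z.unpair.1 z.unpair.2.unpair.1.unpair.1 z.unpair.2.unpair.1.unpair.2 z.unpair.2.unpair.2 =
      z := by
  simp [cm]

private theorem arr_cm {N D : ℕ} (F : ℕ → Mat N) (κ x y d : ℕ) :
    arr N D F (cm κ x y d) =
      if h : x < N ∧ y < N ∧ d < D then coeff d (F κ ⟨x, h.1⟩ ⟨y, h.2.1⟩) else 0 := by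
  unfold arr
  simp only [cm, Nat.unpair_pair]

private theorem arr_cm_pos {N D : ℕ} (F : ℕ → Mat N) {κ x y d : ℕ} (hx : x < N) (hy : y < N)
    (hd : d < D) : arr N D F (cm κ x y d) = coeff d (F κ ⟨x, hx⟩ ⟨y, hy⟩) := by
  rw [arr_cm, dif_pos ⟨hx, hy, hd⟩]

private theorem aop_zero {K : ℕ → ℕ} (hK : LS K) : AOp ℤ K (fun _ _ _ _ => 0) := by
  have h : LSP (fun _ : ℕ => False) := by
    unfold LSP
    simpa using LS.zero
  have := AOp.bit (R := ℤ) hK h
  simpa using this

variable {N D K : ℕ → ℕ} {F G : (p : ℕ) → ℕ → (ℕ → ℤ) → ℕ → Mat (N p)}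

/-- Main tool: an operator with the right values on the range. -/
private theorem of_aop (hN : LS N) (hD : LS D) (hK : LS K) {A : ℕ → ℕ → (ℕ → ℤ) → ℕ → ℤ}
    (hA : AOp ℤ K A)
    (h : ∀ p k S κ x y d (hx : x < N p) (hy : y < N p), k < K p → d < D p →
      A p k S (cm κ x y d) = coeff d (F p k S κ ⟨x, hx⟩ ⟨y, hy⟩)) : MOp N D K F := by
  have hP : LSP (fun n => n.unpair.2.unpair.2.unpair.1.unpair.1 < N n.unpair.1.unpair.1 ∧
      n.unpair.2.unpair.2.unpair.1.unpair.2 < N n.unpair.1.unpair.1 ∧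
      n.unpair.2.unpair.2.unpair.2 < D n.unpair.1.unpair.1) :=
    LSP.and (LSP.lt lsX (LS.comp hN lsP)) (LSP.and (LSP.lt lsY (LS.comp hN lsP))
      (LSP.lt lsDg (LS.comp hD lsP)))
  refine AOp.congr (AOp.ite hK hP hA (aop_zero hK)) ?_
  intro p k S z hk
  simp only [ci, Nat.unpair_pair]
  unfold arr
  split_ifs with h1
  · have h2 := h p k S z.unpair.1 _ _ z.unpair.2.unpair.2 h1.1 h1.2.1 hk h1.2.2
    rw [cm_unpair] at h2
    exact h2
  · rfl

theorem congr (h : MOp N D K F)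
    (hFG : ∀ p k S κ x y d, k < K p → d < D p →
      coeff d (F p k S κ x y) = coeff d (G p k S κ x y)) : MOp N D K G := by
  refine AOp.congr h ?_
  intro p k S z hk
  unfold arr
  split_ifs with h1
  · exact hFG _ _ _ _ _ _ _ hk h1.2.2
  · rfl

/-- Constant matrices from an integer array. -/
theorem ofArr (hN : LS N) (hD : LS D) (hK : LS K) {H : ℕ → ℕ → (ℕ → ℤ) → ℕ → ℤ}
    (hH : AOp ℤ K H) :
    MOp N D K (fun p k S κ => Matrix.of fun x y =>
      PowerSeries.C (H p k S (Nat.pair κ (Nat.pair x y)))) := by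
  have hg : LS (fun n => Nat.pair n.unpair.2.unpair.1
      (Nat.pair n.unpair.2.unpair.2.unpair.1.unpair.1 n.unpair.2.unpair.2.unpair.1.unpair.2)) :=
    LS.pair lsK (LS.pair lsX lsY)
  have hP : LSP (fun n => n.unpair.2.unpair.2.unpair.2 = 0) := LSP.eq lsDg LS.zero
  refine of_aop hN hD hK (AOp.ite hK hP (AOp.reindexOf hK hH hg) (aop_zero hK)) ?_
  intro p k S κ x y d hx hy _ _
  simp only [ci, cm, Nat.unpair_pair, Matrix.of_apply, PowerSeries.coeff_C]

/-- The matrices stored in the given array. -/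
theorem ofToMat (hN : LS N) (hD : LS D) (hK : LS K) :
    MOp N D K (fun p _ S κ => toMat (N p) S κ) := by
  refine of_aop hN hD hK (AOp.id hK) ?_
  intro p k S κ x y d hx hy _ _
  simp [toMat]

/-- Precomposition with an operator on arrays. -/
theorem comp (hK : LS K) (hF : MOp N D K F) {H : ℕ → ℕ → (ℕ → ℤ) → ℕ → ℤ}
    (hH : AOp ℤ K H) : MOp N D K (fun p k S κ => F p k (H p k S) κ) :=
  AOp.comp hK hH hF

theorem zero (hN : LS N) (hD : LS D) (hK : LS K) : MOp N D K (fun _ _ _ _ => 0) := by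
  refine of_aop hN hD hK (aop_zero hK) ?_
  intro p k S κ x y d hx hy _ _
  simp

theorem one (hN : LS N) (hD : LS D) (hK : LS K) : MOp N D K (fun _ _ _ _ => 1) := by
  have hP : LSP (fun n => n.unpair.2.unpair.2.unpair.1.unpair.1 =
      n.unpair.2.unpair.2.unpair.1.unpair.2 ∧ n.unpair.2.unpair.2.unpair.2 = 0) :=
    LSP.and (LSP.eq lsX lsY) (LSP.eq lsDg LS.zero)
  refine of_aop hN hD hK (AOp.bit hK hP) ?_
  intro p k S κ x y d hx hy _ _
  simp only [ci, cm, Nat.unpair_pair, Matrix.one_apply, Fin.mk.injEq]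
  by_cases h1 : x = y
  · by_cases h2 : d = 0
    · simp [h1, h2]
    · simp [h1, h2, PowerSeries.coeff_one]
  · simp [h1]

theorem add (hK : LS K) (hF : MOp N D K F) (hG : MOp N D K G) :
    MOp N D K (fun p k S κ => F p k S κ + G p k S κ) := by
  refine AOp.congr (AOp.add hK hF hG) ?_
  intro p k S z _
  unfold arr
  split_ifs
  · simp
  · simp

theorem sub (hK : LS K) (hF : MOp N D K F) (hG : MOp N D K G) :
    MOp N D K (fun p k S κ => F p k S κ - G p k S κ) := by
  refine AOp.congr (AOp.sub hK hF hG) ?_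
  intro p k S z _
  unfold arr
  split_ifs
  · simp
  · simp

theorem neg (hK : LS K) (hF : MOp N D K F) : MOp N D K (fun p k S κ => - F p k S κ) := by
  refine AOp.congr (AOp.neg hK hF) ?_
  intro p k S z _
  unfold arr
  split_ifs
  · simp
  · simp

/-- Multiplication by the variable. -/
theorem X_smul (hN : LS N) (hD : LS D) (hK : LS K) (hF : MOp N D K F) :
    MOp N D K (fun p k S κ => (X : ℤ⟦X⟧) • F p k S κ) := by
  have hg : LS (fun n => Nat.pair n.unpair.2.unpair.1
      (Nat.pair (Nat.pair n.unpair.2.unpair.2.unpair.1.unpair.1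
        n.unpair.2.unpair.2.unpair.1.unpair.2) (n.unpair.2.unpair.2.unpair.2 - 1))) :=
    LS.pair lsK (LS.pair (LS.pair lsX lsY) (LS.sub lsDg (LS.const 1)))
  have hP : LSP (fun n => n.unpair.2.unpair.2.unpair.2 = 0) := LSP.eq lsDg LS.zero
  refine of_aop hN hD hK (AOp.ite hK hP (aop_zero hK) (AOp.reindexOf hK hF hg)) ?_
  intro p k S κ x y d hx hy _ hd
  simp only [ci, cm, Nat.unpair_pair, Matrix.smul_apply, smul_eq_mul]
  by_cases h : d = 0
  · simp [h]
  · obtain ⟨e, rfl⟩ := Nat.exists_eq_succ_of_ne_zero h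
    rw [if_neg h]
    have h1 := arr_cm_pos (F p k S) (κ := κ) hx hy (show e < D p by omega)
    simp only [cm] at h1
    simp only [Nat.succ_eq_add_one, Nat.add_sub_cancel]
    rw [h1, PowerSeries.coeff_succ_X_mul]

/-- Reindexing: the entry `(x, y)` of the matrix number `κ` of the new family (of size `N`) is
the entry `(f, g)` of the matrix number `h` of the old family (of size `N'`), or zero, where
`f`, `g`, `h` are `LS` functions of `⟨p, ⟨κ, ⟨x, y⟩⟩⟩`. -/
theorem reindex {N' : ℕ → ℕ} (hN : LS N) (hN' : LS N') (hD : LS D) (hK : LS K)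
    {F' : (p : ℕ) → ℕ → (ℕ → ℤ) → ℕ → Mat (N' p)} (hF : MOp N' D K F')
    {P : ℕ → Prop} [DecidablePred P] (hP : LSP P) {f g h : ℕ → ℕ} (hf : LS f) (hg : LS g)
    (hh : LS h) :
    MOp N D K (fun p k S κ => Matrix.of fun x y =>
      if H : P (ce p κ x y) ∧ f (ce p κ x y) < N' p ∧ g (ce p κ x y) < N' p then
        F' p k S (h (ce p κ x y)) ⟨f (ce p κ x y), H.2.1⟩ ⟨g (ce p κ x y), H.2.2⟩
      else 0) := by
  have hc : LS (fun n => Nat.pair n.unpair.1.unpair.1 (Nat.pair n.unpair.2.unpair.1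
      (Nat.pair n.unpair.2.unpair.2.unpair.1.unpair.1
        n.unpair.2.unpair.2.unpair.1.unpair.2))) :=
    LS.pair lsP (LS.pair lsK (LS.pair lsX lsY))
  have hcm := LS.pair (LS.comp hh hc) (LS.pair (LS.pair (LS.comp hf hc) (LS.comp hg hc)) lsDg)
  refine of_aop hN hD hK (AOp.ite hK (LSP.comp hP hc) (AOp.reindexOf hK hF hcm)
    (aop_zero hK)) ?_
  intro p k S κ x y d hx hy _ hd
  simp only [ci, cm, Nat.unpair_pair, Matrix.of_apply]
  have hce : Nat.pair p (Nat.pair κ (Nat.pair x y)) = ce p κ x y := rfl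
  rw [hce]
  have h1 := arr_cm (D := D p) (F' p k S) (h (ce p κ x y)) (f (ce p κ x y)) (g (ce p κ x y)) d
  simp only [cm] at h1
  rw [h1]
  by_cases hp : P (ce p κ x y)
  · rw [if_pos hp]
    by_cases h2 : f (ce p κ x y) < N' p ∧ g (ce p κ x y) < N' p
    · rw [dif_pos ⟨h2.1, h2.2, hd⟩, dif_pos ⟨hp, h2⟩]
    · rw [dif_neg (fun h3 => h2 ⟨h3.1, h3.2.1⟩), dif_neg (fun h3 => h2 h3.2)]
      simp
  · rw [if_neg hp, dif_neg (fun h3 => hp h3.1)]
    simp

theorem transpose (hN : LS N) (hD : LS D) (hK : LS K) (hF : MOp N D K F) :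
    MOp N D K (fun p k S κ => (F p k S κ).transpose) := by
  have hcm : LS (fun n => Nat.pair n.unpair.2.unpair.1 (Nat.pair
      (Nat.pair n.unpair.2.unpair.2.unpair.1.unpair.2 n.unpair.2.unpair.2.unpair.1.unpair.1)
      n.unpair.2.unpair.2.unpair.2)) :=
    LS.pair lsK (LS.pair (LS.pair lsY lsX) lsDg)
  refine of_aop hN hD hK (AOp.reindexOf hK hF hcm) ?_
  intro p k S κ x y d hx hy _ hd
  simp only [ci, cm, Nat.unpair_pair, Matrix.transpose_apply]
  have h1 := arr_cm_pos (F p k S) (κ := κ) hy hx hd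
  simp only [cm] at h1
  exact h1

/-- The diagonal part. -/
theorem diagPart (hN : LS N) (hD : LS D) (hK : LS K) (hF : MOp N D K F) :
    MOp N D K (fun p k S κ => Matrix.diagonal (fun x => F p k S κ x x)) := by
  have hP : LSP (fun n => n.unpair.2.unpair.2.unpair.1.unpair.1 =
      n.unpair.2.unpair.2.unpair.1.unpair.2) := LSP.eq lsX lsY
  refine of_aop hN hD hK (AOp.ite hK hP hF (aop_zero hK)) ?_
  intro p k S κ x y d hx hy _ hd
  have h1 := arr_cm_pos (F p k S) (κ := κ) hx hy hd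
  simp only [ci, cm, Nat.unpair_pair, Matrix.diagonal_apply, Fin.mk.injEq] at h1 ⊢
  by_cases h : x = y
  · subst h
    simp only [if_true]
    exact h1
  · simp [h]

end MOp

end Pool.Agent.H79.Upm
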