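import Pool.Agent.H79.Upm.MOpBasic

/-!
# Matrix families: iteration
-/

namespace Pool.Agent.H79.Upm

open PowerSeries

/-- Codes in range are below an explicit bound. -/
private theorem cm_lt {κ x y d w N D : ℕ} (hκ : κ < w) (hx : x < N) (hy : y < N) (hd : d < D) :
    cm κ x y d < Nat.pair w (Nat.pair (Nat.pair N N) D) := by
  unfold cm
  have h1 : Nat.pair x y < Nat.pair N N :=
    (Nat.pair_lt_pair_left y hx).trans (Nat.pair_lt_pair_right N hy)
  have h2 : Nat.pair (Nat.pair x y) d < Nat.pair (Nat.pair N N) D :=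
    (Nat.pair_lt_pair_left d h1).trans (Nat.pair_lt_pair_right _ hd)
  exact (Nat.pair_lt_pair_left _ hκ).trans (Nat.pair_lt_pair_right _ h2)

/-- Truncation does not change arrays of matrices on the relevant indices. -/
private theorem tr_arr {w N D : ℕ} (F : ℕ → Mat N) {z : ℕ} (hz : z.unpair.1 < w) :
    tr (Nat.pair w (Nat.pair (Nat.pair N N) D)) (arr N D F) z = arr N D F z := by
  unfold tr
  split_ifs with h
  · rfl
  · unfold arr
    rw [dif_neg]
    rintro ⟨h1, h2, h3⟩
    apply h
    have := cm_lt hz h1 h2 h3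
    simpa [cm] using this

/-- Iteration of an operation on matrices that may read the data `S`. -/
theorem MOp.iterate {N D K K' : ℕ → ℕ} (hN : LS N) (hD : LS D) (hK : LS K) (hK' : LS K')
    (hlog : PolyLog K') {Φ : (p : ℕ) → (ℕ → ℤ) → ℕ → Mat (N p) → Mat (N p)}
    (hcausal : ∀ p S κ (V V' : Mat (N p)),
      (∀ x y, ∀ d < D p, coeff d (V x y) = coeff d (V' x y)) →
        ∀ x y, ∀ d < D p, coeff d (Φ p S κ V x y) = coeff d (Φ p S κ V' x y))
    (hΦ : MOp N D K' (fun p _ S κ =>
      Φ p (fun i => S (2 * i)) κ (toMat (N p) (fun i => S (2 * i + 1)) κ)))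
    {F0 : (p : ℕ) → ℕ → (ℕ → ℤ) → ℕ → Mat (N p)} (h0 : MOp N D K F0) :
    MOp N D K (fun p k S κ => (Φ p S κ)^[K' p] (F0 p k S κ)) := by
  refine AOp.of_forall ?_
  intro w hw
  refine ⟨_, AOp.iter (Z := fun p => Nat.pair (w p) (Nat.pair (Nat.pair (N p) (N p)) (D p)))
    hK hK' hlog (LS.pair hw (LS.pair (LS.pair hN hN) hD)) hΦ h0, ?_⟩
  intro p k S i hk hi
  have key : ∀ j z, z.unpair.1 < w p →
      iterA (fun k' V => tr (Nat.pair (w p) (Nat.pair (Nat.pair (N p) (N p)) (D p)))
        (arr (N p) (D p) (fun κ => Φ p (fun i => jn S V (2 * i)) κ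
          (toMat (N p) (fun i => jn S V (2 * i + 1)) κ)))) j
        (tr (Nat.pair (w p) (Nat.pair (Nat.pair (N p) (N p)) (D p))) (arr (N p) (D p) (F0 p k S))) z
        = arr (N p) (D p) (fun κ => (Φ p S κ)^[j] (F0 p k S κ)) z := by
    intro j
    induction j with
    | zero =>
      intro z hz
      simp only [iterA, Function.iterate_zero, id]
      exact tr_arr _ hz
    | succ j ih =>
      intro z hz
      simp only [iterA]
      rw [tr_arr _ hz]
      generalize iterA (fun k' V => tr (Nat.pair (w p) (Nat.pair (Nat.pair (N p) (N p)) (D p)))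
        (arr (N p) (D p) (fun κ => Φ p (fun i => jn S V (2 * i)) κ
          (toMat (N p) (fun i => jn S V (2 * i + 1)) κ)))) j
        (tr (Nat.pair (w p) (Nat.pair (Nat.pair (N p) (N p)) (D p)))
          (arr (N p) (D p) (F0 p k S))) = V at ih
      have e1 : (fun i => jn S V (2 * i)) = S := by
        funext i
        simp [jn]
      have e2 : (fun i => jn S V (2 * i + 1)) = V := by
        funext i
        have : (2 * i + 1) / 2 = i := by omega
        simp [jn, this]
      rw [e1, e2]
      unfold arr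
      split_ifs with h
      · simp only [Function.iterate_succ_apply']
        refine hcausal p S z.unpair.1 _ _ ?_ _ _ _ h.2.2
        intro x y d hd
        have h1 := ih (cm z.unpair.1 x y d) (by simpa [cm] using hz)
        have h2 : coeff d (toMat (N p) V z.unpair.1 x y) = V (cm z.unpair.1 x y d) := by
          simp [toMat]
        rw [h2, h1]
        unfold arr
        simp only [cm, Nat.unpair_pair]
        rw [dif_pos ⟨x.2, y.2, hd⟩]
      · rfl
  exact key (K' p) i ((Nat.unpair_left_le i).trans_lt hi)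

end Pool.Agent.H79.Upm
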