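import Pool.Agent.H79.Upm.MOp

/-!
# Matrix families: products
-/

namespace Pool.Agent.H79.Upm

open PowerSeries

/-- Zero array. -/
theorem AOp.mm_zeroC {R : Type} [CommRing R] {K : ℕ → ℕ} (hK : LS K) :
    AOp R K (fun _ _ _ _ => 0) := by
  have hP : LSP (fun _ => False) := by
    unfold LSP
    simpa using LS.zero
  refine (AOp.bit (R := R) hK hP).congr ?_
  intro p k S i hk
  simp

/-- `LSP` from decidable equivalence. -/
theorem LSP.mm_of_iff {P Q : ℕ → Prop} [DecidablePred P] [DecidablePred Q] (hP : LSP P)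
    (h : ∀ n, P n ↔ Q n) : LSP Q := by
  unfold LSP at *
  have : (fun n => if Q n then 1 else 0) = (fun n => if P n then 1 else 0) := by
    funext n
    by_cases hq : Q n
    · rw [if_pos hq, if_pos ((h n).2 hq)]
    · rw [if_neg hq, if_neg (fun hp => hq ((h n).1 hp))]
  rw [this]
  exact hP

namespace MOp

variable {N D K : ℕ → ℕ} {F G : (p : ℕ) → ℕ → (ℕ → ℤ) → ℕ → Mat (N p)}

theorem mm_arr_cm {n d : ℕ} (F : ℕ → Mat n) (κ : ℕ) (x y : ℕ) (hx : x < n) (hy : y < n)
    {c : ℕ} (hc : c < d) :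
    arr n d F (cm κ x y c) = coeff c (F κ ⟨x, hx⟩ ⟨y, hy⟩) := by
  unfold arr cm
  simp only [Nat.unpair_pair]
  rw [dif_pos ⟨hx, hy, hc⟩]

theorem mm_arr_cm_zero {n d : ℕ} (F : ℕ → Mat n) (κ : ℕ) (x y c : ℕ)
    (h : ¬ (x < n ∧ y < n ∧ c < d)) : arr n d F (cm κ x y c) = 0 := by
  unfold arr cm
  simp only [Nat.unpair_pair]
  rw [dif_neg h]

theorem mm_exists_cm (z : ℕ) : ∃ κ x y d, z = cm κ x y d :=
  ⟨z.unpair.1, z.unpair.2.unpair.1.unpair.1, z.unpair.2.unpair.1.unpair.2,
    z.unpair.2.unpair.2, by simp [cm, Nat.pair_unpair]⟩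

/-- The condition on the summation index. -/
def mmCond (N D x y d j : ℕ) : Prop :=
  (x < N ∧ y < N ∧ d < D) ∧ j.unpair.1 < N ∧ j.unpair.2 ≤ d

instance (N D x y d j : ℕ) : Decidable (mmCond N D x y d j) := by
  unfold mmCond; infer_instance

/-- The summand of the matrix product. -/
noncomputable def mmTerm (N D : ℕ) (F G : ℕ → Mat N) (κ x y d j : ℕ) : ℤ :=
  if mmCond N D x y d j then
    arr N D F (cm κ x j.unpair.1 j.unpair.2) * arr N D G (cm κ j.unpair.1 y (d - j.unpair.2))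
  else 0

theorem mm_sum_term (N D : ℕ) (F G : ℕ → Mat N) (κ x y d : ℕ) :
    ∑ j ∈ Finset.range (Nat.pair N D), mmTerm N D F G κ x y d j =
      arr N D (fun κ => F κ * G κ) (cm κ x y d) := by
  by_cases h : x < N ∧ y < N ∧ d < D
  · have h0 := h
    obtain ⟨hx, hy, hd⟩ := h0
    rw [mm_arr_cm _ κ x y hx hy hd]
    simp only [Matrix.mul_apply, map_sum, PowerSeries.coeff_mul,
      Finset.Nat.sum_antidiagonal_eq_sum_range_succ_mk]
    have e1 : ∑ j ∈ Finset.range (Nat.pair N D), mmTerm N D F G κ x y d j =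
        ∑ j ∈ (Finset.range (Nat.pair N D)).filter
          (fun j => j.unpair.1 < N ∧ j.unpair.2 ≤ d),
          arr N D F (cm κ x j.unpair.1 j.unpair.2) *
            arr N D G (cm κ j.unpair.1 y (d - j.unpair.2)) := by
      rw [Finset.sum_filter]
      refine Finset.sum_congr rfl fun j _ => ?_
      unfold mmTerm
      by_cases hj : j.unpair.1 < N ∧ j.unpair.2 ≤ d
      · have hc : mmCond N D x y d j := ⟨h, hj⟩
        rw [if_pos hj, if_pos hc]
      · have hc : ¬ mmCond N D x y d j := fun h' => hj h'.2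
        rw [if_neg hj, if_neg hc]
    have e2 : ∑ u : Fin N, ∑ c ∈ Finset.range (d + 1),
          coeff c (F κ ⟨x, hx⟩ u) * coeff (d - c) (G κ u ⟨y, hy⟩) =
        ∑ q ∈ Finset.range N ×ˢ Finset.range (d + 1),
          arr N D F (cm κ x q.1 q.2) * arr N D G (cm κ q.1 y (d - q.2)) := by
      rw [Finset.sum_product, ← Fin.sum_univ_eq_sum_range
        (fun u => ∑ c ∈ Finset.range (d + 1), arr N D F (cm κ x u c) *
          arr N D G (cm κ u y (d - c))) N]
      refine Finset.sum_congr rfl fun u _ => Finset.sum_congr rfl fun c hc => ?_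
      have hc' : c < d + 1 := Finset.mem_range.1 hc
      rw [mm_arr_cm F κ x u hx u.2 (by omega), mm_arr_cm G κ u y u.2 hy (by omega)]
    rw [e1, e2]
    refine Finset.sum_nbij' (fun j => j.unpair) (fun q => Nat.pair q.1 q.2) ?_ ?_ ?_ ?_ ?_
    · intro j hj
      rw [Finset.mem_filter] at hj
      rw [Finset.mem_product, Finset.mem_range, Finset.mem_range]
      exact ⟨hj.2.1, by omega⟩
    · intro q hq
      rw [Finset.mem_product, Finset.mem_range, Finset.mem_range] at hq
      rw [Finset.mem_filter, Finset.mem_range, Nat.unpair_pair]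
      refine ⟨?_, hq.1, by omega⟩
      exact (Nat.pair_lt_pair_left _ hq.1).trans (Nat.pair_lt_pair_right _ (by omega))
    · intro j _
      exact Nat.pair_unpair j
    · intro q _
      exact Nat.unpair_pair _ _
    · intro j _
      rfl
  · rw [mm_arr_cm_zero _ κ x y d h]
    refine Finset.sum_eq_zero fun j _ => ?_
    have hc : ¬ mmCond N D x y d j := fun h' => h h'.1
    unfold mmTerm
    rw [if_neg hc]

theorem mul (hN : LS N) (hD : LS D) (hK : LS K) (hF : MOp N D K F) (hG : MOp N D K G) :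
    MOp N D K (fun p k S κ => F p k S κ * G p k S κ) := by
  -- projections of the code `n = ⟨⟨p, k⟩, ⟨z, j⟩⟩`, `z = ⟨κ, ⟨⟨x, y⟩, d⟩⟩`
  have lp : LS (fun n => n.unpair.1.unpair.1) := LS.fst (LS.fst LS.id)
  have lz : LS (fun n => n.unpair.2.unpair.1) := LS.fst (LS.snd LS.id)
  have lj : LS (fun n => n.unpair.2.unpair.2) := LS.snd (LS.snd LS.id)
  have lk : LS (fun n => n.unpair.2.unpair.1.unpair.1) := LS.fst lz
  have lx : LS (fun n => n.unpair.2.unpair.1.unpair.2.unpair.1.unpair.1) :=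
    LS.fst (LS.fst (LS.snd lz))
  have ly : LS (fun n => n.unpair.2.unpair.1.unpair.2.unpair.1.unpair.2) :=
    LS.snd (LS.fst (LS.snd lz))
  have ld : LS (fun n => n.unpair.2.unpair.1.unpair.2.unpair.2) := LS.snd (LS.snd lz)
  have lu : LS (fun n => n.unpair.2.unpair.2.unpair.1) := LS.fst lj
  have lc : LS (fun n => n.unpair.2.unpair.2.unpair.2) := LS.snd lj
  have hNp := LS.comp hN lp
  have hDp := LS.comp hD lp
  have g1 : LS (fun n => cm (n.unpair.2.unpair.1.unpair.1)
      (n.unpair.2.unpair.1.unpair.2.unpair.1.unpair.1) (n.unpair.2.unpair.2.unpair.1)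
      (n.unpair.2.unpair.2.unpair.2)) := LS.pair lk (LS.pair (LS.pair lx lu) lc)
  have g2 : LS (fun n => cm (n.unpair.2.unpair.1.unpair.1)
      (n.unpair.2.unpair.2.unpair.1) (n.unpair.2.unpair.1.unpair.2.unpair.1.unpair.2)
      (n.unpair.2.unpair.1.unpair.2.unpair.2 - n.unpair.2.unpair.2.unpair.2)) :=
    LS.pair lk (LS.pair (LS.pair lu ly) (LS.sub ld lc))
  have hP : LSP (fun n => mmCond (N n.unpair.1.unpair.1) (D n.unpair.1.unpair.1)
      (n.unpair.2.unpair.1.unpair.2.unpair.1.unpair.1)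
      (n.unpair.2.unpair.1.unpair.2.unpair.1.unpair.2)
      (n.unpair.2.unpair.1.unpair.2.unpair.2) (n.unpair.2.unpair.2)) :=
    ((LSP.lt lx hNp).and ((LSP.lt ly hNp).and (LSP.lt ld hDp))).and
      ((LSP.lt lu hNp).and (LSP.le lc ld)) |>.mm_of_iff (fun n => Iff.rfl)
  have h1 := AOp.mul hK (AOp.reindexOf hK hF g1) (AOp.reindexOf hK hG g2)
  have h2 := AOp.ite hK hP h1 (AOp.mm_zeroC hK)
  have h3 := AOp.sum hK (LS.pair hN hD) h2
  refine h3.congr ?_
  intro p k S z hk
  obtain ⟨κ, x, y, d, rfl⟩ := mm_exists_cm z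
  rw [← mm_sum_term]
  refine Finset.sum_congr rfl fun j _ => ?_
  simp only [ci, cm, Nat.unpair_pair, mmTerm]

/-- The condition on the summation index, entrywise case. -/
def mmCond' (N D x y d j : ℕ) : Prop := (x < N ∧ y < N ∧ d < D) ∧ j ≤ d

instance (N D x y d j : ℕ) : Decidable (mmCond' N D x y d j) := by
  unfold mmCond'; infer_instance

/-- The summand of the entrywise product. -/
noncomputable def mmTerm' (N D : ℕ) (F G : ℕ → Mat N) (κ x y d j : ℕ) : ℤ :=
  if mmCond' N D x y d j then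
    arr N D F (cm κ x y j) * arr N D G (cm κ x y (d - j))
  else 0

theorem mm_mm_sum_term' (N D : ℕ) (F G : ℕ → Mat N) (κ x y d : ℕ) :
    ∑ j ∈ Finset.range D, mmTerm' N D F G κ x y d j =
      arr N D (fun κ => Matrix.of fun x y => F κ x y * G κ x y) (cm κ x y d) := by
  by_cases h : x < N ∧ y < N ∧ d < D
  · have h0 := h
    obtain ⟨hx, hy, hd⟩ := h0
    rw [mm_arr_cm _ κ x y hx hy hd]
    simp only [Matrix.of_apply, PowerSeries.coeff_mul,
      Finset.Nat.sum_antidiagonal_eq_sum_range_succ_mk]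
    have hsub : Finset.range (d + 1) ⊆ Finset.range D := by
      intro c hc
      rw [Finset.mem_range] at hc ⊢
      omega
    rw [← Finset.sum_subset hsub]
    · refine Finset.sum_congr rfl fun c hc => ?_
      have hc' : c < d + 1 := Finset.mem_range.1 hc
      have hcc : mmCond' N D x y d c := ⟨h, by omega⟩
      unfold mmTerm'
      rw [if_pos hcc, mm_arr_cm F κ x y hx hy (by omega), mm_arr_cm G κ x y hx hy (by omega)]
    · intro c _ hc
      have hcc : ¬ mmCond' N D x y d c := fun h' => hc (Finset.mem_range.2 (by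
        have := h'.2
        omega))
      unfold mmTerm'
      rw [if_neg hcc]
  · rw [mm_arr_cm_zero _ κ x y d h]
    refine Finset.sum_eq_zero fun j _ => ?_
    have hc : ¬ mmCond' N D x y d j := fun h' => h h'.1
    unfold mmTerm'
    rw [if_neg hc]

/-- Entrywise product. -/
theorem hadamard (hN : LS N) (hD : LS D) (hK : LS K) (hF : MOp N D K F) (hG : MOp N D K G) :
    MOp N D K (fun p k S κ => Matrix.of fun x y => F p k S κ x y * G p k S κ x y) := by
  have lp : LS (fun n => n.unpair.1.unpair.1) := LS.fst (LS.fst LS.id)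
  have lz : LS (fun n => n.unpair.2.unpair.1) := LS.fst (LS.snd LS.id)
  have lj : LS (fun n => n.unpair.2.unpair.2) := LS.snd (LS.snd LS.id)
  have lk : LS (fun n => n.unpair.2.unpair.1.unpair.1) := LS.fst lz
  have lx : LS (fun n => n.unpair.2.unpair.1.unpair.2.unpair.1.unpair.1) :=
    LS.fst (LS.fst (LS.snd lz))
  have ly : LS (fun n => n.unpair.2.unpair.1.unpair.2.unpair.1.unpair.2) :=
    LS.snd (LS.fst (LS.snd lz))
  have ld : LS (fun n => n.unpair.2.unpair.1.unpair.2.unpair.2) := LS.snd (LS.snd lz)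
  have hNp := LS.comp hN lp
  have hDp := LS.comp hD lp
  have g1 : LS (fun n => cm (n.unpair.2.unpair.1.unpair.1)
      (n.unpair.2.unpair.1.unpair.2.unpair.1.unpair.1)
      (n.unpair.2.unpair.1.unpair.2.unpair.1.unpair.2)
      (n.unpair.2.unpair.2)) := LS.pair lk (LS.pair (LS.pair lx ly) lj)
  have g2 : LS (fun n => cm (n.unpair.2.unpair.1.unpair.1)
      (n.unpair.2.unpair.1.unpair.2.unpair.1.unpair.1)
      (n.unpair.2.unpair.1.unpair.2.unpair.1.unpair.2)
      (n.unpair.2.unpair.1.unpair.2.unpair.2 - n.unpair.2.unpair.2)) :=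
    LS.pair lk (LS.pair (LS.pair lx ly) (LS.sub ld lj))
  have hP : LSP (fun n => mmCond' (N n.unpair.1.unpair.1) (D n.unpair.1.unpair.1)
      (n.unpair.2.unpair.1.unpair.2.unpair.1.unpair.1)
      (n.unpair.2.unpair.1.unpair.2.unpair.1.unpair.2)
      (n.unpair.2.unpair.1.unpair.2.unpair.2) (n.unpair.2.unpair.2)) :=
    ((LSP.lt lx hNp).and ((LSP.lt ly hNp).and (LSP.lt ld hDp))).and
      (LSP.le lj ld) |>.mm_of_iff (fun n => Iff.rfl)
  have h1 := AOp.mul hK (AOp.reindexOf hK hF g1) (AOp.reindexOf hK hG g2)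
  have h2 := AOp.ite hK hP h1 (AOp.mm_zeroC hK)
  have h3 := AOp.sum hK hD h2
  refine h3.congr ?_
  intro p k S z hk
  obtain ⟨κ, x, y, d, rfl⟩ := mm_exists_cm z
  rw [← mm_mm_sum_term']
  refine Finset.sum_congr rfl fun j _ => ?_
  simp only [ci, cm, Nat.unpair_pair, mmTerm']

end MOp

end Pool.Agent.H79.Upm
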