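import Pool.Agent.H79.Upm.Geo
import Pool.Agent.H79.Upm.MOpMul
import Pool.Agent.H79.Upm.MOpIter

/-!
# Matrix families: geometric series
-/

namespace Pool.Agent.H79.Upm

open PowerSeries

theorem iterate_sq {M : Type} [Monoid M] (x : M) (n : ℕ) :
    (fun V : M => V * V)^[n] x = x ^ (2 ^ n) := by
  induction n with
  | zero => simp
  | succ n ih =>
    rw [Function.iterate_succ_apply', ih, ← pow_add, pow_succ 2 n, mul_two]

theorem coeff_mul_congr {N : ℕ} {D : ℕ} {A A' B B' : Mat N}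
    (hA : ∀ x y, ∀ d < D, coeff d (A x y) = coeff d (A' x y))
    (hB : ∀ x y, ∀ d < D, coeff d (B x y) = coeff d (B' x y)) (x y : Fin N) :
    ∀ d < D, coeff d ((A * B) x y) = coeff d ((A' * B') x y) := by
  intro d hd
  rw [Matrix.mul_apply, Matrix.mul_apply, map_sum, map_sum]
  apply Finset.sum_congr rfl
  intro u _
  rw [PowerSeries.coeff_mul, PowerSeries.coeff_mul]
  apply Finset.sum_congr rfl
  intro q hq
  have h1 := Finset.HasAntidiagonal.mem_antidiagonal.mp hq
  rw [hA x u q.1 (by omega), hB u y q.2 (by omega)]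

/-- Repeated squaring: the power `M ^ (2 ^ L)`. -/
theorem MOp.sqIter {N D K L : ℕ → ℕ} (hN : LS N) (hD : LS D) (hK : LS K) (hL : LS L)
    (hlog : PolyLog L) {F : (p : ℕ) → ℕ → (ℕ → ℤ) → ℕ → Mat (N p)} (hF : MOp N D K F) :
    MOp N D K (fun p k S κ => (F p k S κ) ^ (2 ^ L p)) := by
  have hodd : AOp ℤ L (fun _ _ S i => S (2 * i + 1)) := by
    have hg : LS (fun z : ℕ => 2 * z.unpair.2 + 1) :=
      LS.succ (LS.mul (LS.const 2) (LS.snd LS.id))
    have h1 := AOp.reindex (R := ℤ) hL hg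
    refine AOp.congr h1 ?_
    intro p k S i _
    simp [ci]
  have hT : MOp N D L (fun p _ S κ => toMat (N p) (fun i => S (2 * i + 1)) κ) :=
    MOp.comp (F := fun p _ S κ => toMat (N p) S κ) hL (MOp.ofToMat hN hD hL) hodd
  have hΦ : MOp N D L (fun p _ S κ =>
      (fun (p : ℕ) (_ : ℕ → ℤ) (_ : ℕ) (V : Mat (N p)) => V * V) p (fun i => S (2 * i)) κ
        (toMat (N p) (fun i => S (2 * i + 1)) κ)) := MOp.mul hN hD hL hT hT
  have h := MOp.iterate hN hD hK hL hlog
    (Φ := fun (p : ℕ) (_ : ℕ → ℤ) (_ : ℕ) (V : Mat (N p)) => V * V)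
    (by
      intro p S κ V V' hV x y d hd
      exact coeff_mul_congr hV hV x y d hd) hΦ hF
  refine MOp.congr h ?_
  intro p k S κ x y d _ _
  rw [iterate_sq]

/-- the block matrix -/
noncomputable def blk {N : ℕ} (M : Mat N) : Mat (N + N) :=
  Matrix.reindexAlgEquiv ℤ ℤ⟦X⟧ finSumFinEquiv (Matrix.fromBlocks M 1 0 1)

theorem fromBlocks_pow {V : Type} [Fintype V] [DecidableEq V]
    (M : Matrix V V (PowerSeries ℤ)) (n : ℕ) :
    (Matrix.fromBlocks M (1 : Matrix V V (PowerSeries ℤ)) (0 : Matrix V V (PowerSeries ℤ))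
        (1 : Matrix V V (PowerSeries ℤ))) ^ n =
      Matrix.fromBlocks (M ^ n) (∑ i ∈ Finset.range n, M ^ i) 0 1 := by
  induction n with
  | zero => simp [Matrix.fromBlocks_one]
  | succ n ih =>
    rw [pow_succ', ih, Matrix.fromBlocks_multiply, Finset.sum_range_succ', pow_zero,
      Finset.mul_sum]
    simp [pow_succ']

theorem blk_pow {N : ℕ} (M : Mat N) (n : ℕ) (x y : Fin N) (h : (x : ℕ) < N + N)
    (h' : N + (y : ℕ) < N + N) :
    (blk M ^ n) ⟨x, h⟩ ⟨N + y, h'⟩ = (∑ i ∈ Finset.range n, M ^ i) x y := by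
  unfold blk
  rw [← map_pow, fromBlocks_pow, Matrix.coe_reindexAlgEquiv, Matrix.reindex_apply,
    Matrix.submatrix_apply]
  have h1 : finSumFinEquiv.symm (⟨x, h⟩ : Fin (N + N)) = Sum.inl x := by
    rw [Equiv.symm_apply_eq]
    rfl
  have h2 : finSumFinEquiv.symm (⟨N + y, h'⟩ : Fin (N + N)) = Sum.inr y := by
    rw [Equiv.symm_apply_eq]
    rfl
  rw [h1, h2, Matrix.fromBlocks_apply₁₂]

/-- the constant part of the block matrix -/
def blkP (N : ℕ → ℕ) (z : ℕ) : Prop :=
  (z.unpair.2.unpair.2.unpair.1 < N z.unpair.1.unpair.1 ∧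
      z.unpair.2.unpair.2.unpair.2 =
        N z.unpair.1.unpair.1 + z.unpair.2.unpair.2.unpair.1) ∨
    (N z.unpair.1.unpair.1 ≤ z.unpair.2.unpair.2.unpair.1 ∧
      z.unpair.2.unpair.2.unpair.1 = z.unpair.2.unpair.2.unpair.2)

instance (N : ℕ → ℕ) : DecidablePred (blkP N) := fun z => by
  unfold blkP; infer_instance

theorem blkP_iff (N : ℕ → ℕ) (p k κ x y : ℕ) :
    blkP N (ci p k (Nat.pair κ (Nat.pair x y))) ↔
      (x < N p ∧ y = N p + x) ∨ (N p ≤ x ∧ x = y) := by
  unfold blkP ci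
  simp only [Nat.unpair_pair]

theorem ce_x (p κ x y : ℕ) : (ce p κ x y).unpair.2.unpair.2.unpair.1 = x := by
  unfold ce; simp only [Nat.unpair_pair]

theorem ce_y (p κ x y : ℕ) : (ce p κ x y).unpair.2.unpair.2.unpair.2 = y := by
  unfold ce; simp only [Nat.unpair_pair]

theorem ce_k (p κ x y : ℕ) : (ce p κ x y).unpair.2.unpair.1 = κ := by
  unfold ce; simp only [Nat.unpair_pair]

theorem ce_p (p κ x y : ℕ) : (ce p κ x y).unpair.1 = p := by
  unfold ce; simp only [Nat.unpair_pair]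

theorem LSP.true : LSP (fun _ => True) := by
  have : LS (fun _ : ℕ => 1) := LS.const 1
  simpa [LSP] using this

theorem LSP.blkP {N : ℕ → ℕ} (hN : LS N) : LSP (blkP N) := by
  have hx : LS (fun z : ℕ => z.unpair.2.unpair.2.unpair.1) :=
    LS.fst (LS.snd (LS.snd LS.id))
  have hy : LS (fun z : ℕ => z.unpair.2.unpair.2.unpair.2) :=
    LS.snd (LS.snd (LS.snd LS.id))
  have hNz' : LS (fun z : ℕ => N z.unpair.1.unpair.1) := LS.comp hN (LS.fst (LS.fst LS.id))
  exact LSP.or (LSP.and (LSP.lt hx hNz') (LSP.eq hy (LS.add hNz' hx)))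
    (LSP.and (LSP.le hNz' hx) (LSP.eq hx hy))

/-- the entries of the block matrix -/
theorem blk_entry {N : ℕ} (M : Mat N) (x y : Fin (N + N)) :
    (if H : (x : ℕ) < N ∧ (y : ℕ) < N then M ⟨x, H.1⟩ ⟨y, H.2⟩ else 0) +
      PowerSeries.C (if ((x : ℕ) < N ∧ (y : ℕ) = N + x) ∨ (N ≤ (x : ℕ) ∧ (x : ℕ) = y)
        then (1 : ℤ) else 0) = blk M x y := by
  obtain ⟨x', rfl⟩ := finSumFinEquiv.surjective x
  obtain ⟨y', rfl⟩ := finSumFinEquiv.surjective y
  have hR : blk M (finSumFinEquiv x') (finSumFinEquiv y') =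
      Matrix.fromBlocks M 1 0 1 x' y' := by
    unfold blk
    rw [Matrix.coe_reindexAlgEquiv, Matrix.reindex_apply, Matrix.submatrix_apply,
      Equiv.symm_apply_apply, Equiv.symm_apply_apply]
  rw [hR]
  have el : ∀ z : Fin N, ((finSumFinEquiv (Sum.inl z : Fin N ⊕ Fin N) : Fin (N + N)) : ℕ) = z :=
    fun _ => rfl
  have er : ∀ z : Fin N,
      ((finSumFinEquiv (Sum.inr z : Fin N ⊕ Fin N) : Fin (N + N)) : ℕ) = N + z := fun _ => rfl
  rcases x' with x | x <;> rcases y' with y | y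
  · have hx' := x.2
    have hy' := y.2
    rw [dif_pos ⟨by rw [el]; exact hx', by rw [el]; exact hy'⟩, if_neg (by rw [el, el]; omega),
      map_zero, add_zero, Matrix.fromBlocks_apply₁₁]
    rfl
  · have hx' := x.2
    have hy' := y.2
    rw [dif_neg (by rw [er]; omega), Matrix.fromBlocks_apply₁₂, Matrix.one_apply, zero_add]
    by_cases h : x = y
    · rw [if_pos (by rw [el, er]; subst h; omega), if_pos h, map_one]
    · have h' : (x : ℕ) ≠ y := fun h2 => h (Fin.ext h2)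
      rw [if_neg (by rw [el, er]; omega), if_neg h, map_zero]
  · have hx' := x.2
    have hy' := y.2
    rw [dif_neg (by rw [er]; omega), Matrix.fromBlocks_apply₂₁, if_neg (by rw [el, er]; omega),
      map_zero, zero_add]
    rfl
  · have hx' := x.2
    have hy' := y.2
    rw [dif_neg (by rw [er]; omega), Matrix.fromBlocks_apply₂₂, Matrix.one_apply, zero_add]
    by_cases h : x = y
    · rw [if_pos (by rw [er, er]; subst h; omega), if_pos h, map_one]
    · have h' : (x : ℕ) ≠ y := fun h2 => h (Fin.ext h2)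
      rw [if_neg (by rw [er, er]; omega), if_neg h, map_zero]

theorem MOp.blk {N D K : ℕ → ℕ} (hN : LS N) (hD : LS D) (hK : LS K)
    {F : (p : ℕ) → ℕ → (ℕ → ℤ) → ℕ → Mat (N p)} (hF : MOp N D K F) :
    MOp (fun p => N p + N p) D K (fun p k S κ => blk (F p k S κ)) := by
  have hN2 : LS (fun p => N p + N p) := LS.add hN hN
  have hx : LS (fun z : ℕ => z.unpair.2.unpair.2.unpair.1) :=
    LS.fst (LS.snd (LS.snd LS.id))
  have hy : LS (fun z : ℕ => z.unpair.2.unpair.2.unpair.2) :=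
    LS.snd (LS.snd (LS.snd LS.id))
  have hκ : LS (fun z : ℕ => z.unpair.2.unpair.1) := LS.fst (LS.snd LS.id)
  -- the upper left block
  have hA := MOp.reindex (N := fun p => N p + N p) hN2 hN hD hK hF LSP.true hx hy hκ
  -- the constant blocks
  have hB := MOp.ofArr (N := fun p => N p + N p) hN2 hD hK (AOp.bit (R := ℤ) hK (LSP.blkP hN))
  have hC := MOp.add hK hA hB
  refine MOp.congr hC ?_
  intro p k S κ x y d _ _
  refine congrArg (coeff d) ?_
  refine Eq.trans ?_ (blk_entry (F p k S κ) x y)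
  refine Eq.trans (Matrix.add_apply _ _ _ _) ?_
  refine congrArg₂ _ ?_ ?_
  · rw [Matrix.of_apply]
    simp only [ce_x, ce_y, ce_k, true_and]
  · rw [Matrix.of_apply]
    simp only [blkP_iff]

/-- The geometric series with `2 ^ L` terms (from the powers of a block matrix
`[[M, 1], [0, 1]]` of size `2 N`). -/
theorem MOp.geo {N D K L : ℕ → ℕ} (hN : LS N) (hD : LS D) (hK : LS K) (hL : LS L)
    (hlog : PolyLog L) {F : (p : ℕ) → ℕ → (ℕ → ℤ) → ℕ → Mat (N p)} (hF : MOp N D K F) :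
    MOp N D K (fun p k S κ => geoV (L p) (F p k S κ)) := by
  have hN2 : LS (fun p => N p + N p) := LS.add hN hN
  have hx : LS (fun z : ℕ => z.unpair.2.unpair.2.unpair.1) :=
    LS.fst (LS.snd (LS.snd LS.id))
  have hy : LS (fun z : ℕ => N z.unpair.1 + z.unpair.2.unpair.2.unpair.2) :=
    LS.add (LS.comp hN (LS.fst LS.id)) (LS.snd (LS.snd (LS.snd LS.id)))
  have hκ : LS (fun z : ℕ => z.unpair.2.unpair.1) := LS.fst (LS.snd LS.id)
  have h1 := MOp.sqIter hN2 hD hK hL hlog (MOp.blk hN hD hK hF)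
  have h2 := MOp.reindex (N := N) hN hN2 hD hK h1 LSP.true hx hy hκ
  refine MOp.congr h2 ?_
  intro p k S κ x y d _ _
  congr 1
  have hx' := x.2
  have hy' := y.2
  rw [Matrix.of_apply]
  simp only [ce_x, ce_y, ce_k, ce_p]
  rw [dif_pos ⟨trivial, by omega, by omega⟩, blk_pow]
  rfl

end Pool.Agent.H79.Upm
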