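import Pool.Agent.H79.Upm.Path

/-!
# Perfect matchings as involutions, and uniqueness

A perfect matching of `G` is an involution `σ` with `G.Adj x (σ x)` for all `x`.
-/

namespace Pool.Agent.H79.Upm

variable {V : Type} [Fintype V] [DecidableEq V]

/-- `σ` is a perfect matching of `G`. -/
def IsPM (G : SimpleGraph V) (σ : V → V) : Prop := ∀ x, σ (σ x) = x ∧ G.Adj x (σ x)

/-- Go along the matching edge `x, σ x` and then along a non-matching edge `σ x, y`. -/
def altRel (G : SimpleGraph V) (σ : V → V) (x y : V) : Prop := G.Adj (σ x) y ∧ y ≠ x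

/-- The subgraph of an involution. -/
def pmSubgraph {G : SimpleGraph V} {σ : V → V} (h : IsPM G σ) : G.Subgraph where
  verts := Set.univ
  Adj x y := σ x = y
  adj_sub := by
    intro x y hxy
    rw [← hxy]
    exact (h x).2
  edge_vert := fun _ => Set.mem_univ _
  symm := ⟨by
    intro x y hxy
    rw [← hxy]
    exact (h x).1⟩

omit [Fintype V] [DecidableEq V] in
theorem pmSubgraph_isPerfectMatching {G : SimpleGraph V} {σ : V → V} (h : IsPM G σ) :
    (pmSubgraph h).IsPerfectMatching := by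
  rw [SimpleGraph.Subgraph.isPerfectMatching_iff]
  intro v
  exact ⟨σ v, rfl, fun w hw => Eq.symm hw⟩

omit [Fintype V] [DecidableEq V] in
/-- The involution of a perfect matching subgraph. -/
theorem exists_isPM_of_isPerfectMatching {G : SimpleGraph V} {M : G.Subgraph}
    (hM : M.IsPerfectMatching) : ∃ σ : V → V, IsPM G σ ∧ ∀ x y, M.Adj x y ↔ σ x = y := by
  rw [SimpleGraph.Subgraph.isPerfectMatching_iff] at hM
  choose σ h1 h2 using hM
  refine ⟨σ, fun x => ⟨?_, M.adj_sub (h1 x)⟩, fun x y => ⟨fun h => (h2 x y h).symm, ?_⟩⟩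
  · exact (h2 (σ x) x (h1 x).symm).symm
  · rintro rfl
    exact h1 x

/-- Unique perfect matchings as subgraphs and as involutions. -/
theorem existsUnique_perfectMatching_iff (G : SimpleGraph V) :
    (∃! M : G.Subgraph, M.IsPerfectMatching) ↔ ∃! σ : V → V, IsPM G σ := by
  constructor
  · rintro ⟨M, hM, huniq⟩
    obtain ⟨σ, hσ, hadj⟩ := exists_isPM_of_isPerfectMatching hM
    refine ⟨σ, hσ, fun τ hτ => ?_⟩
    have h1 := huniq _ (pmSubgraph_isPerfectMatching hτ)
    funext x
    have h2 : (pmSubgraph hτ).Adj x (τ x) := rfl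
    rw [h1] at h2
    exact ((hadj x (τ x)).1 h2).symm
  · rintro ⟨σ, hσ, huniq⟩
    refine ⟨pmSubgraph hσ, pmSubgraph_isPerfectMatching hσ, fun M hM => ?_⟩
    obtain ⟨τ, hτ, hadj⟩ := exists_isPM_of_isPerfectMatching hM
    have h1 := huniq τ hτ
    refine SimpleGraph.Subgraph.ext ?_ ?_
    · exact hM.2.verts_eq_univ
    · funext x y
      apply propext
      rw [hadj x y, h1]
      exact Iff.rfl

theorem altRel_symm {G : SimpleGraph V} {σ : V → V} (h : IsPM G σ) {x y : V}
    (hxy : altRel G σ x y) : altRel G σ (σ y) (σ x) := by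
  refine ⟨?_, ?_⟩
  · rw [(h y).1]
    exact hxy.1.symm
  · intro he
    apply hxy.2
    rw [← (h y).1, ← he, (h x).1]

/-! ### Rotating and reflecting regular cycles -/

omit [Fintype V] [DecidableEq V] in
theorem Reg.perm {σ : V → V} (hσ : ∀ x, σ (σ x) = x) {l m : List V} (h : l.Perm m)
    (hl : Reg σ l) : Reg σ m := by
  unfold Reg at *
  refine (h.pairwise_iff ?_).1 hl
  intro a b hab
  refine ⟨hab.1.symm, fun he => hab.2 ?_⟩
  rw [he, hσ]

omit [Fintype V] [DecidableEq V] in
/-- A regular cycle can be started at each of its vertices. -/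
theorem RegPath.rotate {σ : V → V} {D : V → V → Prop} (hσ : ∀ x, σ (σ x) = x) {x y v : V}
    {l : List V} (h : RegPath σ D x y l) (hyx : D y x) (hv : v ∈ l) :
    ∃ (w : V) (m : List V), RegPath σ D v w (v :: m) ∧ D w v ∧ (v :: m).Perm l := by
  obtain ⟨h1, h2, h3, h4⟩ := h
  obtain ⟨l1, l2, rfl⟩ := List.append_of_mem hv
  have hperm : (v :: (l2 ++ l1)).Perm (l1 ++ v :: l2) := by
    have : (v :: l2 ++ l1).Perm (l1 ++ v :: l2) := List.perm_append_comm
    simpa using this
  rw [List.isChain_append] at h3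
  obtain ⟨h31, h32, h33⟩ := h3
  rcases List.eq_nil_or_concat' l1 with rfl | ⟨l1', w, rfl⟩
  · -- nothing to rotate
    refine ⟨y, l2, ⟨rfl, by simpa using h2, by simpa using h32, by simpa using h4⟩, ?_, ?_⟩
    · have : v = x := by simpa using h1
      rw [this]
      exact hyx
    · simp
  · refine ⟨w, l2 ++ (l1' ++ [w]), ⟨rfl, ?_, ?_, Reg.perm hσ hperm.symm h4⟩, ?_, hperm⟩
    · rw [← List.append_assoc, ← List.cons_append, List.getLast?_append]
      simp
    · rw [← List.cons_append, List.isChain_append]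
      refine ⟨h32, h31, ?_⟩
      intro a ha b hb
      have ha' : a = y := by
        have : (l1' ++ [w] ++ v :: l2).getLast? = (v :: l2).getLast? := by
          rw [List.getLast?_append]
          cases hh : (v :: l2).getLast? with
          | none => simp at hh
          | some z => simp
        rw [this] at h2
        rw [h2] at ha
        exact (Option.some.inj ha).symm
      have hb' : b = x := by
        have : (l1' ++ [w] ++ v :: l2).head? = (l1' ++ [w]).head? := by
          rw [List.head?_append]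
          cases hh : (l1' ++ [w]).head? with
          | none => simp at hh
          | some z => simp
        rw [this] at h1
        rw [h1] at hb
        exact (Option.some.inj hb).symm
      rw [ha', hb']
      exact hyx
    · exact h33 w (by simp) v (by simp)

omit [Fintype V] [DecidableEq V] in
/-- The mate of a regular path. -/
theorem RegPath.mate {σ : V → V} {D : V → V → Prop} (hσ : ∀ x, σ (σ x) = x)
    (hD : ∀ x y, D x y → D (σ y) (σ x)) {x y : V}
    {l : List V} (h : RegPath σ D x y l) : RegPath σ D (σ y) (σ x) (l.map σ).reverse := by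
  obtain ⟨h1, h2, h3, h4⟩ := h
  refine ⟨?_, ?_, ?_, ?_⟩
  · rw [List.head?_reverse, List.getLast?_map, h2]
    rfl
  · rw [List.getLast?_reverse, List.head?_map, h1]
    rfl
  · rw [List.isChain_reverse, List.isChain_map]
    exact h3.imp fun a b hab => hD a b hab
  · unfold Reg at *
    rw [List.pairwise_reverse, List.pairwise_map]
    refine h4.imp ?_
    rintro a b ⟨hab1, hab2⟩
    refine ⟨fun he => hab1 ?_, fun he => hab2 ?_⟩
    · rw [← hσ a, ← he, hσ]
    · rw [hσ] at he
      exact he.symm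

omit [Fintype V] [DecidableEq V] in
/-- A regular cycle that meets the matching edge of `v` can be started at `v`. -/
theorem RegPath.through {σ : V → V} {D : V → V → Prop} (hσ : ∀ x, σ (σ x) = x)
    (hD : ∀ x y, D x y → D (σ y) (σ x)) {x y v : V}
    {l : List V} (h : RegPath σ D x y l) (hyx : D y x) (hv : v ∈ l ∨ σ v ∈ l) :
    ∃ (w : V) (m : List V), RegPath σ D v w (v :: m) ∧ D w v ∧
      ∀ a ∈ v :: m, a ∈ l ∨ σ a ∈ l := by
  rcases hv with hv | hv
  · obtain ⟨w, m, h1, h2, h3⟩ := h.rotate hσ hyx hv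
    exact ⟨w, m, h1, h2, fun a ha => Or.inl (h3.subset ha)⟩
  · have hv' : v ∈ (l.map σ).reverse := by
      rw [List.mem_reverse, List.mem_map]
      exact ⟨σ v, hv, hσ v⟩
    obtain ⟨w, m, h1, h2, h3⟩ := (h.mate hσ hD).rotate hσ (hD _ _ hyx) hv'
    refine ⟨w, m, h1, h2, fun a ha => Or.inr ?_⟩
    have := h3.subset ha
    rw [List.mem_reverse, List.mem_map] at this
    obtain ⟨b, hb, rfl⟩ := this
    rw [hσ]
    exact hb

/-! ### Switching along a regular cycle -/

omit [Fintype V] in
theorem formPerm_rel {D : V → V → Prop} {l : List V} (hl : l.Nodup) {x y : V}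
    (h1 : l.head? = some x) (h2 : l.getLast? = some y) (h3 : l.IsChain D) (hyx : D y x)
    {a : V} (ha : a ∈ l) : D a (l.formPerm a) := by
  obtain ⟨n, hn, rfl⟩ := List.getElem_of_mem ha
  rw [List.formPerm_apply_getElem l hl n hn]
  have hlen : 0 < l.length := by omega
  have hx : l[0] = x := by
    rw [List.head?_eq_getElem?, List.getElem?_eq_getElem hlen] at h1
    exact Option.some.inj h1
  have hy : l[l.length - 1] = y := by
    rw [List.getLast?_eq_getElem?, List.getElem?_eq_getElem (by omega)] at h2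
    exact Option.some.inj h2
  by_cases hlast : n + 1 < l.length
  · have : (n + 1) % l.length = n + 1 := Nat.mod_eq_of_lt hlast
    simp only [this]
    exact List.isChain_iff_getElem.1 h3 n hlast
  · have h4 : n = l.length - 1 := by omega
    have h5 : (n + 1) % l.length = 0 := by
      have : n + 1 = l.length := by omega
      rw [this, Nat.mod_self]
    simp only [h5]
    subst h4
    rw [hx, hy]
    exact hyx

omit [Fintype V] in
/-- Switching along a regular cycle gives another perfect matching. -/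
theorem exists_pm_ne_of_regCycle {G : SimpleGraph V} {σ : V → V} (h : IsPM G σ)
    (hc : RegCycle σ (altRel G σ)) : ∃ τ, IsPM G τ ∧ τ ≠ σ := by
  obtain ⟨x, y, l, ⟨h1, h2, h3, h4⟩, hyx⟩ := hc
  have hσ : ∀ x, σ (σ x) = x := fun x => (h x).1
  have hnd : l.Nodup := h4.imp fun hab => hab.1
  have hnot : ∀ a ∈ l, σ a ∉ l := by
    intro a ha hb
    have hne : a ≠ σ a := (h a).2.ne
    have hR : Std.Symm (fun a b : V => a ≠ b ∧ a ≠ σ b) := ⟨by
      intro a b hab
      refine ⟨hab.1.symm, fun he => hab.2 ?_⟩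
      rw [he, hσ]⟩
    have h5 := List.Pairwise.forall h4 ha hb hne
    exact h5.2 (hσ a).symm
  set c := l.formPerm with hc
  have hcl : ∀ a ∈ l, altRel G σ a (c a) := fun a ha => formPerm_rel hnd h1 h2 h3 hyx ha
  have hcn : ∀ a ∉ l, c a = a := fun a ha => List.formPerm_apply_of_notMem ha
  refine ⟨fun v => c (σ (c.symm v)), ?_, ?_⟩
  · intro v
    refine ⟨?_, ?_⟩
    · simp only [Equiv.symm_apply_apply, hσ, Equiv.apply_symm_apply]
    · obtain ⟨w, rfl⟩ := c.surjective v
      simp only [Equiv.symm_apply_apply]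
      by_cases hw : w ∈ l
      · rw [hcn (σ w) (hnot w hw)]
        exact (hcl w hw).1.symm
      · by_cases hw' : σ w ∈ l
        · rw [hcn w hw]
          have := (hcl _ hw').1
          rw [hσ] at this
          exact this
        · rw [hcn w hw, hcn _ hw']
          exact (h w).2
  · intro he
    have hx : x ∈ l := List.mem_of_mem_head? h1
    have h5 := congrFun he (c x)
    simp only [Equiv.symm_apply_apply] at h5
    rw [hcn (σ x) (hnot x hx)] at h5
    have h6 : c x = x := by
      have := congrArg σ h5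
      rw [hσ, hσ] at this
      exact this.symm
    exact (hcl x hx).2 h6

/-- Two different perfect matchings give a regular cycle. -/
theorem regCycle_of_pm_ne {G : SimpleGraph V} {σ τ : V → V} (h : IsPM G σ) (h' : IsPM G τ)
    (hne : τ ≠ σ) : RegCycle σ (altRel G σ) := by
  have hσ : ∀ x, σ (σ x) = x := fun x => (h x).1
  have hτ : ∀ x, τ (τ x) = x := fun x => (h' x).1
  -- the permutation `τ ∘ σ`
  let ρ : Equiv.Perm V :=
    { toFun := fun v => τ (σ v)
      invFun := fun v => σ (τ v)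
      left_inv := fun v => by simp only [hτ, hσ]
      right_inv := fun v => by simp only [hτ, hσ] }
  have hρ : ∀ v, ρ v = τ (σ v) := fun v => rfl
  have hρ' : ∀ v, ρ⁻¹ v = σ (τ v) := fun v => rfl
  obtain ⟨x, hx⟩ : ∃ x, τ x ≠ σ x := by
    by_contra hcon
    push Not at hcon
    exact hne (funext hcon)
  have hz : ρ (σ x) ≠ σ x := by
    rw [hρ, hσ]
    exact hx
  have hsupp : σ x ∈ ρ.support := by
    rw [Equiv.Perm.mem_support]
    exact hz
  -- conjugation by `σ` inverts `ρ`
  let s : Equiv.Perm V :=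
    { toFun := σ
      invFun := σ
      left_inv := hσ
      right_inv := hσ }
  have hs : ∀ v, s v = σ v := fun v => rfl
  have hs' : ∀ v, s⁻¹ v = σ v := fun v => rfl
  have hconj : s * ρ * s⁻¹ = ρ⁻¹ := by
    ext v
    rw [Equiv.Perm.mul_apply, Equiv.Perm.mul_apply, hs', hs, hρ, hρ', hσ]
  have hconjz : ∀ (k : ℤ) (v : V), σ ((ρ ^ k) v) = (ρ ^ (-k)) (σ v) := by
    intro k v
    have h1 : s * ρ ^ k * s⁻¹ = ρ ^ (-k) := by
      rw [← conj_zpow, hconj, inv_zpow, zpow_neg]
    rw [← h1, Equiv.Perm.mul_apply, Equiv.Perm.mul_apply, hs', hs, hσ]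
  -- `σ b` is not on the cycle of `b`
  have hkey : ∀ (k : ℤ) (b : V), (ρ ^ k) b ≠ σ b := by
    intro k b hb
    rcases Int.even_or_odd' k with ⟨m, rfl | rfl⟩
    · have h1 : σ ((ρ ^ m) b) = (ρ ^ m) b := by
        rw [hconjz, ← hb, ← Equiv.Perm.mul_apply, ← zpow_add]
        congr 2
        ring
      exact (h ((ρ ^ m) b)).2.ne h1.symm
    · have h1 : σ ((ρ ^ m) b) = ρ ((ρ ^ m) b) := by
        rw [hconjz, ← hb, ← Equiv.Perm.mul_apply, ← zpow_add, ← Equiv.Perm.mul_apply,
          ← zpow_one_add]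
        congr 2
        ring
      rw [hρ] at h1
      exact (h' (σ ((ρ ^ m) b))).2.ne h1
  have hmem : ∀ a ∈ ρ.toList (σ x), ρ.SameCycle (σ x) a := fun a ha =>
    (Equiv.Perm.mem_toList_iff.1 ha).1
  have hlen : 0 < (ρ.toList (σ x)).length := Equiv.Perm.length_toList_pos_of_mem_support _ _ hsupp
  have hD : ∀ a, ρ a ≠ a → altRel G σ a (ρ a) := by
    intro a ha
    exact ⟨(h' (σ a)).2, ha⟩
  have hmove : ∀ k : ℕ, ρ ((ρ ^ k) (σ x)) ≠ (ρ ^ k) (σ x) := by
    intro k hk
    apply hz
    apply (ρ ^ k).injective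
    rw [← Equiv.Perm.mul_apply, ← pow_succ, pow_succ', Equiv.Perm.mul_apply]
    exact hk
  refine ⟨σ x, (ρ ^ ((ρ.toList (σ x)).length - 1)) (σ x), ρ.toList (σ x), ⟨?_, ?_, ?_, ?_⟩, ?_⟩
  · rw [List.head?_eq_getElem?, List.getElem?_eq_getElem hlen, Equiv.Perm.toList_getElem_zero]
    exact hsupp
  · rw [List.getLast?_eq_getElem?, List.getElem?_eq_getElem (by omega), Equiv.Perm.getElem_toList]
  · rw [List.isChain_iff_getElem]
    intro i hi
    rw [Equiv.Perm.getElem_toList, Equiv.Perm.getElem_toList, pow_succ', Equiv.Perm.mul_apply]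
    exact hD _ (hmove i)
  · have hnd := Equiv.Perm.nodup_toList ρ (σ x)
    unfold Reg
    unfold List.Nodup at hnd
    refine hnd.imp_of_mem ?_
    intro a b ha hb hab
    refine ⟨hab, fun he => ?_⟩
    obtain ⟨k, hk⟩ := (hmem b hb).symm.trans (hmem a ha)
    exact hkey k b (hk.trans he)
  · have h1 : ρ ((ρ ^ ((ρ.toList (σ x)).length - 1)) (σ x)) = σ x := by
      rw [← Equiv.Perm.mul_apply, ← pow_succ', Nat.sub_add_cancel hlen,
        Equiv.Perm.length_toList]
      rw [← Equiv.Perm.pow_mod_card_support_cycleOf_self_apply, Nat.mod_self, pow_zero,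
        Equiv.Perm.one_apply]
    have h2 := hD _ (hmove ((ρ.toList (σ x)).length - 1))
    rwa [h1] at h2

/-- A perfect matching is unique iff there is no regular cycle. -/
theorem unique_iff_not_regCycle {G : SimpleGraph V} {σ : V → V} (h : IsPM G σ) :
    (∀ τ, IsPM G τ → τ = σ) ↔ ¬ RegCycle σ (altRel G σ) := by
  constructor
  · intro h1 h2
    obtain ⟨τ, h3, h4⟩ := exists_pm_ne_of_regCycle h h2
    exact h4 (h1 τ h3)
  · intro h1 τ hτ
    by_contra hne
    exact h1 (regCycle_of_pm_ne h hτ hne)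

/-- `D` restricted to the vertices `x` with `x < r` and `σ x < r`. -/
def below {n : ℕ} (σ : Fin n → Fin n) (D : Fin n → Fin n → Prop) (r : ℕ) (x y : Fin n) : Prop :=
  D x y ∧ ((x : ℕ) < r ∧ (σ x : ℕ) < r) ∧ ((y : ℕ) < r ∧ (σ y : ℕ) < r)

theorem below_iff_one {n : ℕ} {σ : Fin n → Fin n} {D : Fin n → Fin n → Prop} {r : ℕ}
    {x y : Fin n} (h : below σ D r x y) : D x y := h.1

theorem below_mate {n : ℕ} {σ : Fin n → Fin n} {D : Fin n → Fin n → Prop}
    (hσ : ∀ x, σ (σ x) = x) (hD : ∀ x y, D x y → D (σ y) (σ x)) (r : ℕ) (x y : Fin n)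
    (h : below σ D r x y) : below σ D r (σ y) (σ x) := by
  refine ⟨hD _ _ h.1, ⟨h.2.2.2, ?_⟩, h.2.1.2, ?_⟩
  · rw [hσ]
    exact h.2.2.1
  · rw [hσ]
    exact h.2.1.1

/-- A regular cycle through `r`, all other vertices below `r`. -/
theorem exists_path_of_cycle {n : ℕ} {σ : Fin n → Fin n} {D : Fin n → Fin n → Prop}
    (hσ : ∀ x, σ (σ x) = x) (hirr : ∀ x, ¬ D x x) {r w : Fin n} {m : List (Fin n)}
    (h : RegPath σ D r w (r :: m)) (hw : D w r)
    (hm : ∀ a ∈ r :: m, (a : ℕ) ≤ r ∧ (σ a : ℕ) ≤ r) :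
    ∃ u : Fin n, ((u : ℕ) < r ∧ (σ u : ℕ) < r) ∧ ((w : ℕ) < r ∧ (σ w : ℕ) < r) ∧ D r u ∧
      RegPath σ (below σ D r) u w m := by
  obtain ⟨h1, h2, h3, h4⟩ := h
  cases m with
  | nil =>
    exfalso
    have : r = w := by simpa using h2
    rw [← this] at hw
    exact hirr r hw
  | cons u m' =>
    unfold Reg at h4
    rw [List.pairwise_cons] at h4
    have hlt : ∀ a ∈ u :: m', (a : ℕ) < r ∧ (σ a : ℕ) < r := by
      intro a ha
      obtain ⟨h5, h6⟩ := h4.1 a ha
      obtain ⟨h7, h8⟩ := hm a (List.mem_cons_of_mem _ ha)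
      constructor
      · exact lt_of_le_of_ne h7 fun he => h5 (Fin.ext he).symm
      · exact lt_of_le_of_ne h8 fun he => h6 (Fin.ext he).symm
    rw [List.isChain_cons_cons] at h3
    have h2' : (u :: m').getLast? = some w := by
      rw [← h2, List.getLast?_cons_cons]
    refine ⟨u, hlt u (by simp), hlt w ?_, h3.1, rfl, h2', ?_, h4.2⟩
    · exact List.mem_of_getLast? h2'
    · refine List.IsChain.imp_of_mem_imp ?_ h3.2
      intro a b ha hb hab
      exact ⟨hab, hlt a ha, hlt b hb⟩

/-- Successive uniqueness test: there is no regular cycle iff for all `r` no regular path below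
`r` closes up through the vertex `r`. -/
theorem not_regCycle_iff {n : ℕ} {σ : Fin n → Fin n} {D : Fin n → Fin n → Prop}
    (hσ : ∀ x, σ (σ x) = x) (hfix : ∀ x, σ x ≠ x) (hD : ∀ x y, D x y → D (σ y) (σ x))
    (hirr : ∀ x, ¬ D x x) (hirr' : ∀ x, ¬ D x (σ x)) :
    ¬ RegCycle σ D ↔ ∀ r u w : Fin n, ((u : ℕ) < r ∧ (σ u : ℕ) < r) →
      ((w : ℕ) < r ∧ (σ w : ℕ) < r) → D r u → D w r →
      ¬ ∃ l, RegPath σ (below σ D r) u w l := by
  constructor
  · rintro hno r u w hu hw hru hwr ⟨l, h1, h2, h3, h4⟩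
    have hlt : ∀ a ∈ l, (a : ℕ) < r ∧ (σ a : ℕ) < r := by
      intro a ha
      obtain ⟨i, hi, rfl⟩ := List.getElem_of_mem ha
      rw [List.isChain_iff_getElem] at h3
      by_cases hi' : i + 1 < l.length
      · exact (h3 i hi').2.1
      · by_cases hi0 : i = 0
        · subst hi0
          rw [List.head?_eq_getElem?, List.getElem?_eq_getElem hi] at h1
          rw [Option.some.inj h1]
          exact hu
        · obtain ⟨j, rfl⟩ := Nat.exists_eq_succ_of_ne_zero hi0
          exact (h3 j hi).2.2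
    apply hno
    refine ⟨r, w, r :: l, ⟨rfl, ?_, ?_, ?_⟩, hwr⟩
    · cases l with
      | nil => simp at h1
      | cons a l' => rw [List.getLast?_cons_cons]; exact h2
    · cases l with
      | nil => simp at h1
      | cons a l' =>
        rw [List.isChain_cons_cons]
        have : a = u := by simpa using h1
        refine ⟨by rw [this]; exact hru, h3.imp fun _ _ hab => hab.1⟩
    · unfold Reg
      rw [List.pairwise_cons]
      refine ⟨fun a ha => ⟨fun he => ?_, fun he => ?_⟩, h4⟩
      · have := (hlt a ha).1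
        rw [← he] at this
        exact lt_irrefl _ this
      · have := (hlt a ha).2
        rw [← he] at this
        exact lt_irrefl _ this
  · rintro hall ⟨x, y, l, hl, hyx⟩
    have hx : x ∈ l := List.mem_of_mem_head? hl.1
    -- the largest index
    let S : Finset (Fin n) := (l ++ l.map σ).toFinset
    have hS : S.Nonempty := ⟨x, by simp [S, hx]⟩
    have hSmem : ∀ a, a ∈ S ↔ a ∈ l ∨ σ a ∈ l := by
      intro a
      simp only [S, List.mem_toFinset, List.mem_append, List.mem_map]
      refine or_congr Iff.rfl ⟨?_, fun h => ⟨σ a, h, hσ a⟩⟩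
      rintro ⟨b, hb, rfl⟩
      rw [hσ]
      exact hb
    obtain ⟨r, hr, hmax⟩ : ∃ r ∈ S, ∀ a ∈ S, a ≤ r := ⟨S.max' hS, S.max'_mem hS, S.le_max'⟩
    obtain ⟨w, m, h1, h2, h3⟩ := hl.through hσ hD hyx ((hSmem r).1 hr)
    have hm : ∀ a ∈ r :: m, (a : ℕ) ≤ r ∧ (σ a : ℕ) ≤ r := by
      intro a ha
      have h5 := h3 a ha
      refine ⟨hmax a ((hSmem a).2 h5), hmax (σ a) ((hSmem _).2 ?_)⟩
      rw [hσ]
      exact h5.symm
    obtain ⟨u, hu, hw, hru, hp⟩ := exists_path_of_cycle hσ hirr h1 h2 hm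
    exact hall r u w hu hw hru h2 ⟨m, hp⟩

/-- The inductive form of the test. -/
theorem regCycle_below_succ {n : ℕ} {σ : Fin n → Fin n} {D : Fin n → Fin n → Prop}
    (hσ : ∀ x, σ (σ x) = x) (hfix : ∀ x, σ x ≠ x) (hD : ∀ x y, D x y → D (σ y) (σ x))
    (hirr : ∀ x, ¬ D x x) (hirr' : ∀ x, ¬ D x (σ x)) (r : Fin n)
    (h0 : ¬ RegCycle σ (below σ D r))
    (h1 : ∀ u w : Fin n, ((u : ℕ) < r ∧ (σ u : ℕ) < r) → ((w : ℕ) < r ∧ (σ w : ℕ) < r) →
      D r u → D w r → ¬ ∃ l, RegPath σ (below σ D r) u w l) :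
    ¬ RegCycle σ (below σ D (r + 1)) := by
  rintro ⟨x, y, l, hl, hyx⟩
  -- all members of the cycle are below `r + 1`
  have hle : ∀ a ∈ l, (a : ℕ) ≤ r ∧ (σ a : ℕ) ≤ r := by
    intro a ha
    obtain ⟨i, hi, rfl⟩ := List.getElem_of_mem ha
    have h3 := hl.2.2.1
    rw [List.isChain_iff_getElem] at h3
    by_cases hi' : i + 1 < l.length
    · have := (h3 i hi').2.1
      omega
    · by_cases hi0 : i = 0
      · subst hi0
        have h4 := hl.1
        rw [List.head?_eq_getElem?, List.getElem?_eq_getElem hi] at h4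
        rw [Option.some.inj h4]
        have := hyx.2.2
        omega
      · obtain ⟨j, rfl⟩ := Nat.exists_eq_succ_of_ne_zero hi0
        have := (h3 j hi).2.2
        simp only [Nat.succ_eq_add_one] at this ⊢
        omega
  by_cases hr : r ∈ l ∨ σ r ∈ l
  · obtain ⟨w, m, h2, h3, h4⟩ := hl.through hσ (below_mate hσ hD (r + 1)) hyx hr
    have hm : ∀ a ∈ r :: m, (a : ℕ) ≤ r ∧ (σ a : ℕ) ≤ r := by
      intro a ha
      rcases h4 a ha with h5 | h5
      · exact hle a h5
      · have := hle _ h5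
        rw [hσ] at this
        exact this.symm
    have h2' : RegPath σ D r w (r :: m) :=
      ⟨h2.1, h2.2.1, h2.2.2.1.imp fun _ _ hab => hab.1, h2.2.2.2⟩
    obtain ⟨u, hu, hw, hru, hp⟩ := exists_path_of_cycle hσ hirr h2' h3.1 hm
    exact h1 u w hu hw hru h3.1 ⟨m, hp⟩
  · push Not at hr
    have hlt : ∀ a ∈ l, (a : ℕ) < r ∧ (σ a : ℕ) < r := by
      intro a ha
      obtain ⟨h5, h6⟩ := hle a ha
      constructor
      · refine lt_of_le_of_ne h5 fun he => hr.1 ?_
        rw [← Fin.ext he]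
        exact ha
      · refine lt_of_le_of_ne h6 fun he => hr.2 ?_
        rw [← Fin.ext he, hσ]
        exact ha
    apply h0
    refine ⟨x, y, l, ⟨hl.1, hl.2.1, ?_, hl.2.2.2⟩, hyx.1, hlt y ?_, hlt x ?_⟩
    · refine List.IsChain.imp_of_mem_imp ?_ hl.2.2.1
      intro a b ha hb hab
      exact ⟨hab.1, hlt a ha, hlt b hb⟩
    · exact List.mem_of_getLast? hl.2.1
    · exact List.mem_of_mem_head? hl.1

end Pool.Agent.H79.Upm
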