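import Pool.Agent.H79.Upm.Geo

/-!
# Newton iteration for the blossom series
-/

namespace Pool.Agent.H79.Upm

open PowerSeries

variable {V : Type} [Fintype V] [DecidableEq V]

/-- The approximation of the path matrix that belongs to the (diagonal) matrix `B`. -/
noncomputable def kOf (L : ℕ) (D S B : Matrix V V ℤ⟦X⟧) : Matrix V V ℤ⟦X⟧ :=
  geoV L ((X : ℤ⟦X⟧) • D - B * S)

/-- One Newton step for `B = diagPart (X² D K D S)`, `K = (1 - X D + B S)⁻¹`. -/
noncomputable def newtonStep (L : ℕ) (D S B : Matrix V V ℤ⟦X⟧) : Matrix V V ℤ⟦X⟧ :=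
  let K := kOf L D S B
  let Q : Matrix V V ℤ⟦X⟧ := (X : ℤ⟦X⟧) • (X : ℤ⟦X⟧) • Matrix.of fun x y =>
    (D * K) x y * (S * K * D * S).transpose x y
  let A := Matrix.diagonal (fun x => ((X : ℤ⟦X⟧) • (X : ℤ⟦X⟧) • (D * K * D * S)) x x) - B
  let J : Matrix V V ℤ⟦X⟧ := Matrix.of fun _ _ => 1
  B + Matrix.diagonal (fun x => (geoV L (-Q) * A * J) x x)

/-- entrywise congruence modulo `X ^ e` -/
def Cg (e : ℕ) (M M' : Matrix V V ℤ⟦X⟧) : Prop := ∀ x y, (X : ℤ⟦X⟧) ^ e ∣ M x y - M' x y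

namespace Cg

omit [Fintype V] [DecidableEq V] in
theorem refl (e : ℕ) (M : Matrix V V ℤ⟦X⟧) : Cg e M M := fun x y => by simp

omit [Fintype V] [DecidableEq V] in
theorem symm {e : ℕ} {M M' : Matrix V V ℤ⟦X⟧} (h : Cg e M M') : Cg e M' M := fun x y => by
  rw [← neg_sub]
  exact (dvd_neg).2 (h x y)

omit [Fintype V] [DecidableEq V] in
theorem trans {e : ℕ} {M M' M'' : Matrix V V ℤ⟦X⟧} (h : Cg e M M') (h' : Cg e M' M'') :
    Cg e M M'' := fun x y => by
  have := dvd_add (h x y) (h' x y)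
  rwa [sub_add_sub_cancel] at this

omit [Fintype V] [DecidableEq V] in
theorem mono {e e' : ℕ} (he : e' ≤ e) {M M' : Matrix V V ℤ⟦X⟧} (h : Cg e M M') : Cg e' M M' :=
  fun x y => (pow_dvd_pow _ he).trans (h x y)

omit [Fintype V] [DecidableEq V] in
theorem add {e : ℕ} {M M' N N' : Matrix V V ℤ⟦X⟧} (h : Cg e M M') (h' : Cg e N N') :
    Cg e (M + N) (M' + N') := fun x y => by
  have := dvd_add (h x y) (h' x y)
  rw [Matrix.add_apply, Matrix.add_apply, add_sub_add_comm]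
  exact this

omit [Fintype V] [DecidableEq V] in
theorem sub {e : ℕ} {M M' N N' : Matrix V V ℤ⟦X⟧} (h : Cg e M M') (h' : Cg e N N') :
    Cg e (M - N) (M' - N') := fun x y => by
  have := dvd_sub (h x y) (h' x y)
  rw [Matrix.sub_apply, Matrix.sub_apply, sub_sub_sub_comm]
  exact this

omit [DecidableEq V] in
theorem mul_left {e : ℕ} {M M' : Matrix V V ℤ⟦X⟧} (N : Matrix V V ℤ⟦X⟧) (h : Cg e M M') :
    Cg e (N * M) (N * M') := fun x y => by
  rw [Matrix.mul_apply, Matrix.mul_apply, ← Finset.sum_sub_distrib]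
  apply Finset.dvd_sum
  intro z _
  rw [← mul_sub]
  exact (h z y).mul_left _

omit [DecidableEq V] in
theorem mul_right {e : ℕ} {M M' : Matrix V V ℤ⟦X⟧} (N : Matrix V V ℤ⟦X⟧) (h : Cg e M M') :
    Cg e (M * N) (M' * N) := fun x y => by
  rw [Matrix.mul_apply, Matrix.mul_apply, ← Finset.sum_sub_distrib]
  apply Finset.dvd_sum
  intro z _
  rw [← sub_mul]
  exact (h x z).mul_right _

omit [DecidableEq V] in
theorem mul_zero' {i j : ℕ} {M N : Matrix V V ℤ⟦X⟧} (h : Cg i M 0) (h' : Cg j N 0) :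
    Cg (i + j) (M * N) 0 := fun x y => by
  rw [Matrix.zero_apply, sub_zero, Matrix.mul_apply]
  apply Finset.dvd_sum
  intro z _
  rw [pow_add]
  have h1 := h x z
  have h2 := h' z y
  rw [Matrix.zero_apply, sub_zero] at h1 h2
  exact mul_dvd_mul h1 h2

theorem pow_zero' {M : Matrix V V ℤ⟦X⟧} (h : Cg 1 M 0) (n : ℕ) : Cg n (M ^ n) 0 := by
  induction n with
  | zero => intro x y; rw [pow_zero]; exact one_dvd _
  | succ n ih => rw [pow_succ]; exact mul_zero' ih h

theorem geo_right {M : Matrix V V ℤ⟦X⟧} (h : Cg 1 M 0) (L : ℕ) :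
    Cg (2 ^ L) ((1 - M) * geoV L M) 1 := by
  unfold geoV
  rw [mul_neg_geom_sum]
  have h1 := (pow_zero' h (2 ^ L))
  have h2 := (refl (2 ^ L) (1 : Matrix V V ℤ⟦X⟧)).sub h1
  rwa [sub_zero] at h2

theorem geo_left {M : Matrix V V ℤ⟦X⟧} (h : Cg 1 M 0) (L : ℕ) :
    Cg (2 ^ L) (geoV L M * (1 - M)) 1 := by
  unfold geoV
  rw [geom_sum_mul_neg]
  have h1 := (pow_zero' h (2 ^ L))
  have h2 := (refl (2 ^ L) (1 : Matrix V V ℤ⟦X⟧)).sub h1
  rwa [sub_zero] at h2

end Cg

/-- `K ≡ P - P Δ S K` modulo `X ^ (2 ^ L)` -/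
theorem kOf_cg {D S K : Matrix V V ℤ⟦X⟧} {β : V → ℤ⟦X⟧}
    (hK : (1 - (X : ℤ⟦X⟧) • D + Matrix.diagonal β * S) * K = 1) {L : ℕ} {b : V → ℤ⟦X⟧}
    (hb : ∀ x, (X : ℤ⟦X⟧) ∣ b x) :
    Cg (2 ^ L) K (kOf L D S (Matrix.diagonal b) - kOf L D S (Matrix.diagonal b) *
      Matrix.diagonal (fun x => β x - b x) * S * K) := by
  set N : Matrix V V ℤ⟦X⟧ := (X : ℤ⟦X⟧) • D - Matrix.diagonal b * S with hN
  have hN1 : Cg 1 N 0 := by
    intro x y
    rw [Matrix.zero_apply, sub_zero, hN, Matrix.sub_apply, Matrix.smul_apply,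
      Matrix.diagonal_mul, pow_one, smul_eq_mul]
    exact dvd_sub (Dvd.intro _ rfl) ((hb x).mul_right _)
  have h1 : kOf L D S (Matrix.diagonal b) = geoV L N := rfl
  rw [h1]
  have h2 : (1 - N) * K = 1 - Matrix.diagonal (fun x => β x - b x) * S * K := by
    have h3 : Matrix.diagonal (fun x => β x - b x) = Matrix.diagonal β - Matrix.diagonal b := by
      rw [Matrix.diagonal_sub]
    rw [h3]
    have h4 : (1 - N) * K = (1 - (X : ℤ⟦X⟧) • D + Matrix.diagonal β * S) * K -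
        (Matrix.diagonal β - Matrix.diagonal b) * S * K := by
      rw [hN]; noncomm_ring
    rw [h4, hK]
  have h3 := (Cg.geo_left hN1 L).mul_right K
  rw [mul_assoc, h2, mul_sub, mul_one, one_mul, ← mul_assoc, ← mul_assoc] at h3
  exact h3.symm

omit [Fintype V] in
theorem diag_cg {j : ℕ} {c : V → ℤ⟦X⟧} (h : ∀ x, (X : ℤ⟦X⟧) ^ j ∣ c x) :
    Cg j (Matrix.diagonal c) 0 := by
  intro x y
  rw [Matrix.zero_apply, sub_zero]
  by_cases hxy : x = y
  · rw [hxy, Matrix.diagonal_apply_eq]; exact h y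
  · rw [Matrix.diagonal_apply_ne _ hxy]; exact dvd_zero _

theorem kOf_cg' {D S K : Matrix V V ℤ⟦X⟧} {β : V → ℤ⟦X⟧}
    (hK : (1 - (X : ℤ⟦X⟧) • D + Matrix.diagonal β * S) * K = 1) {L j : ℕ} {b : V → ℤ⟦X⟧}
    (hb : ∀ x, (X : ℤ⟦X⟧) ∣ b x) (hj : ∀ x, (X : ℤ⟦X⟧) ^ j ∣ β x - b x) :
    Cg (min j (2 ^ L)) K (kOf L D S (Matrix.diagonal b)) := by
  have h1 := (kOf_cg hK (L := L) hb).mono (min_le_right j _)
  refine h1.trans ?_
  have h2 : Cg (min j (2 ^ L)) (kOf L D S (Matrix.diagonal b) *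
      Matrix.diagonal (fun x => β x - b x) * S * K) 0 := by
    have h3 := (((diag_cg hj).mul_left (kOf L D S (Matrix.diagonal b))).mul_right S).mul_right K
    simp only [mul_zero, zero_mul] at h3
    exact h3.mono (min_le_left _ _)
  have h3 := (Cg.refl (min j (2 ^ L)) (kOf L D S (Matrix.diagonal b))).sub h2
  rwa [sub_zero] at h3

theorem kOf_cg2 {D S K : Matrix V V ℤ⟦X⟧} {β : V → ℤ⟦X⟧}
    (hK : (1 - (X : ℤ⟦X⟧) • D + Matrix.diagonal β * S) * K = 1) {L j : ℕ} {b : V → ℤ⟦X⟧}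
    (hb : ∀ x, (X : ℤ⟦X⟧) ∣ b x) (hj : ∀ x, (X : ℤ⟦X⟧) ^ j ∣ β x - b x) :
    Cg (min (2 * j) (2 ^ L)) K (kOf L D S (Matrix.diagonal b) - kOf L D S (Matrix.diagonal b) *
      Matrix.diagonal (fun x => β x - b x) * S * kOf L D S (Matrix.diagonal b)) := by
  have h1 := (kOf_cg hK (L := L) hb).mono (min_le_right (2 * j) _)
  refine h1.trans ?_
  refine (Cg.refl _ _).sub ?_
  have h2 := kOf_cg' hK (L := L) hb hj
  have h3 : Cg (min j (2 ^ L)) (K - kOf L D S (Matrix.diagonal b)) 0 := by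
    have := h2.sub (Cg.refl _ (kOf L D S (Matrix.diagonal b)))
    rwa [sub_self] at this
  have h4 : Cg j (kOf L D S (Matrix.diagonal b) *
      Matrix.diagonal (fun x => β x - b x) * S) 0 := by
    have h3 := ((diag_cg hj).mul_left (kOf L D S (Matrix.diagonal b))).mul_right S
    simp only [mul_zero, zero_mul] at h3
    exact h3
  have h5 := (h4.mul_zero' h3).mono (e' := min (2 * j) (2 ^ L)) (by omega)
  rw [mul_sub] at h5
  have h6 := h5.add (Cg.refl _ (kOf L D S (Matrix.diagonal b) *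
    Matrix.diagonal (fun x => β x - b x) * S * kOf L D S (Matrix.diagonal b)))
  rwa [sub_add_cancel, zero_add] at h6

theorem newton_step {D S K : Matrix V V ℤ⟦X⟧} {β : V → ℤ⟦X⟧}
    (hβ : ∀ x, β x = X ^ 2 * (D * K * D * S) x x)
    (hK : (1 - (X : ℤ⟦X⟧) • D + Matrix.diagonal β * S) * K = 1) {L j : ℕ} {b : V → ℤ⟦X⟧}
    (hb : ∀ x, (X : ℤ⟦X⟧) ∣ b x) (hj : ∀ x, (X : ℤ⟦X⟧) ^ j ∣ β x - b x) :
    ∃ b' : V → ℤ⟦X⟧, newtonStep L D S (Matrix.diagonal b) = Matrix.diagonal b' ∧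
      ∀ x, (X : ℤ⟦X⟧) ^ (min (2 * j) (2 ^ L)) ∣ β x - b' x := by
  set P := kOf L D S (Matrix.diagonal b) with hP
  set Q : Matrix V V ℤ⟦X⟧ := (X : ℤ⟦X⟧) • (X : ℤ⟦X⟧) • Matrix.of fun x y =>
    (D * P) x y * (S * P * D * S).transpose x y with hQ
  set A := Matrix.diagonal (fun x => ((X : ℤ⟦X⟧) • (X : ℤ⟦X⟧) • (D * P * D * S)) x x) -
    Matrix.diagonal b with hA
  set J : Matrix V V ℤ⟦X⟧ := Matrix.of fun _ _ => 1 with hJ
  set Δ := Matrix.diagonal (fun x => β x - b x) with hΔ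
  refine ⟨fun x => b x + (geoV L (-Q) * A * J) x x, ?_, ?_⟩
  · rw [← Matrix.diagonal_add]
    rfl
  · set e := min (2 * j) (2 ^ L) with he
    have h1 := kOf_cg2 hK (L := L) hb hj
    rw [← hP, ← he] at h1
    have h2 := ((h1.mul_left D).mul_right D).mul_right S
    -- diagonal entries
    have h3 : Cg e ((1 + Q) * Δ * J) (A * J) := by
      intro x y
      have h4 := h2 x x
      have hJ1 : ∀ (M : Matrix V V ℤ⟦X⟧) (c : V → ℤ⟦X⟧),
          (M * Matrix.diagonal c * J) x y = ∑ w, M x w * c w := by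
        intro M c
        rw [Matrix.mul_apply]
        apply Finset.sum_congr rfl
        intro w _
        rw [Matrix.mul_diagonal, hJ, Matrix.of_apply, mul_one]
      have h5 : ((1 + Q) * Δ * J) x y = (β x - b x) + ∑ w, Q x w * (β w - b w) := by
        rw [add_mul, add_mul, one_mul, Matrix.add_apply, hΔ, hJ1]
        congr 1
        have := hJ1 1 (fun x => β x - b x)
        rw [one_mul] at this
        rw [this]
        rw [Finset.sum_eq_single x]
        · rw [Matrix.one_apply_eq, one_mul]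
        · intro w _ hw
          rw [Matrix.one_apply_ne (Ne.symm hw), zero_mul]
        · intro h; exact absurd (Finset.mem_univ x) h
      have h6 : (A * J) x y = X ^ 2 * (D * P * D * S) x x - b x := by
        have h7 : A = Matrix.diagonal (fun x => X ^ 2 * (D * P * D * S) x x - b x) := by
          rw [hA]
          rw [Matrix.diagonal_sub]
          congr 1
          funext z
          rw [Matrix.smul_apply, Matrix.smul_apply, smul_eq_mul, smul_eq_mul]
          ring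
        rw [h7]
        have := hJ1 1 (fun x => X ^ 2 * (D * P * D * S) x x - b x)
        rw [one_mul] at this
        rw [this, Finset.sum_eq_single x]
        · rw [Matrix.one_apply_eq, one_mul]
        · intro w _ hw
          rw [Matrix.one_apply_ne (Ne.symm hw), zero_mul]
        · intro h; exact absurd (Finset.mem_univ x) h
      have h8 : (D * (P - P * Δ * S * P) * D * S) x x = (D * P * D * S) x x -
          ∑ w, (D * P) x w * (β w - b w) * (S * P * D * S) w x := by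
        have h9 : D * (P - P * Δ * S * P) * D * S = D * P * D * S -
            (D * P) * Δ * (S * P * D * S) := by noncomm_ring
        rw [h9, Matrix.sub_apply]
        congr 1
        rw [Matrix.mul_apply]
        apply Finset.sum_congr rfl
        intro w _
        rw [hΔ, Matrix.mul_diagonal]
      have h9 : ∑ w, Q x w * (β w - b w) =
          X ^ 2 * ∑ w, (D * P) x w * (β w - b w) * (S * P * D * S) w x := by
        rw [Finset.mul_sum]
        apply Finset.sum_congr rfl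
        intro w _
        rw [hQ, Matrix.smul_apply, Matrix.smul_apply, Matrix.of_apply, Matrix.transpose_apply,
          smul_eq_mul, smul_eq_mul]
        ring
      rw [h5, h6, h9]
      rw [h8] at h4
      have h10 : β x - b x + X ^ 2 * ∑ w, (D * P) x w * (β w - b w) * (S * P * D * S) w x -
          (X ^ 2 * (D * P * D * S) x x - b x) = X ^ 2 * ((D * K * D * S) x x -
          ((D * P * D * S) x x - ∑ w, (D * P) x w * (β w - b w) * (S * P * D * S) w x)) := by
        rw [hβ x]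
        ring
      rw [h10]
      exact h4.mul_left _
    have hQ1 : Cg 1 (-Q) 0 := by
      intro x y
      rw [Matrix.zero_apply, sub_zero, Matrix.neg_apply, hQ, Matrix.smul_apply, smul_eq_mul,
        pow_one]
      exact (Dvd.intro _ rfl : _ ∣ _).neg_right
    have h4 := (((Cg.geo_left hQ1 L).mul_right Δ).mul_right J).mono (min_le_right (2 * j) (2 ^ L))
    rw [sub_neg_eq_add, one_mul, ← he] at h4
    have h5 := h3.mul_left (geoV L (-Q))
    have h6 : geoV L (-Q) * ((1 + Q) * Δ * J) = geoV L (-Q) * (1 + Q) * Δ * J := by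
      simp only [mul_assoc]
    rw [h6, ← mul_assoc] at h5
    have h7 := h4.symm.trans h5
    intro x
    have h8 := h7 x x
    have h9 : (Δ * J) x x = β x - b x := by
      rw [hΔ, Matrix.diagonal_mul, hJ, Matrix.of_apply, mul_one]
    rw [h9] at h8
    have h10 : β x - (b x + (geoV L (-Q) * A * J) x x) =
        β x - b x - (geoV L (-Q) * A * J) x x := by ring
    rw [h10]
    exact h8

theorem newton_iter {D S K : Matrix V V ℤ⟦X⟧} {β : V → ℤ⟦X⟧}
    (hβ : ∀ x, β x = X ^ 2 * (D * K * D * S) x x)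
    (hK : (1 - (X : ℤ⟦X⟧) • D + Matrix.diagonal β * S) * K = 1) (L k : ℕ) :
    ∃ b : V → ℤ⟦X⟧, (newtonStep L D S)^[k] 0 = Matrix.diagonal b ∧
      (∀ x, (X : ℤ⟦X⟧) ∣ b x) ∧ ∀ x, (X : ℤ⟦X⟧) ^ (min (2 ^ k) (2 ^ L)) ∣ β x - b x := by
  have hβX : ∀ x, (X : ℤ⟦X⟧) ∣ β x := by
    intro x
    rw [hβ x, pow_two, mul_assoc]
    exact Dvd.intro _ rfl
  have key : ∀ (i : ℕ) (b : V → ℤ⟦X⟧), 1 ≤ i → (∀ x, (X : ℤ⟦X⟧) ^ i ∣ β x - b x) →
      ∀ x, (X : ℤ⟦X⟧) ∣ b x := by
    intro i b hi h x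
    have h1 : (X : ℤ⟦X⟧) ∣ β x - b x := (dvd_pow_self _ (by omega)).trans (h x)
    have h2 := dvd_sub (hβX x) h1
    rwa [sub_sub_cancel] at h2
  induction k with
  | zero =>
    refine ⟨0, ?_, fun x => dvd_zero _, fun x => ?_⟩
    · rw [Function.iterate_zero_apply]
      exact (Matrix.diagonal_zero).symm
    · have h1 : min (2 ^ 0) (2 ^ L) = 1 := by
        rw [pow_zero]
        exact min_eq_left (Nat.one_le_two_pow)
      rw [h1, pow_one, Pi.zero_apply, sub_zero]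
      exact hβX x
  | succ k ih =>
    obtain ⟨b, h1, h2, h3⟩ := ih
    obtain ⟨b', h4, h5⟩ := newton_step hβ hK (L := L) h2 h3
    have h6 : min (2 * min (2 ^ k) (2 ^ L)) (2 ^ L) = min (2 ^ (k + 1)) (2 ^ L) := by
      rw [pow_succ]
      omega
    rw [h6] at h5
    refine ⟨b', ?_, ?_, h5⟩
    · rw [Function.iterate_succ_apply', h1, h4]
    · refine key _ b' ?_ h5
      exact le_min Nat.one_le_two_pow Nat.one_le_two_pow

/-- Newton iteration converges quadratically to the path matrix. -/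
theorem newton_converges {D S K : Matrix V V ℤ⟦X⟧} {β : V → ℤ⟦X⟧}
    (hβ : ∀ x, β x = X ^ 2 * (D * K * D * S) x x)
    (hK : (1 - (X : ℤ⟦X⟧) • D + Matrix.diagonal β * S) * K = 1) {L k e : ℕ}
    (hL : e ≤ 2 ^ L) (hk : e ≤ 2 ^ k) (x y : V) {d : ℕ} (hd : d < e) :
    coeff d (kOf L D S ((newtonStep L D S)^[k] 0) x y) = coeff d (K x y) := by
  obtain ⟨b, h1, h2, h3⟩ := newton_iter hβ hK L k
  rw [h1]
  have h4 := (kOf_cg' hK (L := L) h2 h3).mono (e' := e) (by omega)
  have h5 := h4 x y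
  rw [X_pow_dvd_iff] at h5
  have h6 := h5 d hd
  rw [map_sub, sub_eq_zero] at h6
  exact h6.symm

end Pool.Agent.H79.Upm
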