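import Mathlib

/-!
# Regular paths in skew-symmetric digraphs

`V` is a finite set with an involution `σ` (the perfect matching) and `D` is a relation with
`D x y → D (σ y) (σ x)` (go along the matching edge from `x` to `σ x` and then along a
non-matching edge to `y`). A path is regular if its vertices lie on pairwise different
matching edges `{x, σ x}`.
-/

namespace Pool.Agent.H79.Upm

open PowerSeries

variable {V : Type} [Fintype V] [DecidableEq V]

/-- The members of the list lie on pairwise different matching edges. -/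
def Reg (σ : V → V) (l : List V) : Prop := l.Pairwise fun a b => a ≠ b ∧ a ≠ σ b

/-- `l` is a regular `D`-path from `x` to `y`. -/
def RegPath (σ : V → V) (D : V → V → Prop) (x y : V) (l : List V) : Prop :=
  l.head? = some x ∧ l.getLast? = some y ∧ l.IsChain D ∧ Reg σ l

/-- There is a regular `D`-cycle. -/
def RegCycle (σ : V → V) (D : V → V → Prop) : Prop :=
  ∃ x y l, RegPath σ D x y l ∧ D y x

section lists

omit [Fintype V] [DecidableEq V]

variable {σ : V → V} {D : V → V → Prop} {x y u w v : V} {l p q r s : List V}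

theorem Reg.nodup (h : Reg σ l) : l.Nodup := h.imp fun h => h.1

theorem RegPath.ne_nil (h : RegPath σ D x y l) : l ≠ [] := by
  rintro rfl
  simp [RegPath] at h

theorem RegPath.nodup (h : RegPath σ D x y l) : l.Nodup := h.2.2.2.nodup

theorem RegPath.left (h : RegPath σ D x y (p ++ v :: q)) : RegPath σ D x v (p ++ [v]) := by
  obtain ⟨h1, h2, h3, h4⟩ := h
  refine ⟨?_, by simp, ?_, ?_⟩
  · cases p <;> simpa using h1
  · have : p ++ v :: q = (p ++ [v]) ++ q := by simp
    rw [this] at h3
    exact h3.left_of_append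
  · have : p ++ v :: q = (p ++ [v]) ++ q := by simp
    unfold Reg at *
    rw [this, List.pairwise_append] at h4
    exact h4.1

theorem RegPath.right (h : RegPath σ D x y (p ++ v :: q)) : RegPath σ D v y (v :: q) := by
  obtain ⟨h1, h2, h3, h4⟩ := h
  refine ⟨by simp, ?_, h3.right_of_append, ?_⟩
  · rw [List.getLast?_append_of_ne_nil _ (by simp)] at h2
    exact h2
  · unfold Reg at *
    rw [List.pairwise_append] at h4
    exact h4.2.1

theorem RegPath.mem_head (h : RegPath σ D x y l) : x ∈ l := List.mem_of_head? h.1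

theorem RegPath.head_unique (h : RegPath σ D x y l) (h' : RegPath σ D u w l) : x = u := by
  have := h.1.symm.trans h'.1
  simpa using this

theorem RegPath.last_unique (h : RegPath σ D x y l) (h' : RegPath σ D u w l) : y = w := by
  have := h.2.1.symm.trans h'.2.1
  simpa using this

/-- joining two paths. -/
theorem RegPath.append (h : RegPath σ D x u p) (h' : RegPath σ D w y q) (hD : D u w)
    (hreg : ∀ a ∈ p, ∀ b ∈ q, a ≠ b ∧ a ≠ σ b) : RegPath σ D x y (p ++ q) := by
  obtain ⟨h1, h2, h3, h4⟩ := h
  obtain ⟨k1, k2, k3, k4⟩ := h'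
  refine ⟨?_, ?_, ?_, ?_⟩
  · rw [List.head?_append, h1]; rfl
  · rw [List.getLast?_append, k2]; rfl
  · rw [List.isChain_append]
    refine ⟨h3, k3, ?_⟩
    intro a ha b hb
    rw [h2] at ha
    rw [k1] at hb
    simp at ha hb
    subst ha hb
    exact hD
  · unfold Reg at *
    rw [List.pairwise_append]
    exact ⟨h4, k4, hreg⟩

/-- splitting a path. -/
theorem RegPath.split (h : RegPath σ D x y (p ++ v :: q)) (hp : p ≠ []) :
    ∃ w, RegPath σ D x w p ∧ D w v := by
  obtain ⟨h1, h2, h3, h4⟩ := h
  obtain ⟨p', w, rfl⟩ : ∃ p' w, p = p' ++ [w] :=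
    ⟨p.dropLast, p.getLast hp, (List.dropLast_append_getLast hp).symm⟩
  refine ⟨w, ⟨?_, by simp, h3.left_of_append, ?_⟩, ?_⟩
  · cases p' <;> simpa using h1
  · unfold Reg at *
    rw [List.pairwise_append] at h4
    exact h4.1
  · rw [List.isChain_append] at h3
    exact h3.2.2 w (by simp) v (by simp)

theorem Reg.map_reverse (hσ : ∀ x, σ (σ x) = x) (h : Reg σ l) : Reg σ (l.reverse.map σ) := by
  unfold Reg at *
  rw [List.pairwise_map, List.pairwise_reverse]
  refine h.imp ?_
  intro a b hab
  refine ⟨fun e => hab.1 ?_, fun e => hab.2 ?_⟩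
  · have := congrArg σ e
    rw [hσ, hσ] at this
    exact this.symm
  · rw [hσ] at e
    exact e.symm

theorem RegPath.map_reverse (hσ : ∀ x, σ (σ x) = x) (hD : ∀ x y, D x y → D (σ y) (σ x))
    (h : RegPath σ D x y l) : RegPath σ D (σ y) (σ x) (l.reverse.map σ) := by
  obtain ⟨h1, h2, h3, h4⟩ := h
  refine ⟨by simp [h2], by simp [h1], ?_, h4.map_reverse hσ⟩
  refine List.isChain_map_of_isChain (R := fun a b => D b a) (S := D) σ (fun a b hab => hD _ _ hab) ?_
  rw [List.isChain_reverse]
  exact h3

/-- (a) -/
theorem not_mem_self (hno : ¬ RegCycle σ D) (h : RegPath σ D u w l) (hD : D x u) : x ∉ l := by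
  intro hx
  obtain ⟨p, q, rfl⟩ := List.append_of_mem hx
  exact hno ⟨_, _, _, h.left, hD⟩

theorem not_mem_self' (hno : ¬ RegCycle σ D) (h : RegPath σ D u w l) (hD : D w x) : x ∉ l := by
  intro hx
  obtain ⟨p, q, rfl⟩ := List.append_of_mem hx
  exact hno ⟨_, _, _, h.right, hD⟩

/-- (c) -/
theorem cross (hσ : ∀ x, σ (σ x) = x) (hD : ∀ x y, D x y → D (σ y) (σ x))
    (hno : ¬ RegCycle σ D)
    (h1 : RegPath σ D u w p) (hxu : D x u) (hwx : D w (σ x)) (h2 : RegPath σ D (σ x) y q) :
    ∀ a ∈ q, a ∉ p ∧ σ a ∉ p := by
  classical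
  by_contra hcon
  -- first bad vertex
  have hex : ∃ r v s, q = r ++ v :: s ∧ (v ∈ p ∨ σ v ∈ p) ∧ ∀ a ∈ r, a ∉ p ∧ σ a ∉ p := by
    have : ∀ t : List V, (¬ ∀ a ∈ t, a ∉ p ∧ σ a ∉ p) →
        ∃ r v s, t = r ++ v :: s ∧ (v ∈ p ∨ σ v ∈ p) ∧ ∀ a ∈ r, a ∉ p ∧ σ a ∉ p := by
      intro t
      induction t with
      | nil => intro h; exact absurd (by simp) h
      | cons c t ih =>
        intro h
        by_cases hc : c ∉ p ∧ σ c ∉ p
        · obtain ⟨r, v, s, rfl, hv, hr⟩ := ih (by
            intro h'
            apply h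
            intro a ha
            rcases List.mem_cons.1 ha with rfl | ha
            · exact hc
            · exact h' a ha)
          refine ⟨c :: r, v, s, by simp, hv, ?_⟩
          intro a ha
          rcases List.mem_cons.1 ha with rfl | ha
          · exact hc
          · exact hr a ha
        · exact ⟨[], c, t, by simp, by tauto, by simp⟩
    exact this q hcon
  obtain ⟨r, v, s, rfl, hv, hr⟩ := hex
  have hx1 : x ∉ p := not_mem_self hno h1 hxu
  have hx2 : σ x ∉ p := not_mem_self' hno h1 hwx
  have hrne : r ≠ [] := by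
    rintro rfl
    have : v = σ x := by simpa using h2.1
    subst this
    rw [hσ] at hv
    tauto
  obtain ⟨c, hc1, hc2⟩ := h2.split hrne
  rcases hv with hv | hv
  · obtain ⟨p1, p2, rfl⟩ := List.append_of_mem hv
    have hR := h1.right
    refine hno ⟨_, _, _, hc1.append hR hc2 ?_, hwx⟩
    intro a ha b hb
    have hb' : b ∈ p1 ++ v :: p2 := List.mem_append_right _ hb
    refine ⟨?_, ?_⟩
    · rintro rfl
      exact (hr a ha).1 hb'
    · rintro rfl
      exact (hr _ ha).2 (by rw [hσ]; exact hb')
  · obtain ⟨p1, p2, rfl⟩ := List.append_of_mem hv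
    have hL := h1.left.map_reverse hσ hD
    rw [hσ] at hL
    refine hno ⟨_, _, _, hc1.append hL hc2 ?_, hD _ _ hxu⟩
    intro a ha b hb
    have hb' : σ b ∈ p1 ++ σ v :: p2 := by
      simp only [List.mem_map, List.mem_reverse, List.mem_append, List.mem_singleton] at hb
      obtain ⟨b', hb', rfl⟩ := hb
      rw [hσ]
      simp only [List.mem_append, List.mem_cons]
      tauto
    refine ⟨?_, ?_⟩
    · rintro rfl
      exact (hr a ha).2 hb'
    · rintro rfl
      exact (hr _ ha).1 hb'

end lists

section gf

variable {σ : V → V} {D : V → V → Prop} {x y u w v : V} {l p q r s : List V}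

theorem finite_regPath (σ : V → V) (D : V → V → Prop) (x y : V) :
    {l : List V | RegPath σ D x y l}.Finite := by
  refine (List.finite_length_le V (Fintype.card V)).subset ?_
  intro l hl
  exact List.Nodup.length_le_card (RegPath.nodup hl)

/-- The finite set of regular paths. -/
noncomputable def PF (σ : V → V) (D : V → V → Prop) (x y : V) : Finset (List V) :=
  (finite_regPath σ D x y).toFinset

theorem mem_PF : l ∈ PF σ D x y ↔ RegPath σ D x y l := by
  simp [PF]

/-- The number of regular `D`-paths from `x` to `y` with `d` steps. -/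
noncomputable def pathCount (σ : V → V) (D : V → V → Prop) (d : ℕ) (x y : V) : ℕ :=
  Set.ncard {l : List V | RegPath σ D x y l ∧ l.length = d + 1}

/-- Generating functions of the regular paths. -/
noncomputable def Kmat (σ : V → V) (D : V → V → Prop) : Matrix V V ℤ⟦X⟧ :=
  Matrix.of fun x y => PowerSeries.mk fun d => (pathCount σ D d x y : ℤ)

open Classical in
/-- The matrix of a relation. -/
noncomputable def relMat (D : V → V → Prop) : Matrix V V ℤ⟦X⟧ :=
  Matrix.of fun x y => if D x y then 1 else 0

theorem pathCount_eq (σ : V → V) (D : V → V → Prop) (d : ℕ) (x y : V) :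
    pathCount σ D d x y = ((PF σ D x y).filter fun l => l.length = d + 1).card := by
  unfold pathCount
  rw [← Set.ncard_coe_finset]
  congr 1
  ext l
  simp [mem_PF]

theorem pathCount_le (σ : V → V) (D : V → V → Prop) (d : ℕ) (x y : V) :
    pathCount σ D d x y ≤ Fintype.card V ^ Fintype.card V := by
  by_cases hd : Fintype.card V ≤ d
  · have : {l : List V | RegPath σ D x y l ∧ l.length = d + 1} = ∅ := by
      ext l
      simp only [Set.mem_ofPred_eq, Set.mem_empty_iff_false, iff_false, not_and]
      intro hl hl'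
      have := List.Nodup.length_le_card (RegPath.nodup hl)
      omega
    unfold pathCount
    rw [this]
    simp
  · push Not at hd
    have hfin : {l : List V | l.length = d + 1}.Finite := List.finite_length_eq V (d + 1)
    have h1 : pathCount σ D d x y ≤ Set.ncard {l : List V | l.length = d + 1} :=
      Set.ncard_le_ncard (fun l hl => hl.2) hfin
    have h2 : Set.ncard {l : List V | l.length = d + 1} = Fintype.card V ^ (d + 1) := by
      have := card_vector (α := V) (d + 1)
      rw [← this, ← Nat.card_eq_fintype_card]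
      rfl
    calc pathCount σ D d x y ≤ Fintype.card V ^ (d + 1) := by rw [← h2]; exact h1
      _ ≤ Fintype.card V ^ Fintype.card V := Nat.pow_le_pow_right (by omega) (by omega)

/-- Regular paths have fewer steps than there are vertices. -/
theorem pathCount_eq_zero (σ : V → V) (D : V → V → Prop) {d : ℕ} (hd : Fintype.card V ≤ d)
    (x y : V) : pathCount σ D d x y = 0 := by
  have : {l : List V | RegPath σ D x y l ∧ l.length = d + 1} = ∅ := by
    ext l
    simp only [Set.mem_ofPred_eq, Set.mem_empty_iff_false, iff_false, not_and]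
    intro hl hl'
    have := List.Nodup.length_le_card (RegPath.nodup hl)
    omega
  unfold pathCount
  rw [this]
  simp

theorem pathCount_pos_iff (σ : V → V) (D : V → V → Prop) (x y : V) :
    (∃ d, 0 < pathCount σ D d x y) ↔ ∃ l, RegPath σ D x y l := by
  constructor
  · rintro ⟨d, hd⟩
    obtain ⟨l, hl⟩ := Set.nonempty_of_ncard_ne_zero hd.ne'
    exact ⟨l, hl.1⟩
  · rintro ⟨l, hl⟩
    have hne := hl.ne_nil
    have hpos := List.length_pos_iff.2 hne
    refine ⟨l.length - 1, ?_⟩
    rw [pathCount_eq, Finset.card_pos]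
    exact ⟨l, by simp only [Finset.mem_filter, mem_PF]; exact ⟨hl, by omega⟩⟩

/-- Generating function (by number of vertices) of a finite set of lists. -/
noncomputable def gf (S : Finset (List V)) : ℤ⟦X⟧ := ∑ l ∈ S, X ^ l.length

theorem X_mul_Kmat (σ : V → V) (D : V → V → Prop) (x y : V) :
    (X : ℤ⟦X⟧) * Kmat σ D x y = gf (PF σ D x y) := by
  ext d
  unfold gf
  rw [map_sum]
  simp only [coeff_X_pow]
  rw [Finset.sum_ite, Finset.sum_const_zero, add_zero, Finset.sum_const, nsmul_eq_mul, mul_one]
  cases d with
  | zero =>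
    rw [coeff_zero_X_mul]
    symm
    rw [Nat.cast_eq_zero, Finset.card_eq_zero, Finset.filter_eq_empty_iff]
    intro l hl h
    rw [mem_PF] at hl
    exact hl.ne_nil (List.length_eq_zero_iff.1 h.symm)
  | succ d =>
    rw [coeff_succ_X_mul]
    unfold Kmat
    rw [Matrix.of_apply, coeff_mk, pathCount_eq]
    congr 2
    ext l
    simp [eq_comm]

open Classical in
/-- the paths which start at a successor of `x`. -/
noncomputable def AF (σ : V → V) (D : V → V → Prop) (x y : V) : Finset (List V) :=
  (Finset.univ.filter fun u => D x u).biUnion fun u => PF σ D u y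

open Classical in
/-- the paths which start at a successor of `x` and end at a predecessor of `σ x`. -/
noncomputable def BF (σ : V → V) (D : V → V → Prop) (x : V) : Finset (List V) :=
  ((Finset.univ.filter fun u => D x u) ×ˢ (Finset.univ.filter fun w => D w (σ x))).biUnion
    fun z => PF σ D z.1 z.2

theorem mem_AF : l ∈ AF σ D x y ↔ ∃ u, D x u ∧ RegPath σ D u y l := by
  classical
  simp [AF, mem_PF]

theorem mem_BF : l ∈ BF σ D x ↔ ∃ u w, D x u ∧ D w (σ x) ∧ RegPath σ D u w l := by
  classical
  simp only [BF, Finset.mem_biUnion, Finset.mem_product, Finset.mem_filter, Finset.mem_univ,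
    true_and, mem_PF, Prod.exists]
  constructor
  · rintro ⟨u, w, ⟨h1, h2⟩, h3⟩
    exact ⟨u, w, h1, h2, h3⟩
  · rintro ⟨u, w, h1, h2, h3⟩
    exact ⟨u, w, ⟨h1, h2⟩, h3⟩

open Classical in
theorem gf_AF : gf (AF σ D x y) =
    ∑ u ∈ Finset.univ.filter (fun u => D x u), gf (PF σ D u y) := by
  unfold gf AF
  rw [Finset.sum_biUnion]
  intro u _ u' _ huu'
  rw [Function.onFun, Finset.disjoint_left]
  intro l h1 h2
  rw [mem_PF] at h1 h2
  exact huu' (h1.head_unique h2)

open Classical in
theorem gf_BF : gf (BF σ D x) =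
    ∑ z ∈ (Finset.univ.filter fun u => D x u) ×ˢ (Finset.univ.filter fun w => D w (σ x)),
      gf (PF σ D z.1 z.2) := by
  unfold gf BF
  rw [Finset.sum_biUnion]
  intro u _ u' _ huu'
  rw [Function.onFun, Finset.disjoint_left]
  intro l h1 h2
  rw [mem_PF] at h1 h2
  exact huu' (Prod.ext (h1.head_unique h2) (h1.last_unique h2))

open Classical in
theorem gf_PF_eq : gf (PF σ D x y) = (if x = y then (X : ℤ⟦X⟧) else 0) +
    X * gf ((AF σ D x y).filter fun l => Reg σ (x :: l)) := by
  have hset : PF σ D x y = (if x = y then {[x]} else ∅) ∪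
      ((AF σ D x y).filter fun l => Reg σ (x :: l)).image (fun l => x :: l) := by
    ext l
    rw [mem_PF, Finset.mem_union, Finset.mem_image]
    constructor
    · intro h
      obtain ⟨h1, h2, h3, h4⟩ := h
      cases l with
      | nil => simp at h1
      | cons a l =>
        have ha : a = x := by simpa using h1
        subst ha
        cases l with
        | nil =>
          left
          have : a = y := by simpa using h2
          simp [this]
        | cons b l =>
          right
          refine ⟨b :: l, ?_, rfl⟩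
          rw [Finset.mem_filter, mem_AF]
          rw [List.isChain_cons_cons] at h3
          refine ⟨⟨b, h3.1, by simp, by simpa using h2, h3.2, ?_⟩, h4⟩
          unfold Reg at *
          rw [List.pairwise_cons] at h4
          exact h4.2
    · rintro (h | ⟨l, h, rfl⟩)
      · split_ifs at h with hxy
        · subst hxy
          rw [Finset.mem_singleton] at h
          subst h
          exact ⟨by simp, by simp, List.isChain_singleton _, List.pairwise_singleton _ _⟩
        · simp at h
      · rw [Finset.mem_filter, mem_AF] at h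
        obtain ⟨⟨u, hu, h1, h2, h3, h4⟩, h5⟩ := h
        refine ⟨by simp, ?_, ?_, h5⟩
        · cases l with
          | nil => simp at h1
          | cons b l => simpa using h2
        · exact h3.cons (by rw [h1]; simpa using hu)
  rw [hset]
  unfold gf
  rw [Finset.sum_union, Finset.sum_image, Finset.mul_sum]
  · congr 1
    · split_ifs <;> simp
    · refine Finset.sum_congr rfl fun l _ => ?_
      rw [List.length_cons, pow_succ, mul_comm]
  · intro a _ b _ hab
    simpa using hab
  · rw [Finset.disjoint_left]
    intro l h1 h2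
    split_ifs at h1 with hxy
    · rw [Finset.mem_singleton] at h1
      rw [Finset.mem_image] at h2
      obtain ⟨l', h2, h3⟩ := h2
      rw [h1] at h3
      have : l' = [] := by simpa using h3
      rw [this, Finset.mem_filter, mem_AF] at h2
      obtain ⟨⟨u, -, hu⟩, -⟩ := h2
      exact hu.ne_nil rfl
    · simp at h1

open Classical in
theorem gf_bad (hσ : ∀ x, σ (σ x) = x)
    (hD : ∀ x y, D x y → D (σ y) (σ x))
    (hirr' : ∀ x, ¬ D x (σ x)) (hno : ¬ RegCycle σ D) :
    gf ((AF σ D x y).filter fun l => ¬ Reg σ (x :: l)) =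
      gf (BF σ D x) * gf (PF σ D (σ x) y) := by
  unfold gf
  rw [Finset.sum_mul_sum, ← Finset.sum_product']
  symm
  refine Finset.sum_bij (fun z _ => z.1 ++ z.2) ?_ ?_ ?_ ?_
  · rintro ⟨p, q⟩ h
    rw [Finset.mem_product, mem_BF, mem_PF] at h
    obtain ⟨⟨u, w, h1, h2, h3⟩, h4⟩ := h
    dsimp only at h3 h4 ⊢
    have hc := cross hσ hD hno h3 h1 h2 h4
    rw [Finset.mem_filter, mem_AF]
    refine ⟨⟨u, h1, h3.append h4 h2 ?_⟩, ?_⟩
    · intro a ha b hb
      obtain ⟨hb1, hb2⟩ := hc b hb
      refine ⟨?_, ?_⟩
      · rintro rfl; exact hb1 ha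
      · rintro rfl; exact hb2 ha
    · intro hR
      unfold Reg at hR
      rw [List.pairwise_cons] at hR
      have := (hR.1 (σ x) (List.mem_append_right _ h4.mem_head)).2
      rw [hσ] at this
      exact this rfl
  · rintro ⟨p, q⟩ h ⟨p', q'⟩ h' heq
    dsimp only at heq
    rw [Finset.mem_product, mem_BF, mem_PF] at h h'
    obtain ⟨⟨u, w, h1, h2, h3⟩, h4⟩ := h
    obtain ⟨⟨u', w', h1', h2', h3'⟩, h4'⟩ := h'
    dsimp only at h3 h4 h3' h4'
    have hp : σ x ∉ p := not_mem_self' hno h3 h2
    have hp' : σ x ∉ p' := not_mem_self' hno h3' h2'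
    obtain ⟨q1, rfl⟩ : ∃ q1, q = σ x :: q1 := by
      have := h4.1
      cases q with
      | nil => simp at this
      | cons a q => exact ⟨q, by simp at this; rw [this]⟩
    obtain ⟨q1', rfl⟩ : ∃ q1, q' = σ x :: q1 := by
      have := h4'.1
      cases q' with
      | nil => simp at this
      | cons a q => exact ⟨q, by simp at this; rw [this]⟩
    rw [List.append_eq_append_iff] at heq
    rcases heq with ⟨a, ha, hb⟩ | ⟨a, ha, hb⟩
    · cases a with
      | nil =>
        simp only [List.append_nil] at ha
        simp only [List.nil_append] at hb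
        rw [ha, hb]
      | cons c a =>
        have : c = σ x := by
          simp only [List.cons_append, List.cons.injEq] at hb
          exact hb.1.symm
        subst this
        exact absurd (by rw [ha]; simp) hp'
    · cases a with
      | nil =>
        simp only [List.append_nil] at ha
        simp only [List.nil_append] at hb
        rw [ha, hb]
      | cons c a =>
        have : c = σ x := by
          simp only [List.cons_append, List.cons.injEq] at hb
          exact hb.1.symm
        subst this
        exact absurd (by rw [ha]; simp) hp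
  · intro l h
    rw [Finset.mem_filter, mem_AF] at h
    obtain ⟨⟨u, hu, hl⟩, hR⟩ := h
    have hx : x ∉ l := not_mem_self hno hl hu
    have hσx : σ x ∈ l := by
      by_contra hσx
      apply hR
      unfold Reg
      rw [List.pairwise_cons]
      refine ⟨fun b hb => ⟨?_, ?_⟩, hl.2.2.2⟩
      · rintro rfl; exact hx hb
      · intro e
        apply hσx
        rw [e, hσ]
        exact hb
    obtain ⟨p, q, rfl⟩ := List.append_of_mem hσx
    have hp : p ≠ [] := by
      rintro rfl
      have : σ x = u := by simpa using hl.1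
      subst this
      exact hirr' _ hu
    obtain ⟨w, hw1, hw2⟩ := hl.split hp
    refine ⟨(p, σ x :: q), ?_, rfl⟩
    rw [Finset.mem_product, mem_BF, mem_PF]
    exact ⟨⟨u, w, hu, hw2, hw1⟩, hl.right⟩
  · rintro ⟨p, q⟩ _
    dsimp only
    rw [List.length_append, pow_add]

theorem gf_identity (hσ : ∀ x, σ (σ x) = x)
    (hD : ∀ x y, D x y → D (σ y) (σ x))
    (hirr' : ∀ x, ¬ D x (σ x)) (hno : ¬ RegCycle σ D) (x y : V) :
    gf (PF σ D x y) - X * gf (AF σ D x y) + X * (gf (BF σ D x) * gf (PF σ D (σ x) y)) =
      if x = y then (X : ℤ⟦X⟧) else 0 := by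
  classical
  rw [← gf_bad hσ hD hirr' hno, gf_PF_eq]
  have : gf (AF σ D x y) = gf ((AF σ D x y).filter fun l => Reg σ (x :: l)) +
      gf ((AF σ D x y).filter fun l => ¬ Reg σ (x :: l)) := by
    unfold gf
    rw [Finset.sum_filter_add_sum_filter_not]
  rw [this]
  ring

/-- **The key identity**: without regular cycles the generating matrix `K` of the regular paths
satisfies `(1 - X D + diag(β) Σ) K = 1` with `β x = X² (D K D Σ) x x`, the generating function of the
blossoms at `σ x`. -/
theorem key_identity {σ : V → V} {D : V → V → Prop} (hσ : ∀ x, σ (σ x) = x)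
    (hfix : ∀ x, σ x ≠ x) (hD : ∀ x y, D x y → D (σ y) (σ x)) (hirr : ∀ x, ¬ D x x)
    (hirr' : ∀ x, ¬ D x (σ x)) (hno : ¬ RegCycle σ D) :
    (1 - (X : ℤ⟦X⟧) • relMat D +
      Matrix.diagonal (fun x => X ^ 2 *
        (relMat D * Kmat σ D * relMat D * relMat (fun a b => b = σ a)) x x) *
      relMat (fun a b => b = σ a)) * Kmat σ D = 1 := by
  classical
  ext1 x y
  rw [add_mul, sub_mul, one_mul, Matrix.smul_mul, Matrix.mul_assoc (Matrix.diagonal _)]
  rw [Matrix.add_apply, Matrix.sub_apply, Matrix.smul_apply, Matrix.diagonal_mul]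
  have e1 : (relMat (fun a b => b = σ a) * Kmat σ D) x y = Kmat σ D (σ x) y := by
    rw [Matrix.mul_apply]
    simp [relMat]
  have e2 : (X : ℤ⟦X⟧) * (relMat D * Kmat σ D) x y = gf (AF σ D x y) := by
    rw [Matrix.mul_apply, gf_AF, Finset.mul_sum, Finset.sum_filter]
    refine Finset.sum_congr rfl fun u _ => ?_
    by_cases hu : D x u
    · simp [relMat, hu, X_mul_Kmat]
    · simp [relMat, hu]
  have e3 : (X : ℤ⟦X⟧) * (relMat D * Kmat σ D * relMat D * relMat (fun a b => b = σ a)) x x =
      gf (BF σ D x) := by
    have f1 : (relMat D * Kmat σ D * relMat D * relMat (fun a b => b = σ a)) x x =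
        (relMat D * Kmat σ D * relMat D) x (σ x) := by
      rw [Matrix.mul_apply, Finset.sum_eq_single (σ x)]
      · simp [relMat, hσ]
      · intro v _ hv
        have : ¬ (x = σ v) := by
          intro e
          apply hv
          rw [e, hσ]
        simp [relMat, this]
      · simp
    rw [f1, gf_BF, Finset.sum_product_right, Matrix.mul_apply, Finset.mul_sum, Finset.sum_filter]
    refine Finset.sum_congr rfl fun w _ => ?_
    by_cases hw : D w (σ x)
    · simp only [relMat, Matrix.of_apply, hw, if_true, mul_one]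
      rw [Matrix.mul_apply, Finset.mul_sum, Finset.sum_filter]
      refine Finset.sum_congr rfl fun u _ => ?_
      by_cases hu : D x u
      · simp [hu, X_mul_Kmat]
      · simp [hu]
    · simp [relMat, hw]
  apply mul_left_cancel₀ (X_ne_zero : (X : ℤ⟦X⟧) ≠ 0)
  have hid := gf_identity (y := y) hσ hD hirr' hno x
  rw [e1]
  rw [← e3, ← e2, ← X_mul_Kmat, ← X_mul_Kmat] at hid
  rw [Matrix.one_apply, mul_ite, mul_one, mul_zero, ← hid]
  simp only [smul_eq_mul]
  ring

end gf

end Pool.Agent.H79.Upm
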