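import Pool.Agent.H79.Upm.LS

/-!
# Counter programs

Structured programs over counters numbered by `ℕ`, with a big-step semantics that bounds the
values of the counters and records the output.
-/

namespace Pool.Agent.H79.Upm

/-- Structured counter programs with output. -/
inductive RProg : Type
  | skip : RProg
  | inc (r : ℕ) : RProg
  | dec (r : ℕ) : RProg
  | seq (P Q : RProg) : RProg
  /-- if `r = 0` then `P` else `Q` -/
  | ifz (r : ℕ) (P Q : RProg) : RProg
  /-- while `r ≠ 0` do (decrease `r`; `P`) -/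
  | loop (r : ℕ) (P : RProg) : RProg
  /-- write a bit on the output tape -/
  | out (b : Bool) : RProg

namespace RProg

/-- `Exec B P σ σ' w`: the program `P` started with the counter values `σ` halts with the
values `σ'` and the output `w`, and no counter is ever increased above `B`. -/
inductive Exec (B : ℕ) : RProg → (ℕ → ℕ) → (ℕ → ℕ) → List Bool → Prop
  | skip (σ : ℕ → ℕ) : Exec B skip σ σ []
  | inc (σ : ℕ → ℕ) (r : ℕ) (h : σ r < B) :
      Exec B (inc r) σ (Function.update σ r (σ r + 1)) []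
  | dec (σ : ℕ → ℕ) (r : ℕ) : Exec B (dec r) σ (Function.update σ r (σ r - 1)) []
  | seq {P Q : RProg} {σ σ' σ'' : ℕ → ℕ} {u v : List Bool} (h : Exec B P σ σ' u)
      (h' : Exec B Q σ' σ'' v) : Exec B (seq P Q) σ σ'' (u ++ v)
  | ifzZ {P Q : RProg} {σ σ' : ℕ → ℕ} {r : ℕ} {u : List Bool} (hr : σ r = 0)
      (h : Exec B P σ σ' u) : Exec B (ifz r P Q) σ σ' u
  | ifzS {P Q : RProg} {σ σ' : ℕ → ℕ} {r : ℕ} {u : List Bool} (hr : σ r ≠ 0)
      (h : Exec B Q σ σ' u) : Exec B (ifz r P Q) σ σ' u
  | loopZ {P : RProg} {σ : ℕ → ℕ} {r : ℕ} (hr : σ r = 0) : Exec B (loop r P) σ σ []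
  | loopS {P : RProg} {σ σ' σ'' : ℕ → ℕ} {r : ℕ} {u v : List Bool} (hr : σ r ≠ 0)
      (h : Exec B P (Function.update σ r (σ r - 1)) σ' u)
      (h' : Exec B (loop r P) σ' σ'' v) : Exec B (loop r P) σ σ'' (u ++ v)
  | out (σ : ℕ → ℕ) (b : Bool) : Exec B (out b) σ σ [b]

/-- The counters with numbers `< R` include all counters of the program. -/
def Below (R : ℕ) : RProg → Prop
  | skip => True
  | inc r => r < R
  | dec r => r < R
  | seq P Q => P.Below R ∧ Q.Below R
  | ifz r P Q => r < R ∧ P.Below R ∧ Q.Below R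
  | loop r P => r < R ∧ P.Below R
  | out _ => True

theorem Exec.mono {B B' : ℕ} (hB : B ≤ B') {P : RProg} {σ σ' : ℕ → ℕ} {u : List Bool}
    (h : Exec B P σ σ' u) : Exec B' P σ σ' u := by
  induction h with
  | skip σ => exact .skip σ
  | inc σ r h => exact .inc σ r (h.trans_le hB)
  | dec σ r => exact .dec σ r
  | seq _ _ ih ih' => exact .seq ih ih'
  | ifzZ hr _ ih => exact .ifzZ hr ih
  | ifzS hr _ ih => exact .ifzS hr ih
  | loopZ hr => exact .loopZ hr
  | loopS hr _ _ ih ih' => exact .loopS hr ih ih'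
  | out σ b => exact .out σ b

end RProg

end Pool.Agent.H79.Upm
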