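import Pool.Agent.H79.Upm.LSLib

/-!
# Uniform layered arithmetic systems

A system prescribes, for every parameter `⟨p, k⟩`, every layer `t` and every index `i`, a ring
operation on entries of the previous layer. `AOp R K G` says that the operator `G` on arrays
over the commutative ring `R` is computed by a system of polylogarithmic depth and polynomial
width, for all `k < K p`.
-/

namespace Pool.Agent.H79.Upm

/-- Code of a gate: parameters `p`, `k`, layer `t`, index `i`. -/
def cd (p k t i : ℕ) : ℕ := Nat.pair (Nat.pair p k) (Nat.pair t i)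

/-- Code of an index: parameters `p`, `k`, index `i`. -/
def ci (p k i : ℕ) : ℕ := Nat.pair (Nat.pair p k) i

/-- A layered system: kind and arguments of every gate. -/
structure USys where
  op : ℕ → ℕ
  a : ℕ → ℕ
  b : ℕ → ℕ

namespace USys

variable (E : USys) {R : Type} [CommRing R]

/-- One layer. -/
def step (p k t : ℕ) (S : ℕ → R) (i : ℕ) : R :=
  if E.op (cd p k t i) = 0 then 0
  else if E.op (cd p k t i) = 1 then 1
  else if E.op (cd p k t i) = 2 then -1
  else if E.op (cd p k t i) = 3 then S (E.a (cd p k t i))
  else if E.op (cd p k t i) = 4 then S (E.a (cd p k t i)) + S (E.b (cd p k t i))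
  else S (E.a (cd p k t i)) * S (E.b (cd p k t i))

/-- The array after `t` layers. -/
def run (p k : ℕ) : ℕ → (ℕ → R) → ℕ → R
  | 0, S => S
  | t + 1, S => E.step p k t (run p k t S)

/-- The system is uniform, of polylogarithmic depth `T` and closed on the indices below the
polynomial width `W`. -/
structure Good (K T W : ℕ → ℕ) : Prop where
  lsOp : LS E.op
  lsA : LS E.a
  lsB : LS E.b
  lsT : LS T
  polyLog : PolyLog T
  lsW : LS W
  closed_a : ∀ p k t i, k < K p → i < W p → E.a (cd p k t i) < W p
  closed_b : ∀ p k t i, k < K p → i < W p → E.b (cd p k t i) < W p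

end USys

/-- The operator `G` on arrays over `R` is computed (for `k < K p`) by uniform layered systems
of polylogarithmic depth and polynomial width. -/
def AOp (R : Type) [CommRing R] (K : ℕ → ℕ) (G : ℕ → ℕ → (ℕ → R) → ℕ → R) : Prop :=
  ∀ w : ℕ → ℕ, LS w → ∃ (E : USys) (T W : ℕ → ℕ), E.Good K T W ∧ (∀ p, w p ≤ W p) ∧
    ∀ p k, k < K p → ∀ (S : ℕ → R) (i : ℕ), i < w p → E.run p k (T p) S i = G p k S i

/-- Two arrays in one: `S` on the even indices, `V` on the odd ones. -/
def jn {R : Type} (S V : ℕ → R) (i : ℕ) : R := if i % 2 = 0 then S (i / 2) else V (i / 2)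

/-- Set the entries with index `≥ Z` to zero. -/
def tr {R : Type} [Zero R] (Z : ℕ) (V : ℕ → R) (i : ℕ) : R := if i < Z then V i else 0

/-- Iteration with step number. -/
def iterA {X : Type} (f : ℕ → X → X) : ℕ → X → X
  | 0, x => x
  | n + 1, x => f n (iterA f n x)

end Pool.Agent.H79.Upm
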