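import Pool.Agent.H79.Upm.SysBasic

/-!
# Layered systems: pointwise ring operations
-/

namespace Pool.Agent.H79.Upm

namespace AOp

variable {R : Type} [CommRing R] {K : ℕ → ℕ} {F G : ℕ → ℕ → (ℕ → R) → ℕ → R}

theorem id (hK : LS K) : AOp R K (fun _ _ S => S) := by
  refine (reindex (R := R) hK (g := fun z => z.unpair.2) (LS.snd LS.id)).congr ?_
  intro p k S i _
  simp [ci]

/-- One layer combining the entries `2i` and `2i + 1`. -/
theorem layer2 (hK : LS K) (o : ℕ) : AOp R K (fun p k S i =>
    (⟨fun _ => o, fun _ => 0, fun _ => 1⟩ : USys).step p k 0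
      (fun j => S (2 * i + j)) i) := by
  intro w hw
  refine ⟨⟨fun _ => o, fun z => if sbI z < w (sbP z) then 2 * sbI z else 0,
    fun z => if sbI z < w (sbP z) then 2 * sbI z + 1 else 0⟩,
    fun _ => 1, fun p => 2 * w p + 1,
    ⟨LS.const o, ?_, ?_, LS.const 1, PolyLog.const 1, ((LS.const 2).mul hw).succ, ?_, ?_⟩, ?_, ?_⟩
  · exact LSP.ite (LSP.lt LS.id.sbI (hw.sbOf LS.id.sbP)) ((LS.const 2).mul LS.id.sbI) (LS.const 0)
  · exact LSP.ite (LSP.lt LS.id.sbI (hw.sbOf LS.id.sbP)) ((LS.const 2).mul LS.id.sbI).succ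
      (LS.const 0)
  · intro p k t i _ _
    simp only [sbP_cd, sbI_cd]
    split_ifs <;> omega
  · intro p k t i _ _
    simp only [sbP_cd, sbI_cd]
    split_ifs <;> omega
  · intro p
    dsimp only
    omega
  · intro p k hk S i hi
    simp [USys.run, USys.step, hi]

theorem add (hK : LS K) (hF : AOp R K F) (hG : AOp R K G) :
    AOp R K (fun p k S i => F p k S i + G p k S i) := by
  refine (comp hK (join hK hF hG) (layer2 hK 4)).congr ?_
  intro p k S i _
  have h1 : (2 * i + 1) / 2 = i := by omega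
  simp [USys.step, jn, h1]

theorem mul (hK : LS K) (hF : AOp R K F) (hG : AOp R K G) :
    AOp R K (fun p k S i => F p k S i * G p k S i) := by
  refine (comp hK (join hK hF hG) (layer2 hK 5)).congr ?_
  intro p k S i _
  have h1 : (2 * i + 1) / 2 = i := by omega
  simp [USys.step, jn, h1]

theorem neg (hK : LS K) (hF : AOp R K F) : AOp R K (fun p k S i => - F p k S i) := by
  refine (mul hK (negOne hK) hF).congr ?_
  intro p k S i _
  simp

theorem sub (hK : LS K) (hF : AOp R K F) (hG : AOp R K G) :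
    AOp R K (fun p k S i => F p k S i - G p k S i) := by
  refine (add hK hF (neg hK hG)).congr ?_
  intro p k S i _
  exact (sub_eq_add_neg _ _).symm

/-- Reindexing of a computed array. -/
theorem reindexOf (hK : LS K) (hF : AOp R K F) {g : ℕ → ℕ} (hg : LS g) :
    AOp R K (fun p k S i => F p k S (g (ci p k i))) :=
  comp hK hF (reindex hK hg)

/-- Definition by cases. -/
theorem ite (hK : LS K) {P : ℕ → Prop} [DecidablePred P] (hP : LSP P) (hF : AOp R K F)
    (hG : AOp R K G) :
    AOp R K (fun p k S i => if P (ci p k i) then F p k S i else G p k S i) := by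
  refine (add hK (mul hK (bit hK hP) hF) (mul hK (bit hK (LSP.not hP)) hG)).congr ?_
  intro p k S i _
  by_cases h : P (ci p k i) <;> simp [h]

/-- Truncation. -/
theorem trunc (hK : LS K) (hF : AOp R K F) {Z : ℕ → ℕ} (hZ : LS Z) :
    AOp R K (fun p k S => tr (Z p) (F p k S)) := by
  have hP : LSP (fun z : ℕ => z.unpair.2 < Z z.unpair.1.unpair.1) :=
    LSP.lt (LS.snd LS.id) (LS.comp hZ (LS.fst (LS.fst LS.id)))
  refine (ite hK hP hF (bit hK (P := fun _ => False) ?_)).congr ?_
  · have h0 : (fun n : ℕ => if (fun _ : ℕ => False) n then 1 else 0) = fun _ : ℕ => (0 : ℕ) := by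
      funext n; simp
    unfold LSP
    rw [h0]
    exact LS.zero
  · intro p k S i _
    simp [ci, tr]

end AOp

end Pool.Agent.H79.Upm
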