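import Pool.Agent.H79.Upm.Sys

/-!
# Layered systems: basic closure properties
-/

namespace Pool.Agent.H79.Upm

/-! ### Projections of codes -/

/-- parameter `p` of a code -/
def sbP (z : ℕ) : ℕ := z.unpair.1.unpair.1
/-- parameter `k` of a code -/
def sbK (z : ℕ) : ℕ := z.unpair.1.unpair.2
/-- layer of a code -/
def sbT (z : ℕ) : ℕ := z.unpair.2.unpair.1
/-- index of a code -/
def sbI (z : ℕ) : ℕ := z.unpair.2.unpair.2

@[simp] theorem sbP_cd (p k t i : ℕ) : sbP (cd p k t i) = p := by simp [sbP, cd]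
@[simp] theorem sbK_cd (p k t i : ℕ) : sbK (cd p k t i) = k := by simp [sbK, cd]
@[simp] theorem sbT_cd (p k t i : ℕ) : sbT (cd p k t i) = t := by simp [sbT, cd]
@[simp] theorem sbI_cd (p k t i : ℕ) : sbI (cd p k t i) = i := by simp [sbI, cd]

theorem LS.sbP {f : ℕ → ℕ} (hf : LS f) : LS (fun n => Upm.sbP (f n)) := LS.fst (LS.fst hf)
theorem LS.sbK {f : ℕ → ℕ} (hf : LS f) : LS (fun n => Upm.sbK (f n)) := LS.snd (LS.fst hf)
theorem LS.sbT {f : ℕ → ℕ} (hf : LS f) : LS (fun n => Upm.sbT (f n)) := LS.fst (LS.snd hf)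
theorem LS.sbI {f : ℕ → ℕ} (hf : LS f) : LS (fun n => Upm.sbI (f n)) := LS.snd (LS.snd hf)
theorem LS.sbCd {a b c d : ℕ → ℕ} (ha : LS a) (hb : LS b) (hc : LS c) (hd : LS d) :
    LS (fun n => Upm.cd (a n) (b n) (c n) (d n)) := LS.pair (LS.pair ha hb) (LS.pair hc hd)
theorem LS.sbCi {a b c : ℕ → ℕ} (ha : LS a) (hb : LS b) (hc : LS c) :
    LS (fun n => Upm.ci (a n) (b n) (c n)) := LS.pair (LS.pair ha hb) hc

/-- Composition with the outer function first (for dot notation). -/
theorem LS.sbOf {f g : ℕ → ℕ} (hf : LS f) (hg : LS g) : LS (fun n => f (g n)) := LS.comp hf hg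

namespace USys

variable {R : Type} [CommRing R]

theorem step_congr {E : USys} {p k t W : ℕ} {S S' : ℕ → R} {i : ℕ}
    (ha : E.a (cd p k t i) < W) (hb : E.b (cd p k t i) < W)
    (h : ∀ j < W, S j = S' j) : E.step p k t S i = E.step p k t S' i := by
  simp only [step, h _ ha, h _ hb]

/-- The run only depends on the entries below the width. -/
theorem run_congr {E : USys} {p k W : ℕ}
    (ha : ∀ t i, i < W → E.a (cd p k t i) < W) (hb : ∀ t i, i < W → E.b (cd p k t i) < W)
    {S S' : ℕ → R} (h : ∀ j < W, S j = S' j) :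
    ∀ t, ∀ i < W, E.run p k t S i = E.run p k t S' i := by
  intro t
  induction t with
  | zero => exact h
  | succ t ih =>
      intro i hi
      exact step_congr (ha t i hi) (hb t i hi) ih

end USys

namespace AOp

variable {R : Type} [CommRing R] {K : ℕ → ℕ} {F G : ℕ → ℕ → (ℕ → R) → ℕ → R}

theorem congr (h : AOp R K F) (hFG : ∀ p k S i, k < K p → F p k S i = G p k S i) :
    AOp R K G := by
  intro w hw
  obtain ⟨E, T, W, hE, hwW, hr⟩ := h w hw
  exact ⟨E, T, W, hE, hwW, fun p k hk S i hi => (hr p k hk S i hi).trans (hFG p k S i hk)⟩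

/-- Local form of the definition. -/
theorem of_forall (h : ∀ w, LS w → ∃ F, AOp R K F ∧
    ∀ p k S i, k < K p → i < w p → F p k S i = G p k S i) : AOp R K G := by
  intro w hw
  obtain ⟨F, hF, hFG⟩ := h w hw
  obtain ⟨E, T, W, hE, hwW, hr⟩ := hF w hw
  exact ⟨E, T, W, hE, hwW, fun p k hk S i hi => (hr p k hk S i hi).trans (hFG p k S i hk hi)⟩

/-- The operators only depend on finitely many entries, uniformly. -/
theorem local_dep (h : AOp R K G) {w : ℕ → ℕ} (hw : LS w) :
    ∃ W, LS W ∧ ∀ p k S S', k < K p → (∀ j < W p, S j = S' j) →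
      ∀ i < w p, G p k S i = G p k S' i := by
  obtain ⟨E, T, W, hE, hwW, hr⟩ := h w hw
  refine ⟨W, hE.lsW, fun p k S S' hk hS i hi => ?_⟩
  rw [← hr p k hk S i hi, ← hr p k hk S' i hi]
  exact USys.run_congr (fun t i hi => hE.closed_a p k t i hk hi)
    (fun t i hi => hE.closed_b p k t i hk hi) hS _ i (hi.trans_le (hwW p))

/-- Reindexing by an `LS` function. -/
theorem reindex (hK : LS K) {g : ℕ → ℕ} (hg : LS g) :
    AOp R K (fun p k S i => S (g (ci p k i))) := by
  intro w hw
  obtain ⟨W0, hW0, hb⟩ := LS.bound_three hg hK hw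
  let W : ℕ → ℕ := fun p => w p + W0 p + 1
  have hW : LS W := (hw.add hW0).succ
  refine ⟨⟨fun _ => 3, fun z => if g (ci (sbP z) (sbK z) (sbI z)) < W (sbP z) then
    g (ci (sbP z) (sbK z) (sbI z)) else 0, fun _ => 0⟩, fun _ => 1, W,
    ⟨LS.const 3, ?_, LS.const 0, LS.const 1, PolyLog.const 1, hW, ?_, ?_⟩, ?_, ?_⟩
  · have h1 : LS (fun z => g (ci (sbP z) (sbK z) (sbI z))) :=
      hg.sbOf (LS.sbCi LS.id.sbP LS.id.sbK LS.id.sbI)
    exact LSP.ite (LSP.lt h1 (hW.sbOf LS.id.sbP)) h1 (LS.const 0)
  · intro p k t i _ _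
    simp only [sbP_cd, sbK_cd, sbI_cd]
    split_ifs with h
    · exact h
    · exact Nat.succ_pos _
  · intro p k t i _ _
    exact Nat.succ_pos _
  · intro p
    exact le_trans (Nat.le_add_right _ _) (Nat.le_add_right _ 1)
  · intro p k hk S i hi
    have h1 : g (ci p k i) < W p := by
      have := hb p k i hk hi
      simp only [W]
      unfold ci
      omega
    simp [USys.run, USys.step, h1]

/-- Constants 0 and 1 given by an `LS` predicate. -/
theorem bit (hK : LS K) {P : ℕ → Prop} [DecidablePred P] (hP : LSP P) :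
    AOp R K (fun p k _ i => if P (ci p k i) then 1 else 0) := by
  intro w hw
  refine ⟨⟨fun z => if P (ci (sbP z) (sbK z) (sbI z)) then 1 else 0, fun _ => 0, fun _ => 0⟩,
    fun _ => 1, fun p => w p + 1,
    ⟨?_, LS.const 0, LS.const 0, LS.const 1, PolyLog.const 1, hw.succ, ?_, ?_⟩, ?_, ?_⟩
  · exact LS.sbOf (f := fun n => if P n then 1 else 0) hP (LS.sbCi LS.id.sbP LS.id.sbK LS.id.sbI)
  · intro p k t i _ _
    exact Nat.succ_pos _
  · intro p k t i _ _
    exact Nat.succ_pos _
  · intro p
    exact Nat.le_succ _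
  · intro p k hk S i hi
    by_cases h : P (ci p k i) <;> simp [USys.run, USys.step, h]

theorem negOne (hK : LS K) : AOp R K (fun _ _ _ _ => -1) := by
  intro w hw
  refine ⟨⟨fun _ => 2, fun _ => 0, fun _ => 0⟩,
    fun _ => 1, fun p => w p + 1,
    ⟨LS.const 2, LS.const 0, LS.const 0, LS.const 1, PolyLog.const 1, hw.succ, ?_, ?_⟩, ?_, ?_⟩
  · intro p k t i _ _
    exact Nat.succ_pos _
  · intro p k t i _ _
    exact Nat.succ_pos _
  · intro p
    exact Nat.le_succ _
  · intro p k hk S i hi
    simp [USys.run, USys.step]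

/-- Composition. -/
theorem comp (hK : LS K) (hF : AOp R K F) (hG : AOp R K G) :
    AOp R K (fun p k S => G p k (F p k S)) := by
  intro w hw
  obtain ⟨EG, TG, WG, hEG, hwG, hrG⟩ := hG w hw
  obtain ⟨EF, TF, WF, hEF, hwF, hrF⟩ := hF WG hEG.lsW
  let sel : (ℕ → ℕ) → (ℕ → ℕ) → ℕ → ℕ := fun u v z =>
    if sbT z < TF (sbP z) then u z
    else if sbI z < WG (sbP z) then v (cd (sbP z) (sbK z) (sbT z - TF (sbP z)) (sbI z)) else 0
  have hsel : ∀ {u v : ℕ → ℕ}, LS u → LS v → LS (sel u v) := by
    intro u v hu hv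
    refine LSP.ite (LSP.lt LS.id.sbT (hEF.lsT.sbOf LS.id.sbP)) hu ?_
    refine LSP.ite (LSP.lt LS.id.sbI (hEG.lsW.sbOf LS.id.sbP)) ?_ (LS.const 0)
    exact hv.sbOf (LS.sbCd LS.id.sbP LS.id.sbK (LS.id.sbT.sub (hEF.lsT.sbOf LS.id.sbP)) LS.id.sbI)
  let E : USys := ⟨sel EF.op EG.op, sel EF.a EG.a, sel EF.b EG.b⟩
  have hcl : ∀ u v : ℕ → ℕ, (∀ p k t i, k < K p → i < WF p → u (cd p k t i) < WF p) →
      (∀ p k t i, k < K p → i < WG p → v (cd p k t i) < WG p) →
      ∀ p k t i, k < K p → i < WF p → sel u v (cd p k t i) < WF p := by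
    intro u v hu hv p k t i hk hi
    simp only [sel, sbP_cd, sbK_cd, sbT_cd, sbI_cd]
    split_ifs with h1 h2
    · exact hu p k t i hk hi
    · exact (hv p k _ i hk h2).trans_le (hwF p)
    · omega
  have hrun1 : ∀ p k (S : ℕ → R) t, t ≤ TF p → E.run p k t S = EF.run p k t S := by
    intro p k S t
    induction t with
    | zero => intro _; rfl
    | succ t ih =>
        intro ht
        have h1 : t < TF p := ht
        funext i
        simp only [USys.run, ih h1.le]
        simp [USys.step, E, sel, h1]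
  have hrun2 : ∀ p k, k < K p → ∀ (S : ℕ → R) s, ∀ i < WG p,
      E.run p k (TF p + s) S i = EG.run p k s (EF.run p k (TF p) S) i := by
    intro p k hk S s
    induction s with
    | zero => intro i _; rw [Nat.add_zero, hrun1 p k S (TF p) le_rfl]; rfl
    | succ s ih =>
        intro i hi
        have h1 : ¬ (TF p + s < TF p) := by omega
        have h2 : TF p + s - TF p = s := by omega
        rw [← Nat.add_assoc]
        simp only [USys.run]
        have ha := ih _ (hEG.closed_a p k s i hk hi)
        have hb := ih _ (hEG.closed_b p k s i hk hi)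
        simp only [USys.step, E, sel, sbP_cd, sbK_cd, sbT_cd, sbI_cd, h1, if_false, h2, hi, if_true]
        simp only [E, sel] at ha hb
        rw [ha, hb]
  refine ⟨E, fun p => TF p + TG p, WF,
    ⟨hsel hEF.lsOp hEG.lsOp, hsel hEF.lsA hEG.lsA, hsel hEF.lsB hEG.lsB, hEF.lsT.add hEG.lsT,
      hEF.polyLog.add hEG.polyLog, hEF.lsW, hcl _ _ hEF.closed_a hEG.closed_a,
      hcl _ _ hEF.closed_b hEG.closed_b⟩, fun p => (hwG p).trans (hwF p), ?_⟩
  intro p k hk S i hi
  rw [hrun2 p k hk S (TG p) i (hi.trans_le (hwG p))]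
  refine Eq.trans ?_ (hrG p k hk (F p k S) i hi)
  exact USys.run_congr (fun t i hi => hEG.closed_a p k t i hk hi)
    (fun t i hi => hEG.closed_b p k t i hk hi) (fun j hj => hrF p k hk S j hj) _ i
    (hi.trans_le (hwG p))

/-- Parallel composition. -/
theorem join (hK : LS K) (hF : AOp R K F) (hG : AOp R K G) :
    AOp R K (fun p k S => jn (F p k S) (G p k S)) := by
  intro w hw
  obtain ⟨EF, TF, WF, hEF, hwF, hrF⟩ := hF w hw
  obtain ⟨EG, TG, WG, hEG, hwG, hrG⟩ := hG w hw
  let W : ℕ → ℕ := fun p => 2 * (WF p + WG p)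
  have hW : LS W := (LS.const 2).mul (hEF.lsW.add hEG.lsW)
  -- `c0`: value in the first layer, `cc`: value in the copy layers, `m`: transformation
  let sel : (ℕ → ℕ) → (ℕ → ℕ) → (ℕ → ℕ) → (ℕ → ℕ) → ℕ → ℕ → ℕ → ℕ → ℕ :=
    fun c0 cc u v m0 m1 m2 z =>
    if sbT z = 0 then c0 z
    else if sbI z % 2 = 0 then
      (if sbI z / 2 < WF (sbP z) then
        (if sbT z - 1 < TF (sbP z) then m0 * u (cd (sbP z) (sbK z) (sbT z - 1) (sbI z / 2)) else cc z)
        else 0)
    else
      (if sbI z / 2 < WG (sbP z) then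
        (if sbT z - 1 < TG (sbP z) then m1 * v (cd (sbP z) (sbK z) (sbT z - 1) (sbI z / 2)) + m2
          else cc z)
        else 0)
  have hsel : ∀ {c0 cc u v : ℕ → ℕ} (m0 m1 m2 : ℕ), LS c0 → LS cc → LS u → LS v →
      LS (sel c0 cc u v m0 m1 m2) := by
    intro c0 cc u v m0 m1 m2 h0 hc hu hv
    have hi2 : LS (fun z => sbI z / 2) := LS.id.sbI.div (LS.const 2)
    have ht1 : LS (fun z => sbT z - 1) := LS.id.sbT.sub (LS.const 1)
    have hcd : LS (fun z => cd (sbP z) (sbK z) (sbT z - 1) (sbI z / 2)) :=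
      LS.sbCd LS.id.sbP LS.id.sbK ht1 hi2
    refine LSP.ite (LSP.eq LS.id.sbT (LS.const 0)) h0 ?_
    refine LSP.ite (LSP.eq (LS.id.sbI.mod (LS.const 2)) (LS.const 0)) ?_ ?_
    · refine LSP.ite (LSP.lt hi2 (hEF.lsW.sbOf LS.id.sbP)) ?_ (LS.const 0)
      exact LSP.ite (LSP.lt ht1 (hEF.lsT.sbOf LS.id.sbP)) ((LS.const m0).mul (hu.sbOf hcd)) hc
    · refine LSP.ite (LSP.lt hi2 (hEG.lsW.sbOf LS.id.sbP)) ?_ (LS.const 0)
      exact LSP.ite (LSP.lt ht1 (hEG.lsT.sbOf LS.id.sbP))
        (((LS.const m1).mul (hv.sbOf hcd)).add (LS.const m2)) hc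
  let E : USys := ⟨sel (fun _ => 3) (fun _ => 3) EF.op EG.op 1 1 0,
    sel (fun z => sbI z / 2) sbI EF.a EG.a 2 2 1, sel (fun z => sbI z / 2) sbI EF.b EG.b 2 2 1⟩
  have hcl : ∀ u v : ℕ → ℕ, (∀ p k t i, k < K p → i < WF p → u (cd p k t i) < WF p) →
      (∀ p k t i, k < K p → i < WG p → v (cd p k t i) < WG p) →
      ∀ p k t i, k < K p → i < W p →
        sel (fun z => sbI z / 2) sbI u v 2 2 1 (cd p k t i) < W p := by
    intro u v hu hv p k t i hk hi
    simp only [sel, sbP_cd, sbK_cd, sbT_cd, sbI_cd]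
    split_ifs with h0 h1 h2 h3 h2 h3
    · omega
    · have := hu p k (t - 1) (i / 2) hk h2
      simp only [W]; omega
    · exact hi
    · omega
    · have := hv p k (t - 1) (i / 2) hk h2
      simp only [W]; omega
    · exact hi
    · omega
  have key : ∀ p k, k < K p → ∀ (S : ℕ → R) s,
      (∀ j < WF p, E.run p k (s + 1) S (2 * j) = EF.run p k (min s (TF p)) S j) ∧
      (∀ j < WG p, E.run p k (s + 1) S (2 * j + 1) = EG.run p k (min s (TG p)) S j) := by
    intro p k hk S s
    induction s with
    | zero =>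
        constructor
        · intro j _
          simp [USys.run, USys.step, E, sel]
        · intro j _
          have : (2 * j + 1) / 2 = j := by omega
          simp [USys.run, USys.step, E, sel, this]
    | succ s ih =>
        obtain ⟨ih1, ih2⟩ := ih
        constructor
        · intro j hj
          have e1 : (2 * j) % 2 = 0 := by omega
          have e2 : (2 * j) / 2 = j := by omega
          by_cases ht : s < TF p
          · have m1 : min (s + 1) (TF p) = s + 1 := by omega
            have m2 : min s (TF p) = s := by omega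
            rw [m1]
            rw [m2] at ih1
            have ha := ih1 _ (hEF.closed_a p k s j hk hj)
            have hb := ih1 _ (hEF.closed_b p k s j hk hj)
            have hstep : E.run p k (s + 1 + 1) S (2 * j) =
              E.step p k (s + 1) (E.run p k (s + 1) S) (2 * j) := rfl
            have hstep' : EF.run p k (s + 1) S j = EF.step p k s (EF.run p k s S) j := rfl
            rw [hstep, hstep']
            have hop : E.op (cd p k (s + 1) (2 * j)) = EF.op (cd p k s j) := by
              simp [E, sel, e1, e2, hj, ht]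
            have hA : E.a (cd p k (s + 1) (2 * j)) = 2 * EF.a (cd p k s j) := by
              simp [E, sel, e1, e2, hj, ht]
            have hB : E.b (cd p k (s + 1) (2 * j)) = 2 * EF.b (cd p k s j) := by
              simp [E, sel, e1, e2, hj, ht]
            simp only [USys.step, hop, hA, hB, ha, hb]
          · have m1 : min (s + 1) (TF p) = TF p := by omega
            have m2 : min s (TF p) = TF p := by omega
            rw [m1]
            rw [m2] at ih1
            rw [← ih1 j hj]
            have hstep : E.run p k (s + 1 + 1) S (2 * j) =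
              E.step p k (s + 1) (E.run p k (s + 1) S) (2 * j) := rfl
            rw [hstep]
            have hop : E.op (cd p k (s + 1) (2 * j)) = 3 := by
              simp [E, sel, e1, e2, hj, ht]
            have hA : E.a (cd p k (s + 1) (2 * j)) = 2 * j := by
              simp [E, sel, e1, e2, hj, ht]
            simp [USys.step, hop, hA]
        · intro j hj
          have e1 : (2 * j + 1) % 2 = 1 := by omega
          have e2 : (2 * j + 1) / 2 = j := by omega
          by_cases ht : s < TG p
          · have m1 : min (s + 1) (TG p) = s + 1 := by omega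
            have m2 : min s (TG p) = s := by omega
            rw [m1]
            rw [m2] at ih2
            have ha := ih2 _ (hEG.closed_a p k s j hk hj)
            have hb := ih2 _ (hEG.closed_b p k s j hk hj)
            have hstep : E.run p k (s + 1 + 1) S (2 * j + 1) =
              E.step p k (s + 1) (E.run p k (s + 1) S) (2 * j + 1) := rfl
            have hstep' : EG.run p k (s + 1) S j = EG.step p k s (EG.run p k s S) j := rfl
            rw [hstep, hstep']
            have hop : E.op (cd p k (s + 1) (2 * j + 1)) = EG.op (cd p k s j) := by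
              simp [E, sel, e1, e2, hj, ht]
            have hA : E.a (cd p k (s + 1) (2 * j + 1)) = 2 * EG.a (cd p k s j) + 1 := by
              simp [E, sel, e1, e2, hj, ht]
            have hB : E.b (cd p k (s + 1) (2 * j + 1)) = 2 * EG.b (cd p k s j) + 1 := by
              simp [E, sel, e1, e2, hj, ht]
            simp only [USys.step, hop, hA, hB, ha, hb]
          · have m1 : min (s + 1) (TG p) = TG p := by omega
            have m2 : min s (TG p) = TG p := by omega
            rw [m1]
            rw [m2] at ih2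
            rw [← ih2 j hj]
            have hstep : E.run p k (s + 1 + 1) S (2 * j + 1) =
              E.step p k (s + 1) (E.run p k (s + 1) S) (2 * j + 1) := rfl
            rw [hstep]
            have hop : E.op (cd p k (s + 1) (2 * j + 1)) = 3 := by
              simp [E, sel, e1, e2, hj, ht]
            have hA : E.a (cd p k (s + 1) (2 * j + 1)) = 2 * j + 1 := by
              simp [E, sel, e1, e2, hj, ht]
            simp [USys.step, hop, hA]
  refine ⟨E, fun p => TF p + TG p + 1, W,
    ⟨hsel 1 1 0 (LS.const 3) (LS.const 3) hEF.lsOp hEG.lsOp,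
      hsel 2 2 1 (LS.id.sbI.div (LS.const 2)) LS.id.sbI hEF.lsA hEG.lsA,
      hsel 2 2 1 (LS.id.sbI.div (LS.const 2)) LS.id.sbI hEF.lsB hEG.lsB,
      (hEF.lsT.add hEG.lsT).succ,
      (hEF.polyLog.add hEG.polyLog).add (PolyLog.const 1), hW,
      hcl _ _ hEF.closed_a hEG.closed_a, hcl _ _ hEF.closed_b hEG.closed_b⟩, ?_, ?_⟩
  · intro p
    have := hwF p
    simp only [W]; omega
  · intro p k hk S i hi
    obtain ⟨k1, k2⟩ := key p k hk S (TF p + TG p)
    have m1 : min (TF p + TG p) (TF p) = TF p := by omega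
    have m2 : min (TF p + TG p) (TG p) = TG p := by omega
    rw [m1] at k1
    rw [m2] at k2
    have hwF' := hwF p
    have hwG' := hwG p
    simp only [jn]
    split_ifs with h
    · have e : i = 2 * (i / 2) := by omega
      have := k1 (i / 2) (by omega)
      rw [← e] at this
      rw [this]
      exact hrF p k hk S (i / 2) (by omega)
    · have e : i = 2 * (i / 2) + 1 := by omega
      have := k2 (i / 2) (by omega)
      rw [← e] at this
      rw [this]
      exact hrG p k hk S (i / 2) (by omega)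

end AOp

end Pool.Agent.H79.Upm
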