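import Pool.Agent.H79.Upm.SysBasic

/-!
# Layered systems: iteration
-/

namespace Pool.Agent.H79.Upm

theorem jn_even {R : Type} (S V : ℕ → R) (j : ℕ) : jn S V (2 * j) = S j := by
  simp [jn]

theorem jn_odd {R : Type} (S V : ℕ → R) (j : ℕ) : jn S V (2 * j + 1) = V j := by
  have h : (2 * j + 1) / 2 = j := by omega
  simp [jn, h]

/-- The number of the block of the layer (for blocks of `T p` layers). -/
def blkOf (T : ℕ → ℕ) (z : ℕ) : ℕ := z.unpair.2.unpair.1 / T z.unpair.1.unpair.1

/-- The code of the gate of the inner system. -/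
def codeOf (T : ℕ → ℕ) (z : ℕ) : ℕ :=
  cd z.unpair.1.unpair.1 (blkOf T z) (z.unpair.2.unpair.1 % T z.unpair.1.unpair.1)
    z.unpair.2.unpair.2

theorem blkOf_cd (T : ℕ → ℕ) (p k t i : ℕ) : blkOf T (cd p k t i) = t / T p := by
  simp [blkOf, cd, Nat.unpair_pair]

theorem codeOf_cd (T : ℕ → ℕ) (p k t i : ℕ) :
    codeOf T (cd p k t i) = cd p (t / T p) (t % T p) i := by
  simp [codeOf, blkOf, cd, Nat.unpair_pair]

theorem LS.blkOf {T : ℕ → ℕ} (hT : LS T) : LS (blkOf T) := by
  have h1 : LS (fun z => z.unpair.2.unpair.1) := LS.fst (LS.snd LS.id)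
  have h2 : LS (fun z => z.unpair.1.unpair.1) := LS.fst (LS.fst LS.id)
  exact LS.div h1 (hT.comp h2)

theorem LS.codeOf {T : ℕ → ℕ} (hT : LS T) : LS (codeOf T) := by
  have h1 : LS (fun z => z.unpair.2.unpair.1) := LS.fst (LS.snd LS.id)
  have h2 : LS (fun z => z.unpair.1.unpair.1) := LS.fst (LS.fst LS.id)
  have h3 : LS (fun z => z.unpair.2.unpair.2) := LS.snd (LS.snd LS.id)
  exact LS.pair (LS.pair h2 (LS.blkOf hT)) (LS.pair (LS.mod h1 (hT.comp h2)) h3)

/-- The blockwise system. -/
def USys.blocks (E : USys) (T K' : ℕ → ℕ) : USys where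
  op z := E.op (codeOf T z)
  a z := if blkOf T z < K' z.unpair.1.unpair.1 then E.a (codeOf T z) else 0
  b z := if blkOf T z < K' z.unpair.1.unpair.1 then E.b (codeOf T z) else 0

theorem USys.blocks_step {R : Type} [CommRing R] (E : USys) (T K' : ℕ → ℕ) (p k t : ℕ)
    (ht : t < K' p * T p) (S : ℕ → R) :
    (E.blocks T K').step p k t S = E.step p (t / T p) (t % T p) S := by
  have hb : t / T p < K' p := Nat.div_lt_of_lt_mul (by rwa [mul_comm])
  funext i
  have h1 : (E.blocks T K').op (cd p k t i) = E.op (cd p (t / T p) (t % T p) i) := by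
    simp only [USys.blocks, codeOf_cd]
  have h2 : (E.blocks T K').a (cd p k t i) = E.a (cd p (t / T p) (t % T p) i) := by
    simp only [USys.blocks, codeOf_cd, blkOf_cd]
    rw [if_pos]
    simpa [cd, Nat.unpair_pair] using hb
  have h3 : (E.blocks T K').b (cd p k t i) = E.b (cd p (t / T p) (t % T p) i) := by
    simp only [USys.blocks, codeOf_cd, blkOf_cd]
    rw [if_pos]
    simpa [cd, Nat.unpair_pair] using hb
  simp only [USys.step, h1, h2, h3]

theorem USys.blocks_run {R : Type} [CommRing R] (E : USys) (T K' : ℕ → ℕ) (p k b : ℕ)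
    (hb : b < K' p) (S : ℕ → R) (s : ℕ) (hs : s ≤ T p) :
    (E.blocks T K').run p k (b * T p + s) S =
      E.run p b s ((E.blocks T K').run p k (b * T p) S) := by
  induction s with
  | zero => rfl
  | succ s ih =>
    have hs' : s < T p := hs
    have hlt : b * T p + s < K' p * T p := by
      have : (b + 1) * T p ≤ K' p * T p := Nat.mul_le_mul_right _ hb
      calc b * T p + s < b * T p + T p := by omega
        _ = (b + 1) * T p := by ring
        _ ≤ K' p * T p := this
    have hT : 0 < T p := by omega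
    have hdiv : (b * T p + s) / T p = b := by
      rw [mul_comm, Nat.mul_add_div hT, Nat.div_eq_of_lt hs', add_zero]
    have hmod : (b * T p + s) % T p = s := by
      rw [mul_comm, Nat.mul_add_mod, Nat.mod_eq_of_lt hs']
    have h1 : (E.blocks T K').run p k (b * T p + (s + 1)) S =
        (E.blocks T K').step p k (b * T p + s) ((E.blocks T K').run p k (b * T p + s) S) := rfl
    rw [h1, USys.blocks_step E T K' p k _ hlt, hdiv, hmod, ih (by omega)]
    rfl

/-- Iteration of an operator whose dependence is closed on arbitrarily large widths. -/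
theorem AOp.iterPure {R : Type} [CommRing R] {K K' : ℕ → ℕ} (hK' : LS K')
    (hlog : PolyLog K') {H : ℕ → ℕ → (ℕ → R) → ℕ → R} (hH : AOp R K' H)
    (hdep : ∀ w, LS w → ∃ w1, LS w1 ∧ (∀ p, w p ≤ w1 p) ∧
      ∀ p k S S', k < K' p → (∀ j < w1 p, S j = S' j) →
        ∀ i < w1 p, H p k S i = H p k S' i) :
    AOp R K (fun p _ A => iterA (H p) (K' p) A) := by
  intro w hw
  obtain ⟨w1, hw1, hle, hdep1⟩ := hdep w hw
  obtain ⟨E, T, W, hE, hwW, hrun⟩ := hH w1 hw1
  refine ⟨E.blocks T K', fun p => K' p * T p, W, ?_, fun p => (hle p).trans (hwW p), ?_⟩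
  · have hpp : LS (fun z => z.unpair.1.unpair.1) := LS.fst (LS.fst LS.id)
    have hP : LSP (fun z => blkOf T z < K' z.unpair.1.unpair.1) :=
      LSP.lt (LS.blkOf hE.lsT) (hK'.comp hpp)
    refine ⟨hE.lsOp.comp (LS.codeOf hE.lsT), ?_, ?_, LS.mul hK' hE.lsT,
      PolyLog.mul hlog hE.polyLog, hE.lsW, ?_, ?_⟩
    · exact LSP.ite hP (hE.lsA.comp (LS.codeOf hE.lsT)) LS.zero
    · exact LSP.ite hP (hE.lsB.comp (LS.codeOf hE.lsT)) LS.zero
    · intro p k t i _ hi
      simp only [USys.blocks, codeOf_cd, blkOf_cd]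
      split_ifs with h
      · refine hE.closed_a p _ _ i ?_ hi
        simpa [cd, Nat.unpair_pair] using h
      · omega
    · intro p k t i _ hi
      simp only [USys.blocks, codeOf_cd, blkOf_cd]
      split_ifs with h
      · refine hE.closed_b p _ _ i ?_ hi
        simpa [cd, Nat.unpair_pair] using h
      · omega
  · intro p k _ S i hi
    have key : ∀ b, b ≤ K' p → ∀ i < w1 p,
        (E.blocks T K').run p k (b * T p) S i = iterA (H p) b S i := by
      intro b
      induction b with
      | zero =>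
        intro _ i _
        simp [USys.run, iterA]
      | succ b ih =>
        intro hb i hi
        have hb' : b < K' p := hb
        have h1 : (b + 1) * T p = b * T p + T p := by ring
        rw [h1, USys.blocks_run E T K' p k b hb' S (T p) le_rfl, hrun p b hb' _ i hi]
        exact hdep1 p b _ _ hb' (fun j hj => ih (by omega) j hj) i hi
    exact key (K' p) le_rfl i (lt_of_lt_of_le hi (hle p))

/-- Truncation is computed by layered systems. -/
theorem AOp.truncAux {R : Type} [CommRing R] {K Z : ℕ → ℕ} (hK : LS K) (hZ : LS Z) :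
    AOp R K (fun p _ V => tr (Z p) V) := by
  have hi : LS (fun z => z.unpair.2) := LS.snd LS.id
  have hp : LS (fun z => z.unpair.1.unpair.1) := LS.fst (LS.fst LS.id)
  have h1 : AOp R K (fun _ _ (S : ℕ → R) (i : ℕ) => S i) := by
    refine (AOp.reindex (R := R) hK hi).congr ?_
    intro p k S i _
    simp [ci, Nat.unpair_pair]
  have h2 : AOp R K (fun _ _ (_ : ℕ → R) (_ : ℕ) => (0 : R)) := by
    have hF : LSP (fun _ : ℕ => False) := by
      have := LS.zero
      simpa [LSP] using this
    refine (AOp.bit (R := R) hK hF).congr ?_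
    intro p k S i _
    simp
  have hg : LS (fun z => if z.unpair.2 < Z z.unpair.1.unpair.1 then 2 * z.unpair.2 else 1) :=
    LSP.ite (LSP.lt hi (hZ.comp hp)) (LS.mul (LS.const 2) hi) (LS.const 1)
  refine (AOp.comp hK (AOp.join hK h1 h2) (AOp.reindex hK hg)).congr ?_
  intro p k S i _
  simp only [ci, Nat.unpair_pair, tr]
  split_ifs with h
  · exact jn_even _ _ _
  · exact jn_odd _ _ 0

/-- Iteration: the state `V` (an array with entries below `Z p`) is updated `K' p` times, by an
operator that may read the data `S`, the state `V` and the step number `k'`. -/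
theorem AOp.iter {R : Type} [CommRing R] {K K' Z : ℕ → ℕ} (hK : LS K) (hK' : LS K')
    (hlog : PolyLog K') (hZ : LS Z) {G G0 : ℕ → ℕ → (ℕ → R) → ℕ → R}
    (hG : AOp R K' G) (h0 : AOp R K G0) :
    AOp R K (fun p k S => iterA (fun k' V => tr (Z p) (G p k' (jn S V))) (K' p)
      (tr (Z p) (G0 p k S))) := by
  have hi : LS (fun z => z.unpair.2) := LS.snd LS.id
  -- the operator on the joint array
  set H : ℕ → ℕ → (ℕ → R) → ℕ → R := fun p k' A =>
    jn (fun j => A (2 * j)) (tr (Z p) (G p k' A)) with hHdef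
  have hH : AOp R K' H := by
    have h1 : AOp R K' (fun _ _ (A : ℕ → R) (j : ℕ) => A (2 * j)) := by
      refine (AOp.reindex (R := R) hK' (LS.mul (LS.const 2) hi)).congr ?_
      intro p k S i _
      simp [ci, Nat.unpair_pair]
    exact AOp.join hK' h1 (AOp.comp hK' hG (AOp.truncAux hK' hZ))
  have hdep : ∀ w, LS w → ∃ w1, LS w1 ∧ (∀ p, w p ≤ w1 p) ∧
      ∀ p k S S', k < K' p → (∀ j < w1 p, S j = S' j) →
        ∀ i < w1 p, H p k S i = H p k S' i := by
    intro w hw
    obtain ⟨WG, hWG, hloc⟩ := AOp.local_dep hG hZ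
    refine ⟨fun p => WG p + w p, LS.add hWG hw, fun p => Nat.le_add_left _ _, ?_⟩
    intro p k S S' hk hS i hi
    simp only [hHdef, jn, tr]
    split_ifs with h2 h3
    · have : 2 * (i / 2) = i := by omega
      rw [this]
      exact hS i hi
    · exact hloc p k S S' hk (fun j hj => hS j (lt_of_lt_of_le hj (Nat.le_add_right _ _))) _ h3
    · rfl
  have hiter : AOp R K (fun p _ A => iterA (H p) (K' p) A) :=
    AOp.iterPure hK' hlog hH hdep
  have hinit : AOp R K (fun p k S => jn S (tr (Z p) (G0 p k S))) := by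
    have h1 : AOp R K (fun _ _ (S : ℕ → R) (i : ℕ) => S i) := by
      refine (AOp.reindex (R := R) hK hi).congr ?_
      intro p k S i _
      simp [ci, Nat.unpair_pair]
    exact AOp.join hK h1 (AOp.comp hK h0 (AOp.truncAux hK hZ))
  have hodd : AOp R K (fun _ _ (A : ℕ → R) (j : ℕ) => A (2 * j + 1)) := by
    refine (AOp.reindex (R := R) hK (LS.succ (LS.mul (LS.const 2) hi))).congr ?_
    intro p k S i _
    simp [ci, Nat.unpair_pair]
  refine (AOp.comp hK (AOp.comp hK hinit hiter) hodd).congr ?_
  intro p k S i _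
  have key : ∀ n (V : ℕ → R), iterA (H p) n (jn S V) =
      jn S (iterA (fun k' V => tr (Z p) (G p k' (jn S V))) n V) := by
    intro n V
    induction n with
    | zero => rfl
    | succ n ih =>
      simp only [iterA]
      rw [ih]
      simp only [hHdef, jn_even]
  simp only [key, jn_odd]

end Pool.Agent.H79.Upm
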