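import Pool.Agent.H79.Upm.SysArith
import Pool.Agent.H79.Upm.SysIter

/-!
# Layered systems: sums and products with polynomially many terms
-/

namespace Pool.Agent.H79.Upm

/-- Block products: two blocks of length `2 ^ t` give one of length `2 ^ (t + 1)`. -/
theorem sysBlockProd_succ {M : Type*} [CommMonoid M] (g : ℕ → M) (B t j : ℕ) :
    ∏ m ∈ (Finset.range B).filter (fun m => m / 2 ^ (t + 1) = j), g m =
      (if 2 * j < B then ∏ m ∈ (Finset.range B).filter (fun m => m / 2 ^ t = 2 * j), g m
        else 1) *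
      (if 2 * j + 1 < B then ∏ m ∈ (Finset.range B).filter (fun m => m / 2 ^ t = 2 * j + 1), g m
        else 1) := by
  have hempty : ∀ l, ¬ l < B → (Finset.range B).filter (fun m => m / 2 ^ t = l) = ∅ := by
    intro l hl
    rw [Finset.filter_eq_empty_iff]
    intro m hm h
    have h1 : m / 2 ^ t ≤ m := Nat.div_le_self _ _
    have h2 := Finset.mem_range.1 hm
    omega
  have hite : ∀ l, (if l < B then ∏ m ∈ (Finset.range B).filter (fun m => m / 2 ^ t = l), g m
      else 1) = ∏ m ∈ (Finset.range B).filter (fun m => m / 2 ^ t = l), g m := by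
    intro l
    split_ifs with h
    · rfl
    · rw [hempty l h, Finset.prod_empty]
  rw [hite, hite, ← Finset.prod_union]
  · congr 1
    ext m
    simp only [Finset.mem_filter, Finset.mem_union, Finset.mem_range]
    have h : m / 2 ^ (t + 1) = (m / 2 ^ t) / 2 := by
      rw [Nat.div_div_eq_div_mul, pow_succ]
    rw [h]
    generalize m / 2 ^ t = x
    omega
  · rw [Finset.disjoint_left]
    intro m h1 h2
    simp only [Finset.mem_filter] at h1 h2
    omega

/-- A block of length one. -/
theorem sysBlockProd_zero {M : Type*} [CommMonoid M] (g : ℕ → M) {B j : ℕ} (hj : j < B) :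
    ∏ m ∈ (Finset.range B).filter (fun m => m / 2 ^ 0 = j), g m = g j := by
  have : (Finset.range B).filter (fun m => m / 2 ^ 0 = j) = {j} := by
    ext m
    simp only [pow_zero, Nat.div_one, Finset.mem_filter, Finset.mem_range, Finset.mem_singleton]
    omega
  rw [this, Finset.prod_singleton]

/-- The last block is everything. -/
theorem sysBlockProd_last {M : Type*} [CommMonoid M] (g : ℕ → M) (B : ℕ) :
    ∏ m ∈ (Finset.range B).filter (fun m => m / 2 ^ (Nat.log 2 B + 1) = 0), g m =
      ∏ m ∈ Finset.range B, g m := by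
  congr 1
  rw [Finset.filter_eq_self]
  intro m hm
  refine Nat.div_eq_of_lt ?_
  exact (Finset.mem_range.1 hm).trans (Nat.lt_pow_succ_log_self (by norm_num) B)

/-- Block sums: two blocks of length `2 ^ t` give one of length `2 ^ (t + 1)`. -/
theorem sysBlockSum_succ {M : Type*} [AddCommMonoid M] (g : ℕ → M) (B t j : ℕ) :
    ∑ m ∈ (Finset.range B).filter (fun m => m / 2 ^ (t + 1) = j), g m =
      (if 2 * j < B then ∑ m ∈ (Finset.range B).filter (fun m => m / 2 ^ t = 2 * j), g m
        else 0) +
      (if 2 * j + 1 < B then ∑ m ∈ (Finset.range B).filter (fun m => m / 2 ^ t = 2 * j + 1), g m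
        else 0) := by
  have hempty : ∀ l, ¬ l < B → (Finset.range B).filter (fun m => m / 2 ^ t = l) = ∅ := by
    intro l hl
    rw [Finset.filter_eq_empty_iff]
    intro m hm h
    have h1 : m / 2 ^ t ≤ m := Nat.div_le_self _ _
    have h2 := Finset.mem_range.1 hm
    omega
  have hite : ∀ l, (if l < B then ∑ m ∈ (Finset.range B).filter (fun m => m / 2 ^ t = l), g m
      else 0) = ∑ m ∈ (Finset.range B).filter (fun m => m / 2 ^ t = l), g m := by
    intro l
    split_ifs with h
    · rfl
    · rw [hempty l h, Finset.sum_empty]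
  rw [hite, hite, ← Finset.sum_union]
  · congr 1
    ext m
    simp only [Finset.mem_filter, Finset.mem_union, Finset.mem_range]
    have h : m / 2 ^ (t + 1) = (m / 2 ^ t) / 2 := by
      rw [Nat.div_div_eq_div_mul, pow_succ]
    rw [h]
    generalize m / 2 ^ t = x
    omega
  · rw [Finset.disjoint_left]
    intro m h1 h2
    simp only [Finset.mem_filter] at h1 h2
    omega

/-- A block of length one. -/
theorem sysBlockSum_zero {M : Type*} [AddCommMonoid M] (g : ℕ → M) {B j : ℕ} (hj : j < B) :
    ∑ m ∈ (Finset.range B).filter (fun m => m / 2 ^ 0 = j), g m = g j := by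
  have : (Finset.range B).filter (fun m => m / 2 ^ 0 = j) = {j} := by
    ext m
    simp only [pow_zero, Nat.div_one, Finset.mem_filter, Finset.mem_range, Finset.mem_singleton]
    omega
  rw [this, Finset.sum_singleton]

/-- The last block is everything. -/
theorem sysBlockSum_last {M : Type*} [AddCommMonoid M] (g : ℕ → M) (B : ℕ) :
    ∑ m ∈ (Finset.range B).filter (fun m => m / 2 ^ (Nat.log 2 B + 1) = 0), g m =
      ∑ m ∈ Finset.range B, g m := by
  congr 1
  rw [Finset.filter_eq_self]
  intro m hm
  refine Nat.div_eq_of_lt ?_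
  exact (Finset.mem_range.1 hm).trans (Nat.lt_pow_succ_log_self (by norm_num) B)

private theorem pair_lt_pair {a b c d : ℕ} (h1 : a < c) (h2 : b < d) : Nat.pair a b < Nat.pair c d :=
  (Nat.pair_lt_pair_left b h1).trans (Nat.pair_lt_pair_right c h2)

namespace AOp

variable {R : Type} [CommRing R] {K : ℕ → ℕ} {G : ℕ → ℕ → (ℕ → R) → ℕ → R}

private theorem zeroOp (hK : LS K) : AOp R K (fun _ _ _ _ => 0) := by
  have h : LSP (fun _ : ℕ => False) := by
    have : LS (fun _ => 0) := LS.zero
    simpa [LSP] using this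
  exact (AOp.bit hK h).congr (fun p k S i _ => by simp)

private theorem oneOp (hK : LS K) : AOp R K (fun _ _ _ _ => 1) := by
  have h : LSP (fun _ : ℕ => True) := by
    have : LS (fun _ => 1) := LS.const 1
    simpa [LSP] using this
  exact (AOp.bit hK h).congr (fun p k S i _ => by simp)

/-- The half step: read the state at `(i, 2 j + e)` if `2 j + e < B`, otherwise `c`. -/
private theorem half (hK : LS K) {B : ℕ → ℕ} (hB : LS B) (e : ℕ) {c : R}
    (hc : AOp R K (fun _ _ _ _ => c)) :
    AOp R K (fun p _ X z => if 2 * z.unpair.2 + e < B p then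
      X (2 * Nat.pair z.unpair.1 (2 * z.unpair.2 + e) + 1) else c) := by
  have h2 : LS (fun z : ℕ => 2 * z.unpair.2.unpair.2 + e) :=
    ((LS.const 2).mul (LS.snd (LS.snd LS.id))).add (LS.const e)
  have hg : LS (fun z : ℕ => 2 * Nat.pair z.unpair.2.unpair.1 (2 * z.unpair.2.unpair.2 + e) + 1) :=
    ((LS.const 2).mul (LS.pair (LS.fst (LS.snd LS.id)) h2)).succ
  have hP : LSP (fun z : ℕ => 2 * z.unpair.2.unpair.2 + e < B z.unpair.1.unpair.1) :=
    LSP.lt h2 (LS.comp hB (LS.fst (LS.fst LS.id)))
  refine (AOp.ite hK hP (AOp.reindex hK hg) hc).congr (fun p k S i _ => ?_)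
  simp [Upm.ci]

theorem sum (hK : LS K) {B : ℕ → ℕ} (hB : LS B) (hG : AOp R K G) :
    AOp R K (fun p k S i => ∑ j ∈ Finset.range (B p), G p k S (Nat.pair i j)) := by
  refine AOp.of_forall fun w hw => ?_
  let K' : ℕ → ℕ := fun p => Nat.log 2 (B p) + 1
  have hK' : LS K' := (LS.log hB).succ
  have hlog : PolyLog K' := (PolyLog.log hB.polyBd).add (PolyLog.const 1)
  let Z : ℕ → ℕ := fun p => Nat.pair (w p) (B p)
  have hZ : LS Z := LS.pair hw hB
  have hstep := (half (R := R) hK' hB 0 (AOp.zeroOp hK')).add hK' (half hK' hB 1 (AOp.zeroOp hK'))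
  have hit := AOp.iter hK hK' hlog hZ hstep hG
  have hg0 : LS (fun z : ℕ => Nat.pair z.unpair.2 0) := LS.pair (LS.snd LS.id) LS.zero
  have hre := AOp.reindexOf hK hit hg0
  have hP : LSP (fun z : ℕ => 0 < B z.unpair.1.unpair.1) :=
    LSP.lt LS.zero (LS.comp hB (LS.fst (LS.fst LS.id)))
  refine ⟨_, AOp.ite hK hP hre (AOp.zeroOp hK), fun p k S i hk hi => ?_⟩
  have key : ∀ t, ∀ j < B p,
      iterA (fun k' V => tr (Z p) ((fun p _ X z =>
          (if 2 * z.unpair.2 + 0 < B p then
            X (2 * Nat.pair z.unpair.1 (2 * z.unpair.2 + 0) + 1) else (0 : R)) +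
          (if 2 * z.unpair.2 + 1 < B p then
            X (2 * Nat.pair z.unpair.1 (2 * z.unpair.2 + 1) + 1) else (0 : R)) :
            ℕ → ℕ → (ℕ → R) → ℕ → R) p k' (jn S V)))
        t (tr (Z p) (G p k S)) (Nat.pair i j) =
      ∑ m ∈ (Finset.range (B p)).filter (fun m => m / 2 ^ t = j), G p k S (Nat.pair i m) := by
    intro t
    induction t with
    | zero =>
        intro j hj
        rw [sysBlockSum_zero (fun m => G p k S (Nat.pair i m)) hj]
        simp [iterA, tr, Z, pair_lt_pair hi hj]
    | succ t ih =>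
        intro j hj
        rw [sysBlockSum_succ (fun m => G p k S (Nat.pair i m))]
        have e0 : (if 2 * j < B p then ∑ m ∈ (Finset.range (B p)).filter
              (fun m => m / 2 ^ t = 2 * j), G p k S (Nat.pair i m) else 0) =
            if 2 * j < B p then (iterA (fun k' V => tr (Z p) ((fun p _ X z =>
              (if 2 * z.unpair.2 + 0 < B p then
                X (2 * Nat.pair z.unpair.1 (2 * z.unpair.2 + 0) + 1) else (0 : R)) +
              (if 2 * z.unpair.2 + 1 < B p then
                X (2 * Nat.pair z.unpair.1 (2 * z.unpair.2 + 1) + 1) else (0 : R)) :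
                ℕ → ℕ → (ℕ → R) → ℕ → R) p k' (jn S V)))
              t (tr (Z p) (G p k S)) (Nat.pair i (2 * j))) else 0 := by
          split_ifs with h
          · rw [ih _ h]
          · rfl
        have e1 : (if 2 * j + 1 < B p then ∑ m ∈ (Finset.range (B p)).filter
              (fun m => m / 2 ^ t = 2 * j + 1), G p k S (Nat.pair i m) else 0) =
            if 2 * j + 1 < B p then (iterA (fun k' V => tr (Z p) ((fun p _ X z =>
              (if 2 * z.unpair.2 + 0 < B p then
                X (2 * Nat.pair z.unpair.1 (2 * z.unpair.2 + 0) + 1) else (0 : R)) +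
              (if 2 * z.unpair.2 + 1 < B p then
                X (2 * Nat.pair z.unpair.1 (2 * z.unpair.2 + 1) + 1) else (0 : R)) :
                ℕ → ℕ → (ℕ → R) → ℕ → R) p k' (jn S V)))
              t (tr (Z p) (G p k S)) (Nat.pair i (2 * j + 1))) else 0 := by
          split_ifs with h
          · rw [ih _ h]
          · rfl
        rw [e0, e1]
        have hz : Nat.pair i j < Z p := pair_lt_pair hi hj
        rw [iterA]
        simp only [tr, hz, if_true, Nat.unpair_pair, jn_odd, Nat.add_zero]
  by_cases hB0 : 0 < B p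
  · have h1 := key (K' p) 0 hB0
    rw [sysBlockSum_last (fun m => G p k S (Nat.pair i m)) (B p)] at h1
    simp only [Upm.ci, Nat.unpair_pair, hB0, if_true]
    exact h1
  · have : B p = 0 := by omega
    simp [Upm.ci, this]

theorem prod (hK : LS K) {B : ℕ → ℕ} (hB : LS B) (hG : AOp R K G) :
    AOp R K (fun p k S i => ∏ j ∈ Finset.range (B p), G p k S (Nat.pair i j)) := by
  refine AOp.of_forall fun w hw => ?_
  let K' : ℕ → ℕ := fun p => Nat.log 2 (B p) + 1
  have hK' : LS K' := (LS.log hB).succ
  have hlog : PolyLog K' := (PolyLog.log hB.polyBd).add (PolyLog.const 1)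
  let Z : ℕ → ℕ := fun p => Nat.pair (w p) (B p)
  have hZ : LS Z := LS.pair hw hB
  have hstep := (half (R := R) hK' hB 0 (AOp.oneOp hK')).mul hK' (half hK' hB 1 (AOp.oneOp hK'))
  have hit := AOp.iter hK hK' hlog hZ hstep hG
  have hg0 : LS (fun z : ℕ => Nat.pair z.unpair.2 0) := LS.pair (LS.snd LS.id) LS.zero
  have hre := AOp.reindexOf hK hit hg0
  have hP : LSP (fun z : ℕ => 0 < B z.unpair.1.unpair.1) :=
    LSP.lt LS.zero (LS.comp hB (LS.fst (LS.fst LS.id)))
  refine ⟨_, AOp.ite hK hP hre (AOp.oneOp hK), fun p k S i hk hi => ?_⟩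
  have key : ∀ t, ∀ j < B p,
      iterA (fun k' V => tr (Z p) ((fun p _ X z =>
          (if 2 * z.unpair.2 + 0 < B p then
            X (2 * Nat.pair z.unpair.1 (2 * z.unpair.2 + 0) + 1) else (1 : R)) *
          (if 2 * z.unpair.2 + 1 < B p then
            X (2 * Nat.pair z.unpair.1 (2 * z.unpair.2 + 1) + 1) else (1 : R)) :
            ℕ → ℕ → (ℕ → R) → ℕ → R) p k' (jn S V)))
        t (tr (Z p) (G p k S)) (Nat.pair i j) =
      ∏ m ∈ (Finset.range (B p)).filter (fun m => m / 2 ^ t = j), G p k S (Nat.pair i m) := by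
    intro t
    induction t with
    | zero =>
        intro j hj
        rw [sysBlockProd_zero (fun m => G p k S (Nat.pair i m)) hj]
        simp [iterA, tr, Z, pair_lt_pair hi hj]
    | succ t ih =>
        intro j hj
        rw [sysBlockProd_succ (fun m => G p k S (Nat.pair i m))]
        have e0 : (if 2 * j < B p then ∏ m ∈ (Finset.range (B p)).filter
              (fun m => m / 2 ^ t = 2 * j), G p k S (Nat.pair i m) else 1) =
            if 2 * j < B p then (iterA (fun k' V => tr (Z p) ((fun p _ X z =>
              (if 2 * z.unpair.2 + 0 < B p then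
                X (2 * Nat.pair z.unpair.1 (2 * z.unpair.2 + 0) + 1) else (1 : R)) *
              (if 2 * z.unpair.2 + 1 < B p then
                X (2 * Nat.pair z.unpair.1 (2 * z.unpair.2 + 1) + 1) else (1 : R)) :
                ℕ → ℕ → (ℕ → R) → ℕ → R) p k' (jn S V)))
              t (tr (Z p) (G p k S)) (Nat.pair i (2 * j))) else 1 := by
          split_ifs with h
          · rw [ih _ h]
          · rfl
        have e1 : (if 2 * j + 1 < B p then ∏ m ∈ (Finset.range (B p)).filter
              (fun m => m / 2 ^ t = 2 * j + 1), G p k S (Nat.pair i m) else 1) =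
            if 2 * j + 1 < B p then (iterA (fun k' V => tr (Z p) ((fun p _ X z =>
              (if 2 * z.unpair.2 + 0 < B p then
                X (2 * Nat.pair z.unpair.1 (2 * z.unpair.2 + 0) + 1) else (1 : R)) *
              (if 2 * z.unpair.2 + 1 < B p then
                X (2 * Nat.pair z.unpair.1 (2 * z.unpair.2 + 1) + 1) else (1 : R)) :
                ℕ → ℕ → (ℕ → R) → ℕ → R) p k' (jn S V)))
              t (tr (Z p) (G p k S)) (Nat.pair i (2 * j + 1))) else 1 := by
          split_ifs with h
          · rw [ih _ h]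
          · rfl
        rw [e0, e1]
        have hz : Nat.pair i j < Z p := pair_lt_pair hi hj
        rw [iterA]
        simp only [tr, hz, if_true, Nat.unpair_pair, jn_odd, Nat.add_zero]
  by_cases hB0 : 0 < B p
  · have h1 := key (K' p) 0 hB0
    rw [sysBlockProd_last (fun m => G p k S (Nat.pair i m)) (B p)] at h1
    simp only [Upm.ci, Nat.unpair_pair, hB0, if_true]
    exact h1
  · have : B p = 0 := by omega
    simp [Upm.ci, this]

end AOp

end Pool.Agent.H79.Upm
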